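import Pool.Agent.CGD.Flow

set_option autoImplicit false

/-! Module Act: the action argument: the half period `M(ξ) = ∫₀^T μ(X) dt` and `Ω(ξ) = ∫₀^T h(X) μ(X) dt` cannot both be
constant on a band.

Suppose they are: `M(ξ) = M0`, `Ω(ξ) = Ω0` on `[a, b]`.  `M0 > 0`.  Put `e(ξ) = h(ξ)`, the energy of the orbit of `(ξ, 0)`, and
`S(ξ) = ∫₀^T μ(X) U² dt`; by `energy`, `U² = e - h(X)`, so `S = e M0 - Ω0`.
On `[0, T]`, `U ≤ 0`, so `U = -√(e - h(X))`; substitution (`intervalIntegral.integral_comp_mul_deriv'`, `X' = U`) gives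
`S(ξ) = ∫_{λ(ξ)}^{ξ} μ(x) √(e - h(x)) dx`, `λ(ξ) = X(T ξ)`.
Fix `ξ2 = b` and let `ξ1 < ξ2`, `ξ1 → ξ2`; `e_i = h(ξ_i)`, `λ_i = λ(ξ_i)`, `δ = e2 - e1 > 0` (`h` is strictly increasing on `[a, b]` by `right`).
`h(λ_i) = e_i` and `h` is strictly decreasing on `[l0, l1]`, so `λ2 < λ1`, and `λ1 ≤ ξ1` (`X` is antitone on `[0, T]`).
Split `S(ξ2) = ∫_{λ2}^{λ1} + ∫_{λ1}^{ξ1} + ∫_{ξ1}^{ξ2}` of `μ √(e2 - h)`.
Middle: pull back to the orbit of `ξ1`: `= ∫₀^{T1} μ(X1) √(U1² + δ) |U1| dt ≤ ∫₀^{T1} μ(X1) (U1² + δ/2) dt = S(ξ1) + (δ/2) M0`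
(`√(U²+δ) |U| ≤ U² + δ/2`).
Left: on `[λ2, λ1]`, `h ≥ e1`, so the integrand is `≤ μmax √δ`, and `λ1 - λ2 ≤ δ/η` (mean value theorem with `left`).
Right: on `[ξ1, ξ2]`, `h ≥ e1`, same bound with `right`.
So `δ M0 = S(ξ2) - S(ξ1) ≤ (δ/2) M0 + 2 μmax δ √δ / η`, i.e. `M0 ≤ 4 μmax √δ / η` for all small `δ`: contradiction with `M0 > 0`. -/

namespace Pool.Agent.CGD

open Set Filter Topology

private theorem Act_cont {d : ℝ → ℝ} (hd : Nice d) (z : ℝ × ℝ) : Continuous (fl d z) :=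
  continuous_iff_continuousAt.2 fun t => (fl_sol hd z t).continuousAt

private theorem Act_sub {d g : ℝ → ℝ} (hd : Nice d) (hg : Continuous g) (ξ τ : ℝ) :
    ∫ t in (0:ℝ)..τ, g ((fl d (ξ, 0) t).1) * (fl d (ξ, 0) t).2 =
      ∫ x in ξ..(fl d (ξ, 0) τ).1, g x := by
  have h0 : fl d (ξ, 0) 0 = (ξ, 0) := fl_zero hd _
  have e1 := intervalIntegral.integral_comp_mul_deriv (a := 0) (b := τ)
    (f := fun s => (fl d (ξ, 0) s).1) (f' := fun s => (fl d (ξ, 0) s).2)
    (fun x _ => hasDerivAt_X hd _ x) (continuous_snd.comp (Act_cont hd _)).continuousOn hg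
  simp only [h0] at e1
  rw [← e1]
  rfl

private theorem Act_mvt {d h : ℝ → ℝ} (hh : ∀ x, HasDerivAt h (d x) x) {a b η : ℝ}
    (hb : ∀ x ∈ Icc a b, η ≤ d x) {x y : ℝ} (hx : x ∈ Icc a b) (hy : y ∈ Icc a b) (hxy : x ≤ y) :
    η * (y - x) ≤ h y - h x := by
  have := (convex_Icc a b).mul_sub_le_image_sub_of_le_deriv (f := h) (C := η)
    (fun z _ => (hh z).continuousAt.continuousWithinAt)
    (fun z _ => (hh z).differentiableAt.differentiableWithinAt)
    (fun z hz => by rw [(hh z).deriv]; exact hb z (interior_subset hz)) x hx y hy hxy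
  exact this

theorem act {d h μ : ℝ → ℝ} (hd : Nice d) (hh : ∀ x, HasDerivAt h (d x) x)
    (hμ : Continuous μ) (hμ0 : ∀ x, 0 < μ x) {V : Set (ℝ × ℝ)} {s a b l0 l1 η : ℝ} {T : ℝ → ℝ}
    (hB : Band d V s a b l0 l1 η T) {M0 Ω0 : ℝ}
    (hM : ∀ ξ ∈ Icc a b, Yw d μ (ξ, 0) (T ξ) = M0)
    (hΩ : ∀ ξ ∈ Icc a b, Yw d (fun x => h x * μ x) (ξ, 0) (T ξ) = Ω0) : False := by
  have hhc : Continuous h := continuous_iff_continuousAt.2 fun x => (hh x).continuousAt
  have hab := hB.hab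
  have hbb : b ∈ Icc a b := ⟨hab.le, le_rfl⟩
  have hη := hB.hη
  have hXc : ∀ ξ, Continuous fun t => (fl d (ξ, 0) t).1 := fun ξ =>
    continuous_fst.comp (Act_cont hd _)
  have hUc : ∀ ξ, Continuous fun t => (fl d (ξ, 0) t).2 := fun ξ =>
    continuous_snd.comp (Act_cont hd _)
  have hE : ∀ ξ t, (fl d (ξ, 0) t).2 ^ 2 = h ξ - h (fl d (ξ, 0) t).1 := by
    intro ξ t
    have := energy hd hh (ξ, 0) t
    simp only at this
    linarith
  have hU0 : ∀ ξ ∈ Icc a b, ∀ t ∈ Icc 0 (T ξ), (fl d (ξ, 0) t).2 ≤ 0 := by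
    intro ξ hξ t ht
    rcases ht.1.eq_or_lt with h1 | h1
    · rw [← h1, fl_zero hd]
    · rcases ht.2.eq_or_lt with h2 | h2
      · rw [h2, hB.zero ξ hξ]
      · exact (hB.neg ξ hξ t ⟨h1, h2⟩).le
  -- `M0 > 0`
  have hM0 : 0 < M0 := by
    rw [← hM b hbb]
    exact intervalIntegral.intervalIntegral_pos_of_pos
      ((hμ.comp (hXc b)).intervalIntegrable _ _) (fun t => hμ0 _) (hB.Tpos b hbb)
  -- the action
  have hS : ∀ ξ ∈ Icc a b, ∫ t in (0:ℝ)..(T ξ), μ ((fl d (ξ, 0) t).1) * (fl d (ξ, 0) t).2 ^ 2 =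
      h ξ * M0 - Ω0 := by
    intro ξ hξ
    rw [← hM ξ hξ, ← hΩ ξ hξ]
    unfold Yw
    rw [← intervalIntegral.integral_const_mul, ← intervalIntegral.integral_sub]
    · refine intervalIntegral.integral_congr fun t _ => ?_
      simp only
      rw [hE]
      ring
    · exact ((hμ.comp (hXc ξ)).intervalIntegrable _ _).const_mul _
    · exact ((hhc.comp (hXc ξ)).mul (hμ.comp (hXc ξ))).intervalIntegrable _ _
  -- bound of `μ`
  obtain ⟨C, hC⟩ := (isCompact_Icc (a := min l0 a) (b := max l1 b)).exists_bound_of_continuousOn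
    hμ.continuousOn
  have hC' : ∀ x ∈ Icc (min l0 a) (max l1 b), μ x ≤ C := fun x hx =>
    (le_abs_self _).trans (hC x hx)
  have hCpos : 0 < C := by
    refine (hμ0 b).trans_le (hC' b ⟨(min_le_right _ _).trans hab.le, le_max_right _ _⟩)
  -- the key inequality
  have key : ∀ ξ ∈ Ico a b, M0 ≤ 4 * C * √(h b - h ξ) / η := by
    intro ξ hξ
    have hξ' : ξ ∈ Icc a b := ⟨hξ.1, hξ.2.le⟩
    set δ := h b - h ξ with hδ
    have hδ1 : η * (b - ξ) ≤ δ := Act_mvt hh hB.right hξ' hbb hξ.2.le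
    have hδ0 : 0 < δ := lt_of_lt_of_le (mul_pos hη (by linarith [hξ.2])) hδ1
    set lb := (fl d (b, 0) (T b)).1 with hlb
    set l := (fl d (ξ, 0) (T ξ)).1 with hl
    have hlbm : lb ∈ Icc l0 l1 := hB.lam b hbb
    have hlm : l ∈ Icc l0 l1 := hB.lam ξ hξ'
    have hhlb : h lb = h b := by
      have := hE b (T b)
      rw [hB.zero b hbb] at this
      linarith
    have hhl : h l = h ξ := by
      have := hE ξ (T ξ)
      rw [hB.zero ξ hξ'] at this
      linarith
    have hneg : ∀ x ∈ Icc l0 l1, η ≤ (fun x => -d x) x := fun x hx => by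
      have := hB.left x hx
      simp only
      linarith
    have hmv : ∀ {x y : ℝ}, x ∈ Icc l0 l1 → y ∈ Icc l0 l1 → x ≤ y →
        η * (y - x) ≤ h x - h y := by
      intro x y hx hy hxy
      have := Act_mvt (h := fun x => -h x) (fun x => (hh x).neg) hneg hx hy hxy
      linarith
    have hlle : lb ≤ l := by
      by_contra hcon
      push Not at hcon
      have := hmv hlm hlbm hcon.le
      rw [hhlb, hhl] at this
      have h2 : 0 < η * (lb - l) := mul_pos hη (by linarith)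
      linarith
    have hl1 : η * (l - lb) ≤ δ := by
      have := hmv hlbm hlm hlle
      rw [hhlb, hhl] at this
      exact this
    -- the integrand
    set g : ℝ → ℝ := fun x => μ x * √(h b - h x) with hg
    have hgc : Continuous g := hμ.mul (Real.continuous_sqrt.comp (continuous_const.sub hhc))
    have hgi : ∀ x y, IntervalIntegrable g MeasureTheory.volume x y := fun x y =>
      hgc.intervalIntegrable x y
    have hsub : ∫ x in lb..b, g x = (∫ x in lb..l, g x) + (∫ x in l..ξ, g x) + ∫ x in ξ..b, g x := by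
      rw [intervalIntegral.integral_add_adjacent_intervals (hgi _ _) (hgi _ _),
        intervalIntegral.integral_add_adjacent_intervals (hgi _ _) (hgi _ _)]
    -- total
    have htot : ∫ x in lb..b, g x = h b * M0 - Ω0 := by
      rw [← hS b hbb, intervalIntegral.integral_symm, ← Act_sub hd hgc b (T b),
        ← intervalIntegral.integral_neg]
      refine intervalIntegral.integral_congr fun t ht => ?_
      rw [uIcc_of_le (hB.Tpos b hbb).le] at ht
      have h1 := hU0 b hbb t ht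
      simp only [hg]
      rw [← hE b t, show (fl d (b, 0) t).2 ^ 2 = (-(fl d (b, 0) t).2) ^ 2 by ring,
        Real.sqrt_sq (by linarith)]
      ring
    -- middle
    have hmid : ∫ x in l..ξ, g x ≤ (h ξ * M0 - Ω0) + δ / 2 * M0 := by
      rw [← hS ξ hξ', intervalIntegral.integral_symm, ← Act_sub hd hgc ξ (T ξ),
        ← intervalIntegral.integral_neg]
      have h2 : δ / 2 * M0 = ∫ t in (0:ℝ)..(T ξ), δ / 2 * μ ((fl d (ξ, 0) t).1) := by
        rw [intervalIntegral.integral_const_mul, ← hM ξ hξ']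
        rfl
      rw [h2, ← intervalIntegral.integral_add]
      · refine intervalIntegral.integral_mono_on (hB.Tpos ξ hξ').le ?_ ?_ ?_
        · exact (((hgc.comp (hXc ξ)).mul (hUc ξ)).neg).intervalIntegrable _ _
        · exact (((hμ.comp (hXc ξ)).mul ((hUc ξ).pow 2)).add
            (continuous_const.mul (hμ.comp (hXc ξ)))).intervalIntegrable _ _
        · intro t ht
          have h1 := hU0 ξ hξ' t ht
          simp only [hg]
          have h3 : h b - h (fl d (ξ, 0) t).1 = δ + (fl d (ξ, 0) t).2 ^ 2 := by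
            rw [hE, hδ]; ring
          rw [h3]
          set U := (fl d (ξ, 0) t).2
          have h4 : √(δ + U ^ 2) * (-U) ≤ U ^ 2 + δ / 2 := by
            have h5 := Real.sq_sqrt (show 0 ≤ δ + U ^ 2 by positivity)
            nlinarith [sq_nonneg (√(δ + U ^ 2) + U)]
          have h6 := mul_le_mul_of_nonneg_left h4 (hμ0 (fl d (ξ, 0) t).1).le
          linarith
      · exact ((hμ.comp (hXc ξ)).mul ((hUc ξ).pow 2)).intervalIntegrable _ _
      · exact (continuous_const.mul (hμ.comp (hXc ξ))).intervalIntegrable _ _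
    -- bound of the two ends
    have hend : ∀ x y : ℝ, x ≤ y → η * (y - x) ≤ δ →
        (∀ z ∈ Icc x y, z ∈ Icc (min l0 a) (max l1 b) ∧ h ξ ≤ h z) →
        ∫ z in x..y, g z ≤ C * √δ * (δ / η) := by
      intro x y hxy hle hz
      have h1 : ∫ z in x..y, g z ≤ ∫ z in x..y, C * √δ := by
        refine intervalIntegral.integral_mono_on hxy (hgi _ _) (by simp) fun z hzz => ?_
        obtain ⟨h2, h3⟩ := hz z hzz
        simp only [hg]
        exact mul_le_mul (hC' z h2) (Real.sqrt_le_sqrt (by rw [hδ]; linarith))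
          (Real.sqrt_nonneg _) hCpos.le
      refine h1.trans ?_
      rw [intervalIntegral.integral_const, smul_eq_mul, mul_comm]
      refine mul_le_mul_of_nonneg_left ?_ (by positivity)
      rw [le_div_iff₀ hη]
      linarith
    have hleft : ∫ x in lb..l, g x ≤ C * √δ * (δ / η) := by
      refine hend lb l hlle hl1 fun z hz => ?_
      have hz1 : z ∈ Icc l0 l1 := ⟨hlbm.1.trans hz.1, hz.2.trans hlm.2⟩
      refine ⟨⟨(min_le_left _ _).trans hz1.1, hz1.2.trans (le_max_left _ _)⟩, ?_⟩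
      have := hmv hz1 hlm hz.2
      have h2 : 0 ≤ η * (l - z) := mul_nonneg hη.le (by linarith [hz.2])
      linarith
    have hright : ∫ x in ξ..b, g x ≤ C * √δ * (δ / η) := by
      refine hend ξ b hξ.2.le hδ1 fun z hz => ?_
      have hz1 : z ∈ Icc a b := ⟨hξ.1.trans hz.1, hz.2⟩
      refine ⟨⟨(min_le_right _ _).trans hz1.1, hz1.2.trans (le_max_right _ _)⟩, ?_⟩
      have := Act_mvt hh hB.right hξ' hz1 hz.1
      have h2 : 0 ≤ η * (z - ξ) := mul_nonneg hη.le (by linarith [hz.1])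
      linarith
    have hfin : δ * M0 ≤ δ / 2 * M0 + 2 * (C * √δ * (δ / η)) := by
      have : δ * M0 = h b * M0 - h ξ * M0 := by rw [hδ]; ring
      linarith [htot, hsub, hmid, hleft, hright]
    have h7 : δ * M0 ≤ δ * (4 * C * √δ / η) := by
      have : 2 * (C * √δ * (δ / η)) = δ * (4 * C * √δ / η) / 2 := by ring
      linarith
    exact le_of_mul_le_mul_left h7 hδ0
  -- conclusion
  have hlim : Tendsto (fun ξ => 4 * C * √(h b - h ξ) / η) (𝓝[<] b) (𝓝 0) := by
    have h1 : ContinuousAt (fun ξ => 4 * C * √(h b - h ξ) / η) b := by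
      refine Continuous.continuousAt ?_
      exact (continuous_const.mul (Real.continuous_sqrt.comp
        (continuous_const.sub hhc))).div_const _
    have h2 : Tendsto (fun ξ => 4 * C * √(h b - h ξ) / η) (𝓝[<] b)
        (𝓝 (4 * C * √(h b - h b) / η)) := h1.tendsto.mono_left nhdsWithin_le_nhds
    simpa using h2
  have hev : ∀ᶠ ξ in 𝓝[<] b, ξ ∈ Ico a b := Ico_mem_nhdsLT hab
  have hev2 : ∀ᶠ ξ in 𝓝[<] b, 4 * C * √(h b - h ξ) / η < M0 := hlim.eventually_lt_const hM0
  obtain ⟨ξ, h1, h2⟩ := (hev.and hev2).exists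
  exact absurd (key ξ h1) (not_le.2 h2)

end Pool.Agent.CGD
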