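import Pool.Agent.CGD.Defs

set_option autoImplicit false

/-! Module Cross: zeros of functions which are strictly increasing in the second variable depend
continuously on the first one. -/

namespace Pool.Agent.CGD

open Set Filter Topology

private theorem Cross_cont {S J : Set ℝ} {F : ℝ → ℝ → ℝ} {T : ℝ → ℝ}
    (hF : ∀ t ∈ J, ContinuousOn (fun ξ => F ξ t) S)
    (hmono : ∀ ξ ∈ S, StrictMonoOn (F ξ) J)
    (hT : ∀ ξ ∈ S, F ξ (T ξ) = 0) (hJ : ∀ ξ ∈ S, J ∈ 𝓝 (T ξ)) : ContinuousOn T S := by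
  intro ξ₀ h₀
  have hT₀ : T ξ₀ ∈ J := mem_of_mem_nhds (hJ ξ₀ h₀)
  refine tendsto_order.2 ⟨fun a ha => ?_, fun b hb => ?_⟩
  · have h1 : ∀ᶠ t in 𝓝[<] (T ξ₀), (t ∈ J ∧ a < t) ∧ t ∈ Iio (T ξ₀) :=
      ((Filter.Eventually.and (show ∀ᶠ t in 𝓝 (T ξ₀), t ∈ J from hJ ξ₀ h₀) (lt_mem_nhds ha)).filter_mono nhdsWithin_le_nhds).and self_mem_nhdsWithin
    obtain ⟨t, ⟨htJ, hat⟩, htT⟩ := h1.exists
    have h2 : F ξ₀ t < 0 := by
      rw [← hT ξ₀ h₀]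
      exact hmono ξ₀ h₀ htJ hT₀ htT
    have h3 : ∀ᶠ ξ in 𝓝[S] ξ₀, F ξ t < 0 := (hF t htJ ξ₀ h₀).eventually (gt_mem_nhds h2)
    filter_upwards [h3, self_mem_nhdsWithin] with ξ h4 h5
    rw [← hT ξ h5] at h4
    exact hat.trans ((hmono ξ h5).lt_iff_lt htJ (mem_of_mem_nhds (hJ ξ h5)) |>.mp h4)
  · have h1 : ∀ᶠ t in 𝓝[>] (T ξ₀), (t ∈ J ∧ t < b) ∧ t ∈ Ioi (T ξ₀) :=
      ((Filter.Eventually.and (show ∀ᶠ t in 𝓝 (T ξ₀), t ∈ J from hJ ξ₀ h₀) (gt_mem_nhds hb)).filter_mono nhdsWithin_le_nhds).and self_mem_nhdsWithin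
    obtain ⟨t, ⟨htJ, hat⟩, htT⟩ := h1.exists
    have h2 : 0 < F ξ₀ t := by
      rw [← hT ξ₀ h₀]
      exact hmono ξ₀ h₀ hT₀ htJ htT
    have h3 : ∀ᶠ ξ in 𝓝[S] ξ₀, 0 < F ξ t := (hF t htJ ξ₀ h₀).eventually (lt_mem_nhds h2)
    filter_upwards [h3, self_mem_nhdsWithin] with ξ h4 h5
    rw [← hT ξ h5] at h4
    exact ((hmono ξ h5).lt_iff_lt (mem_of_mem_nhds (hJ ξ h5)) htJ |>.mp h4).trans hat

/-- `F ξ` is strictly increasing on `[α, β]` with `F ξ α < 0 < F ξ β`, `F` jointly continuous: the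
unique zero `T ξ` is a continuous function of `ξ`.  Proof: existence by the intermediate value
theorem; continuity at `ξ₀` within `S`: for small `ε`, `F ξ₀ (T ξ₀ - ε) < 0 < F ξ₀ (T ξ₀ + ε)`, which
persists for `ξ` near `ξ₀`. -/
theorem cross {S : Set ℝ} {F : ℝ → ℝ → ℝ} {α β : ℝ} (hαβ : α < β)
    (hF : ContinuousOn (fun p : ℝ × ℝ => F p.1 p.2) (S ×ˢ Icc α β))
    (hmono : ∀ ξ ∈ S, StrictMonoOn (F ξ) (Icc α β))
    (hα : ∀ ξ ∈ S, F ξ α < 0) (hβ : ∀ ξ ∈ S, 0 < F ξ β) :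
    ∃ T : ℝ → ℝ, ContinuousOn T S ∧ ∀ ξ ∈ S, T ξ ∈ Ioo α β ∧ F ξ (T ξ) = 0 := by
  classical
  have hex : ∀ ξ ∈ S, ∃ t, t ∈ Ioo α β ∧ F ξ t = 0 := by
    intro ξ hξ
    have hc : ContinuousOn (F ξ) (Icc α β) :=
      hF.comp (f := fun t : ℝ => (ξ, t)) (by fun_prop) (fun t ht => ⟨hξ, ht⟩)
    have := intermediate_value_Ioo hαβ.le hc ⟨hα ξ hξ, hβ ξ hξ⟩
    obtain ⟨t, ht, ht0⟩ := this
    exact ⟨t, ht, ht0⟩
  refine ⟨fun ξ => if h : ξ ∈ S then (hex ξ h).choose else 0, ?_, ?_⟩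
  · apply Cross_cont (J := Icc α β) (F := F)
    · intro t ht
      exact hF.comp (f := fun ξ : ℝ => (ξ, t)) (by fun_prop) (fun ξ hξ => ⟨hξ, ht⟩)
    · exact hmono
    · intro ξ hξ
      simp only [hξ, dif_pos]
      exact (hex ξ hξ).choose_spec.2
    · intro ξ hξ
      simp only [hξ, dif_pos]
      have := (hex ξ hξ).choose_spec.1
      exact Icc_mem_nhds this.1 this.2
  · intro ξ hξ
    simp only [hξ, dif_pos]
    exact (hex ξ hξ).choose_spec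

/-- the global version: for each `ξ ∈ S` there is a (not necessarily uniformly bounded) zero.
`F ξ` strictly increasing on `ℝ`, jointly continuous. -/
theorem cross_global {S : Set ℝ} {F : ℝ → ℝ → ℝ}
    (hF : ContinuousOn (fun p : ℝ × ℝ => F p.1 p.2) (S ×ˢ univ))
    (hmono : ∀ ξ ∈ S, StrictMono (F ξ))
    (hα : ∀ ξ ∈ S, ∃ t, F ξ t < 0) (hβ : ∀ ξ ∈ S, ∃ t, 0 < F ξ t) :
    ∃ T : ℝ → ℝ, ContinuousOn T S ∧ ∀ ξ ∈ S, F ξ (T ξ) = 0 := by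
  classical
  have hex : ∀ ξ ∈ S, ∃ t, F ξ t = 0 := by
    intro ξ hξ
    have hc : Continuous (F ξ) := by
      rw [← continuousOn_univ]
      exact hF.comp (f := fun t : ℝ => (ξ, t)) (by fun_prop) (fun t ht => ⟨hξ, ht⟩)
    obtain ⟨a, ha⟩ := hα ξ hξ
    obtain ⟨b, hb⟩ := hβ ξ hξ
    exact mem_range_of_exists_le_of_exists_ge hc ⟨a, ha.le⟩ ⟨b, hb.le⟩
  refine ⟨fun ξ => if h : ξ ∈ S then (hex ξ h).choose else 0, ?_, ?_⟩
  · apply Cross_cont (J := univ) (F := F)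
    · intro t _
      exact hF.comp (f := fun ξ : ℝ => (ξ, t)) (by fun_prop) (fun ξ hξ => ⟨hξ, mem_univ _⟩)
    · exact fun ξ hξ => (hmono ξ hξ).strictMonoOn _
    · intro ξ hξ
      simp only [hξ, dif_pos]
      exact (hex ξ hξ).choose_spec
    · intro ξ hξ
      exact univ_mem
  · intro ξ hξ
    simp only [hξ, dif_pos]
    exact (hex ξ hξ).choose_spec

end Pool.Agent.CGD
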