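import Pool.Agent.CGD.Defs

set_option autoImplicit false

/-! Module Reg: regular energies are dense (one-dimensional Sard,
`MeasureTheory.addHaar_image_eq_zero_of_det_fderiv_eq_zero` for `h : ℝ → ℝ`).  In an open set `V` containing `z0` we can change
`u` a little so that the energy becomes regular and `u ≠ 0`: the energies `u² + h(z0.1)` of the points `(z0.1, u) ∈ V`, `u` near
`z0.2`, `u ≠ 0`, contain an open interval. -/

namespace Pool.Agent.CGD

open Set Filter Topology MeasureTheory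

theorem sard {d h : ℝ → ℝ} (hh : ∀ x, HasDerivAt h (d x) x) :
    volume (h '' {x | d x = 0}) = 0 := by
  refine MeasureTheory.addHaar_image_eq_zero_of_det_fderivWithin_eq_zero volume
    (f' := fun x => ContinuousLinearMap.toSpanSingleton ℝ (d x)) ?_ ?_
  · intro x _
    exact (hh x).hasFDerivAt.hasFDerivWithinAt
  · intro x hx
    have hx0 : d x = 0 := hx
    rw [hx0]
    have : (ContinuousLinearMap.toSpanSingleton ℝ (0 : ℝ) : ℝ →L[ℝ] ℝ) = 0 := by
      ext; simp
    rw [this]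
    simp [ContinuousLinearMap.det]

theorem exists_regular {d h : ℝ → ℝ} (hh : ∀ x, HasDerivAt h (d x) x) {V : Set (ℝ × ℝ)}
    (hV : IsOpen V) {z : ℝ × ℝ} (hz : z ∈ V) {e : ℝ} (he : z.2 ^ 2 + h z.1 < e) :
    ∃ u, (z.1, u) ∈ V ∧ u ≠ 0 ∧ u ^ 2 + h z.1 < e ∧ ∀ x, h x = u ^ 2 + h z.1 → d x ≠ 0 := by
  have h1 : ∀ᶠ u in 𝓝 z.2, (z.1, u) ∈ V := by
    have hc : ContinuousAt (fun u : ℝ => (z.1, u)) z.2 := by fun_prop
    exact hc.preimage_mem_nhds (hV.mem_nhds hz)
  have h2 : ∀ᶠ u in 𝓝 z.2, u ^ 2 + h z.1 < e := by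
    have hc : ContinuousAt (fun u : ℝ => u ^ 2 + h z.1) z.2 := by fun_prop
    exact hc.eventually (gt_mem_nhds he)
  obtain ⟨ε, hε, H⟩ := Metric.eventually_nhds_iff.1 (h1.and h2)
  set a := |z.2| + ε / 3 with ha
  set b := |z.2| + 2 * ε / 3 with hb
  have ha0 : 0 < a := by
    have := abs_nonneg z.2
    rw [ha]; linarith
  have hab : a < b := by rw [ha, hb]; linarith
  have hab2 : a ^ 2 + h z.1 < b ^ 2 + h z.1 := by nlinarith
  obtain ⟨E, hE, hEr⟩ : ∃ E ∈ Ioo (a ^ 2 + h z.1) (b ^ 2 + h z.1), E ∉ h '' {x | d x = 0} := by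
    by_contra hcon
    push Not at hcon
    have hsub : Ioo (a ^ 2 + h z.1) (b ^ 2 + h z.1) ⊆ h '' {x | d x = 0} := fun E hE => hcon E hE
    have h3 := measure_mono (μ := volume) hsub
    rw [sard hh, Real.volume_Ioo] at h3
    have h4 := ENNReal.ofReal_eq_zero.1 (le_antisymm h3 (zero_le))
    linarith
  set r := √(E - h z.1) with hr
  have hr2 : r ^ 2 = E - h z.1 := by
    rw [hr]
    refine Real.sq_sqrt ?_
    have := hE.1
    nlinarith
  have hr0 : 0 ≤ r := Real.sqrt_nonneg _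
  have har : a < r := by
    have := hE.1
    nlinarith
  have hrb : r < b := by
    have := hE.2
    nlinarith
  have key : ∀ u : ℝ, u ^ 2 = r ^ 2 → dist u z.2 < ε → ∃ u, (z.1, u) ∈ V ∧ u ≠ 0 ∧
      u ^ 2 + h z.1 < e ∧ ∀ x, h x = u ^ 2 + h z.1 → d x ≠ 0 := by
    intro u hu hd
    obtain ⟨p1, p2⟩ := H hd
    refine ⟨u, p1, ?_, p2, ?_⟩
    · rintro rfl
      have : 0 < r := ha0.trans har
      nlinarith
    · intro x hx hdx
      refine hEr ⟨x, hdx, ?_⟩
      rw [hx, hu, hr2]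
      ring
  rcases le_or_gt 0 z.2 with hz2 | hz2
  · refine key r rfl ?_
    rw [abs_of_nonneg hz2] at ha hb
    rw [Real.dist_eq, abs_lt]
    constructor <;> linarith
  · refine key (-r) (by ring) ?_
    rw [abs_of_neg hz2] at ha hb
    rw [Real.dist_eq, abs_lt]
    constructor <;> linarith

end Pool.Agent.CGD
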