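import Pool.Agent.CGD.Hit
import Pool.Agent.CGD.Reg
import Pool.Agent.CGD.Cross

set_option autoImplicit false

/-! Module BandEx: existence of a band of oscillating orbits through `V`.

1. `exists_regular` (with `e = min (h xL) (h xR)`): WLOG `z = (z.1, u)` has `u ≠ 0` and regular energy `e1 < h xL, h xR`.
2. `hit_right` for `(z.1, |u|)`: at the time `s0 > 0` the orbit is at `(ξ0, 0)` with `d ξ0 > 0`.  If `u > 0` then
   `fl (ξ0,0) (-s0) = z`; if `u < 0` then `fl (ξ0,0) s0 = (z.1, -|u|) = z` by `fl_rev`.  So `fl (ξ0, 0) s = z` for some `s`.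
   Also `z.1 < ξ0` (u > 0 on the way).
3. The orbit of `(ξ0, 0)`: `u'(0) = -d(ξ0)/2 < 0`, so there is `ρ0 > 0` with `u < 0` on `(0, ρ0]`, and even `U_t(t, ξ) ≤ -η < 0`, so
   `U(t, ξ) < 0`, for `t ∈ (0, ρ0]` and `ξ` near `ξ0` (uniformly, by continuity of `d (fl (ξ,0) t).1` at `(ξ0, 0)`).
   `hit_left` from the point `fl (ξ0,0) ρ0` (its energy is `e1`, regular; it lies to the right of `xL`: the orbit starts at `ξ0 > xL` and cannot
   cross `xL`) gives the first return time `T0 > ρ0`: `U < 0` on `(0, T0)`, `U(T0) = 0`, `d(X(T0)) < 0`.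
4. Near `(ξ0, T0)`: `d(X(t, ξ)) ≤ -2η`, so `U(·, ξ)` is strictly increasing on `[T0 - ρ, T0 + ρ]`, `U(T0 - ρ, ξ) < 0 < U(T0 + ρ, ξ)` for `ξ` near `ξ0`;
   module Cross gives the continuous zero `T ξ`.  On `(0, ρ0]` and `[ρ0, T0 - ρ]` (compact: `U(·, ξ0) < 0`, tube lemma) `U(t, ξ) < 0`.
5. `l0, l1`: `λ(ξ) = X(T ξ, ξ)` is near `λ0 = X(T0, ξ0)`; take `[l0, l1]` a small interval around `λ0` where `d ≤ -η`; shrink `[a, b]` around `ξ0` so that
   everything holds (`mem` by continuity of the flow and openness of `V`, `right` by continuity of `d`). -/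

namespace Pool.Agent.CGD

open Set Filter Topology

private theorem BandEx_anti {d : ℝ → ℝ} (hd : Nice d) (z : ℝ × ℝ) {a b : ℝ}
    (h : ∀ t ∈ Icc a b, 0 < d (fl d z t).1) : StrictAntiOn (fun t => (fl d z t).2) (Icc a b) := by
  refine strictAntiOn_of_deriv_neg (convex_Icc a b) ?_ ?_
  · exact fun t _ => (hasDerivAt_U hd z t).continuousAt.continuousWithinAt
  · intro t ht
    rw [(hasDerivAt_U hd z t).deriv]
    have := h t (interior_subset ht)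
    linarith

private theorem BandEx_mono {d : ℝ → ℝ} (hd : Nice d) (z : ℝ × ℝ) {a b : ℝ}
    (h : ∀ t ∈ Icc a b, d (fl d z t).1 < 0) : StrictMonoOn (fun t => (fl d z t).2) (Icc a b) := by
  refine strictMonoOn_of_deriv_pos (convex_Icc a b) ?_ ?_
  · exact fun t _ => (hasDerivAt_U hd z t).continuousAt.continuousWithinAt
  · intro t ht
    rw [(hasDerivAt_U hd z t).deriv]
    have := h t (interior_subset ht)
    linarith

/-- orbits do not cross a point of higher potential -/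
private theorem BandEx_right {d h : ℝ → ℝ} (hd : Nice d) (hh : ∀ x, HasDerivAt h (d x) x)
    {z : ℝ × ℝ} {xL : ℝ} (hL : xL < z.1) (hLe : z.2 ^ 2 + h z.1 < h xL) (t : ℝ) :
    xL < (fl d z t).1 := by
  by_contra hc
  push Not at hc
  have hcont : Continuous fun s => (fl d z s).1 :=
    continuous_iff_continuousAt.2 fun s => (hasDerivAt_X hd z s).continuousAt
  have h0 : (fl d z 0).1 = z.1 := by rw [fl_zero hd]
  have h1 : xL ∈ uIcc (fl d z 0).1 (fl d z t).1 := by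
    rw [mem_uIcc]
    right
    exact ⟨hc, by rw [h0]; exact hL.le⟩
  obtain ⟨s, -, hs⟩ := intermediate_value_uIcc (f := fun s => (fl d z s).1) hcont.continuousOn h1
  have h2 := energy hd hh z s
  simp only at hs
  rw [hs] at h2
  nlinarith [sq_nonneg (fl d z s).2]

theorem band_exists {d h : ℝ → ℝ} (hd : Nice d) (hh : ∀ x, HasDerivAt h (d x) x)
    {V : Set (ℝ × ℝ)} (hV : IsOpen V) {z : ℝ × ℝ} (hz : z ∈ V) {xL xR : ℝ} (hL : xL < z.1)
    (hR : z.1 < xR) (hLe : z.2 ^ 2 + h z.1 < h xL) (hRe : z.2 ^ 2 + h z.1 < h xR) :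
    ∃ (s a b l0 l1 η : ℝ) (T : ℝ → ℝ), Band d V s a b l0 l1 η T := by
  obtain ⟨u, huV, hu0, hue, hreg⟩ := exists_regular hh hV hz (lt_min hLe hRe)
  have hdc : Continuous d := by
    obtain ⟨K, hK⟩ := hd.lip
    exact hK.continuous
  have hueL : u ^ 2 + h z.1 < h xL := hue.trans_le (min_le_left _ _)
  have hueR : u ^ 2 + h z.1 < h xR := hue.trans_le (min_le_right _ _)
  have hab : |u| ^ 2 = u ^ 2 := sq_abs u
  -- the point of the band
  obtain ⟨s0, hs0, hs02, hs03, hs04⟩ := hit_right hd hh (z := (z.1, |u|)) (abs_pos.2 hu0) hR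
    (by simp only; rw [hab]; exact hueR) (by simp only; rw [hab]; exact hreg)
  obtain ⟨ξ0, hξ0⟩ : ∃ ξ0, ξ0 = (fl d (z.1, |u|) s0).1 := ⟨_, rfl⟩
  have hfl0 : fl d (z.1, |u|) s0 = (ξ0, 0) := Prod.ext hξ0.symm hs02
  rw [← hξ0] at hs04
  have hEξ : (0 : ℝ) ^ 2 + h ξ0 = u ^ 2 + h z.1 := by
    have h1 := energy hd hh (z.1, |u|) s0
    rw [hfl0] at h1
    simp only at h1
    rw [hab] at h1
    exact h1
  have hLξ : xL < ξ0 := by
    have h1 := BandEx_right hd hh (z := (z.1, |u|)) hL (by simp only; rw [hab]; exact hueL) s0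
    rw [hfl0] at h1
    exact h1
  have hback : fl d (ξ0, 0) (-s0) = (z.1, |u|) := by
    rw [← hfl0, ← fl_add hd, add_neg_cancel, fl_zero hd]
  obtain ⟨s, hs⟩ : ∃ s, fl d (ξ0, 0) s = (z.1, u) := by
    rcases lt_or_gt_of_ne hu0 with hu | hu
    · refine ⟨s0, ?_⟩
      have h1 := fl_rev hd (ξ0, 0) s0
      rw [hback] at h1
      simp only [neg_zero] at h1
      rw [h1, abs_of_neg hu, neg_neg]
    · refine ⟨-s0, ?_⟩
      rw [hback, abs_of_pos hu]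
  -- continuity
  have hflc := fl_continuous hd
  have hX : Continuous fun p : ℝ × ℝ => (fl d (p.1, 0) p.2).1 :=
    continuous_fst.comp (hflc.comp (by fun_prop : Continuous fun p : ℝ × ℝ => (((p.1, (0 : ℝ)), p.2) : (ℝ × ℝ) × ℝ)))
  have hU : Continuous fun p : ℝ × ℝ => (fl d (p.1, 0) p.2).2 :=
    continuous_snd.comp (hflc.comp (by fun_prop : Continuous fun p : ℝ × ℝ => (((p.1, (0 : ℝ)), p.2) : (ℝ × ℝ) × ℝ)))
  have hg : Continuous fun p : ℝ × ℝ => d (fl d (p.1, 0) p.2).1 := hdc.comp hX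
  have hXt : Continuous fun t : ℝ => (fl d (ξ0, 0) t).1 := hX.comp (by fun_prop : Continuous fun t : ℝ => (ξ0, t))
  have hgt : Continuous fun t : ℝ => d (fl d (ξ0, 0) t).1 := hg.comp (by fun_prop : Continuous fun t : ℝ => (ξ0, t))
  -- the beginning
  obtain ⟨η0, hη0d⟩ : ∃ η0, η0 = d ξ0 / 2 := ⟨_, rfl⟩
  have hη0 : 0 < η0 := by rw [hη0d]; linarith
  have h0 : ∀ᶠ t in 𝓝 (0 : ℝ), η0 < d (fl d (ξ0, 0) t).1 := by
    refine hgt.continuousAt.eventually (lt_mem_nhds ?_)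
    simp only
    rw [fl_zero hd]
    simp only
    linarith
  obtain ⟨ρ0', hρ0', hρ0b⟩ := Metric.eventually_nhds_iff.1 h0
  obtain ⟨ρ0, hρ0, hρ0lt⟩ := exists_between hρ0'
  have hρ0K : ∀ t ∈ Icc 0 ρ0, η0 < d (fl d (ξ0, 0) t).1 := by
    intro t ht
    apply hρ0b
    rw [Real.dist_eq, sub_zero, abs_of_nonneg ht.1]
    exact ht.2.trans_lt hρ0lt
  have hanti0 := BandEx_anti hd (ξ0, 0) (fun t ht => hη0.trans (hρ0K t ht))
  have hUρ0 : (fl d (ξ0, 0) ρ0).2 < 0 := by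
    have h1 := hanti0 (left_mem_Icc.2 hρ0.le) (right_mem_Icc.2 hρ0.le) hρ0
    simp only [fl_zero hd] at h1
    exact h1
  -- the first return
  have hLρ : xL < (fl d (ξ0, 0) ρ0).1 := BandEx_right hd hh (z := (ξ0, 0)) hLξ
    (by simp only; rw [hEξ]; exact hueL) ρ0
  have hEρ := energy hd hh (ξ0, 0) ρ0
  simp only at hEρ
  rw [hEξ] at hEρ
  obtain ⟨T1, hT1, hT12, hT13, hT14⟩ := hit_left hd hh hUρ0 hLρ (by rw [hEρ]; exact hueL)
    (by rw [hEρ]; exact hreg)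
  obtain ⟨T0, hT0⟩ : ∃ T0, T0 = ρ0 + T1 := ⟨_, rfl⟩
  rw [← fl_add hd, ← hT0] at hT12 hT14
  have hneg0 : ∀ t ∈ Ico ρ0 T0, (fl d (ξ0, 0) t).2 < 0 := by
    intro t ht
    have h1 := hT13 (t - ρ0) ⟨by linarith [ht.1], by linarith [ht.2]⟩
    rw [← fl_add hd] at h1
    have h2 : ρ0 + (t - ρ0) = t := by ring
    rw [h2] at h1
    exact h1
  obtain ⟨l, hl⟩ : ∃ l, l = (fl d (ξ0, 0) T0).1 := ⟨_, rfl⟩
  rw [← hl] at hT14
  obtain ⟨η1, hη1d⟩ : ∃ η1, η1 = -d l / 2 := ⟨_, rfl⟩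
  have hη1 : 0 < η1 := by rw [hη1d]; linarith
  have h1 : ∀ᶠ x in 𝓝 l, d x < -η1 := by
    refine hdc.continuousAt.eventually (gt_mem_nhds ?_)
    linarith
  obtain ⟨σ, hσ, hσb⟩ := Metric.eventually_nhds_iff.1 h1
  have hσK : ∀ x ∈ Icc (l - σ / 2) (l + σ / 2), d x < -η1 := by
    intro x hx
    apply hσb
    rw [Real.dist_eq, abs_lt]
    constructor <;> linarith [hx.1, hx.2]
  have h2 : ∀ᶠ t in 𝓝 T0, (fl d (ξ0, 0) t).1 ∈ Ioo (l - σ / 2) (l + σ / 2) := by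
    refine hXt.continuousAt.eventually (Ioo_mem_nhds ?_ ?_) <;> simp only <;> rw [← hl] <;> linarith
  obtain ⟨ρ1', hρ1', hρ1b⟩ := Metric.eventually_nhds_iff.1 h2
  obtain ⟨ρ1, hρ1, hρ1lt⟩ := exists_between (lt_min hρ1' hT1)
  have hρ1a : ρ1 < ρ1' := hρ1lt.trans_le (min_le_left _ _)
  have hρ1T : ρ1 < T1 := hρ1lt.trans_le (min_le_right _ _)
  have hρ1K : ∀ t ∈ Icc (T0 - ρ1) (T0 + ρ1), (fl d (ξ0, 0) t).1 ∈ Ioo (l - σ / 2) (l + σ / 2) := by
    intro t ht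
    apply hρ1b
    rw [Real.dist_eq, abs_lt]
    constructor <;> linarith [ht.1, ht.2]
  have hmono0 := BandEx_mono hd (ξ0, 0) (a := T0 - ρ1) (b := T0 + ρ1)
    (fun t ht => (hσK _ (Ioo_subset_Icc_self (hρ1K t ht))).trans (by linarith))
  have hUm : (fl d (ξ0, 0) (T0 - ρ1)).2 < 0 :=
    hneg0 _ ⟨by rw [hT0]; linarith, by linarith⟩
  have hUp : 0 < (fl d (ξ0, 0) (T0 + ρ1)).2 := by
    have h3 := hmono0 (a := T0) ⟨by linarith, by linarith⟩ (b := T0 + ρ1) ⟨by linarith, le_rfl⟩ (by linarith)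
    simp only at h3
    rw [hT12] at h3
    exact h3
  -- neighbourhoods of ξ0
  have E1 : ∀ᶠ ξ in 𝓝 ξ0, ∀ t ∈ Icc 0 ρ0, η0 < d (fl d (ξ, 0) t).1 := by
    refine isCompact_Icc.eventually_forall_of_forall_eventually ?_
    intro t ht
    exact hg.continuousAt.eventually (lt_mem_nhds (hρ0K t ht))
  have E2 : ∀ᶠ ξ in 𝓝 ξ0, ∀ t ∈ Icc (T0 - ρ1) (T0 + ρ1), (fl d (ξ, 0) t).1 ∈ Ioo (l - σ / 2) (l + σ / 2) := by
    refine isCompact_Icc.eventually_forall_of_forall_eventually ?_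
    intro t ht
    exact hX.continuousAt.eventually (isOpen_Ioo.mem_nhds (hρ1K t ht))
  have E3 : ∀ᶠ ξ in 𝓝 ξ0, ∀ t ∈ Icc ρ0 (T0 - ρ1), (fl d (ξ, 0) t).2 < 0 := by
    refine isCompact_Icc.eventually_forall_of_forall_eventually ?_
    intro t ht
    exact hU.continuousAt.eventually (gt_mem_nhds (hneg0 t ⟨ht.1, by linarith [ht.2]⟩))
  have E4 : ∀ᶠ ξ in 𝓝 ξ0, 0 < (fl d (ξ, 0) (T0 + ρ1)).2 := by
    have hc : Continuous fun ξ : ℝ => (fl d (ξ, 0) (T0 + ρ1)).2 :=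
      hU.comp (by fun_prop : Continuous fun ξ : ℝ => (ξ, T0 + ρ1))
    exact hc.continuousAt.eventually (lt_mem_nhds hUp)
  have E5 : ∀ᶠ ξ in 𝓝 ξ0, fl d (ξ, 0) s ∈ V := by
    have hc : Continuous fun ξ : ℝ => fl d (ξ, 0) s :=
      hflc.comp (by fun_prop : Continuous fun ξ : ℝ => (((ξ, (0 : ℝ)), s) : (ℝ × ℝ) × ℝ))
    refine hc.continuousAt.eventually (hV.mem_nhds ?_)
    simp only
    rw [hs]
    exact huV
  obtain ⟨ε, hε, hεb⟩ := Metric.eventually_nhds_iff.1 (E1.and (E2.and (E3.and (E4.and E5))))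
  have hall : ∀ ξ ∈ Icc (ξ0 - ε / 2) (ξ0 + ε / 2), (∀ t ∈ Icc 0 ρ0, η0 < d (fl d (ξ, 0) t).1) ∧
      (∀ t ∈ Icc (T0 - ρ1) (T0 + ρ1), (fl d (ξ, 0) t).1 ∈ Ioo (l - σ / 2) (l + σ / 2)) ∧
      (∀ t ∈ Icc ρ0 (T0 - ρ1), (fl d (ξ, 0) t).2 < 0) ∧ 0 < (fl d (ξ, 0) (T0 + ρ1)).2 ∧
      fl d (ξ, 0) s ∈ V := by
    intro ξ hξ
    apply hεb
    rw [Real.dist_eq, abs_lt]
    constructor <;> linarith [hξ.1, hξ.2]
  have hmono : ∀ ξ ∈ Icc (ξ0 - ε / 2) (ξ0 + ε / 2),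
      StrictMonoOn (fun t => (fl d (ξ, 0) t).2) (Icc (T0 - ρ1) (T0 + ρ1)) := fun ξ hξ =>
    BandEx_mono hd (ξ, 0) (fun t ht => (hσK _ (Ioo_subset_Icc_self ((hall ξ hξ).2.1 t ht))).trans (by linarith))
  have hord : ρ0 ≤ T0 - ρ1 := by rw [hT0]; linarith
  obtain ⟨T, hTc, hT⟩ := cross (S := Icc (ξ0 - ε / 2) (ξ0 + ε / 2)) (F := fun ξ t => (fl d (ξ, 0) t).2)
    (α := T0 - ρ1) (β := T0 + ρ1) (by linarith) hU.continuousOn hmono
    (fun ξ hξ => (hall ξ hξ).2.2.1 _ ⟨hord, le_rfl⟩) (fun ξ hξ => (hall ξ hξ).2.2.2.1)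
  refine ⟨s, ξ0 - ε / 2, ξ0 + ε / 2, l - σ / 2, l + σ / 2, min η0 η1, T, ?_⟩
  refine { hab := by linarith, hη := lt_min hη0 hη1, Tcont := hTc, mem := fun ξ hξ => (hall ξ hξ).2.2.2.2,
           Tpos := fun ξ hξ => ?_, neg := fun ξ hξ t ht => ?_, zero := fun ξ hξ => (hT ξ hξ).2,
           right := fun ξ hξ => ?_, lam := fun ξ hξ => ?_, left := fun x hx => ?_ }
  · have := (hT ξ hξ).1.1
    linarith
  · rcases le_or_gt t ρ0 with h3 | h3
    · have h4 := BandEx_anti hd (ξ, 0) (fun t ht => hη0.trans ((hall ξ hξ).1 t ht))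
        (left_mem_Icc.2 hρ0.le) ⟨ht.1.le, h3⟩ ht.1
      simp only [fl_zero hd] at h4
      exact h4
    · rcases le_or_gt t (T0 - ρ1) with h4 | h4
      · exact (hall ξ hξ).2.2.1 t ⟨h3.le, h4⟩
      · have h5 := (hT ξ hξ).1
        have h6 := hmono ξ hξ (a := t) ⟨h4.le, by linarith [ht.2, h5.2]⟩ (b := T ξ) ⟨h5.1.le, h5.2.le⟩ ht.2
        have h7 := (hT ξ hξ).2
        simp only at h6 h7
        rw [h7] at h6
        exact h6
  · have h3 := (hall ξ hξ).1 0 ⟨le_rfl, hρ0.le⟩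
    rw [fl_zero hd] at h3
    exact (min_le_left _ _).trans h3.le
  · exact Ioo_subset_Icc_self ((hall ξ hξ).2.1 _ (Ioo_subset_Icc_self (hT ξ hξ).1))
  · have h3 := hσK x hx
    have h4 := min_le_right η0 η1
    linarith

end Pool.Agent.CGD
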