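import Pool.Agent.CGD.Defs

set_option autoImplicit false

/-! Module Base: regularity of the reduced data `hh = 1/c`, `dd = hh'`, `mu = √(a - b²/c)`, `ww = hh mu`, `bb = b/c` of an
invariant metric. -/

namespace Pool.Agent.CGD

open Set Filter Topology
open scoped ContDiff

theorem Base_rep {f : ℝ → ℝ} (per : ∀ x, f (x + 1) = f x) (x : ℝ) :
    ∃ y ∈ Icc (0 : ℝ) 1, f y = f x := by
  refine ⟨Int.fract x, ⟨Int.fract_nonneg x, (Int.fract_lt_one x).le⟩, ?_⟩
  have h := (show Function.Periodic f 1 from per).sub_int_mul_eq (x := x) ⌊x⌋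
  rw [mul_one] at h
  exact h

/-- a continuous 1-periodic function is bounded -/
theorem per_bounded {f : ℝ → ℝ} (hf : Continuous f) (per : ∀ x, f (x + 1) = f x) :
    ∃ B, ∀ x, |f x| ≤ B := by
  obtain ⟨B, hB⟩ := isCompact_Icc.exists_bound_of_continuousOn (hf.continuousOn (s := Icc 0 1))
  refine ⟨B, fun x => ?_⟩
  obtain ⟨y, hy, e⟩ := Base_rep per x
  rw [← e]
  exact hB y hy

/-- a positive continuous 1-periodic function is bounded below by a positive number -/
theorem per_pos {f : ℝ → ℝ} (hf : Continuous f) (per : ∀ x, f (x + 1) = f x)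
    (h0 : ∀ x, 0 < f x) : ∃ δ > 0, ∀ x, δ ≤ f x := by
  obtain ⟨x0, _, hx0⟩ := isCompact_Icc.exists_isMinOn ⟨0, by norm_num⟩
    (hf.continuousOn (s := Icc (0:ℝ) 1))
  refine ⟨f x0, h0 x0, fun x => ?_⟩
  obtain ⟨y, hy, e⟩ := Base_rep per x
  rw [← e]
  exact hx0 hy

/-- a continuous 1-periodic function attains its maximum -/
theorem per_max {f : ℝ → ℝ} (hf : Continuous f) (per : ∀ x, f (x + 1) = f x) :
    ∃ x0, ∀ x, f x ≤ f x0 := by
  obtain ⟨x0, _, hx0⟩ := isCompact_Icc.exists_isMaxOn ⟨0, by norm_num⟩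
    (hf.continuousOn (s := Icc (0:ℝ) 1))
  refine ⟨x0, fun x => ?_⟩
  obtain ⟨y, hy, e⟩ := Base_rep per x
  rw [← e]
  exact hx0 hy

theorem per_unif {f : ℝ → ℝ} (hf : Continuous f) (per : ∀ x, f (x + 1) = f x) :
    UniformContinuous f := by
  have hK : UniformContinuousOn f (Icc (-1) 2) :=
    isCompact_Icc.uniformContinuousOn_of_continuous hf.continuousOn
  rw [Metric.uniformContinuousOn_iff] at hK
  rw [Metric.uniformContinuous_iff]
  intro ε hε
  obtain ⟨δ, hδ, H⟩ := hK ε hε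
  refine ⟨min δ 1, by positivity, fun {x y} hxy => ?_⟩
  have hp : Function.Periodic f 1 := per
  have e1 : f (x - ⌊x⌋) = f x := by
    have h := hp.sub_int_mul_eq (x := x) ⌊x⌋
    rwa [mul_one] at h
  have e2 : f (y - ⌊x⌋) = f y := by
    have h := hp.sub_int_mul_eq (x := y) ⌊x⌋
    rwa [mul_one] at h
  rw [← e1, ← e2]
  have h1 : dist x y < 1 := hxy.trans_le (min_le_right _ _)
  have h2 : dist x y < δ := hxy.trans_le (min_le_left _ _)
  rw [Real.dist_eq, abs_lt] at h1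
  have h3 := Int.floor_le x
  have h4 := Int.lt_floor_add_one x
  refine H _ ⟨by linarith, by linarith⟩ _ ⟨by linarith [h1.1, h1.2], by linarith [h1.1, h1.2]⟩ ?_
  rw [Real.dist_eq] at h2 ⊢
  have : x - ⌊x⌋ - (y - ⌊x⌋) = x - y := by ring
  rwa [this]

theorem per_deriv {f : ℝ → ℝ} (per : ∀ x, f (x + 1) = f x) (x : ℝ) :
    deriv f (x + 1) = deriv f x := by
  have h : (fun y => f (y + 1)) = f := funext per
  have h2 := deriv_comp_add_const f 1 x
  rw [h] at h2
  exact h2.symm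

/-- a smooth periodic function is bounded and Lipschitz -/
theorem Base_nice {f : ℝ → ℝ} (hf : ContDiff ℝ ∞ f) (per : ∀ x, f (x + 1) = f x) : Nice f := by
  refine ⟨?_, per_bounded hf.continuous per⟩
  have hd : Continuous (deriv f) := hf.continuous_deriv (by simp)
  obtain ⟨B, hB⟩ := per_bounded hd (per_deriv per)
  have hB0 : 0 ≤ B := (abs_nonneg _).trans (hB 0)
  refine ⟨⟨B, hB0⟩, ?_⟩
  apply lipschitzWith_of_nnnorm_deriv_le (hf.differentiable (by simp))
  intro x
  rw [← NNReal.coe_le_coe]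
  exact hB x

namespace InvMetric

variable (g : InvMetric)

theorem rad_pos (x : ℝ) : 0 < g.a x - g.b x ^ 2 / g.c x := by
  have hc := g.pos_c x
  have : g.a x - g.b x ^ 2 / g.c x = (g.a x * g.c x - g.b x ^ 2) / g.c x := by
    field_simp
  rw [this]
  exact div_pos (g.pos_det x) hc

theorem hh_smooth : ContDiff ℝ ∞ g.hh := by
  unfold hh
  exact contDiff_const.div g.smooth_c fun x => (g.pos_c x).ne'

theorem hh_per (x : ℝ) : g.hh (x + 1) = g.hh x := by
  unfold hh
  rw [g.per_c]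

theorem hh_pos (x : ℝ) : 0 < g.hh x := by
  unfold hh
  exact div_pos one_pos (g.pos_c x)

theorem hh_deriv (x : ℝ) : HasDerivAt g.hh (g.dd x) x := by
  have h1 : HasDerivAt g.c (deriv g.c x) x :=
    (g.smooth_c.differentiable (by simp) x).hasDerivAt
  have h2 := (hasDerivAt_const x (1 : ℝ)).fun_div h1 (g.pos_c x).ne'
  have e : (0 * g.c x - 1 * deriv g.c x) / g.c x ^ 2 = g.dd x := by
    unfold dd
    ring
  rw [e] at h2
  exact h2

theorem dd_smooth : ContDiff ℝ ∞ g.dd := by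
  unfold dd
  have h1 : ContDiff ℝ ∞ (deriv g.c) := by
    have := g.smooth_c
    rw [show (∞ : WithTop ℕ∞) = ∞ + 1 from rfl] at this
    exact (contDiff_succ_iff_deriv.1 this).2.2
  exact h1.neg.div (g.smooth_c.pow 2) fun x => (pow_pos (g.pos_c x) 2).ne'

theorem dd_per (x : ℝ) : g.dd (x + 1) = g.dd x := by
  unfold dd
  rw [per_deriv g.per_c, g.per_c]

theorem dd_nice : Nice g.dd := Base_nice g.dd_smooth g.dd_per

theorem mu_smooth : ContDiff ℝ ∞ g.mu := by
  unfold mu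
  exact (g.smooth_a.sub ((g.smooth_b.pow 2).div g.smooth_c fun x => (g.pos_c x).ne')).sqrt
    fun x => (g.rad_pos x).ne'

theorem mu_per (x : ℝ) : g.mu (x + 1) = g.mu x := by
  unfold mu
  rw [g.per_a, g.per_b, g.per_c]

theorem mu_pos (x : ℝ) : 0 < g.mu x := by
  unfold mu
  exact Real.sqrt_pos.2 (g.rad_pos x)

theorem mu_sq (x : ℝ) : g.mu x ^ 2 = g.a x - g.b x ^ 2 / g.c x := by
  unfold mu
  exact Real.sq_sqrt (g.rad_pos x).le

theorem ww_eq (x : ℝ) : g.ww x = g.hh x * g.mu x := rfl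

theorem ww_smooth : ContDiff ℝ ∞ g.ww := g.hh_smooth.mul g.mu_smooth

theorem ww_per (x : ℝ) : g.ww (x + 1) = g.ww x := by
  rw [ww_eq, ww_eq, g.hh_per, g.mu_per]

theorem ww_pos (x : ℝ) : 0 < g.ww x := by
  rw [ww_eq]
  exact mul_pos (g.hh_pos x) (g.mu_pos x)

theorem bb_smooth : ContDiff ℝ ∞ g.bb := by
  unfold bb
  exact g.smooth_b.div g.smooth_c fun x => (g.pos_c x).ne'

theorem bb_per (x : ℝ) : g.bb (x + 1) = g.bb x := by
  unfold bb
  rw [g.per_b, g.per_c]

end InvMetric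

end Pool.Agent.CGD
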