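import Mathlib

set_option autoImplicit false

/-! # Closed geodesics of circle-invariant metrics on the torus: definitions

Metrics `a dx² + 2 b dx dy + c dy²` on `T² = ℝ²/ℤ²` whose coefficients depend only on `x`. -/

namespace Pool.Agent.CGD

open Set Filter Topology
open scoped ContDiff

/-- A smooth Riemannian metric `a(x) dx² + 2 b(x) dx dy + c(x) dy²` on `T² = ℝ²/ℤ²` which is
invariant under the circle action `(x, y) ↦ (x, y + s)`. -/
@[ext] structure InvMetric where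
  a : ℝ → ℝ
  b : ℝ → ℝ
  c : ℝ → ℝ
  smooth_a : ContDiff ℝ ∞ a
  smooth_b : ContDiff ℝ ∞ b
  smooth_c : ContDiff ℝ ∞ c
  per_a : ∀ x, a (x + 1) = a x
  per_b : ∀ x, b (x + 1) = b x
  per_c : ∀ x, c (x + 1) = c x
  pos_c : ∀ x, 0 < c x
  pos_det : ∀ x, 0 < a x * c x - b x ^ 2

/-- Geodesics (lifted to `ℝ²`): the Euler-Lagrange equations of the energy
`(a x'² + 2 b x' y' + c y'²) / 2`. -/
def IsGeodesic (g : InvMetric) (x y : ℝ → ℝ) : Prop :=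
  ContDiff ℝ 2 x ∧ ContDiff ℝ 2 y ∧ ∀ t,
    HasDerivAt (fun s => g.a (x s) * deriv x s + g.b (x s) * deriv y s)
      ((deriv g.a (x t) * deriv x t ^ 2 + 2 * deriv g.b (x t) * deriv x t * deriv y t
        + deriv g.c (x t) * deriv y t ^ 2) / 2) t ∧
    HasDerivAt (fun s => g.b (x s) * deriv x s + g.c (x s) * deriv y s) 0 t

/-- The tangent vector `(u, v)` at the point `(p, q)` is (nonzero and) tangent to a closed geodesic
of the torus. -/
def ClosedVec (g : InvMetric) (p q u v : ℝ) : Prop :=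
  (u, v) ≠ (0, 0) ∧ ∃ x y : ℝ → ℝ, IsGeodesic g x y ∧ x 0 = p ∧ y 0 = q ∧ deriv x 0 = u ∧
    deriv y 0 = v ∧ ∃ T > 0, ∃ m n : ℤ, x T = p + m ∧ y T = q + n ∧ deriv x T = u ∧ deriv y T = v

/-- the set `C(g)` of tangent vectors of closed geodesics, lifted to `ℝ² × ℝ²` -/
def CG (g : InvMetric) : Set ((ℝ × ℝ) × (ℝ × ℝ)) :=
  {w | ClosedVec g w.1.1 w.1.2 w.2.1 w.2.2}

/-- `C^k`-closeness of metrics -/
def CkClose (k : ℕ) (ε : ℝ) (g g' : InvMetric) : Prop :=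
  ∀ j ≤ k, ∀ x, |iteratedDeriv j g'.a x - iteratedDeriv j g.a x| < ε ∧
    |iteratedDeriv j g'.b x - iteratedDeriv j g.b x| < ε ∧
    |iteratedDeriv j g'.c x - iteratedDeriv j g.c x| < ε

/-- the `C^∞` topology on the space of invariant metrics: a set is open iff with each metric it
contains a `C^k`-ball around it, for some `k` -/
instance : TopologicalSpace InvMetric where
  IsOpen S := ∀ g ∈ S, ∃ k : ℕ, ∃ ε > 0, ∀ g', CkClose k ε g g' → g' ∈ S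
  isOpen_univ := fun _ _ => ⟨0, 1, one_pos, fun _ _ => mem_univ _⟩
  isOpen_inter := by
    intro s t hs ht g hg
    obtain ⟨k1, e1, h1, H1⟩ := hs g hg.1
    obtain ⟨k2, e2, h2, H2⟩ := ht g hg.2
    refine ⟨max k1 k2, min e1 e2, lt_min h1 h2, fun g' hg' => ⟨H1 g' ?_, H2 g' ?_⟩⟩
    · intro j hj x
      obtain ⟨ha, hb, hc⟩ := hg' j (hj.trans (le_max_left _ _)) x
      exact ⟨ha.trans_le (min_le_left _ _), hb.trans_le (min_le_left _ _),
        hc.trans_le (min_le_left _ _)⟩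
    · intro j hj x
      obtain ⟨ha, hb, hc⟩ := hg' j (hj.trans (le_max_right _ _)) x
      exact ⟨ha.trans_le (min_le_right _ _), hb.trans_le (min_le_right _ _),
        hc.trans_le (min_le_right _ _)⟩
  isOpen_sUnion := by
    intro S hS g hg
    obtain ⟨s, hs, hgs⟩ := hg
    obtain ⟨k, e, he, H⟩ := hS s hs g hgs
    exact ⟨k, e, he, fun g' hg' => ⟨s, hs, H g' hg'⟩⟩

/-! ## The planar system `x' = u`, `u' = - d(x) / 2` -/

/-- Lipschitz and bounded -/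
structure Nice (d : ℝ → ℝ) : Prop where
  lip : ∃ K : NNReal, LipschitzWith K d
  bdd : ∃ B : ℝ, ∀ x, |d x| ≤ B

/-- solutions of the planar system `x' = u`, `u' = - d(x) / 2` -/
def IsSol (d : ℝ → ℝ) (γ : ℝ → ℝ × ℝ) : Prop :=
  ∀ t, HasDerivAt γ ((γ t).2, -(d (γ t).1) / 2) t

open Classical in
/-- the flow of the planar system (the chosen solution through `z`) -/
noncomputable def fl (d : ℝ → ℝ) (z : ℝ × ℝ) : ℝ → ℝ × ℝ :=
  if h : ∃ γ : ℝ → ℝ × ℝ, γ 0 = z ∧ IsSol d γ then h.choose else fun _ => z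

/-- the advance of the second coordinate with speed `w(x)` -/
noncomputable def Yw (d w : ℝ → ℝ) (z : ℝ × ℝ) (t : ℝ) : ℝ :=
  ∫ s in (0:ℝ)..t, w ((fl d z s).1)

/-- the robust condition: the `u`-coordinate of the orbit of `(ξ, 0)` at the moment when
`Yw = q ϖ / 2` changes sign between `ξ₁` and `ξ₂`, and these orbits pass through `V` -/
def Osc (d w : ℝ → ℝ) (ϖ : ℝ) (V : Set (ℝ × ℝ)) : Prop :=
  ∃ (q : ℕ) (s ξ₁ ξ₂ t₁ t₂ : ℝ), 0 < q ∧ (∀ ξ ∈ uIcc ξ₁ ξ₂, fl d (ξ, 0) s ∈ V) ∧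
    Yw d w (ξ₁, 0) t₁ = q * ϖ / 2 ∧ (fl d (ξ₁, 0) t₁).2 < 0 ∧
    Yw d w (ξ₂, 0) t₂ = q * ϖ / 2 ∧ 0 < (fl d (ξ₂, 0) t₂).2

/-- a closed orbit of the reduced system (on the torus) -/
def PClosed (d w β : ℝ → ℝ) (z : ℝ × ℝ) : Prop :=
  ∃ P > 0, ∃ m n : ℤ, fl d z P = (z.1 + m, z.2) ∧
    ∫ s in (0:ℝ)..P, (w ((fl d z s).1) - β ((fl d z s).1) * (fl d z s).2) = n

/-- a band of oscillating orbits: for `ξ ∈ [a, b]` the orbit of `(ξ, 0)` first returns to `u = 0`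
at the time `T ξ`, at a point of `[l0, l1]` -/
structure Band (d : ℝ → ℝ) (V : Set (ℝ × ℝ)) (s a b l0 l1 η : ℝ) (T : ℝ → ℝ) : Prop where
  hab : a < b
  hη : 0 < η
  Tcont : ContinuousOn T (Icc a b)
  mem : ∀ ξ ∈ Icc a b, fl d (ξ, 0) s ∈ V
  Tpos : ∀ ξ ∈ Icc a b, 0 < T ξ
  neg : ∀ ξ ∈ Icc a b, ∀ t ∈ Ioo 0 (T ξ), (fl d (ξ, 0) t).2 < 0
  zero : ∀ ξ ∈ Icc a b, (fl d (ξ, 0) (T ξ)).2 = 0
  right : ∀ x ∈ Icc a b, η ≤ d x
  lam : ∀ ξ ∈ Icc a b, (fl d (ξ, 0) (T ξ)).1 ∈ Icc l0 l1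
  left : ∀ x ∈ Icc l0 l1, d x ≤ -η

/-! ## The reduced system of an invariant metric -/

/-- `h = 1 / c` -/
noncomputable def InvMetric.hh (g : InvMetric) (x : ℝ) : ℝ := 1 / g.c x

/-- `h' = - c' / c²` -/
noncomputable def InvMetric.dd (g : InvMetric) (x : ℝ) : ℝ := -(deriv g.c x) / g.c x ^ 2

/-- `μ = √(a - b²/c)` -/
noncomputable def InvMetric.mu (g : InvMetric) (x : ℝ) : ℝ := √(g.a x - g.b x ^ 2 / g.c x)

/-- `w = h μ` -/
noncomputable def InvMetric.ww (g : InvMetric) (x : ℝ) : ℝ := 1 / g.c x * g.mu x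

/-- `β = b / c` -/
noncomputable def InvMetric.bb (g : InvMetric) (x : ℝ) : ℝ := g.b x / g.c x

/-- the robust condition for a metric and an open set `V` of the reduced phase plane -/
def UV (V : Set (ℝ × ℝ)) (g : InvMetric) : Prop :=
  (∃ z ∈ V, ∀ x, g.hh x < z.2 ^ 2 + g.hh z.1) ∨ Osc g.dd g.ww 1 V

end Pool.Agent.CGD
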