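import Pool.Agent.CGD.Lift

set_option autoImplicit false

/-! Module DensF: density in the reduced phase plane gives density of `CG g`. -/

namespace Pool.Agent.CGD

open Set Filter Topology

theorem dense_of_planar (g : InvMetric)
    (h : ∀ V : Set (ℝ × ℝ), IsOpen V → V.Nonempty → ∃ z ∈ V, PClosed g.dd g.ww g.bb z) :
    Dense (CG g) := by
  rw [dense_iff_inter_open]
  rintro W hW ⟨⟨⟨p, q⟩, ⟨u, v⟩⟩, hw⟩
  -- make `κ ≠ 0`
  obtain ⟨v', hv', hκ⟩ : ∃ v', ((p, q), (u, v')) ∈ W ∧ g.b p * u + g.c p * v' ≠ 0 := by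
    by_cases hκ : g.b p * u + g.c p * v ≠ 0
    · exact ⟨v, hw, hκ⟩
    · push Not at hκ
      have hc : Continuous fun s : ℝ => (((p, q), (u, s)) : (ℝ × ℝ) × (ℝ × ℝ)) := by fun_prop
      obtain ⟨ρ, hρ, hball⟩ := Metric.isOpen_iff.1 (hW.preimage hc) v hw
      refine ⟨v + ρ / 2, hball ?_, ?_⟩
      · rw [Metric.mem_ball, Real.dist_eq, add_sub_cancel_left, abs_of_pos (by linarith)]
        linarith
      · have h1 : g.b p * u + g.c p * (v + ρ / 2) = g.c p * (ρ / 2) := by linarith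
        rw [h1]
        exact (mul_pos (g.pos_c p) (by linarith)).ne'
  set κ := g.b p * u + g.c p * v' with hκd
  have hmu : Continuous g.mu := g.mu_smooth.continuous
  have hb : Continuous g.b := g.smooth_b.continuous
  have hcc : Continuous g.c := g.smooth_c.continuous
  have hψ : Continuous fun z : ℝ × ℝ => (((z.1, q), (κ * z.2 / g.mu z.1,
      (κ - g.b z.1 * (κ * z.2 / g.mu z.1)) / g.c z.1)) : (ℝ × ℝ) × (ℝ × ℝ)) := by
    have h1 : Continuous fun z : ℝ × ℝ => κ * z.2 / g.mu z.1 :=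
      (continuous_const.mul continuous_snd).div (hmu.comp continuous_fst)
        fun z => (g.mu_pos z.1).ne'
    have h2 : Continuous fun z : ℝ × ℝ => (κ - g.b z.1 * (κ * z.2 / g.mu z.1)) / g.c z.1 :=
      (continuous_const.sub ((hb.comp continuous_fst).mul h1)).div (hcc.comp continuous_fst)
        fun z => (g.pos_c z.1).ne'
    exact (continuous_fst.prodMk continuous_const).prodMk (h1.prodMk h2)
  have hmem : ((p, g.mu p * u / κ) : ℝ × ℝ) ∈ (fun z : ℝ × ℝ => (((z.1, q), (κ * z.2 / g.mu z.1,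
      (κ - g.b z.1 * (κ * z.2 / g.mu z.1)) / g.c z.1)) : (ℝ × ℝ) × (ℝ × ℝ))) ⁻¹' W := by
    show (((p, q), (κ * (g.mu p * u / κ) / g.mu p,
      (κ - g.b p * (κ * (g.mu p * u / κ) / g.mu p)) / g.c p)) : (ℝ × ℝ) × (ℝ × ℝ)) ∈ W
    have e1 : κ * (g.mu p * u / κ) / g.mu p = u := by
      have := (g.mu_pos p).ne'
      field_simp
    have e2 : (κ - g.b p * u) / g.c p = v' := by
      have := (g.pos_c p).ne'
      rw [hκd]
      field_simp
      ring
    rw [e1, e2]
    exact hv'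
  obtain ⟨z, hz, hcl⟩ := h _ (hW.preimage hψ) ⟨_, hmem⟩
  refine ⟨_, hz, ?_⟩
  show ClosedVec g z.1 q (κ * z.2 / g.mu z.1) ((κ - g.b z.1 * (κ * z.2 / g.mu z.1)) / g.c z.1)
  have hk : g.b z.1 * (κ * z.2 / g.mu z.1)
      + g.c z.1 * ((κ - g.b z.1 * (κ * z.2 / g.mu z.1)) / g.c z.1) = κ := by
    have := (g.pos_c z.1).ne'
    field_simp
    ring
  apply lift_closed
  · rw [hk]
    exact hκ
  · rw [hk]
    have e : g.mu z.1 * (κ * z.2 / g.mu z.1) / κ = z.2 := by
      have := (g.mu_pos z.1).ne'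
      field_simp
    rw [e]
    exact hcl

end Pool.Agent.CGD
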