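import Pool.Agent.CGD.Flow

set_option autoImplicit false

/-! Module Dep: continuous dependence of the flow and of the advance on the field (Gronwall,
`dist_le_of_approx_trajectories_ODE` with `f = fl d' z` an approximate solution of the field of `d` with error `δ/2`, and
`g = fl d z`; negative times via `fl_rev`).  For `Yw`: for `|t| ≤ T`,
`|Yw d' w' z t - Yw d w z t| ≤ T (sup |w' - w| + modulus of w at the distance of the orbits)`. -/

namespace Pool.Agent.CGD

open Set Filter Topology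

private theorem Dep_lip {d : ℝ → ℝ} {K : NNReal} (hK : LipschitzWith K d) :
    LipschitzWith (max 1 K) (fun z : ℝ × ℝ => (z.2, -(d z.1) / 2)) := by
  refine LipschitzWith.of_dist_le_mul fun z z' => ?_
  have hm : dist z z' = max (dist z.1 z'.1) (dist z.2 z'.2) := Prod.dist_eq
  have h1 : dist z.1 z'.1 ≤ dist z z' := by rw [hm]; exact le_max_left _ _
  have h2 : dist z.2 z'.2 ≤ dist z z' := by rw [hm]; exact le_max_right _ _
  have hd := hK.dist_le_mul z.1 z'.1
  have c1 : (1 : ℝ) ≤ ((max 1 K : NNReal) : ℝ) := by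
    exact_mod_cast le_max_left (1 : NNReal) K
  have c2 : (K : ℝ) ≤ ((max 1 K : NNReal) : ℝ) := by
    exact_mod_cast le_max_right (1 : NNReal) K
  have hnn : 0 ≤ dist z z' := dist_nonneg
  rw [Prod.dist_eq]
  refine max_le ?_ ?_
  · calc dist z.2 z'.2 ≤ dist z z' := h2
      _ = 1 * dist z z' := (one_mul _).symm
      _ ≤ _ := mul_le_mul_of_nonneg_right c1 hnn
  · have e1 : dist (-(d z.1) / 2) (-(d z'.1) / 2) = dist (d z.1) (d z'.1) / 2 := by
      rw [Real.dist_eq, Real.dist_eq]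
      have : -(d z.1) / 2 - -(d z'.1) / 2 = -((d z.1 - d z'.1) / 2) := by ring
      rw [this, abs_neg, abs_div]
      norm_num
    have h3 : (K : ℝ) * dist z.1 z'.1 ≤ ((max 1 K : NNReal) : ℝ) * dist z z' :=
      mul_le_mul c2 h1 dist_nonneg (by positivity)
    have h4 : (0:ℝ) ≤ dist (d z.1) (d z'.1) := dist_nonneg
    show dist (-(d z.1) / 2) (-(d z'.1) / 2) ≤ _
    rw [e1]
    linarith

private theorem Dep_pos {d d' : ℝ → ℝ} (hd : Nice d) (hd' : Nice d') {K : NNReal} (hK : LipschitzWith K d) {δ : ℝ}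
    (h : ∀ x, |d' x - d x| ≤ δ) (z : ℝ × ℝ) {t : ℝ} (ht : 0 ≤ t) :
    dist (fl d' z t) (fl d z t) ≤ gronwallBound 0 (max 1 K : NNReal) (δ / 2 + 0) (t - 0) := by
  have s1 := fl_sol hd' z
  have s2 := fl_sol hd z
  refine dist_le_of_approx_trajectories_ODE (E := ℝ × ℝ) (v := fun _ z => (z.2, -(d z.1) / 2))
    (f := fl d' z) (g := fl d z) (f' := fun t => ((fl d' z t).2, -(d' (fl d' z t).1) / 2))
    (g' := fun t => ((fl d z t).2, -(d (fl d z t).1) / 2)) (a := 0) (b := t) (εf := δ / 2) (εg := 0) (δ := 0)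
    (fun _ => Dep_lip hK) ?_ ?_ ?_ ?_ ?_ ?_ ?_ t ⟨ht, le_refl t⟩
  · exact fun s _ => (s1 s).continuousAt.continuousWithinAt
  · exact fun s _ => (s1 s).hasDerivWithinAt
  · intro s _
    show dist ((fl d' z s).2, -(d' (fl d' z s).1) / 2) ((fl d' z s).2, -(d (fl d' z s).1) / 2) ≤ δ / 2
    rw [Prod.dist_eq]
    refine max_le ?_ ?_
    · have h0 := h 0
      have := abs_nonneg (d' 0 - d 0)
      show dist (fl d' z s).2 (fl d' z s).2 ≤ δ / 2
      rw [dist_self]
      linarith
    · show dist (-(d' (fl d' z s).1) / 2) (-(d (fl d' z s).1) / 2) ≤ δ / 2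
      rw [Real.dist_eq]
      have : -(d' (fl d' z s).1) / 2 - -(d (fl d' z s).1) / 2 = -((d' (fl d' z s).1 - d (fl d' z s).1) / 2) := by ring
      rw [this, abs_neg, abs_div, abs_of_pos (show (0:ℝ) < 2 by norm_num)]
      have := h (fl d' z s).1
      linarith
  · exact fun s _ => (s2 s).continuousAt.continuousWithinAt
  · exact fun s _ => (s2 s).hasDerivWithinAt
  · intro s _
    exact (dist_self _).le
  · rw [fl_zero hd', fl_zero hd, dist_self]

theorem fl_dep {d : ℝ → ℝ} (hd : Nice d) (T ε : ℝ) (hε : 0 < ε) :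
    ∃ δ > 0, ∀ d' : ℝ → ℝ, Nice d' → (∀ x, |d' x - d x| ≤ δ) →
      ∀ z : ℝ × ℝ, ∀ t, |t| ≤ T → dist (fl d' z t) (fl d z t) ≤ ε := by
  obtain ⟨K, hK⟩ := hd.lip
  set L : ℝ := ((max 1 K : NNReal) : ℝ) with hL
  have hL1 : (1 : ℝ) ≤ L := by
    rw [hL]; exact_mod_cast le_max_left (1 : NNReal) K
  refine ⟨ε * Real.exp (-(L * |T|)), by positivity, fun d' hd' h z t ht => ?_⟩
  have key : ∀ (z : ℝ × ℝ) (t : ℝ), 0 ≤ t → t ≤ |T| → dist (fl d' z t) (fl d z t) ≤ ε := by
    intro z t ht0 htT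
    refine (Dep_pos hd hd' hK h z ht0).trans ?_
    rw [← hL, gronwallBound_of_K_ne_0 (by linarith : L ≠ 0)]
    simp only [zero_mul, zero_add, add_zero, sub_zero]
    have e1 : Real.exp (L * t) ≤ Real.exp (L * |T|) := Real.exp_le_exp.2 (by nlinarith)
    have e2 : Real.exp (-(L * |T|)) * Real.exp (L * |T|) = 1 := by
      rw [← Real.exp_add]; simp
    have e3 : 0 < Real.exp (-(L * |T|)) := Real.exp_pos _
    have e4 : 1 ≤ Real.exp (L * t) := Real.one_le_exp (by positivity)
    have e5 : ε * Real.exp (-(L * |T|)) / 2 / L ≤ ε * Real.exp (-(L * |T|)) := by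
      rw [div_div]
      apply div_le_self (by positivity)
      linarith
    calc ε * Real.exp (-(L * |T|)) / 2 / L * (Real.exp (L * t) - 1)
        ≤ ε * Real.exp (-(L * |T|)) * (Real.exp (L * t) - 1) :=
          mul_le_mul_of_nonneg_right e5 (by linarith)
      _ ≤ ε * Real.exp (-(L * |T|)) * Real.exp (L * |T|) :=
          mul_le_mul_of_nonneg_left (by linarith) (by positivity)
      _ = ε := by rw [mul_assoc, e2, mul_one]
  have htT : |t| ≤ |T| := ht.trans (le_abs_self T)
  rcases le_total 0 t with h0 | h0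
  · exact key z t h0 ((le_abs_self t).trans htT)
  · have h1 := key (z.1, -z.2) (-t) (by linarith) ((neg_le_abs t).trans htT)
    rw [fl_rev hd', fl_rev hd, neg_neg, Prod.dist_eq] at h1
    rw [Prod.dist_eq]
    simpa only [dist_neg_neg] using h1

theorem Yw_dep {d w : ℝ → ℝ} (hd : Nice d) (hw : UniformContinuous w) (T ε : ℝ) (hε : 0 < ε) :
    ∃ δ > 0, ∀ d' w' : ℝ → ℝ, Nice d' → Continuous w' → (∀ x, |d' x - d x| ≤ δ) →
      (∀ x, |w' x - w x| ≤ δ) →
      ∀ z : ℝ × ℝ, ∀ t, |t| ≤ T → |Yw d' w' z t - Yw d w z t| ≤ ε := by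
  set T1 : ℝ := |T| + 1 with hT1
  have hT1p : 0 < T1 := by positivity
  set e : ℝ := ε / (2 * T1) with he
  have hep : 0 < e := by positivity
  obtain ⟨η, hη, hmod⟩ := Metric.uniformContinuous_iff.1 hw e hep
  obtain ⟨δ1, hδ1, hfl⟩ := fl_dep hd T (η / 2) (by linarith)
  refine ⟨min δ1 e, lt_min hδ1 hep, fun d' w' hd' hw' h h' z t ht => ?_⟩
  have c1 : Continuous fun s => (fl d' z s).1 :=
    continuous_iff_continuousAt.2 fun s => (hasDerivAt_X hd' z s).continuousAt
  have c2 : Continuous fun s => (fl d z s).1 :=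
    continuous_iff_continuousAt.2 fun s => (hasDerivAt_X hd z s).continuousAt
  have i1 : IntervalIntegrable (fun s => w' ((fl d' z s).1)) MeasureTheory.volume 0 t :=
    (hw'.comp c1).intervalIntegrable _ _
  have i2 : IntervalIntegrable (fun s => w ((fl d z s).1)) MeasureTheory.volume 0 t :=
    (hw.continuous.comp c2).intervalIntegrable _ _
  unfold Yw
  rw [← intervalIntegral.integral_sub i1 i2]
  have hb : ∀ s ∈ Set.uIoc 0 t, ‖w' ((fl d' z s).1) - w ((fl d z s).1)‖ ≤ 2 * e := by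
    intro s hs
    have hsT : |s| ≤ T := by
      refine le_trans ?_ ht
      rcases le_total 0 t with h0 | h0
      · rw [Set.uIoc_of_le h0] at hs
        rw [abs_of_pos hs.1, abs_of_nonneg h0]
        exact hs.2
      · rw [Set.uIoc_of_ge h0] at hs
        rw [abs_of_nonpos hs.2, abs_of_nonpos h0]
        linarith [hs.1]
    have a1 := h' ((fl d' z s).1)
    have a2 := hfl d' hd' (fun x => (h x).trans (min_le_left _ _)) z s hsT
    have a3 : dist ((fl d' z s).1) ((fl d z s).1) < η := by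
      have : dist ((fl d' z s).1) ((fl d z s).1) ≤ dist (fl d' z s) (fl d z s) := by
        rw [Prod.dist_eq]; exact le_max_left _ _
      linarith
    have a4 := hmod a3
    rw [Real.dist_eq] at a4
    have a5 : |w' ((fl d' z s).1) - w ((fl d' z s).1)| ≤ e := a1.trans (min_le_right _ _)
    rw [Real.norm_eq_abs]
    calc |w' ((fl d' z s).1) - w ((fl d z s).1)|
        ≤ |w' ((fl d' z s).1) - w ((fl d' z s).1)| + |w ((fl d' z s).1) - w ((fl d z s).1)| :=
          abs_sub_le _ _ _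
      _ ≤ 2 * e := by linarith
  have hI := intervalIntegral.norm_integral_le_of_norm_le_const hb
  rw [Real.norm_eq_abs, sub_zero] at hI
  refine hI.trans ?_
  have htT : |t| ≤ T1 := by
    rw [hT1]
    have := ht.trans (le_abs_self T)
    linarith
  calc 2 * e * |t| ≤ 2 * e * T1 := mul_le_mul_of_nonneg_left htT (by positivity)
    _ = ε := by rw [he]; field_simp

end Pool.Agent.CGD
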