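import Pool.Agent.CGD.Base

set_option autoImplicit false

/-! Module Est: the reduced data depend continuously on the metric in the `C¹` topology.

The map `Φ(a,b,c,c') = (1/c, -c'/c², √(a - b²/c)/c)` is continuous on the open set `{c > 0, ac - b² > 0} ⊆ ℝ⁴`; the set `K = {(a x, b x, c x, c' x) | x ∈ [0,1]}` is
compact in it; `IsCompact.uniformContinuousAt_of_continuousAt` gives `δ > 0` such that `|Φ(P') - Φ(P)| ≤ ε` for `P ∈ K`, `|P' - P| ≤ δ`.  For `g'` with `CkClose 1 δ g g'` use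
`iteratedDeriv_zero`, `iteratedDeriv_one` and periodicity (`x` may be replaced by `Int.fract x` only for BOTH metrics: all functions are 1-periodic). -/

namespace Pool.Agent.CGD

open Set Filter Topology

private noncomputable def Est_P (g : InvMetric) (x : ℝ) : ℝ × ℝ × ℝ × ℝ :=
  (g.a x, g.b x, g.c x, deriv g.c x)

private noncomputable def Est_F (p : ℝ × ℝ × ℝ × ℝ) : ℝ × ℝ × ℝ :=
  (1 / p.2.2.1, -p.2.2.2 / p.2.2.1 ^ 2, 1 / p.2.2.1 * √(p.1 - p.2.1 ^ 2 / p.2.2.1))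

private theorem Est_FP (g : InvMetric) (x : ℝ) : Est_F (Est_P g x) = (g.hh x, g.dd x, g.ww x) := rfl

private theorem Est_Fcont (p : ℝ × ℝ × ℝ × ℝ) (hp : p.2.2.1 ≠ 0) : ContinuousAt Est_F p := by
  have h2 : p.2.2.1 ^ 2 ≠ 0 := pow_ne_zero 2 hp
  unfold Est_F
  fun_prop (disch := assumption)

private theorem Est_Pcont (g : InvMetric) : Continuous (Est_P g) := by
  have h1 := g.smooth_a.continuous
  have h2 := g.smooth_b.continuous
  have h3 := g.smooth_c.continuous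
  have h4 : Continuous (deriv g.c) := g.smooth_c.continuous_deriv (by simp)
  unfold Est_P
  fun_prop

private theorem Est_Pper (g : InvMetric) : Function.Periodic (Est_P g) 1 := by
  intro x
  unfold Est_P
  rw [g.per_a, g.per_b, g.per_c, per_deriv g.per_c]

theorem est (g : InvMetric) (ε : ℝ) (hε : 0 < ε) :
    ∃ δ > 0, ∀ g' : InvMetric, CkClose 1 δ g g' → ∀ x, |g'.hh x - g.hh x| ≤ ε ∧
      |g'.dd x - g.dd x| ≤ ε ∧ |g'.ww x - g.ww x| ≤ ε := by
  have hK : IsCompact (Est_P g '' Icc 0 1) := isCompact_Icc.image (Est_Pcont g)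
  have hu := hK.uniformContinuousAt_of_continuousAt Est_F (by
    rintro _ ⟨x, _, rfl⟩
    exact Est_Fcont _ (g.pos_c x).ne') (Metric.dist_mem_uniformity hε)
  obtain ⟨δ, hδ, H⟩ := Metric.mem_uniformity_dist.mp hu
  refine ⟨δ, hδ, fun g' hg' x => ?_⟩
  have hmem : Est_P g x ∈ Est_P g '' Icc 0 1 := by
    obtain ⟨y, hy, hxy⟩ := (Est_Pper g).exists_mem_Ico₀ one_pos x
    exact ⟨y, ⟨hy.1, hy.2.le⟩, hxy.symm⟩
  obtain ⟨ha, hb, hc⟩ := hg' 0 (by norm_num) x
  obtain ⟨_, _, hc'⟩ := hg' 1 le_rfl x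
  rw [iteratedDeriv_zero, iteratedDeriv_zero] at ha hb hc
  rw [iteratedDeriv_one, iteratedDeriv_one] at hc'
  have hd : dist (Est_P g x) (Est_P g' x) < δ := by
    unfold Est_P
    simp only [Prod.dist_eq, Real.dist_eq, max_lt_iff]
    rw [abs_sub_comm] at ha hb hc hc'
    exact ⟨ha, hb, hc, hc'⟩
  have h1 : dist (Est_F (Est_P g x)) (Est_F (Est_P g' x)) < ε := H hd hmem
  rw [Est_FP, Est_FP] at h1
  simp only [Prod.dist_eq, Real.dist_eq, max_lt_iff] at h1
  obtain ⟨h2, h3, h4⟩ := h1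
  rw [abs_sub_comm] at h2 h3 h4
  exact ⟨h2.le, h3.le, h4.le⟩

end Pool.Agent.CGD
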