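import Pool.Agent.CGD.Base

set_option autoImplicit false

/-! Module LocMod: a smooth function with small 2-jet at `x0` can be cut off near `x0` with small `C²` norm, and made periodic.

Fix once and for all a smooth bump `ρ : ℝ → ℝ`, `ρ = 1` on `[-1,1]`, `ρ = 0` outside `[-2,2]`, `0 ≤ ρ ≤ 1` (`ContDiffBump` centered at `0` with `rIn = 1`, `rOut = 2`), and let `Cρ ≥ 1` bound `|ρ|, |ρ'|, |ρ''|`
(compact support).  Given `G` with `G(x0) = G'(x0) = 0`, `|G''(x0)| ≤ ε'`: by continuity `|G''| ≤ 2ε'` (if `ε' > 0`) on `|x - x0| ≤ 2r` for `r` small (`2 r < 1/2`), hence `|G'| ≤ 4 r ε'`, `|G| ≤ 8 r² ε'` there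
(mean value).  `F0(x) = ρ((x - x0)/r) G(x)` has `|F0| ≤ 8 Cρ ε'`, `|F0'| ≤ Cρ |G|/r + Cρ |G'| ≤ 12 Cρ ε'`, `|F0''| ≤ Cρ |G|/r² + 2 Cρ |G'|/r + Cρ |G''| ≤ 18 Cρ ε'` (all for `r ≤ 1`), support in
`[x0 - 2r, x0 + 2r]`.  Periodic extension: `F(x) = F0(x0 + (Int.fract (x - x0 + 1/2) - 1/2))`: near a point `x` with `|x - x0 - k| < 1/2`, `F = F0(· - k)`; near the other points (`x - x0 - k = 1/2`) `F = 0`.  So `F` is smooth, periodic, and its
derivatives are those of `F0` at the translated point or `0`.  So `ε' = ε1/(20 Cρ)` works. -/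

namespace Pool.Agent.CGD

open Set Filter Topology
open scoped ContDiff

/-- periodic extension of a smooth function supported in `(x0 - 1/2, x0 + 1/2)` -/
theorem per_extend {F0 : ℝ → ℝ} (hF : ContDiff ℝ ∞ F0) {x0 r : ℝ} (hr : 0 < r) (hr' : r < 1 / 2)
    (hsupp : ∀ x, r ≤ |x - x0| → F0 x = 0) :
    ∃ F : ℝ → ℝ, ContDiff ℝ ∞ F ∧ (∀ x, F (x + 1) = F x) ∧ (∀ x, |x - x0| ≤ r → F x = F0 x) ∧
      ∀ j x, ∃ x', iteratedDeriv j F x = iteratedDeriv j F0 x' := by
  -- the extension
  let F : ℝ → ℝ := fun x => F0 (x - (⌊x - x0 + 1 / 2⌋ : ℤ))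
  have key : ∀ (k : ℤ) (y : ℝ), |y - x0 - k| < 1 - r → F y = F0 (y - k) := by
    intro k y hy
    show F0 (y - (⌊y - x0 + 1 / 2⌋ : ℤ)) = F0 (y - k)
    by_cases hmk : (⌊y - x0 + 1 / 2⌋ : ℤ) = k
    · rw [hmk]
    · have h1 : ((⌊y - x0 + 1 / 2⌋ : ℤ) : ℝ) ≤ y - x0 + 1 / 2 := Int.floor_le _
      have h2 : y - x0 + 1 / 2 < (⌊y - x0 + 1 / 2⌋ : ℤ) + 1 := Int.lt_floor_add_one _
      generalize (⌊y - x0 + 1 / 2⌋ : ℤ) = m at hmk h1 h2
      have h3 : (1 : ℝ) ≤ |(m : ℝ) - k| := by
        have h4 : (1 : ℤ) ≤ |m - k| := Int.one_le_abs (sub_ne_zero.2 hmk)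
        have h5 : ((1 : ℤ) : ℝ) ≤ ((|m - k| : ℤ) : ℝ) := by exact_mod_cast h4
        rw [Int.cast_abs] at h5
        simpa using h5
      have h6 : |y - x0 - m| ≤ 1 / 2 := by
        rw [abs_le]
        constructor <;> linarith
      have e1 : |(m : ℝ) - k| ≤ |y - x0 - k| + |y - x0 - m| := by
        have : (m : ℝ) - k = (y - x0 - k) - (y - x0 - m) := by ring
        rw [this]
        exact abs_sub _ _
      have e2 : r ≤ |y - m - x0| := by
        have : y - m - x0 = y - x0 - m := by ring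
        rw [this]
        linarith
      have e3 : r ≤ |y - k - x0| := by
        have : y - k - x0 = y - x0 - k := by ring
        rw [this]
        linarith
      rw [hsupp _ e2, hsupp _ e3]
  have near : ∀ x : ℝ, F =ᶠ[𝓝 x] fun y => F0 (y - (⌊x - x0 + 1 / 2⌋ : ℤ)) := by
    intro x
    have h1 : ((⌊x - x0 + 1 / 2⌋ : ℤ) : ℝ) ≤ x - x0 + 1 / 2 := Int.floor_le _
    have h2 : x - x0 + 1 / 2 < (⌊x - x0 + 1 / 2⌋ : ℤ) + 1 := Int.lt_floor_add_one _
    generalize (⌊x - x0 + 1 / 2⌋ : ℤ) = m at h1 h2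
    have h6 : |x - x0 - m| < 1 - r := by
      rw [abs_lt]
      constructor <;> linarith
    have hopen : IsOpen {y : ℝ | |y - x0 - m| < 1 - r} :=
      isOpen_lt (by fun_prop) continuous_const
    filter_upwards [hopen.mem_nhds h6] with y hy
    exact key m y hy
  refine ⟨F, ?_, ?_, ?_, ?_⟩
  · rw [contDiff_iff_contDiffAt]
    intro x
    refine ContDiffAt.congr_of_eventuallyEq ?_ (near x)
    exact (hF.comp (contDiff_id.sub contDiff_const)).contDiffAt
  · intro x
    show F0 (x + 1 - (⌊x + 1 - x0 + 1 / 2⌋ : ℤ)) = F0 (x - (⌊x - x0 + 1 / 2⌋ : ℤ))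
    have : x + 1 - x0 + 1 / 2 = (x - x0 + 1 / 2) + 1 := by ring
    rw [this, Int.floor_add_one]
    congr 1
    push_cast
    ring
  · intro x hx
    have := key 0 x (by simp only [Int.cast_zero, sub_zero]; linarith)
    simpa using this
  · intro j x
    refine ⟨x - (⌊x - x0 + 1 / 2⌋ : ℤ), ?_⟩
    rw [(near x).iteratedDeriv_eq j]
    rw [iteratedDeriv_comp_sub_const]

/-- product formulas for the first two derivatives -/
theorem LocMod_deriv2 {u v : ℝ → ℝ} (hu : ContDiff ℝ ∞ u) (hv : ContDiff ℝ ∞ v) :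
    (∀ x, deriv (fun y => u y * v y) x = deriv u x * v x + u x * deriv v x) ∧
    (∀ x, deriv (deriv (fun y => u y * v y)) x =
      deriv (deriv u) x * v x + 2 * (deriv u x * deriv v x) + u x * deriv (deriv v) x) := by
  have du : Differentiable ℝ u := hu.differentiable (by simp)
  have dv : Differentiable ℝ v := hv.differentiable (by simp)
  have hu' : ContDiff ℝ ∞ (deriv u) := (contDiff_infty_iff_deriv.1 hu).2
  have hv' : ContDiff ℝ ∞ (deriv v) := (contDiff_infty_iff_deriv.1 hv).2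
  have du' : Differentiable ℝ (deriv u) := hu'.differentiable (by simp)
  have dv' : Differentiable ℝ (deriv v) := hv'.differentiable (by simp)
  have h1 : ∀ x, deriv (fun y => u y * v y) x = deriv u x * v x + u x * deriv v x := by
    intro x
    exact ((du x).hasDerivAt.mul (dv x).hasDerivAt).deriv
  refine ⟨h1, ?_⟩
  intro x
  have h2 : deriv (fun y => u y * v y) = fun x => deriv u x * v x + u x * deriv v x := funext h1
  rw [h2]
  have h3 := ((du' x).hasDerivAt.mul (dv x).hasDerivAt).add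
    ((du x).hasDerivAt.mul (dv' x).hasDerivAt)
  have h4 := h3.deriv
  have h5 : deriv (fun x => deriv u x * v x + u x * deriv v x) x =
      deriv (deriv u) x * v x + deriv u x * deriv v x +
        (deriv u x * deriv v x + u x * deriv (deriv v) x) := h4
  rw [h5]
  ring

theorem LocMod_scale {ρ : ℝ → ℝ} (hρ : ContDiff ℝ ∞ ρ) (x0 r : ℝ) :
    (∀ x, deriv (fun y => ρ ((y - x0) / r)) x = deriv ρ ((x - x0) / r) / r) ∧
    (∀ x, deriv (deriv (fun y => ρ ((y - x0) / r))) x =
      deriv (deriv ρ) ((x - x0) / r) / r / r) := by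
  have dρ : Differentiable ℝ ρ := hρ.differentiable (by simp)
  have hρ' : ContDiff ℝ ∞ (deriv ρ) := (contDiff_infty_iff_deriv.1 hρ).2
  have dρ' : Differentiable ℝ (deriv ρ) := hρ'.differentiable (by simp)
  have hin : ∀ x : ℝ, HasDerivAt (fun y : ℝ => (y - x0) / r) (1 / r) x := by
    intro x
    exact ((hasDerivAt_id x).sub_const x0).div_const r
  have h1 : ∀ x, deriv (fun y => ρ ((y - x0) / r)) x = deriv ρ ((x - x0) / r) / r := by
    intro x
    have := ((dρ ((x - x0) / r)).hasDerivAt.comp x (hin x)).deriv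
    rw [show (fun y => ρ ((y - x0) / r)) = ρ ∘ (fun y : ℝ => (y - x0) / r) from rfl, this]
    ring
  refine ⟨h1, ?_⟩
  intro x
  rw [show deriv (fun y => ρ ((y - x0) / r)) = fun x => deriv ρ ((x - x0) / r) / r from funext h1]
  have := (((dρ' ((x - x0) / r)).hasDerivAt.comp x (hin x)).div_const r).deriv
  have h2 : deriv (fun x => deriv ρ ((x - x0) / r) / r) x =
      deriv (deriv ρ) ((x - x0) / r) * (1 / r) / r := this
  rw [h2]
  ring

/-- a mean value bound on a ball around `x0` -/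
theorem LocMod_mv {f : ℝ → ℝ} (hf : Differentiable ℝ f) {x0 d B : ℝ} (h0 : f x0 = 0)
    (hB : ∀ x, |x - x0| ≤ d → |deriv f x| ≤ B) (hB0 : 0 ≤ B) {x : ℝ} (hx : |x - x0| ≤ d) :
    |f x| ≤ B * d := by
  have hconv : Convex ℝ (Icc (x0 - d) (x0 + d)) := convex_Icc _ _
  have hd : 0 ≤ d := le_trans (abs_nonneg _) hx
  have hmem : ∀ y : ℝ, y ∈ Icc (x0 - d) (x0 + d) ↔ |y - x0| ≤ d := by
    intro y
    rw [abs_le, mem_Icc]
    constructor
    · rintro ⟨h1, h2⟩; constructor <;> linarith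
    · rintro ⟨h1, h2⟩; constructor <;> linarith
  have := hconv.norm_image_sub_le_of_norm_deriv_le (f := f) (C := B) (x := x0) (y := x)
    (fun y _ => hf y) (fun y hy => by rw [Real.norm_eq_abs]; exact hB y ((hmem y).1 hy))
    ((hmem x0).2 (by simpa using hd)) ((hmem x).2 hx)
  rw [h0, sub_zero, Real.norm_eq_abs, Real.norm_eq_abs] at this
  exact this.trans (mul_le_mul_of_nonneg_left hx hB0)

theorem loc_mod (ε1 : ℝ) (hε1 : 0 < ε1) : ∃ ε' > 0, ∀ (x0 : ℝ) (G : ℝ → ℝ), ContDiff ℝ ∞ G →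
    G x0 = 0 → deriv G x0 = 0 → |deriv (deriv G) x0| ≤ ε' →
    ∃ r > 0, r < 1 / 4 ∧ ∃ F : ℝ → ℝ, ContDiff ℝ ∞ F ∧ (∀ x, F (x + 1) = F x) ∧
      (∀ x ∈ Icc (x0 - r) (x0 + r), F x = G x) ∧ ∀ j ≤ 2, ∀ x, |iteratedDeriv j F x| < ε1 := by
  -- the bump
  let b : ContDiffBump (0 : ℝ) := ⟨1, 2, one_pos, one_lt_two⟩
  let ρ : ℝ → ℝ := fun x => b x
  have hρ : ContDiff ℝ ∞ ρ := b.contDiff
  have hρc : HasCompactSupport ρ := b.hasCompactSupport
  have hρ1 : ContDiff ℝ ∞ (deriv ρ) := (contDiff_infty_iff_deriv.1 hρ).2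
  have hρ2 : ContDiff ℝ ∞ (deriv (deriv ρ)) := (contDiff_infty_iff_deriv.1 hρ1).2
  obtain ⟨C0, hC0⟩ := hρ.continuous.bounded_above_of_compact_support hρc
  obtain ⟨C1, hC1⟩ := hρ1.continuous.bounded_above_of_compact_support hρc.deriv
  obtain ⟨C2, hC2⟩ := hρ2.continuous.bounded_above_of_compact_support hρc.deriv.deriv
  let C : ℝ := 1 + |C0| + |C1| + |C2|
  have hC : 1 ≤ C := by
    have := abs_nonneg C0; have := abs_nonneg C1; have := abs_nonneg C2
    show 1 ≤ 1 + |C0| + |C1| + |C2|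
    linarith
  have bC0 : ∀ x, |ρ x| ≤ C := fun x => by
    have h1 := hC0 x
    rw [Real.norm_eq_abs] at h1
    have := le_abs_self C0; have := abs_nonneg C1; have := abs_nonneg C2
    show |ρ x| ≤ 1 + |C0| + |C1| + |C2|
    linarith
  have bC1 : ∀ x, |deriv ρ x| ≤ C := fun x => by
    have h1 := hC1 x
    rw [Real.norm_eq_abs] at h1
    have := le_abs_self C1; have := abs_nonneg C0; have := abs_nonneg C2
    show |deriv ρ x| ≤ 1 + |C0| + |C1| + |C2|
    linarith
  have bC2 : ∀ x, |deriv (deriv ρ) x| ≤ C := fun x => by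
    have h1 := hC2 x
    rw [Real.norm_eq_abs] at h1
    have := le_abs_self C2; have := abs_nonneg C1; have := abs_nonneg C0
    show |deriv (deriv ρ) x| ≤ 1 + |C0| + |C1| + |C2|
    linarith
  have hCpos : 0 < C := by linarith
  have hbIn : ∀ x, |x| ≤ 1 → ρ x = 1 := fun x hx => b.one_of_mem_closedBall (by
    simpa [Metric.mem_closedBall, Real.dist_eq, b] using hx)
  have hbOut : ∀ x, 2 ≤ |x| → ρ x = 0 := fun x hx => b.zero_of_le_dist (by
    simpa [Real.dist_eq, b] using hx)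
  refine ⟨ε1 / (20 * C), by positivity, ?_⟩
  intro x0 G hG g0 g1 g2
  set ε' := ε1 / (20 * C) with hε'
  have hε'pos : 0 < ε' := by positivity
  have hCε : C * ε' = ε1 / 20 := by
    rw [hε']; field_simp
  have hG1 : ContDiff ℝ ∞ (deriv G) := (contDiff_infty_iff_deriv.1 hG).2
  have hG2 : ContDiff ℝ ∞ (deriv (deriv G)) := (contDiff_infty_iff_deriv.1 hG1).2
  have dG : Differentiable ℝ G := hG.differentiable (by simp)
  have dG1 : Differentiable ℝ (deriv G) := hG1.differentiable (by simp)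
  have hev : ∀ᶠ x in 𝓝 x0, |deriv (deriv G) x| < 2 * ε' := by
    have hc : ContinuousAt (fun x => |deriv (deriv G) x|) x0 :=
      (hG2.continuous.abs).continuousAt
    exact hc.eventually_lt continuousAt_const (by linarith)
  obtain ⟨r0, hr0, hball⟩ := Metric.eventually_nhds_iff.1 hev
  obtain ⟨r, hr, hr1, hr2⟩ : ∃ r > 0, r < 1 / 4 ∧ 2 * r < r0 :=
    ⟨min (1 / 8) (r0 / 4), by positivity, lt_of_le_of_lt (min_le_left _ _) (by norm_num), by
      have := min_le_right (1 / 8) (r0 / 4); linarith⟩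
  have bG2 : ∀ x, |x - x0| ≤ 2 * r → |deriv (deriv G) x| ≤ 2 * ε' := fun x hx =>
    (hball (by rw [Real.dist_eq]; linarith)).le
  have bG1 : ∀ x, |x - x0| ≤ 2 * r → |deriv G x| ≤ 2 * ε' * (2 * r) := fun x hx =>
    LocMod_mv dG1 g1 bG2 (by positivity) hx
  have bG0 : ∀ x, |x - x0| ≤ 2 * r → |G x| ≤ 2 * ε' * (2 * r) * (2 * r) := fun x hx =>
    LocMod_mv dG g0 bG1 (by positivity) hx
  -- the cut off function
  let u : ℝ → ℝ := fun x => ρ ((x - x0) / r)
  have hu : ContDiff ℝ ∞ u := hρ.comp ((contDiff_id.sub contDiff_const).div_const r)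
  let F0 : ℝ → ℝ := fun x => u x * G x
  have hF0 : ContDiff ℝ ∞ F0 := hu.mul hG
  have hsupp : ∀ x, 2 * r ≤ |x - x0| → F0 x = 0 := by
    intro x hx
    have : u x = 0 := hbOut _ (by rw [abs_div, abs_of_pos hr, le_div_iff₀ hr]; exact hx)
    show u x * G x = 0
    rw [this, zero_mul]
  obtain ⟨F, hF, hper, hFeq, hFd⟩ := per_extend hF0 (x0 := x0) (r := 2 * r) (by positivity)
    (by linarith) hsupp
  refine ⟨r, hr, hr1, F, hF, hper, ?_, ?_⟩
  · intro x hx
    have hx' : |x - x0| ≤ r := by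
      rw [abs_le]; constructor <;> linarith [hx.1, hx.2]
    rw [hFeq x (by linarith)]
    have : u x = 1 := hbIn _ (by rw [abs_div, abs_of_pos hr, div_le_iff₀ hr]; linarith)
    show u x * G x = G x
    rw [this, one_mul]
  · have hu0 : ∀ x, |u x| ≤ C := fun x => bC0 _
    obtain ⟨s1, s2⟩ := LocMod_scale hρ x0 r
    have hu1 : ∀ x, |deriv u x| ≤ C / r := fun x => by
      have : deriv u x = deriv ρ ((x - x0) / r) / r := s1 x
      rw [this, abs_div, abs_of_pos hr]
      exact div_le_div_of_nonneg_right (bC1 _) hr.le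
    have hu2 : ∀ x, |deriv (deriv u) x| ≤ C / r / r := fun x => by
      have : deriv (deriv u) x = deriv (deriv ρ) ((x - x0) / r) / r / r := s2 x
      rw [this, abs_div, abs_div, abs_of_pos hr]
      exact div_le_div_of_nonneg_right (div_le_div_of_nonneg_right (bC2 _) hr.le) hr.le
    obtain ⟨p1, p2⟩ := LocMod_deriv2 hu hG
    intro j hj x
    obtain ⟨x', hx'⟩ := hFd j x
    rw [hx']
    by_cases hfar : |x' - x0| ≤ 2 * r
    · have k0 := hu0 x'; have k1 := hu1 x'; have k2 := hu2 x'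
      have l0 := bG0 x' hfar; have l1 := bG1 x' hfar; have l2 := bG2 x' hfar
      interval_cases j
      · rw [iteratedDeriv_zero]
        show |u x' * G x'| < ε1
        rw [abs_mul]
        have : |u x'| * |G x'| ≤ C * (2 * ε' * (2 * r) * (2 * r)) := by gcongr
        have e : C * (2 * ε' * (2 * r) * (2 * r)) = 8 * (r * r) * (C * ε') := by ring
        rw [e, hCε] at this
        have hrr : r * r ≤ 1 := by nlinarith
        nlinarith
      · rw [iteratedDeriv_one]
        have : deriv F0 x' = deriv u x' * G x' + u x' * deriv G x' := p1 x'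
        rw [this]
        have e1 : |deriv u x' * G x'| ≤ C / r * (2 * ε' * (2 * r) * (2 * r)) := by
          rw [abs_mul]; gcongr
        have e2 : |u x' * deriv G x'| ≤ C * (2 * ε' * (2 * r)) := by
          rw [abs_mul]; gcongr
        have e3 : C / r * (2 * ε' * (2 * r) * (2 * r)) = 8 * r * (C * ε') := by
          field_simp
          ring
        have e4 : C * (2 * ε' * (2 * r)) = 4 * r * (C * ε') := by ring
        rw [e3, hCε] at e1
        rw [e4, hCε] at e2
        have := abs_add_le (deriv u x' * G x') (u x' * deriv G x')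
        nlinarith
      · rw [iteratedDeriv_succ, iteratedDeriv_one]
        have : deriv (deriv F0) x' = deriv (deriv u) x' * G x' + 2 * (deriv u x' * deriv G x') +
          u x' * deriv (deriv G) x' := p2 x'
        rw [this]
        have e1 : |deriv (deriv u) x' * G x'| ≤ C / r / r * (2 * ε' * (2 * r) * (2 * r)) := by
          rw [abs_mul]; gcongr
        have e2 : |deriv u x' * deriv G x'| ≤ C / r * (2 * ε' * (2 * r)) := by
          rw [abs_mul]; gcongr
        have e5 : |u x' * deriv (deriv G) x'| ≤ C * (2 * ε') := by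
          rw [abs_mul]; gcongr
        have e3 : C / r / r * (2 * ε' * (2 * r) * (2 * r)) = 8 * (C * ε') := by
          field_simp
          ring
        have e4 : C / r * (2 * ε' * (2 * r)) = 4 * (C * ε') := by
          field_simp
          ring
        have e6 : C * (2 * ε') = 2 * (C * ε') := by ring
        rw [e3, hCε] at e1
        rw [e4, hCε] at e2
        rw [e6, hCε] at e5
        have t1 := abs_add_le (deriv (deriv u) x' * G x' + 2 * (deriv u x' * deriv G x'))
          (u x' * deriv (deriv G) x')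
        have t2 := abs_add_le (deriv (deriv u) x' * G x') (2 * (deriv u x' * deriv G x'))
        have t3 : |2 * (deriv u x' * deriv G x')| = 2 * |deriv u x' * deriv G x'| := by
          rw [abs_mul, abs_two]
        linarith
    · have hopen : IsOpen {y : ℝ | 2 * r < |y - x0|} := isOpen_lt continuous_const (by fun_prop)
      have hz : F0 =ᶠ[𝓝 x'] fun _ => (0 : ℝ) := by
        filter_upwards [hopen.mem_nhds (not_le.1 hfar)] with y hy
        exact hsupp y (le_of_lt hy)
      rw [hz.iteratedDeriv_eq j]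
      have : iteratedDeriv j (fun _ : ℝ => (0 : ℝ)) x' = 0 := by
        simp [iteratedDeriv_const]
      rw [this, abs_zero]
      exact hε1

/-- multiplication by a fixed smooth periodic function is bounded in `C²` (Leibniz; `iteratedDeriv` for `j = 0, 1, 2` explicitly) -/
theorem mul_bound {β : ℝ → ℝ} (hβ : ContDiff ℝ ∞ β) (per : ∀ x, β (x + 1) = β x) :
    ∃ C > 0, ∀ F : ℝ → ℝ, ContDiff ℝ ∞ F → ∀ ε > 0, (∀ j ≤ 2, ∀ x, |iteratedDeriv j F x| < ε) →
      ∀ j ≤ 2, ∀ x, |iteratedDeriv j (fun y => β y * F y) x| < C * ε := by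
  have hβ1 : ContDiff ℝ ∞ (deriv β) := (contDiff_infty_iff_deriv.1 hβ).2
  have hβ2 : ContDiff ℝ ∞ (deriv (deriv β)) := (contDiff_infty_iff_deriv.1 hβ1).2
  have per1 : ∀ x, deriv β (x + 1) = deriv β x := per_deriv per
  have per2 : ∀ x, deriv (deriv β) (x + 1) = deriv (deriv β) x := per_deriv per1
  obtain ⟨B0, h0⟩ := per_bounded hβ.continuous per
  obtain ⟨B1, h1⟩ := per_bounded hβ1.continuous per1
  obtain ⟨B2, h2⟩ := per_bounded hβ2.continuous per2
  have b0 : 0 ≤ B0 := le_trans (abs_nonneg _) (h0 0)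
  have b1 : 0 ≤ B1 := le_trans (abs_nonneg _) (h1 0)
  have b2 : 0 ≤ B2 := le_trans (abs_nonneg _) (h2 0)
  refine ⟨1 + B0 + 2 * B1 + B2, by positivity, ?_⟩
  intro F hF ε hε hFj j hj x
  obtain ⟨p1, p2⟩ := LocMod_deriv2 hβ hF
  have f0 : |F x| ≤ ε := by have := (hFj 0 (by norm_num) x).le; rwa [iteratedDeriv_zero] at this
  have f1 : |deriv F x| ≤ ε := by
    have := (hFj 1 (by norm_num) x).le; rwa [iteratedDeriv_one] at this
  have f2 : |deriv (deriv F) x| ≤ ε := by
    have := (hFj 2 (by norm_num) x).le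
    rwa [iteratedDeriv_succ, iteratedDeriv_one] at this
  have k0 := h0 x; have k1 := h1 x; have k2 := h2 x
  have m00 : |β x * F x| ≤ B0 * ε := by rw [abs_mul]; gcongr
  have m10 : |deriv β x * F x| ≤ B1 * ε := by rw [abs_mul]; gcongr
  have m20 : |deriv (deriv β) x * F x| ≤ B2 * ε := by rw [abs_mul]; gcongr
  have m01 : |β x * deriv F x| ≤ B0 * ε := by rw [abs_mul]; gcongr
  have m11 : |deriv β x * deriv F x| ≤ B1 * ε := by rw [abs_mul]; gcongr
  have m02 : |β x * deriv (deriv F) x| ≤ B0 * ε := by rw [abs_mul]; gcongr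
  have q0 : 0 ≤ B0 * ε := by positivity
  have q1 : 0 ≤ B1 * ε := by positivity
  have q2 : 0 ≤ B2 * ε := by positivity
  have expand : (1 + B0 + 2 * B1 + B2) * ε = ε + B0 * ε + 2 * (B1 * ε) + B2 * ε := by ring
  rw [expand]
  interval_cases j
  · rw [iteratedDeriv_zero]
    show |β x * F x| < _
    linarith
  · rw [iteratedDeriv_one, p1 x]
    have := abs_add_le (deriv β x * F x) (β x * deriv F x)
    linarith
  · rw [iteratedDeriv_succ, iteratedDeriv_one, p2 x]
    have t1 := abs_add_le (deriv (deriv β) x * F x + 2 * (deriv β x * deriv F x))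
      (β x * deriv (deriv F) x)
    have t2 := abs_add_le (deriv (deriv β) x * F x) (2 * (deriv β x * deriv F x))
    have t3 : |2 * (deriv β x * deriv F x)| = 2 * |deriv β x * deriv F x| := by
      rw [abs_mul, abs_two]
    linarith

end Pool.Agent.CGD
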