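import Pool.Agent.CGD.TrapDyn
import Pool.Agent.CGD.LocMod

set_option autoImplicit false

/-! Module TrapCon: metrics with non-dense closed geodesics are `C²`-dense.

Given `g`, `ε`.  Let `x0` be a maximum point of `c` (`per_max`), `c0 = c(x0)`, so `c'(x0) = 0`, `c''(x0) ≤ 0` (second derivative test: for instance if `c''(x0) > 0` then `x0` would be a strict local
minimum, `isLocalMin_of_deriv_deriv_pos`, strictness gives a contradiction).  `σ(x) = ∫_{x0}^x μ`, smooth.  For `ω > 0` let `cm(x) = c0 cos²(ω σ(x))`, `G = cm - c`: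
`G(x0) = 0`, `G'(x0) = 0`, `G''(x0) = -2 c0 ω² μ(x0)² - c''(x0)`.  Let `ε'` be given by `loc_mod` for `ε1` (chosen below).  Choose `ω > 0` with `|G''(x0)| ≤ ε'` (i.e. `ω²` near `-c''(x0)/(2 c0 μ(x0)²) ≥ 0`) and
`ω √c0/(2π)` irrational (irrationals are dense: `dense_irrational`); this gives `hirr` of `trap`.  Get `F`, `r` and put `c' = c + F`, `b' = β c'`, `a' = μ² + β² c'` with `β = b/c`, `μ² = a - b²/c`; i.e. `b' - b = β F`,
`a' - a = β² F`.  With `C ≥ 1` from `mul_bound` for `β` and `β²`, and `ε1` with `ε1 ≤ ε/C`, `ε1 < min c` we get an `InvMetric` (`a'c' - b'² = μ² c' > 0`) with `CkClose 2 ε g g'` (`iteratedDeriv_add` or `_sub`), the same `mu`, and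
`c' = cm` on `[x0 - r, x0 + r]`; apply `trap`. -/

namespace Pool.Agent.CGD

open Set Filter Topology
open scoped ContDiff

/-- second derivative at a maximum -/
private lemma trapCon_second {c : ℝ → ℝ} (hc : ContDiff ℝ ∞ c) {x0 : ℝ} (hmax : ∀ x, c x ≤ c x0) :
    deriv c x0 = 0 ∧ deriv (deriv c) x0 ≤ 0 := by
  have hloc : IsLocalMax c x0 := Filter.Eventually.of_forall hmax
  have h1 : deriv c x0 = 0 := hloc.deriv_eq_zero
  refine ⟨h1, ?_⟩
  by_contra hcon
  push Not at hcon
  have hmin : IsLocalMin c x0 :=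
    isLocalMin_of_deriv_deriv_pos hcon h1 hc.continuous.continuousAt
  have heq : c =ᶠ[𝓝 x0] fun _ => c x0 := by
    filter_upwards [hmin] with x hx
    exact le_antisymm (hmax x) hx
  have h2 : deriv c =ᶠ[𝓝 x0] deriv fun _ => c x0 := heq.deriv
  have h3 : deriv (deriv c) x0 = deriv (deriv fun _ => c x0) x0 := h2.deriv_eq
  rw [h3] at hcon
  simp at hcon

/-- choice of the frequency -/
private lemma trapCon_omega {A B c0 ε' : ℝ} (hA : 0 ≤ A) (hB : 0 < B) (hc0 : 0 < c0)
    (hε : 0 < ε') : ∃ om > 0, |A - B * om ^ 2| ≤ ε' ∧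
      ∀ m n : ℤ, n ≠ 0 → om * √c0 * n ≠ 2 * Real.pi * m := by
  have hsc : 0 < √c0 := Real.sqrt_pos.mpr hc0
  have hpi := Real.pi_pos
  let φ : ℝ → ℝ := fun s => |A - B * (2 * Real.pi * s / √c0) ^ 2|
  have hφ : Continuous φ := by
    apply Continuous.abs
    fun_prop
  set s0 : ℝ := √(A / B) * √c0 / (2 * Real.pi) with hs0
  have hs0' : 0 ≤ s0 := by positivity
  have h0 : φ s0 = 0 := by
    simp only [φ]
    have h1 : 2 * Real.pi * s0 / √c0 = √(A / B) := by
      rw [hs0]
      field_simp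
    rw [h1, Real.sq_sqrt (by positivity)]
    have h2 : B * (A / B) = A := by field_simp
    rw [h2, sub_self, abs_zero]
  have hU : IsOpen {s | φ s < ε'} := isOpen_lt hφ continuous_const
  have hmem : s0 ∈ {s | φ s < ε'} := by
    show φ s0 < ε'
    rw [h0]
    exact hε
  obtain ⟨δ, hδ, hball⟩ := Metric.isOpen_iff.mp hU s0 hmem
  have hU2 : IsOpen ({s | φ s < ε'} ∩ Ioi (0:ℝ)) := hU.inter isOpen_Ioi
  have hne : ({s | φ s < ε'} ∩ Ioi (0:ℝ)).Nonempty := by
    refine ⟨s0 + δ / 2, hball ?_, ?_⟩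
    · rw [Metric.mem_ball, Real.dist_eq]
      rw [add_sub_cancel_left, abs_of_pos (by positivity)]
      linarith
    · show 0 < s0 + δ / 2
      positivity
  obtain ⟨s, ⟨hs1, hs2⟩, hs3⟩ := dense_irrational.inter_open_nonempty _ hU2 hne
  have hs2' : 0 < s := hs2
  refine ⟨2 * Real.pi * s / √c0, by positivity, le_of_lt hs1, ?_⟩
  intro m n hn heq
  have h1 : 2 * Real.pi * s / √c0 * √c0 = 2 * Real.pi * s := by field_simp
  rw [h1] at heq
  have h2 : s * n = m := by
    have h3 : 2 * Real.pi * (s * n) = 2 * Real.pi * m := by linarith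
    exact mul_left_cancel₀ (by positivity) h3
  have hn' : (n : ℝ) ≠ 0 := by exact_mod_cast hn
  have h4 : s = (m : ℝ) / n := by
    rw [eq_div_iff hn']
    exact h2
  apply hs3
  refine ⟨(m : ℚ) / n, ?_⟩
  rw [h4]
  push_cast
  rfl

theorem c2_nondense (g : InvMetric) (ε : ℝ) (hε : 0 < ε) :
    ∃ g' : InvMetric, CkClose 2 ε g g' ∧ ¬ Dense (CG g') := by
  obtain ⟨x0, hx0⟩ := per_max g.smooth_c.continuous g.per_c
  obtain ⟨hd1, hd2⟩ := trapCon_second g.smooth_c hx0
  obtain ⟨δc, hδc, hδc'⟩ := per_pos g.smooth_c.continuous g.per_c g.pos_c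
  obtain ⟨C1, hC1, HC1⟩ := mul_bound g.bb_smooth g.bb_per
  obtain ⟨C2, hC2, HC2⟩ := mul_bound (β := fun x => g.bb x ^ 2) (g.bb_smooth.pow 2)
    (fun x => by simp only [g.bb_per x])
  set C : ℝ := max 1 (max C1 C2) with hC
  have hC1' : C1 ≤ C := (le_max_left _ _).trans (le_max_right _ _)
  have hC2' : C2 ≤ C := (le_max_right _ _).trans (le_max_right _ _)
  have hCone : 1 ≤ C := le_max_left _ _
  have hCpos : 0 < C := by linarith
  set ε1 : ℝ := min (ε / C) (δc / 2) with hε1
  have hε1p : 0 < ε1 := lt_min (by positivity) (by positivity)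
  have hε1C : C * ε1 ≤ ε := by
    have h1 : ε1 ≤ ε / C := min_le_left _ _
    calc C * ε1 ≤ C * (ε / C) := mul_le_mul_of_nonneg_left h1 hCpos.le
      _ = ε := by field_simp
  have hε1c : ε1 ≤ δc / 2 := min_le_right _ _
  obtain ⟨ε', hε', hloc⟩ := loc_mod ε1 hε1p
  set c0 := g.c x0 with hc0
  have hc0p : 0 < c0 := g.pos_c x0
  have hμ0 : 0 < g.mu x0 := g.mu_pos x0
  obtain ⟨om, hom, homε, hirr⟩ := trapCon_omega (A := -deriv (deriv g.c) x0)
    (B := 2 * c0 * g.mu x0 ^ 2) (c0 := c0) (by linarith) (by positivity) hc0p hε'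
  let σ : ℝ → ℝ := fun x => ∫ s in x0..x, g.mu s
  have hμc : Continuous g.mu := g.mu_smooth.continuous
  have hσ : ∀ x, HasDerivAt σ (g.mu x) x := fun x =>
    intervalIntegral.integral_hasDerivAt_right (hμc.intervalIntegrable _ _)
      hμc.stronglyMeasurable.stronglyMeasurableAtFilter hμc.continuousAt
  have hσ0 : σ x0 = 0 := by simp [σ]
  have hσd : deriv σ = g.mu := funext fun x => (hσ x).deriv
  have hσs : ContDiff ℝ ∞ σ := by
    rw [contDiff_infty_iff_deriv]
    refine ⟨fun x => (hσ x).differentiableAt, ?_⟩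
    rw [hσd]
    exact g.mu_smooth
  let G : ℝ → ℝ := fun x => c0 * Real.cos (om * σ x) ^ 2 - g.c x
  have hGs : ContDiff ℝ ∞ G := by
    refine ContDiff.sub ?_ g.smooth_c
    exact contDiff_const.mul ((Real.contDiff_cos.comp (contDiff_const.mul hσs)).pow 2)
  have hG0 : G x0 = 0 := by
    simp only [G, hσ0]
    rw [mul_zero, Real.cos_zero]
    simp [hc0]
  have hcd : ∀ x, HasDerivAt g.c (deriv g.c x) x := fun x =>
    (g.smooth_c.differentiable (by simp)).differentiableAt.hasDerivAt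
  have hG1 : ∀ x, HasDerivAt G
      (-(2 * c0 * om) * (Real.cos (om * σ x) * Real.sin (om * σ x) * g.mu x) - deriv g.c x) x := by
    intro x
    have h1 : HasDerivAt (fun y => om * σ y) (om * g.mu x) x := (hσ x).const_mul om
    have h2 := ((h1.cos.fun_pow 2).const_mul c0).sub (hcd x)
    refine h2.congr_deriv ?_
    push_cast
    ring
  have hG1d : deriv G = fun x =>
      -(2 * c0 * om) * (Real.cos (om * σ x) * Real.sin (om * σ x) * g.mu x) - deriv g.c x :=
    funext fun x => (hG1 x).deriv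
  have hG1' : deriv G x0 = 0 := by
    rw [hG1d]
    simp only [hσ0]
    rw [mul_zero, Real.sin_zero, hd1]
    ring
  have hμd : HasDerivAt g.mu (deriv g.mu x0) x0 :=
    (g.mu_smooth.differentiable (by simp)).differentiableAt.hasDerivAt
  have hcdd : HasDerivAt (deriv g.c) (deriv (deriv g.c) x0) x0 := by
    have h1 : ContDiff ℝ ∞ (deriv g.c) := (contDiff_infty_iff_deriv.mp g.smooth_c).2
    exact (h1.differentiable (by simp)).differentiableAt.hasDerivAt
  have hG2 : deriv (deriv G) x0 = -(2 * c0 * g.mu x0 ^ 2 * om ^ 2) - deriv (deriv g.c) x0 := by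
    rw [hG1d]
    have h1 : HasDerivAt (fun y => om * σ y) (om * g.mu x0) x0 := (hσ x0).const_mul om
    have h2 := ((((h1.cos.fun_mul h1.sin).fun_mul hμd).const_mul (-(2 * c0 * om))).fun_sub hcdd).deriv
    rw [h2]
    simp only [hσ0, mul_zero, Real.cos_zero, Real.sin_zero]
    ring
  have hG2' : |deriv (deriv G) x0| ≤ ε' := by
    rw [hG2]
    have : -(2 * c0 * g.mu x0 ^ 2 * om ^ 2) - deriv (deriv g.c) x0 =
        -deriv (deriv g.c) x0 - 2 * c0 * g.mu x0 ^ 2 * om ^ 2 := by ring
    rw [this]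
    exact homε
  obtain ⟨r, hr, hr4, F, hFs, hFper, hFG, hFsm⟩ := hloc x0 G hGs hG0 hG1' hG2'
  have hF0 : ∀ x, |F x| < ε1 := by
    intro x
    have := hFsm 0 (by norm_num) x
    rwa [iteratedDeriv_zero] at this
  have hcF : ∀ x, 0 < g.c x + F x := by
    intro x
    have h1 := (abs_lt.mp (hF0 x)).1
    have h2 := hδc' x
    linarith
  have hbb : ∀ x, g.bb x * g.c x = g.b x := by
    intro x
    unfold InvMetric.bb
    have := (g.pos_c x).ne'
    field_simp
  have hmusq : ∀ x, g.a x = g.mu x ^ 2 + g.bb x ^ 2 * g.c x := by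
    intro x
    rw [g.mu_sq x]
    unfold InvMetric.bb
    have := (g.pos_c x).ne'
    field_simp
    ring
  let g' : InvMetric :=
    { a := fun x => g.a x + g.bb x ^ 2 * F x
      b := fun x => g.b x + g.bb x * F x
      c := fun x => g.c x + F x
      smooth_a := g.smooth_a.add ((g.bb_smooth.pow 2).mul hFs)
      smooth_b := g.smooth_b.add (g.bb_smooth.mul hFs)
      smooth_c := g.smooth_c.add hFs
      per_a := fun x => by simp only [g.per_a x, g.bb_per x, hFper x]
      per_b := fun x => by simp only [g.per_b x, g.bb_per x, hFper x]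
      per_c := fun x => by simp only [g.per_c x, hFper x]
      pos_c := hcF
      pos_det := fun x => by
        have h1 : (g.a x + g.bb x ^ 2 * F x) * (g.c x + F x) - (g.b x + g.bb x * F x) ^ 2 =
            g.mu x ^ 2 * (g.c x + F x) := by
          rw [hmusq x, ← hbb x]
          ring
        rw [h1]
        exact mul_pos (pow_pos (g.mu_pos x) 2) (hcF x) }
  have hmu : g'.mu = g.mu := by
    funext x
    have h1 : g'.a x - g'.b x ^ 2 / g'.c x = g.mu x ^ 2 := by
      show (g.a x + g.bb x ^ 2 * F x) - (g.b x + g.bb x * F x) ^ 2 / (g.c x + F x) = _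
      have h2 : g.b x + g.bb x * F x = g.bb x * (g.c x + F x) := by
        rw [← hbb x]
        ring
      rw [h2, hmusq x]
      have h3 := (hcF x).ne'
      field_simp
      ring
    have h2 : g'.mu x = √(g'.a x - g'.b x ^ 2 / g'.c x) := rfl
    rw [h2, h1, Real.sqrt_sq (g.mu_pos x).le]
  refine ⟨g', ?_, ?_⟩
  · intro j hj x
    have hsm : ∀ {f : ℝ → ℝ}, ContDiff ℝ ∞ f → ContDiffAt ℝ j f x := fun hf =>
      (hf.of_le (by exact_mod_cast le_top)).contDiffAt
    have e1 : iteratedDeriv j g'.a x = iteratedDeriv j g.a x +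
        iteratedDeriv j (fun y => g.bb y ^ 2 * F y) x :=
      iteratedDeriv_fun_add (hsm g.smooth_a) (hsm ((g.bb_smooth.pow 2).mul hFs))
    have e2 : iteratedDeriv j g'.b x = iteratedDeriv j g.b x +
        iteratedDeriv j (fun y => g.bb y * F y) x :=
      iteratedDeriv_fun_add (hsm g.smooth_b) (hsm (g.bb_smooth.mul hFs))
    have e3 : iteratedDeriv j g'.c x = iteratedDeriv j g.c x + iteratedDeriv j F x :=
      iteratedDeriv_fun_add (hsm g.smooth_c) (hsm hFs)
    rw [e1, e2, e3]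
    simp only [add_sub_cancel_left]
    refine ⟨?_, ?_, ?_⟩
    · refine (HC2 F hFs ε1 hε1p hFsm j hj x).trans_le ?_
      exact (mul_le_mul_of_nonneg_right hC2' hε1p.le).trans hε1C
    · refine (HC1 F hFs ε1 hε1p hFsm j hj x).trans_le ?_
      exact (mul_le_mul_of_nonneg_right hC1' hε1p.le).trans hε1C
    · refine (hFsm j hj x).trans_le ?_
      have h1 : 1 * ε1 ≤ C * ε1 := mul_le_mul_of_nonneg_right hCone hε1p.le
      linarith
  · refine trap g' (x0 := x0) (r := r) (c0 := c0) hr (by linarith) hc0p hom (σ := σ) ?_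
      hσ0 ?_ hirr
    · intro x
      rw [hmu]
      exact hσ x
    · intro x hx
      show g.c x + F x = _
      rw [hFG x hx]
      simp only [G]
      ring

end Pool.Agent.CGD
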