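import Pool.Agent.CGD.Main
import Pool.Agent.CGD.TrapCon

set_option autoImplicit false

namespace Pool.Agent.CGD

open Set Filter Topology

/-- the torus theorem -/
theorem torus_final :
    ({g : InvMetric | Dense (CG g)} ∈ residual InvMetric) ∧
    (∃ S : ℕ → Set InvMetric,
      (∀ n, ∀ g ∈ S n, ∃ ε > 0, ∀ g', CkClose 1 ε g g' → g' ∈ S n) ∧
      (∀ n, ∀ g : InvMetric, ∀ k : ℕ, ∀ ε > 0, ∃ g' ∈ S n, CkClose k ε g g') ∧
      ∀ g, (∀ n, g ∈ S n) → Dense (CG g)) ∧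
    (∀ g : InvMetric, ∃ N : Set ℝ, N.Countable ∧ ∀ t ∉ N, ∀ g' : InvMetric,
      (∀ x, 0 < 1 + t * g.c x) →
      (∀ x, g'.a x = g.a x - t * g.b x ^ 2 / (1 + t * g.c x)) →
      (∀ x, g'.b x = g.b x / (1 + t * g.c x)) →
      (∀ x, g'.c x = g.c x / (1 + t * g.c x)) → Dense (CG g')) ∧
    (∀ (g : InvMetric) (k : ℕ) (ε : ℝ), 0 < ε →
      ∃ g' : InvMetric, CkClose k ε g g' ∧ Dense (CG g')) ∧
    (∀ (g : InvMetric) (ε : ℝ), 0 < ε →
      ∃ g' : InvMetric, CkClose 2 ε g g' ∧ ¬ Dense (CG g')) :=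
  ⟨generic, generic_explicit, all_but_countable, dense_close, c2_nondense⟩

end Pool.Agent.CGD
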