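import Pool.Agent.CGD.Defs

set_option autoImplicit false

/-! Module Flow: the planar system `x' = u`, `u' = - d(x)/2` with `d` Lipschitz and bounded has a
unique global flow; elementary properties. -/

namespace Pool.Agent.CGD

open Set Filter Topology

/-- the vector field of the planar system -/
noncomputable def Flow_F (d : ℝ → ℝ) (z : ℝ × ℝ) : ℝ × ℝ := (z.2, -(d z.1) / 2)

theorem Flow_lip {d : ℝ → ℝ} {K : NNReal} (hK : LipschitzWith K d) :
    LipschitzWith (1 + K) (Flow_F d) := by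
  apply LipschitzWith.of_dist_le_mul
  intro z z'
  have h0 : (0 : ℝ) ≤ dist z z' := dist_nonneg
  have h1 : dist z.1 z'.1 ≤ dist z z' := by rw [Prod.dist_eq]; exact le_max_left _ _
  have h2 : dist z.2 z'.2 ≤ dist z z' := by rw [Prod.dist_eq]; exact le_max_right _ _
  have h3 := hK.dist_le_mul z.1 z'.1
  rw [Prod.dist_eq, NNReal.coe_add, NNReal.coe_one]
  have hK0 : (0 : ℝ) ≤ K := K.2
  apply max_le
  · show dist z.2 z'.2 ≤ _
    nlinarith [mul_nonneg hK0 h0]
  · show dist (-(d z.1) / 2) (-(d z'.1) / 2) ≤ _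
    have h4 : dist (-(d z.1) / 2) (-(d z'.1) / 2) = dist (d z.1) (d z'.1) / 2 := by
      rw [Real.dist_eq, Real.dist_eq]
      have : -(d z.1) / 2 - -(d z'.1) / 2 = -((d z.1 - d z'.1) / 2) := by ring
      rw [this, abs_neg, abs_div, abs_of_pos (by norm_num : (0:ℝ) < 2)]
    rw [h4]
    have h5 : (0 : ℝ) ≤ dist (d z.1) (d z'.1) := dist_nonneg
    have h6 : (K : ℝ) * dist z.1 z'.1 ≤ K * dist z z' := mul_le_mul_of_nonneg_left h1 hK0
    linarith

/-- truncation at height `R` -/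
noncomputable def Flow_tr (R u : ℝ) : ℝ := max (-R) (min R u)

theorem Flow_tr_eq {R u : ℝ} (h : |u| ≤ R) : Flow_tr R u = u := by
  unfold Flow_tr
  have := abs_le.1 h
  rw [min_eq_right this.2, max_eq_right this.1]

theorem Flow_tr_abs {R u : ℝ} (hR : 0 ≤ R) : |Flow_tr R u| ≤ R := by
  unfold Flow_tr
  rw [abs_le]
  exact ⟨le_max_left _ _, max_le (by linarith) (min_le_left _ _)⟩

theorem Flow_tr_lip (R : ℝ) : LipschitzWith 1 (Flow_tr R) := by
  unfold Flow_tr
  exact (LipschitzWith.id.const_min R).const_max (-R)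

/-- the truncated field -/
noncomputable def Flow_G (d : ℝ → ℝ) (R : ℝ) (z : ℝ × ℝ) : ℝ × ℝ :=
  (Flow_tr R z.2, -(d z.1) / 2)

theorem Flow_G_lip {d : ℝ → ℝ} {K : NNReal} (hK : LipschitzWith K d) (R : ℝ) :
    LipschitzWith (1 + K) (Flow_G d R) := by
  apply LipschitzWith.of_dist_le_mul
  intro z z'
  have hF := (Flow_lip hK).dist_le_mul z z'
  have h0 : (0 : ℝ) ≤ dist z z' := dist_nonneg
  have h2 : dist z.2 z'.2 ≤ dist z z' := by rw [Prod.dist_eq]; exact le_max_right _ _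
  have h3 := (Flow_tr_lip R).dist_le_mul z.2 z'.2
  rw [Prod.dist_eq] at hF ⊢
  have hK0 : (0 : ℝ) ≤ K := K.2
  rw [NNReal.coe_add, NNReal.coe_one] at hF ⊢
  rw [NNReal.coe_one, one_mul] at h3
  apply max_le
  · show dist (Flow_tr R z.2) (Flow_tr R z'.2) ≤ _
    nlinarith [mul_nonneg hK0 h0]
  · exact (le_max_right _ _).trans hF

theorem Flow_local {d : ℝ → ℝ} (hd : Nice d) (z : ℝ × ℝ) (n : ℕ) : ∃ α : ℝ → ℝ × ℝ, α 0 = z ∧
    ∀ t ∈ Ioo (-((n : ℝ) + 1)) ((n : ℝ) + 1), HasDerivAt α (Flow_F d (α t)) t := by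
  obtain ⟨K, hK⟩ := hd.lip
  obtain ⟨B, hB⟩ := hd.bdd
  have hB0 : 0 ≤ B := (abs_nonneg _).trans (hB 0)
  have hn : (0 : ℝ) < (n : ℝ) + 1 := by positivity
  set R : ℝ := |z.2| + B * ((n : ℝ) + 1) with hR
  have hR0 : 0 ≤ R := by positivity
  set L : NNReal := ⟨R + B, by positivity⟩ with hL
  have h0 : (0 : ℝ) ∈ Icc (-((n : ℝ) + 1)) ((n : ℝ) + 1) := ⟨by linarith, hn.le⟩
  have hP : IsPicardLindelof (fun _ => Flow_G d R) (tmin := -((n : ℝ) + 1))
      (tmax := (n : ℝ) + 1) ⟨0, h0⟩ z (L * ((n : NNReal) + 1)) 0 L (1 + K) := by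
    apply IsPicardLindelof.of_time_independent
    · intro y _
      rw [Flow_G, Prod.norm_def]
      apply max_le
      · rw [Real.norm_eq_abs]
        refine (Flow_tr_abs hR0).trans ?_
        show R ≤ R + B
        linarith
      · rw [Real.norm_eq_abs, abs_div, abs_neg, abs_of_pos (by norm_num : (0:ℝ) < 2)]
        show |d y.1| / 2 ≤ R + B
        have := hB y.1
        linarith
    · exact (Flow_G_lip hK R).lipschitzOnWith
    · show (L : ℝ) * max ((n : ℝ) + 1 - 0) (0 - -((n : ℝ) + 1)) ≤ _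
      rw [sub_zero, zero_sub, neg_neg, max_self]
      push_cast
      simp
  obtain ⟨α, h1, h2⟩ := hP.exists_eq_forall_mem_Icc_hasDerivWithinAt₀
  refine ⟨α, h1, ?_⟩
  have h3 : ∀ t ∈ Ioo (-((n : ℝ) + 1)) ((n : ℝ) + 1), HasDerivAt α (Flow_G d R (α t)) t :=
    fun t ht => (h2 t (Ioo_subset_Icc_self ht)).hasDerivAt (Icc_mem_nhds ht.1 ht.2)
  have h4 : ∀ t ∈ Ioo (-((n : ℝ) + 1)) ((n : ℝ) + 1), |(α t).2| ≤ R := by
    intro t ht
    have h5 : ∀ s ∈ Ioo (-((n : ℝ) + 1)) ((n : ℝ) + 1),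
        HasDerivWithinAt (fun s => (α s).2) (-(d (α s).1) / 2)
          (Ioo (-((n : ℝ) + 1)) ((n : ℝ) + 1)) s := by
      intro s hs
      have h6 : HasDerivAt (fun s => (α s).2) (-(d (α s).1) / 2) s := (h3 s hs).snd
      exact h6.hasDerivWithinAt
    have h6 : ∀ s ∈ Ioo (-((n : ℝ) + 1)) ((n : ℝ) + 1), ‖-(d (α s).1) / 2‖ ≤ B := by
      intro s _
      rw [Real.norm_eq_abs, abs_div, abs_neg, abs_of_pos (by norm_num : (0:ℝ) < 2)]
      have := hB (α s).1
      linarith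
    have h7 := (convex_Ioo _ _).norm_image_sub_le_of_norm_hasDerivWithin_le h5 h6
      (x := 0) (y := t) ⟨by linarith, hn⟩ ht
    rw [h1, Real.norm_eq_abs, Real.norm_eq_abs, sub_zero] at h7
    have h8 : |t| ≤ (n : ℝ) + 1 := (abs_lt.2 ht).le
    have h9 : |(α t).2| ≤ |(α t).2 - z.2| + |z.2| := by
      have := abs_add_le ((α t).2 - z.2) z.2
      simpa using this
    have h10 : B * |t| ≤ B * ((n : ℝ) + 1) := mul_le_mul_of_nonneg_left h8 hB0
    rw [hR]
    linarith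
  intro t ht
  have h5 : Flow_G d R (α t) = Flow_F d (α t) := by
    unfold Flow_G Flow_F
    rw [Flow_tr_eq (h4 t ht)]
  rw [← h5]
  exact h3 t ht

theorem Flow_exists {d : ℝ → ℝ} (hd : Nice d) (z : ℝ × ℝ) :
    ∃ γ : ℝ → ℝ × ℝ, γ 0 = z ∧ IsSol d γ := by
  choose α hα0 hα using Flow_local hd z
  obtain ⟨K, hK⟩ := hd.lip
  have hcons : ∀ n m : ℕ, n ≤ m → ∀ t ∈ Ioo (-((n : ℝ) + 1)) ((n : ℝ) + 1), α n t = α m t := by
    intro n m hnm
    have hnm' : (n : ℝ) ≤ m := by exact_mod_cast hnm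
    have h0 : (0 : ℝ) ∈ Ioo (-((n : ℝ) + 1)) ((n : ℝ) + 1) := by
      have : (0 : ℝ) < (n : ℝ) + 1 := by positivity
      exact ⟨by linarith, this⟩
    exact ODE_solution_unique_of_mem_Ioo (v := fun _ => Flow_F d) (s := fun _ => univ)
      (K := 1 + K) (fun t _ => (Flow_lip hK).lipschitzOnWith) h0
      (fun t ht => ⟨hα n t ht, mem_univ _⟩)
      (fun t ht => ⟨hα m t ⟨by linarith [ht.1], by linarith [ht.2]⟩, mem_univ _⟩)
      (by rw [hα0, hα0])
  set γ : ℝ → ℝ × ℝ := fun t => α ⌈|t|⌉₊ t with hγ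
  have hγn : ∀ n : ℕ, ∀ t ∈ Ioo (-((n : ℝ) + 1)) ((n : ℝ) + 1), γ t = α n t := by
    intro n t ht
    have habs : |t| < (n : ℝ) + 1 := abs_lt.2 ht
    have hceil : ⌈|t|⌉₊ ≤ n + 1 := by
      rw [Nat.ceil_le]
      push_cast
      exact habs.le
    have h1 : t ∈ Ioo (-((⌈|t|⌉₊ : ℝ) + 1)) ((⌈|t|⌉₊ : ℝ) + 1) := by
      have : |t| ≤ (⌈|t|⌉₊ : ℝ) := Nat.le_ceil _
      exact abs_lt.1 (by linarith)
    have e1 : γ t = α (n + 1) t := hcons _ _ hceil t h1
    rw [e1, ← hcons n (n + 1) (Nat.le_succ n) t ht]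
  refine ⟨γ, ?_, ?_⟩
  · rw [hγn 0 0 (by norm_num), hα0]
  · intro t
    obtain ⟨n, hn⟩ := exists_nat_gt |t|
    have ht : t ∈ Ioo (-((n : ℝ) + 1)) ((n : ℝ) + 1) := abs_lt.1 (by linarith)
    have h1 := hα n t ht
    have h2 : γ =ᶠ[𝓝 t] α n := by
      filter_upwards [Ioo_mem_nhds ht.1 ht.2] with s hs using hγn n s hs
    have h3 := h1.congr_of_eventuallyEq h2
    rw [← hγn n t ht] at h3
    exact h3

theorem Flow_spec {d : ℝ → ℝ} (hd : Nice d) (z : ℝ × ℝ) : fl d z 0 = z ∧ IsSol d (fl d z) := by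
  have h := Flow_exists hd z
  have e : fl d z = h.choose := by
    unfold fl
    rw [dif_pos h]
  rw [e]
  exact h.choose_spec

theorem fl_zero {d : ℝ → ℝ} (hd : Nice d) (z : ℝ × ℝ) : fl d z 0 = z := (Flow_spec hd z).1

theorem fl_sol {d : ℝ → ℝ} (hd : Nice d) (z : ℝ × ℝ) : IsSol d (fl d z) := (Flow_spec hd z).2

theorem hasDerivAt_X {d : ℝ → ℝ} (hd : Nice d) (z : ℝ × ℝ) (t : ℝ) :
    HasDerivAt (fun s => (fl d z s).1) (fl d z t).2 t := (fl_sol hd z t).fst

theorem hasDerivAt_U {d : ℝ → ℝ} (hd : Nice d) (z : ℝ × ℝ) (t : ℝ) :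
    HasDerivAt (fun s => (fl d z s).2) (-(d (fl d z t).1) / 2) t := (fl_sol hd z t).snd

theorem Flow_uniq2 {d : ℝ → ℝ} (hd : Nice d) {γ δ : ℝ → ℝ × ℝ} (hγ : IsSol d γ) (hδ : IsSol d δ)
    {t₀ : ℝ} (h : γ t₀ = δ t₀) : γ = δ := by
  obtain ⟨K, hK⟩ := hd.lip
  exact ODE_solution_unique_univ (v := fun _ => Flow_F d) (s := fun _ => univ) (K := 1 + K)
    (fun t => (Flow_lip hK).lipschitzOnWith) (fun t => ⟨hγ t, mem_univ _⟩)
    (fun t => ⟨hδ t, mem_univ _⟩) h

theorem fl_unique {d : ℝ → ℝ} (hd : Nice d) {γ : ℝ → ℝ × ℝ} (hγ : IsSol d γ) :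
    γ = fl d (γ 0) :=
  Flow_uniq2 hd hγ (fl_sol hd _) (t₀ := 0) (fl_zero hd _).symm

theorem fl_add {d : ℝ → ℝ} (hd : Nice d) (z : ℝ × ℝ) (s t : ℝ) :
    fl d z (s + t) = fl d (fl d z s) t := by
  have h1 : IsSol d (fun r => fl d z (s + r)) := by
    intro r
    have h2 := (fl_sol hd z (s + r)).scomp r ((hasDerivAt_id r).const_add s)
    simpa [Function.comp_def] using h2
  have h3 := congrFun (fl_unique hd h1) t
  simpa using h3

theorem fl_rev {d : ℝ → ℝ} (hd : Nice d) (z : ℝ × ℝ) (t : ℝ) :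
    fl d (z.1, -z.2) t = ((fl d z (-t)).1, -(fl d z (-t)).2) := by
  have h1 : IsSol d (fun r => ((fl d z (-r)).1, -(fl d z (-r)).2)) := by
    intro r
    have hx : HasDerivAt (fun r => (fl d z (-r)).1) (-(fl d z (-r)).2) r := by
      have := (hasDerivAt_X hd z (-r)).scomp r (hasDerivAt_neg r)
      simpa [Function.comp_def] using this
    have hu : HasDerivAt (fun r => -(fl d z (-r)).2) (-(d (fl d z (-r)).1) / 2) r := by
      have := ((hasDerivAt_U hd z (-r)).scomp r (hasDerivAt_neg r)).neg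
      simpa [Function.comp_def, Pi.neg_def] using this
    exact hx.prodMk hu
  have h3 := congrFun (fl_unique hd h1) t
  simp only [neg_zero, fl_zero hd] at h3
  exact h3.symm

theorem fl_translate {d : ℝ → ℝ} (hd : Nice d) (per : ∀ x, d (x + 1) = d x) (z : ℝ × ℝ) (m : ℤ)
    (t : ℝ) : fl d (z.1 + m, z.2) t = ((fl d z t).1 + m, (fl d z t).2) := by
  have hper : ∀ x, d (x + m) = d x := by
    intro x
    have h := (show Function.Periodic d 1 from per).int_mul m x
    simpa using h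
  have h1 : IsSol d (fun r => ((fl d z r).1 + m, (fl d z r).2)) := by
    intro r
    have hx := (hasDerivAt_X hd z r).add_const (m : ℝ)
    have hu := hasDerivAt_U hd z r
    have h2 := hx.prodMk hu
    show HasDerivAt _ ((fl d z r).2, -(d ((fl d z r).1 + m)) / 2) r
    rw [hper]
    exact h2
  have h3 := congrFun (fl_unique hd h1) t
  simp only [fl_zero hd] at h3
  exact h3.symm

theorem energy {d h : ℝ → ℝ} (hd : Nice d) (hh : ∀ x, HasDerivAt h (d x) x) (z : ℝ × ℝ) (t : ℝ) :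
    (fl d z t).2 ^ 2 + h (fl d z t).1 = z.2 ^ 2 + h z.1 := by
  have h1 : ∀ s, HasDerivAt (fun s => (fl d z s).2 ^ 2 + h (fl d z s).1) 0 s := by
    intro s
    have hu := (hasDerivAt_U hd z s).pow 2
    have hx := (hh (fl d z s).1).comp s (hasDerivAt_X hd z s)
    have h2 : HasDerivAt (fun s => (fl d z s).2 ^ 2 + h (fl d z s).1)
        ((2 : ℕ) * (fl d z s).2 ^ (2 - 1) * (-(d (fl d z s).1) / 2)
          + d (fl d z s).1 * (fl d z s).2) s := hu.add hx
    have e : ((2 : ℕ) * (fl d z s).2 ^ (2 - 1) * (-(d (fl d z s).1) / 2)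
          + d (fl d z s).1 * (fl d z s).2) = 0 := by
      push_cast
      ring
    rwa [e] at h2
  have h2 : ∀ s, deriv (fun s => (fl d z s).2 ^ 2 + h (fl d z s).1) s = 0 := fun s => (h1 s).deriv
  have h3 := is_const_of_deriv_eq_zero (fun s => (h1 s).differentiableAt) h2 t 0
  simpa [fl_zero hd] using h3

theorem Flow_dist_pos {d : ℝ → ℝ} {K : NNReal} (hd : Nice d) (hK : LipschitzWith K d)
    (z z' : ℝ × ℝ) {t : ℝ} (ht : 0 ≤ t) :
    dist (fl d z t) (fl d z' t) ≤ dist z z' * Real.exp ((1 + K) * t) := by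
  have h := dist_le_of_trajectories_ODE (v := fun _ => Flow_F d) (K := 1 + K)
    (f := fl d z) (g := fl d z') (a := 0) (b := t) (δ := dist z z')
    (fun _ => Flow_lip hK)
    (fun s _ => (fl_sol hd z s).continuousAt.continuousWithinAt)
    (fun s _ => (fl_sol hd z s).hasDerivWithinAt)
    (fun s _ => (fl_sol hd z' s).continuousAt.continuousWithinAt)
    (fun s _ => (fl_sol hd z' s).hasDerivWithinAt)
    (by rw [fl_zero hd, fl_zero hd]) t ⟨ht, le_rfl⟩
  simpa using h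

theorem Flow_dist {d : ℝ → ℝ} {K : NNReal} (hd : Nice d) (hK : LipschitzWith K d)
    (z z' : ℝ × ℝ) (t : ℝ) :
    dist (fl d z t) (fl d z' t) ≤ dist z z' * Real.exp ((1 + K) * |t|) := by
  rcases le_total 0 t with ht | ht
  · rw [abs_of_nonneg ht]
    exact Flow_dist_pos hd hK z z' ht
  · rw [abs_of_nonpos ht]
    have h := Flow_dist_pos hd hK (z.1, -z.2) (z'.1, -z'.2) (t := -t) (by linarith)
    rw [fl_rev hd, fl_rev hd, neg_neg] at h
    have e1 : dist ((fl d z t).1, -(fl d z t).2) ((fl d z' t).1, -(fl d z' t).2)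
        = dist (fl d z t) (fl d z' t) := by
      rw [Prod.dist_eq, Prod.dist_eq]
      simp
    have e2 : dist (z.1, -z.2) (z'.1, -z'.2) = dist z z' := by
      rw [Prod.dist_eq, Prod.dist_eq]
      simp
    rw [e1, e2] at h
    exact h

theorem fl_continuous {d : ℝ → ℝ} (hd : Nice d) :
    Continuous fun p : (ℝ × ℝ) × ℝ => fl d p.1 p.2 := by
  obtain ⟨K, hK⟩ := hd.lip
  rw [continuous_iff_continuousAt]
  rintro ⟨z, t⟩
  rw [Metric.continuousAt_iff]
  intro ε hε
  have hc : ContinuousAt (fl d z) t := (fl_sol hd z t).continuousAt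
  obtain ⟨δ1, hδ1, h1⟩ := Metric.continuousAt_iff.1 hc (ε / 2) (by linarith)
  set E := Real.exp ((1 + K) * (|t| + 1)) with hE
  have hE0 : 0 < E := Real.exp_pos _
  refine ⟨min (min δ1 1) (ε / (2 * E)), by positivity, ?_⟩
  rintro ⟨z', t'⟩ hp
  have hp1 : dist z' z < min (min δ1 1) (ε / (2 * E)) :=
    lt_of_le_of_lt (by rw [Prod.dist_eq]; exact le_max_left _ _) hp
  have hp2 : dist t' t < min (min δ1 1) (ε / (2 * E)) :=
    lt_of_le_of_lt (by rw [Prod.dist_eq]; exact le_max_right _ _) hp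
  have h3 : dist (fl d z' t') (fl d z t') ≤ dist z' z * Real.exp ((1 + K) * |t'|) :=
    Flow_dist hd hK z' z t'
  have h4 : |t'| ≤ |t| + 1 := by
    have h5 : |t' - t| < 1 := by
      rw [← Real.dist_eq]
      exact hp2.trans_le ((min_le_left _ _).trans (min_le_right _ _))
    have h6 := abs_add_le (t' - t) t
    rw [sub_add_cancel] at h6
    linarith
  have h5 : Real.exp ((1 + K) * |t'|) ≤ E := by
    apply Real.exp_le_exp.2
    exact mul_le_mul_of_nonneg_left h4 (by have := K.2; positivity)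
  have h6 : dist z' z * Real.exp ((1 + K) * |t'|) < ε / 2 := by
    calc dist z' z * Real.exp ((1 + K) * |t'|) ≤ dist z' z * E :=
          mul_le_mul_of_nonneg_left h5 dist_nonneg
      _ < ε / (2 * E) * E := mul_lt_mul_of_pos_right (hp1.trans_le (min_le_right _ _)) hE0
      _ = ε / 2 := by field_simp
  have h7 : dist (fl d z t') (fl d z t) < ε / 2 :=
    h1 (hp2.trans_le ((min_le_left _ _).trans (min_le_left _ _)))
  calc dist (fl d z' t') (fl d z t) ≤ dist (fl d z' t') (fl d z t') + dist (fl d z t') (fl d z t) :=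
        dist_triangle _ _ _
    _ < ε := by linarith

theorem Flow_cont_w {d w : ℝ → ℝ} (hd : Nice d) (hw : Continuous w) (z : ℝ × ℝ) :
    Continuous fun s => w (fl d z s).1 := by
  refine hw.comp ?_
  rw [continuous_iff_continuousAt]
  intro s
  exact (hasDerivAt_X hd z s).continuousAt

theorem Yw_continuous {d w : ℝ → ℝ} (hd : Nice d) (hw : Continuous w) :
    Continuous fun p : (ℝ × ℝ) × ℝ => Yw d w p.1 p.2 := by
  unfold Yw
  have h1 : Continuous (Function.uncurry fun (p : (ℝ × ℝ) × ℝ) (s : ℝ) => w (fl d p.1 s).1) := by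
    have h2 : Continuous fun q : ((ℝ × ℝ) × ℝ) × ℝ => fl d q.1.1 q.2 :=
      (fl_continuous hd).comp ((continuous_fst.comp continuous_fst).prodMk continuous_snd)
    exact hw.comp (continuous_fst.comp h2)
  exact intervalIntegral.continuous_parametric_intervalIntegral_of_continuous (a₀ := 0) h1
    continuous_snd

theorem hasDerivAt_Yw {d w : ℝ → ℝ} (hd : Nice d) (hw : Continuous w) (z : ℝ × ℝ) (t : ℝ) :
    HasDerivAt (Yw d w z) (w (fl d z t).1) t := by
  have h := Flow_cont_w hd hw z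
  exact intervalIntegral.integral_hasDerivAt_right (h.intervalIntegrable _ _)
    (h.stronglyMeasurableAtFilter _ _) h.continuousAt

theorem Yw_add {d w : ℝ → ℝ} (hd : Nice d) (hw : Continuous w) (z : ℝ × ℝ) (s t : ℝ) :
    Yw d w z (s + t) = Yw d w z s + Yw d w (fl d z s) t := by
  unfold Yw
  have h := Flow_cont_w hd hw z
  rw [← intervalIntegral.integral_add_adjacent_intervals (b := s) (h.intervalIntegrable _ _)
    (h.intervalIntegrable _ _)]
  congr 1
  have h2 : (fun r => w (fl d (fl d z s) r).1) = fun r => w (fl d z (s + r)).1 := by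
    funext r
    rw [fl_add hd]
  rw [h2, intervalIntegral.integral_comp_add_left (fun r => w (fl d z r).1) s]
  simp

theorem Yw_neg {d w : ℝ → ℝ} (hd : Nice d) (hw : Continuous w) (ξ t : ℝ) :
    Yw d w (ξ, 0) (-t) = -Yw d w (ξ, 0) t := by
  unfold Yw
  have h2 : ∀ r, (fl d (ξ, 0) (-r)).1 = (fl d (ξ, 0) r).1 := by
    intro r
    have h := fl_rev hd (ξ, 0) r
    simp only [neg_zero] at h
    rw [h]
  have h3 : (∫ r in (0:ℝ)..t, w (fl d (ξ, 0) (-r)).1) = ∫ r in (0:ℝ)..t, w (fl d (ξ, 0) r).1 := by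
    congr 1
    funext r
    rw [h2]
  rw [intervalIntegral.integral_comp_neg (fun r => w (fl d (ξ, 0) r).1)] at h3
  rw [neg_zero] at h3
  rw [← h3, intervalIntegral.integral_symm]

end Pool.Agent.CGD
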