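import Pool.Agent.CGD.Base

set_option autoImplicit false

/-! Module GeoRed: conservation laws of a geodesic `(x, y)` of an invariant metric.

`κ = b x' + c y'` is constant (derivative 0).  `a x' + b y' = μ² x' + κ β(x)` (`β = b/c`, `μ² = a - b²/c`), so the first Euler-Lagrange equation reads
`(μ(x)² x')' + κ β'(x) x' = (a' x'² + 2 b' x' y' + c' y'²)/2 = μ μ' x'² + c' (κ/c)²/2 + β' κ x'` (see module Lift for this identity), i.e.
`(μ² x')' = μ μ' x'² - κ² h'/2`, `h' = dd = -c'/c²`.  As `x'` is differentiable (`x` is `C²`): `μ² x'' + 2 μ μ' x'² = μ μ' x'² - κ² h'/2`, so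
`(μ x')' = μ x'' + μ' x'² = -κ² h'(x)/(2 μ(x))`.
`geo_energy`: the derivative of `(μ x')² + κ² h(x)` is `2 (μ x') (-κ² h'/(2μ)) + κ² h' x' = 0`. -/

namespace Pool.Agent.CGD

open Set Filter Topology

theorem geo_kappa {g : InvMetric} {x y : ℝ → ℝ} (h : IsGeodesic g x y) (t : ℝ) :
    g.b (x t) * deriv x t + g.c (x t) * deriv y t
      = g.b (x 0) * deriv x 0 + g.c (x 0) * deriv y 0 := by
  obtain ⟨_, _, h3⟩ := h
  have hd : Differentiable ℝ (fun s => g.b (x s) * deriv x s + g.c (x s) * deriv y s) :=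
    fun s => (h3 s).2.differentiableAt
  exact is_const_of_deriv_eq_zero hd (fun s => (h3 s).2.deriv) t 0

private theorem GeoRed_x1 {x : ℝ → ℝ} (hx : ContDiff ℝ 2 x) (t : ℝ) :
    HasDerivAt x (deriv x t) t :=
  ((hx.differentiable (by norm_num)) t).hasDerivAt

private theorem GeoRed_x2 {x : ℝ → ℝ} (hx : ContDiff ℝ 2 x) (t : ℝ) :
    HasDerivAt (deriv x) (deriv (deriv x) t) t := by
  have h1 : ContDiff ℝ 1 (deriv x) := by
    have h2 : ContDiff ℝ (1 + 1) x := by
      have : (1 : WithTop ℕ∞) + 1 = 2 := by norm_num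
      rw [this]; exact hx
    exact (contDiff_succ_iff_deriv.1 h2).2.2
  exact ((h1.differentiable (by norm_num)) t).hasDerivAt

theorem geo_U {g : InvMetric} {x y : ℝ → ℝ} (h : IsGeodesic g x y) {κ : ℝ}
    (hκ : κ = g.b (x 0) * deriv x 0 + g.c (x 0) * deriv y 0) (t : ℝ) :
    HasDerivAt (fun s => g.mu (x s) * deriv x s) (-(κ ^ 2 * g.dd (x t)) / (2 * g.mu (x t))) t := by
  have hk : ∀ s, g.b (x s) * deriv x s + g.c (x s) * deriv y s = κ := fun s => by
    rw [geo_kappa h s, hκ]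
  obtain ⟨hx, hy, h3⟩ := h
  have hx1 := GeoRed_x1 hx t
  have hx2 := GeoRed_x2 hx t
  have hmu : HasDerivAt g.mu (deriv g.mu (x t)) (x t) :=
    ((g.mu_smooth.differentiable (by simp)) (x t)).hasDerivAt
  have hbb : HasDerivAt g.bb (deriv g.bb (x t)) (x t) :=
    ((g.bb_smooth.differentiable (by simp)) (x t)).hasDerivAt
  have hc : HasDerivAt g.c (deriv g.c (x t)) (x t) :=
    ((g.smooth_c.differentiable (by simp)) (x t)).hasDerivAt
  -- a = mu^2 + bb^2 c, b = bb c
  have hbeq : g.b = fun z => g.bb z * g.c z := by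
    funext z
    have := g.pos_c z
    simp only [InvMetric.bb]
    field_simp
  have haeq : g.a = fun z => g.mu z ^ 2 + g.bb z ^ 2 * g.c z := by
    funext z
    have := g.pos_c z
    rw [g.mu_sq z]
    simp only [InvMetric.bb]
    field_simp
    ring
  have hb' : deriv g.b (x t) = deriv g.bb (x t) * g.c (x t) + g.bb (x t) * deriv g.c (x t) := by
    have h1 : HasDerivAt g.b (deriv g.bb (x t) * g.c (x t) + g.bb (x t) * deriv g.c (x t))
        (x t) := by
      have h0 := hbb.mul hc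
      rw [hbeq]
      exact h0
    exact h1.deriv
  have ha' : deriv g.a (x t) = 2 * g.mu (x t) * deriv g.mu (x t)
      + (2 * g.bb (x t) * deriv g.bb (x t) * g.c (x t) + g.bb (x t) ^ 2 * deriv g.c (x t)) := by
    have h1 : HasDerivAt g.a (2 * g.mu (x t) * deriv g.mu (x t)
      + (2 * g.bb (x t) * deriv g.bb (x t) * g.c (x t) + g.bb (x t) ^ 2 * deriv g.c (x t)))
        (x t) := by
      have h0 := (hmu.pow 2).add ((hbb.pow 2).mul hc)
      rw [haeq]
      refine HasDerivAt.congr_deriv h0 ?_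
      simp
    exact h1.deriv
  -- the first Euler-Lagrange quantity
  have hE : (fun s => g.a (x s) * deriv x s + g.b (x s) * deriv y s)
      = fun s => g.mu (x s) ^ 2 * deriv x s + κ * g.bb (x s) := by
    funext s
    have h1 := hk s
    have h2 : g.b (x s) = g.bb (x s) * g.c (x s) := congrFun hbeq (x s)
    have h4 : g.a (x s) = g.mu (x s) ^ 2 + g.bb (x s) ^ 2 * g.c (x s) := congrFun haeq (x s)
    rw [← h1, h4, h2]
    ring
  have hD1 := (h3 t).1
  rw [hE] at hD1
  have hmux : HasDerivAt (fun s => g.mu (x s)) (deriv g.mu (x t) * deriv x t) t :=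
    hmu.comp t hx1
  have hbbx : HasDerivAt (fun s => g.bb (x s)) (deriv g.bb (x t) * deriv x t) t :=
    hbb.comp t hx1
  have hD2 := ((hmux.pow 2).mul hx2).add (hbbx.const_mul κ)
  have hu := hD1.unique hD2
  have hF := hmux.mul hx2
  refine HasDerivAt.congr_deriv hF ?_
  have hmp := g.mu_pos (x t)
  have hcp := g.pos_c (x t)
  rw [eq_div_iff (by positivity)]
  have h1 := hk t
  have h2 : g.b (x t) = g.bb (x t) * g.c (x t) := congrFun hbeq (x t)
  simp only [InvMetric.dd]
  rw [ha', hb'] at hu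
  have hy' : deriv y t = κ / g.c (x t) - g.bb (x t) * deriv x t := by
    rw [← h1, h2]
    field_simp
    ring
  rw [hy'] at hu
  simp only [Nat.cast_ofNat, Nat.add_one_sub_one, pow_one, Pi.pow_apply] at hu
  generalize g.mu (x t) = m at *
  generalize g.c (x t) = c at *
  generalize deriv g.mu (x t) = m' at *
  generalize deriv g.c (x t) = c' at *
  generalize g.bb (x t) = β at *
  generalize deriv g.bb (x t) = β' at *
  generalize deriv (deriv x) t = x2 at *
  generalize deriv x t = x1 at *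
  have hc0 : c ≠ 0 := hcp.ne'
  have hu2 : κ ^ 2 * c' / (2 * c ^ 2) = m * m' * x1 ^ 2 + m ^ 2 * x2 := by
    have h5 : (((2 * m * m' + (2 * β * β' * c + β ^ 2 * c')) * x1 ^ 2
        + 2 * (β' * c + β * c') * x1 * (κ / c - β * x1) + c' * (κ / c - β * x1) ^ 2) / 2)
        = m * m' * x1 ^ 2 + κ * β' * x1 + κ ^ 2 * c' / (2 * c ^ 2) := by
      field_simp
      ring
    rw [h5] at hu
    linear_combination hu
  have h6 : -(κ ^ 2 * (-c' / c ^ 2)) = 2 * (κ ^ 2 * c' / (2 * c ^ 2)) := by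
    field_simp
  rw [h6, hu2]
  ring

theorem geo_energy {g : InvMetric} {x y : ℝ → ℝ} (h : IsGeodesic g x y) {κ : ℝ}
    (hκ : κ = g.b (x 0) * deriv x 0 + g.c (x 0) * deriv y 0) (t : ℝ) :
    (g.mu (x t) * deriv x t) ^ 2 + κ ^ 2 * g.hh (x t)
      = (g.mu (x 0) * deriv x 0) ^ 2 + κ ^ 2 * g.hh (x 0) := by
  have hx := h.1
  have hD : ∀ s, HasDerivAt (fun s => (g.mu (x s) * deriv x s) ^ 2 + κ ^ 2 * g.hh (x s)) 0 s := by
    intro s
    have h1 := geo_U h hκ s
    have h2 : HasDerivAt (fun s => g.hh (x s)) (g.dd (x s) * deriv x s) s :=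
      (g.hh_deriv (x s)).comp s (GeoRed_x1 hx s)
    have h3 := (h1.pow 2).add (h2.const_mul (κ ^ 2))
    refine HasDerivAt.congr_deriv h3 ?_
    have hmp := g.mu_pos (x s)
    simp only [Nat.cast_ofNat, Nat.add_one_sub_one, pow_one]
    field_simp
    ring
  have hd : Differentiable ℝ (fun s => (g.mu (x s) * deriv x s) ^ 2 + κ ^ 2 * g.hh (x s)) :=
    fun s => (hD s).differentiableAt
  exact is_const_of_deriv_eq_zero hd (fun s => (hD s).deriv) t 0

end Pool.Agent.CGD
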