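import Pool.Agent.CGD.Flow

set_option autoImplicit false

/-! Module Hit: an orbit of regular energy which is blocked on the left by a higher value of the
potential reaches `u = 0`.

Proof of `hit_left`: suppose `u ≠ 0` on `[0, ∞)`; then `u < 0` on `[0, ∞)` (intermediate value theorem), `x` is strictly
decreasing, and `x > xL` always (otherwise, by the intermediate value theorem, `x(t) = xL` for some `t`, and then the energy
`e = u² + h(x) ≥ h(xL) > e`).  So `x(t) → x∞ ≥ xL` (monotone bounded), `u(t)² = e - h(x(t)) → e - h(x∞)`.  If `e - h(x∞) > 0` then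
`u(t) ≤ -v < 0` for large `t`, so `x → -∞`, contradiction.  So `h(x∞) = e`, hence `d(x∞) ≠ 0` (regular), and
`u'(t) = -d(x(t))/2 → -d(x∞)/2 ≠ 0` makes `u` unbounded, contradiction with `u → 0`.  So there is a zero of `u` in `(0, ∞)`;
take the first one `T` (`sInf` of the closed set `{t ≥ 0 | u t = 0}`): `u < 0` on `[0, T)`.  At `T` : `h(x(T)) = e`, so
`d(x(T)) ≠ 0`, and `u'(T) = -d(x(T))/2 ≥ 0` since `u < 0` before `T`; hence `d(x(T)) < 0`.
`hit_right` is the mirror image (apply `hit_left` to `h(-x)`, `-d(-x)` and `fl (-x,-u)`, or repeat). -/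

namespace Pool.Agent.CGD

open Set Filter Topology

theorem Hit_lim_zero {f f' : ℝ → ℝ} (hf : ∀ t, HasDerivAt f (f' t) t) {L c : ℝ}
    (h1 : Tendsto f atTop (𝓝 L)) (h2 : Tendsto f' atTop (𝓝 c)) : c = 0 := by
  have hex : ∀ t : ℝ, ∃ ξ ∈ Ioo t (t + 1), f' ξ = (f (t + 1) - f t) / (t + 1 - t) := fun t =>
    exists_hasDerivAt_eq_slope f f' (by linarith)
      (fun x _ => (hf x).continuousAt.continuousWithinAt) (fun x _ => hf x)
  choose ξ hξ1 hξ2 using hex
  have hξ : Tendsto ξ atTop atTop :=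
    tendsto_atTop_mono (fun t => (hξ1 t).1.le) tendsto_id
  have h3 : Tendsto (fun t => f' (ξ t)) atTop (𝓝 c) := h2.comp hξ
  have h4 : Tendsto (fun t => f (t + 1) - f t) atTop (𝓝 (L - L)) :=
    (h1.comp (tendsto_atTop_add_const_right _ 1 tendsto_id)).sub h1
  have h5 : (fun t => f' (ξ t)) = fun t => f (t + 1) - f t := by
    funext t
    rw [hξ2 t]
    have : t + 1 - t = 1 := by ring
    rw [this, div_one]
  rw [h5] at h3
  have := tendsto_nhds_unique h3 h4
  simpa using this

theorem Hit_neg {U : ℝ → ℝ} (hc : Continuous U) (h0 : U 0 < 0) {t : ℝ} (ht : 0 ≤ t)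
    (hne : ∀ s ∈ Icc 0 t, U s ≠ 0) : U t < 0 := by
  by_contra hcon
  push Not at hcon
  have h1 := intermediate_value_Icc ht hc.continuousOn
  obtain ⟨s, hs, hs0⟩ := h1 ⟨h0.le, hcon⟩
  exact hne s hs hs0

theorem Hit_aux {d h X U : ℝ → ℝ} (hd : Continuous d) (hh : Continuous h)
    (hX : ∀ t, HasDerivAt X (U t) t) (hU : ∀ t, HasDerivAt U (-(d (X t)) / 2) t) {e : ℝ}
    (he : ∀ t, U t ^ 2 + h (X t) = e) (h0 : U 0 < 0) {xL : ℝ} (hL : xL < X 0)
    (hLe : e < h xL) (hreg : ∀ x, h x = e → d x ≠ 0) :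
    ∃ T > 0, U T = 0 ∧ (∀ t ∈ Ico 0 T, U t < 0) ∧ d (X T) < 0 := by
  have hXc : Continuous X := continuous_iff_continuousAt.2 fun t => (hX t).continuousAt
  have hUc : Continuous U := continuous_iff_continuousAt.2 fun t => (hU t).continuousAt
  have hXL : ∀ t, xL ≤ X t := by
    intro t
    by_contra hcon
    push Not at hcon
    obtain ⟨s, hs⟩ := mem_range_of_exists_le_of_exists_ge hXc ⟨t, hcon.le⟩ ⟨0, hL.le⟩
    have := he s
    rw [hs] at this
    nlinarith [sq_nonneg (U s)]
  have hex : ∃ t, 0 ≤ t ∧ U t = 0 := by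
    by_contra hcon
    push Not at hcon
    have hneg : ∀ t, 0 ≤ t → U t < 0 := fun t ht =>
      Hit_neg hUc h0 ht fun s hs => hcon s hs.1
    have hanti : AntitoneOn X (Ici 0) := by
      apply antitoneOn_of_deriv_nonpos (convex_Ici 0) hXc.continuousOn
      · exact fun t _ => (hX t).differentiableAt.differentiableWithinAt
      · intro t ht
        rw [(hX t).deriv]
        rw [interior_Ici] at ht
        exact (hneg t (le_of_lt ht)).le
    have hanti2 : Antitone fun t => X (max t 0) := by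
      intro a b hab
      exact hanti (mem_Ici.2 (le_max_right _ _)) (mem_Ici.2 (le_max_right _ _))
        (max_le_max_right 0 hab)
    have hbdd : BddBelow (range fun t => X (max t 0)) := by
      refine ⟨xL, ?_⟩
      rintro y ⟨t, rfl⟩
      exact hXL _
    have hlim := tendsto_atTop_ciInf hanti2 hbdd
    set xi := ⨅ t, X (max t 0) with hxi
    have hlimX : Tendsto X atTop (𝓝 xi) := by
      refine hlim.congr' ?_
      filter_upwards [eventually_ge_atTop (0:ℝ)] with t ht
      rw [max_eq_left ht]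
    have hlimE : Tendsto (fun t => e - h (X t)) atTop (𝓝 (e - h xi)) :=
      ((hh.tendsto xi).comp hlimX).const_sub e
    have hge : 0 ≤ e - h xi := by
      refine ge_of_tendsto' hlimE fun t => ?_
      have := he t
      nlinarith [sq_nonneg (U t)]
    have hlimU : Tendsto U atTop (𝓝 (-√(e - h xi))) := by
      have h1 : Tendsto (fun t => -√(e - h (X t))) atTop (𝓝 (-√(e - h xi))) :=
        ((Real.continuous_sqrt.tendsto _).comp hlimE).neg
      refine h1.congr' ?_
      filter_upwards [eventually_ge_atTop (0:ℝ)] with t ht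
      have h2 : e - h (X t) = (-(U t)) ^ 2 := by
        have := he t
        linarith [this, neg_sq (U t)]
      rw [h2, Real.sqrt_sq (by linarith [hneg t ht])]
      ring
    have hv : √(e - h xi) = 0 := by
      have := Hit_lim_zero hX hlimX hlimU
      linarith
    have hxe : h xi = e := by
      have := (Real.sqrt_eq_zero hge).1 hv
      linarith
    have hlimU' : Tendsto (fun t => -(d (X t)) / 2) atTop (𝓝 (-(d xi) / 2)) :=
      (((hd.tendsto xi).comp hlimX).neg).div_const 2
    have h3 := Hit_lim_zero hU hlimU hlimU'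
    exact hreg xi hxe (by linarith)
  set S : Set ℝ := {t | 0 ≤ t ∧ U t = 0} with hS
  have hSc : IsClosed S :=
    (isClosed_le continuous_const continuous_id).inter (isClosed_eq hUc continuous_const)
  have hSb : BddBelow S := ⟨0, fun t ht => ht.1⟩
  have hTm : sInf S ∈ S := hSc.csInf_mem hex hSb
  have hTpos : 0 < sInf S := by
    rcases hTm.1.lt_or_eq with h1 | h1
    · exact h1
    · exfalso
      have h2 := hTm.2
      rw [← h1] at h2
      linarith
  have hlt : ∀ t ∈ Ico 0 (sInf S), U t < 0 := by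
    intro t ht
    refine Hit_neg hUc h0 ht.1 fun s hs hs0 => ?_
    have : sInf S ≤ s := csInf_le hSb ⟨hs.1, hs0⟩
    linarith [hs.2, ht.2]
  refine ⟨sInf S, hTpos, hTm.2, hlt, ?_⟩
  have hhe : h (X (sInf S)) = e := by
    have := he (sInf S)
    rw [hTm.2] at this
    linarith
  have hd0 := hreg _ hhe
  have hder := hasDerivAt_iff_tendsto_slope.1 (hU (sInf S))
  have hder2 : Tendsto (slope U (sInf S)) (𝓝[<] (sInf S)) (𝓝 (-(d (X (sInf S))) / 2)) :=
    hder.mono_left (nhdsWithin_mono _ fun x hx => ne_of_lt hx)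
  have hge : 0 ≤ -(d (X (sInf S))) / 2 := by
    refine ge_of_tendsto hder2 ?_
    filter_upwards [Ioo_mem_nhdsLT hTpos] with t ht
    rw [slope_def_field, hTm.2]
    have := hlt t ⟨ht.1.le, ht.2⟩
    apply div_nonneg_of_nonpos <;> linarith [ht.2]
  rcases lt_or_eq_of_le (show d (X (sInf S)) ≤ 0 by linarith) with h1 | h1
  · exact h1
  · exact absurd h1 hd0

theorem Hit_contD {d : ℝ → ℝ} (hd : Nice d) : Continuous d := by
  obtain ⟨K, hK⟩ := hd.lip
  exact hK.continuous

theorem hit_left {d h : ℝ → ℝ} (hd : Nice d) (hh : ∀ x, HasDerivAt h (d x) x) {z : ℝ × ℝ}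
    (hz : z.2 < 0) {xL : ℝ} (hL : xL < z.1) (hLe : z.2 ^ 2 + h z.1 < h xL)
    (hreg : ∀ x, h x = z.2 ^ 2 + h z.1 → d x ≠ 0) :
    ∃ T > 0, (fl d z T).2 = 0 ∧ (∀ t ∈ Ico 0 T, (fl d z t).2 < 0) ∧ d (fl d z T).1 < 0 := by
  have hhc : Continuous h := continuous_iff_continuousAt.2 fun x => (hh x).continuousAt
  exact Hit_aux (X := fun s => (fl d z s).1) (U := fun s => (fl d z s).2) (Hit_contD hd) hhc
    (hasDerivAt_X hd z) (hasDerivAt_U hd z) (energy hd hh z)
    (by simpa [fl_zero hd z] using hz) (by simpa [fl_zero hd z] using hL) hLe hreg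

theorem hit_right {d h : ℝ → ℝ} (hd : Nice d) (hh : ∀ x, HasDerivAt h (d x) x) {z : ℝ × ℝ}
    (hz : 0 < z.2) {xR : ℝ} (hR : z.1 < xR) (hRe : z.2 ^ 2 + h z.1 < h xR)
    (hreg : ∀ x, h x = z.2 ^ 2 + h z.1 → d x ≠ 0) :
    ∃ T > 0, (fl d z T).2 = 0 ∧ (∀ t ∈ Ico 0 T, 0 < (fl d z t).2) ∧ 0 < d (fl d z T).1 := by
  have hhc : Continuous h := continuous_iff_continuousAt.2 fun x => (hh x).continuousAt
  have hdc := Hit_contD hd
  obtain ⟨T, hT, h1, h2, h3⟩ := Hit_aux (d := fun x => -d (-x)) (h := fun x => h (-x))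
    (X := fun s => -(fl d z s).1) (U := fun s => -(fl d z s).2) (e := z.2 ^ 2 + h z.1)
    (xL := -xR) (by fun_prop) (by fun_prop) (fun t => (hasDerivAt_X hd z t).neg)
    (fun t => by
      have h1 := (hasDerivAt_U hd z t).neg
      have h2 : -(-(d (fl d z t).1) / 2) = -(-d (-(-(fl d z t).1))) / 2 := by
        rw [neg_neg (fl d z t).1]
        ring
      rw [h2] at h1
      exact h1)
    (fun t => by
      have := energy hd hh z t
      simpa using this)
    (by simpa [fl_zero hd z] using hz) (by simpa [fl_zero hd z] using hR)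
    (by simpa using hRe)
    (fun x hx => by
      have := hreg (-x) hx
      simpa using this)
  refine ⟨T, hT, by simpa using h1, fun t ht => by simpa using h2 t ht, ?_⟩
  simpa using h3

end Pool.Agent.CGD
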