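import Pool.Agent.CGD.Defs

set_option autoImplicit false

/-! Module Joint: uniform bounds for `x`-derivatives of jointly smooth functions which are periodic in `x`.

If `(t,x) ↦ F t x` is `C^∞` on the open set `O = (-δ0, δ0) × ℝ` then so is `(t,x) ↦ deriv (F t) x` (it is
`fderiv (uncurry F) (t,x) (0,1)` on `O`: `ContDiffOn.fderiv_of_isOpen`, `HasFDerivAt.comp_hasDerivAt`); by induction `(t,x) ↦ iteratedDeriv j (F t) x` is
`C^∞` on `O` (`iteratedDeriv_succ`), hence continuous on `O` and bounded on the compact set `[-δ1,δ1] × [0,Λ]`; it is `Λ`-periodic in `x`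
(derivatives of periodic functions), so bounded on `[-δ1,δ1] × ℝ`; take the maximum over `j ≤ k`. -/

namespace Pool.Agent.CGD

open Set Filter Topology
open scoped ContDiff

theorem Joint_smooth {F : ℝ → ℝ → ℝ} {δ0 : ℝ}
    (hF : ContDiffOn ℝ ∞ (fun p : ℝ × ℝ => F p.1 p.2) (Ioo (-δ0) δ0 ×ˢ univ)) (j : ℕ) :
    ContDiffOn ℝ ∞ (fun p : ℝ × ℝ => iteratedDeriv j (F p.1) p.2) (Ioo (-δ0) δ0 ×ˢ univ) := by
  have hO : IsOpen ((Ioo (-δ0) δ0 ×ˢ univ : Set (ℝ × ℝ))) := isOpen_Ioo.prod isOpen_univ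
  induction j with
  | zero => simpa using hF
  | succ j ih =>
    have h1 : ContDiffOn ℝ ∞ (fderiv ℝ (fun p : ℝ × ℝ => iteratedDeriv j (F p.1) p.2))
        (Ioo (-δ0) δ0 ×ˢ univ) := ih.fderiv_of_isOpen hO (by simp)
    have h2 : ContDiffOn ℝ ∞
        (fun p : ℝ × ℝ => fderiv ℝ (fun p : ℝ × ℝ => iteratedDeriv j (F p.1) p.2) p (0, 1))
        (Ioo (-δ0) δ0 ×ˢ univ) := h1.clm_apply contDiffOn_const
    refine h2.congr fun p hp => ?_
    have h3 : HasFDerivAt (fun p : ℝ × ℝ => iteratedDeriv j (F p.1) p.2)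
        (fderiv ℝ (fun p : ℝ × ℝ => iteratedDeriv j (F p.1) p.2) p) p :=
      ((ih.contDiffAt (hO.mem_nhds hp)).differentiableAt (by simp)).hasFDerivAt
    have h4 : HasDerivAt (fun x : ℝ => ((p.1, x) : ℝ × ℝ)) (0, 1) p.2 :=
      (hasDerivAt_const p.2 p.1).prodMk (hasDerivAt_id p.2)
    have h5 := h3.comp_hasDerivAt p.2 h4
    rw [iteratedDeriv_succ]
    exact h5.deriv

theorem joint_bound {F : ℝ → ℝ → ℝ} {δ0 δ1 Λ : ℝ} (hδ : δ1 < δ0)
    (hF : ContDiffOn ℝ ∞ (fun p : ℝ × ℝ => F p.1 p.2) (Ioo (-δ0) δ0 ×ˢ univ))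
    (hΛ : 0 < Λ) (per : ∀ t x, F t (x + Λ) = F t x) (k : ℕ) :
    ∃ C, ∀ j ≤ k, ∀ t, |t| ≤ δ1 → ∀ x, |iteratedDeriv j (F t) x| ≤ C := by
  have hK : IsCompact (Icc (-δ1) δ1 ×ˢ Icc 0 Λ : Set (ℝ × ℝ)) := isCompact_Icc.prod isCompact_Icc
  have hKO : (Icc (-δ1) δ1 ×ˢ Icc 0 Λ : Set (ℝ × ℝ)) ⊆ Ioo (-δ0) δ0 ×ˢ univ := by
    rintro p ⟨hp1, -⟩
    exact ⟨⟨by linarith [hp1.1], by linarith [hp1.2]⟩, mem_univ _⟩
  have hex : ∀ j : ℕ, ∃ C, ∀ p ∈ (Icc (-δ1) δ1 ×ˢ Icc 0 Λ : Set (ℝ × ℝ)),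
      ‖iteratedDeriv j (F p.1) p.2‖ ≤ C := fun j =>
    hK.exists_bound_of_continuousOn ((Joint_smooth hF j).continuousOn.mono hKO)
  choose C hC using hex
  refine ⟨∑ j ∈ Finset.range (k + 1), |C j|, fun j hj t ht x => ?_⟩
  have hper : Function.Periodic (iteratedDeriv j (F t)) Λ := by
    intro y
    have h1 := iteratedDeriv_comp_add_const j (F t) Λ
    have h2 : (fun z => F t (z + Λ)) = F t := by
      funext z
      exact per t z
    rw [h2] at h1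
    exact (congrFun h1 y).symm
  obtain ⟨y, hy, hxy⟩ := hper.exists_mem_Ico₀ hΛ x
  rw [hxy]
  have h1 := hC j (t, y) ⟨abs_le.1 ht, hy.1, hy.2.le⟩
  rw [Real.norm_eq_abs] at h1
  have h2 : |C j| ≤ ∑ j ∈ Finset.range (k + 1), |C j| :=
    Finset.single_le_sum (f := fun j => |C j|) (fun i _ => abs_nonneg _)
      (Finset.mem_range.2 (Nat.lt_succ_of_le hj))
  exact (h1.trans (le_abs_self _)).trans h2

end Pool.Agent.CGD
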