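import Pool.Agent.CGD.Base
import Pool.Agent.CGD.Flow

set_option autoImplicit false

/-! Module Lift: closed orbits of the reduced system give closed geodesics.

Write `X, U` for the two coordinates of `fl g.dd z`, `z = (p, μ(p) u / κ)`, `κ = b(p) u + c(p) v`.
CASE `κ > 0`.  `θ(τ) = ∫₀^τ μ(X)/κ ds` is `C¹` with derivative `≥ μ0/κ > 0`, a bijection of `ℝ`; let `τ(t)` be its inverse,
`τ'(t) = κ/μ(X(τ(t)))` (`HasDerivAt.of_local_left_inverse` or `OrderIso`/`Homeomorph`; `τ 0 = 0`).  Put `x(t) = X(τ(t))`,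
`y(t) = q + ∫₀^{τ(t)} (w(X) - β(X) U) ds`, `w = ww`, `β = bb`, `h = hh = 1/c`.  Then
`x' = U κ/μ(x)`, `y' = (w - β U) κ/μ = κ h - β x'` (`w = h μ`), both `C¹`, so `x, y` are `C²`.
At `t = 0`: `x' = (μ u/κ) κ/μ = u`, `y' = κ/c(p) - (b/c) u = v`.
`b x' + c y' = κ` : derivative `0`.
`a x' + b y' = a x' + b κ/c - (b²/c) x' = μ² x' + κ β(x) = κ (U μ(x) + β(x))`, with derivative `κ (-(d/2)(κ/μ) μ + (U μ' + β') x') = -κ² d/2 + κ (U μ' + β') x'`, where `d = h' = -c'/c²`.
The right-hand side `(a' x'² + 2 b' x' y' + c' y'²)/2` equals this: `a = μ² + β² c`, `b = β c`, so `a' = 2μμ' + 2ββ'c + β²c'`, `b' = β'c + βc'`, and with `β x' + y' = κ/c`: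
`(a' x'² + 2 b' x' y' + c' y'²)/2 = μ μ' x'² + c' (κ/c)²/2 + β' κ x'`, and `μ x' = κ U`.
Closedness: `T = θ(P)`: `τ(T) = P`, `x(T) = X(P) = p + m`, `y(T) = q + n`, and `x'(T) = U(P) κ/μ(p+m) = u`, same for `y'` by periodicity.
CASE `κ < 0`: the vector `(-u, -v)` has `κ' = -κ > 0` and the same `z`; so `(-u,-v)` is a closed vector; reverse time (`t ↦ x(-t)`, `closedVec_neg`). -/

namespace Pool.Agent.CGD

open Set Filter Topology
open scoped ContDiff

theorem Lift_int {f : ℝ → ℝ} (per : ∀ x, f (x + 1) = f x) (m : ℤ) (x : ℝ) : f (x + m) = f x := by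
  have h1 : Function.Periodic f 1 := per
  have h2 := h1.int_mul m x
  rw [mul_one] at h2
  exact h2

theorem Lift_int_sub {f : ℝ → ℝ} (per : ∀ x, f (x + 1) = f x) (m : ℤ) (x : ℝ) : f (x - m) = f x := by
  have h1 := Lift_int per (-m) x
  push_cast at h1
  rw [← sub_eq_add_neg] at h1
  exact h1

theorem Lift_rev {x : ℝ → ℝ} (hx : ContDiff ℝ 2 x) (T m t : ℝ) :
    HasDerivAt (fun s => x (T - s) - m) (-(deriv x (T - t))) t := by
  have h1 : HasDerivAt x (deriv x (T - t)) (T - t) := (hx.differentiable (by norm_num) _).hasDerivAt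
  have h2 : HasDerivAt (fun s : ℝ => T - s) (-1) t := by
    simpa using (hasDerivAt_id t).const_sub T
  have h3 := (HasDerivAt.comp t h1 h2).sub_const m
  rw [mul_neg, mul_one] at h3
  exact h3

theorem Lift_fun_rev {F : ℝ → ℝ} {F' : ℝ} {T t : ℝ} (h1 : HasDerivAt F F' (T - t)) :
    HasDerivAt (fun s => -(F (T - s))) F' t := by
  have h2 : HasDerivAt (fun s : ℝ => T - s) (-1) t := by
    simpa using (hasDerivAt_id t).const_sub T
  have h3 := (HasDerivAt.comp t h1 h2).neg
  rw [mul_neg, mul_one, neg_neg] at h3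
  exact h3

/-- time reversal: if `(x, y)` is a closed geodesic with initial vector `(u, v)` then `t ↦ (x (-t), y (-t))` is one with initial
vector `(-u, -v)` (closedness: use the time `T` and uniqueness is NOT needed if one shifts: take `t ↦ x (T - t) - m`, `y (T - t) - n`, which has initial point `(p, q)`, initial
vector `(-u, -v)` and closes at time `T` with `-m, -n`) -/
theorem closedVec_neg {g : InvMetric} {p q u v : ℝ} (h : ClosedVec g p q u v) :
    ClosedVec g p q (-u) (-v) := by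
  obtain ⟨hne, x, y, ⟨hx, hy, hel⟩, hx0, hy0, hdx, hdy, T, hT, m, n, hxT, hyT, hdxT, hdyT⟩ := h
  have dx : ∀ t, deriv (fun s => x (T - s) - m) t = -(deriv x (T - t)) := fun t => (Lift_rev hx T m t).deriv
  have dy : ∀ t, deriv (fun s => y (T - s) - n) t = -(deriv y (T - t)) := fun t => (Lift_rev hy T n t).deriv
  refine ⟨?_, fun s => x (T - s) - m, fun s => y (T - s) - n, ⟨?_, ?_, ?_⟩, ?_, ?_, ?_, ?_, T, hT, -m, -n, ?_, ?_, ?_, ?_⟩
  · intro h0
    apply hne
    have h1 := congrArg Prod.fst h0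
    have h2 := congrArg Prod.snd h0
    simp only [neg_eq_zero] at h1 h2
    rw [h1, h2]
  · exact (hx.comp (contDiff_const.sub contDiff_id)).sub contDiff_const
  · exact (hy.comp (contDiff_const.sub contDiff_id)).sub contDiff_const
  · intro t
    obtain ⟨e1, e2⟩ := hel (T - t)
    constructor
    · have h3 := Lift_fun_rev e1
      convert h3 using 1
      · funext s
        rw [dx, dy, Lift_int_sub g.per_a, Lift_int_sub g.per_b]
        ring
      · rw [dx, dy, Lift_int_sub (per_deriv g.per_a), Lift_int_sub (per_deriv g.per_b), Lift_int_sub (per_deriv g.per_c)]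
        ring
    · have h3 := Lift_fun_rev e2
      convert h3 using 1
      funext s
      rw [dx, dy, Lift_int_sub g.per_b, Lift_int_sub g.per_c]
      ring
  · simp only [sub_zero]
    rw [hxT]
    ring
  · simp only [sub_zero]
    rw [hyT]
    ring
  · rw [dx, sub_zero, hdxT]
  · rw [dy, sub_zero, hdyT]
  · simp only [sub_self]
    rw [hx0]
    push_cast
    ring
  · simp only [sub_self]
    rw [hy0]
    push_cast
    ring
  · rw [dx, sub_self, hdx]
  · rw [dy, sub_self, hdy]

theorem Lift_a (g : InvMetric) (x : ℝ) : deriv g.a x = 2 * g.mu x * deriv g.mu x + 2 * g.bb x * deriv g.bb x * g.c x +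
    g.bb x ^ 2 * deriv g.c x := by
  have h1 : g.a = fun y => g.mu y ^ 2 + g.bb y ^ 2 * g.c y := by
    funext y
    have hc := (g.pos_c y).ne'
    rw [g.mu_sq]
    unfold InvMetric.bb
    field_simp
    ring
  have m1 : HasDerivAt g.mu (deriv g.mu x) x := (g.mu_smooth.differentiable (by simp) x).hasDerivAt
  have m2 : HasDerivAt g.bb (deriv g.bb x) x := (g.bb_smooth.differentiable (by simp) x).hasDerivAt
  have m3 : HasDerivAt g.c (deriv g.c x) x := (g.smooth_c.differentiable (by simp) x).hasDerivAt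
  have h2 := ((m1.pow 2).add ((m2.pow 2).mul m3)).deriv
  have h3 : deriv g.a x = deriv (fun y => g.mu y ^ 2 + g.bb y ^ 2 * g.c y) x := by rw [← h1]
  rw [h3]
  refine Eq.trans h2 ?_
  simp only [Pi.pow_apply]
  push_cast
  ring

theorem Lift_b (g : InvMetric) (x : ℝ) : deriv g.b x = deriv g.bb x * g.c x + g.bb x * deriv g.c x := by
  have h1 : g.b = fun y => g.bb y * g.c y := by
    funext y
    have hc := (g.pos_c y).ne'
    unfold InvMetric.bb
    field_simp
  have m2 : HasDerivAt g.bb (deriv g.bb x) x := (g.bb_smooth.differentiable (by simp) x).hasDerivAt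
  have m3 : HasDerivAt g.c (deriv g.c x) x := (g.smooth_c.differentiable (by simp) x).hasDerivAt
  have h2 := (m2.mul m3).deriv
  have h3 : deriv g.b x = deriv (fun y => g.bb y * g.c y) x := by rw [← h1]
  rw [h3]
  exact h2

theorem Lift_c1 {f f' : ℝ → ℝ} (h : ∀ t, HasDerivAt f (f' t) t) (hc : Continuous f') : ContDiff ℝ 1 f := by
  rw [contDiff_one_iff_deriv]
  refine ⟨fun t => (h t).differentiableAt, ?_⟩
  have : deriv f = f' := funext fun t => (h t).deriv
  rw [this]
  exact hc

theorem Lift_c2 {f f' : ℝ → ℝ} (h : ∀ t, HasDerivAt f (f' t) t) (hc : ContDiff ℝ 1 f') : ContDiff ℝ 2 f := by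
  have h2 : ContDiff ℝ (1 + 1) f := by
    rw [contDiff_succ_iff_deriv]
    refine ⟨fun t => (h t).differentiableAt, fun h0 => absurd h0 (by simp), ?_⟩
    have : deriv f = f' := funext fun t => (h t).deriv
    rw [this]
    exact hc
  exact h2.of_le (by norm_num)

/-- inverse of the time change -/
theorem Lift_inv {θ θ' : ℝ → ℝ} (hθ : ∀ t, HasDerivAt θ (θ' t) t) {c : ℝ} (hc : 0 < c) (hb : ∀ t, c ≤ θ' t) (h0 : θ 0 = 0) :
    StrictMono θ ∧ ∃ τ : ℝ → ℝ, (∀ t, θ (τ t) = t) ∧ (∀ t, τ (θ t) = t) ∧ ∀ t, HasDerivAt τ (θ' (τ t))⁻¹ t := by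
  have hmono : StrictMono θ := by
    apply strictMono_of_deriv_pos
    intro t
    rw [(hθ t).deriv]
    exact hc.trans_le (hb t)
  have hcont : Continuous θ := continuous_iff_continuousAt.2 fun t => (hθ t).continuousAt
  have hm : Monotone fun t => θ t - c * t := by
    apply monotone_of_deriv_nonneg
    · intro t
      exact ((hθ t).sub ((hasDerivAt_id t).const_mul c)).differentiableAt
    · intro t
      have h1 := ((hθ t).sub ((hasDerivAt_id t).const_mul c)).deriv
      have h2 : deriv (fun t => θ t - c * t) t = θ' t - c * 1 := h1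
      rw [h2]
      linarith [hb t]
  have htop : Tendsto θ atTop atTop := by
    apply tendsto_atTop_mono' atTop _ (tendsto_id.const_mul_atTop hc)
    filter_upwards [eventually_ge_atTop 0] with t ht
    have h1 := hm ht
    simp only [mul_zero, sub_zero, h0, id] at h1 ⊢
    linarith
  have hbot : Tendsto θ atBot atBot := by
    apply tendsto_atBot_mono' atBot _ (tendsto_id.const_mul_atBot hc)
    filter_upwards [eventually_le_atBot 0] with t ht
    have h1 := hm ht
    simp only [mul_zero, sub_zero, h0, id] at h1 ⊢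
    linarith
  have hsurj : Function.Surjective θ := hcont.surjective htop hbot
  let e : ℝ ≃o ℝ := StrictMono.orderIsoOfSurjective θ hmono hsurj
  have he : ∀ t, θ (e.symm t) = t := fun t => e.apply_symm_apply t
  refine ⟨hmono, e.symm, he, fun t => e.symm_apply_apply t, fun t => ?_⟩
  exact HasDerivAt.of_local_left_inverse e.symm.continuous.continuousAt (hθ (e.symm t))
    (hc.trans_le (hb _)).ne' (Eventually.of_forall he)

theorem Lift_pos (g : InvMetric) {p q u v : ℝ} (hκ : 0 < g.b p * u + g.c p * v)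
    (h : PClosed g.dd g.ww g.bb (p, g.mu p * u / (g.b p * u + g.c p * v))) :
    ClosedVec g p q u v := by
  obtain ⟨κ, hκe⟩ : ∃ κ, κ = g.b p * u + g.c p * v := ⟨_, rfl⟩
  rw [← hκe] at hκ h
  obtain ⟨z, hz⟩ : ∃ z : ℝ × ℝ, z = (p, g.mu p * u / κ) := ⟨_, rfl⟩
  rw [← hz] at h
  have hz1 : z.1 = p := by rw [hz]
  have hz2 : z.2 = g.mu p * u / κ := by rw [hz]
  obtain ⟨P, hP, m, n, hflP, hint⟩ := h
  have hd := g.dd_nice
  have hX := hasDerivAt_X hd z
  have hU := hasDerivAt_U hd z
  have hfl0 := fl_zero hd z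
  obtain ⟨X, hXdef⟩ : ∃ X : ℝ → ℝ, X = fun s => (fl g.dd z s).1 := ⟨_, rfl⟩
  obtain ⟨U, hUdef⟩ : ∃ U : ℝ → ℝ, U = fun s => (fl g.dd z s).2 := ⟨_, rfl⟩
  have hXd : ∀ s, HasDerivAt X (U s) s := fun s => by rw [hXdef, hUdef]; exact hX s
  have hUd : ∀ s, HasDerivAt U (-(g.dd (X s)) / 2) s := fun s => by rw [hXdef, hUdef]; exact hU s
  have hX0 : X 0 = p := by rw [hXdef]; simp only [hfl0, hz1]
  have hU0 : U 0 = g.mu p * u / κ := by rw [hUdef]; simp only [hfl0, hz2]
  have hXP : X P = p + m := by rw [hXdef]; simp only [hflP, hz1]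
  have hUP : U P = g.mu p * u / κ := by rw [hUdef]; simp only [hflP, hz2]
  have hint' : ∫ s in (0:ℝ)..P, (g.ww (X s) - g.bb (X s) * U s) = n := by
    rw [hXdef, hUdef]
    exact hint
  have hXc : Continuous X := continuous_iff_continuousAt.2 fun t => (hXd t).continuousAt
  have hUc : Continuous U := continuous_iff_continuousAt.2 fun t => (hUd t).continuousAt
  have hmuc : Continuous g.mu := g.mu_smooth.continuous
  -- the time change
  have hθc : Continuous fun s => g.mu (X s) / κ := (hmuc.comp hXc).div_const κ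
  have hθ : ∀ t, HasDerivAt (fun t => ∫ s in (0:ℝ)..t, g.mu (X s) / κ) (g.mu (X t) / κ) t := fun t =>
    (hθc.integral_hasStrictDerivAt 0 t).hasDerivAt
  obtain ⟨δ, hδ, hδb⟩ := per_pos hmuc g.mu_per g.mu_pos
  obtain ⟨hmono, τ, hτ1, hτ2, hτd⟩ := Lift_inv hθ (div_pos hδ hκ) (fun t => div_le_div_of_nonneg_right (hδb _) hκ.le)
    intervalIntegral.integral_same
  have hτ0 : τ 0 = 0 := by
    have h1 := hτ2 0
    simp only [intervalIntegral.integral_same] at h1
    exact h1
  have hτd' : ∀ t, HasDerivAt τ (κ / g.mu (X (τ t))) t := by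
    intro t
    have h1 := hτd t
    rw [inv_div] at h1
    exact h1
  have hτc : Continuous τ := continuous_iff_continuousAt.2 fun t => (hτd' t).continuousAt
  -- the curve
  have hWc : Continuous fun s => g.ww (X s) - g.bb (X s) * U s :=
    (g.ww_smooth.continuous.comp hXc).sub ((g.bb_smooth.continuous.comp hXc).mul hUc)
  have hW : ∀ t, HasDerivAt (fun t => ∫ s in (0:ℝ)..t, (g.ww (X s) - g.bb (X s) * U s)) (g.ww (X t) - g.bb (X t) * U t) t :=
    fun t => (hWc.integral_hasStrictDerivAt 0 t).hasDerivAt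
  have hxd : ∀ t, HasDerivAt (fun t => X (τ t)) (U (τ t) * (κ / g.mu (X (τ t)))) t := fun t =>
    HasDerivAt.comp t (hXd (τ t)) (hτd' t)
  have hyd : ∀ t, HasDerivAt (fun t => q + ∫ s in (0:ℝ)..(τ t), (g.ww (X s) - g.bb (X s) * U s))
      ((g.ww (X (τ t)) - g.bb (X (τ t)) * U (τ t)) * (κ / g.mu (X (τ t)))) t := fun t =>
    (HasDerivAt.comp t (hW (τ t)) (hτd' t)).const_add q
  have hud : ∀ t, HasDerivAt (fun t => U (τ t)) (-(g.dd (X (τ t))) / 2 * (κ / g.mu (X (τ t)))) t := fun t =>
    HasDerivAt.comp t (hUd (τ t)) (hτd' t)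
  have dx : ∀ t, deriv (fun t => X (τ t)) t = U (τ t) * (κ / g.mu (X (τ t))) := fun t => (hxd t).deriv
  have dy : ∀ t, deriv (fun t => q + ∫ s in (0:ℝ)..(τ t), (g.ww (X s) - g.bb (X s) * U s)) t =
      (g.ww (X (τ t)) - g.bb (X (τ t)) * U (τ t)) * (κ / g.mu (X (τ t))) := fun t => (hyd t).deriv
  have hmu0 : ∀ t, g.mu (X (τ t)) ≠ 0 := fun t => (g.mu_pos _).ne'
  have hmuxc : Continuous fun t => κ / g.mu (X (τ t)) :=
    continuous_const.div (hmuc.comp (hXc.comp hτc)) hmu0
  have hx1 : ContDiff ℝ 1 fun t => X (τ t) := Lift_c1 hxd ((hUc.comp hτc).mul hmuxc)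
  have hu1 : ContDiff ℝ 1 fun t => U (τ t) := Lift_c1 hud
    (((g.dd_smooth.continuous.comp (hXc.comp hτc)).neg.div_const 2).mul hmuxc)
  have hmux1 : ContDiff ℝ 1 fun t => κ / g.mu (X (τ t)) :=
    contDiff_const.div ((g.mu_smooth.of_le (by simp)).comp hx1) hmu0
  have hx2 : ContDiff ℝ 2 fun t => X (τ t) := Lift_c2 hxd (hu1.mul hmux1)
  have hy2 : ContDiff ℝ 2 fun t => q + ∫ s in (0:ℝ)..(τ t), (g.ww (X s) - g.bb (X s) * U s) := Lift_c2 hyd
    ((((g.ww_smooth.of_le (by simp)).comp hx1).sub (((g.bb_smooth.of_le (by simp)).comp hx1).mul hu1)).mul hmux1)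
  -- the second component
  have hyy : ∀ t, (g.ww (X (τ t)) - g.bb (X (τ t)) * U (τ t)) * (κ / g.mu (X (τ t))) =
      κ / g.c (X (τ t)) - g.bb (X (τ t)) * (U (τ t) * (κ / g.mu (X (τ t)))) := by
    intro t
    have h1 := hmu0 t
    have h2 := (g.pos_c (X (τ t))).ne'
    rw [g.ww_eq]
    unfold InvMetric.hh
    field_simp
  refine ⟨?_, fun t => X (τ t), fun t => q + ∫ s in (0:ℝ)..(τ t), (g.ww (X s) - g.bb (X s) * U s), ⟨hx2, hy2, ?_⟩, ?_, ?_, ?_, ?_,
    ∫ s in (0:ℝ)..P, g.mu (X s) / κ, ?_, m, n, ?_, ?_, ?_, ?_⟩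
  · intro h0
    have h1 : u = 0 := congrArg Prod.fst h0
    have h2 : v = 0 := congrArg Prod.snd h0
    rw [hκe, h1, h2] at hκ
    simp at hκ
  · intro t
    constructor
    · have hfun : (fun s => g.a ((fun t => X (τ t)) s) * deriv (fun t => X (τ t)) s + g.b ((fun t => X (τ t)) s) *
          deriv (fun t => q + ∫ s in (0:ℝ)..(τ t), (g.ww (X s) - g.bb (X s) * U s)) s) =
          fun s => κ * (g.mu (X (τ s)) * U (τ s) + g.bb (X (τ s))) := by
        funext s
        rw [dx, dy, hyy]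
        have h1 := hmu0 s
        have h2 := (g.pos_c (X (τ s))).ne'
        have h3 := g.mu_sq (X (τ s))
        have h4 : g.a (X (τ s)) = g.mu (X (τ s)) ^ 2 + g.b (X (τ s)) ^ 2 / g.c (X (τ s)) := by rw [h3]; ring
        simp only []
        rw [h4]
        unfold InvMetric.bb
        field_simp
        ring
      rw [hfun]
      have m1 : HasDerivAt (fun s => g.mu (X (τ s))) (deriv g.mu (X (τ t)) * (U (τ t) * (κ / g.mu (X (τ t))))) t := by
        have m0 : HasDerivAt g.mu (deriv g.mu (X (τ t))) (X (τ t)) := (g.mu_smooth.differentiable (by simp) (X (τ t))).hasDerivAt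
        have m0' := HasDerivAt.comp (h₂ := g.mu) t m0 (hxd t)
        exact m0'
      have m2 : HasDerivAt (fun s => g.bb (X (τ s))) (deriv g.bb (X (τ t)) * (U (τ t) * (κ / g.mu (X (τ t))))) t := by
        have m0 : HasDerivAt g.bb (deriv g.bb (X (τ t))) (X (τ t)) := (g.bb_smooth.differentiable (by simp) (X (τ t))).hasDerivAt
        have m0' := HasDerivAt.comp (h₂ := g.bb) t m0 (hxd t)
        exact m0'
      have h5 := ((m1.mul (hud t)).add m2).const_mul κ
      refine HasDerivAt.congr_deriv (f := fun s => κ * (g.mu (X (τ s)) * U (τ s) + g.bb (X (τ s)))) h5 ?_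
      rw [dx, dy, hyy, Lift_a, Lift_b]
      have h1 := hmu0 t
      have h2 := (g.pos_c (X (τ t))).ne'
      simp only []
      unfold InvMetric.dd
      generalize deriv g.mu (X (τ t)) = mu'
      generalize deriv g.bb (X (τ t)) = bb'
      generalize deriv g.c (X (τ t)) = c'
      generalize g.bb (X (τ t)) = bb at *
      generalize g.mu (X (τ t)) = mu at *
      generalize g.c (X (τ t)) = c at *
      generalize U (τ t) = w
      field_simp
      ring
    · have hfun : (fun s => g.b ((fun t => X (τ t)) s) * deriv (fun t => X (τ t)) s + g.c ((fun t => X (τ t)) s) *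
          deriv (fun t => q + ∫ s in (0:ℝ)..(τ t), (g.ww (X s) - g.bb (X s) * U s)) s) = fun _ => κ := by
        funext s
        rw [dx, dy, hyy]
        have h1 := hmu0 s
        have h2 := (g.pos_c (X (τ s))).ne'
        simp only []
        unfold InvMetric.bb
        field_simp
        ring
      rw [hfun]
      exact hasDerivAt_const t κ
  · simp only [hτ0, hX0]
  · simp only [hτ0, intervalIntegral.integral_same, add_zero]
  · rw [dx, hτ0, hX0, hU0]
    have h1 := (g.mu_pos p).ne'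
    field_simp
  · rw [dy, hyy, hτ0, hX0, hU0]
    have h1 := (g.mu_pos p).ne'
    have h2 := (g.pos_c p).ne'
    unfold InvMetric.bb
    field_simp
    rw [hκe]
    ring
  · have h1 := hmono hP
    simp only [intervalIntegral.integral_same] at h1
    exact h1
  · have h1 := hτ2 P
    simp only [h1, hXP]
  · have h1 := hτ2 P
    simp only [h1, hint']
  · have h1 := hτ2 P
    rw [dx, h1, hXP, hUP, Lift_int g.mu_per]
    have h1 := (g.mu_pos p).ne'
    field_simp
  · have h1 := hτ2 P
    rw [dy, hyy, h1, hXP, hUP, Lift_int g.mu_per, Lift_int g.per_c, Lift_int g.bb_per]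
    have h1 := (g.mu_pos p).ne'
    have h2 := (g.pos_c p).ne'
    unfold InvMetric.bb
    field_simp
    rw [hκe]
    ring

theorem lift_closed (g : InvMetric) {p q u v : ℝ} (hκ : g.b p * u + g.c p * v ≠ 0)
    (h : PClosed g.dd g.ww g.bb (p, g.mu p * u / (g.b p * u + g.c p * v))) :
    ClosedVec g p q u v := by
  rcases lt_or_gt_of_ne hκ with h0 | h0
  · have h1 : g.mu p * u / (g.b p * u + g.c p * v) = g.mu p * (-u) / (g.b p * (-u) + g.c p * (-v)) := by
      have e1 : g.b p * (-u) + g.c p * (-v) = -(g.b p * u + g.c p * v) := by ring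
      have e2 : g.mu p * (-u) = -(g.mu p * u) := by ring
      rw [e1, e2, neg_div_neg_eq]
    rw [h1] at h
    have h2 := closedVec_neg (Lift_pos (q := q) g (by linarith) h)
    rw [neg_neg, neg_neg] at h2
    exact h2
  · exact Lift_pos g h0 h

end Pool.Agent.CGD
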