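import Pool.Agent.CGD.LocMod

set_option autoImplicit false

/-! Module LocCut: the cut-off version of `loc_mod` with prescribed small support. -/

namespace Pool.Agent.CGD

open Set Filter Topology
open scoped ContDiff

theorem loc_cut (ε1 : ℝ) (hε1 : 0 < ε1) : ∃ ε' > 0, ∀ (x0 : ℝ) (G : ℝ → ℝ), ContDiff ℝ ∞ G →
    G x0 = 0 → deriv G x0 = 0 → |deriv (deriv G) x0| ≤ ε' → ∀ ρ0 > 0,
    ∃ r > 0, 2 * r < ρ0 ∧ ∃ F : ℝ → ℝ, ContDiff ℝ ∞ F ∧ (∀ x, 2 * r ≤ |x - x0| → F x = 0) ∧
      (∀ x ∈ Icc (x0 - r) (x0 + r), F x = G x) ∧ ∀ j ≤ 2, ∀ x, |iteratedDeriv j F x| < ε1 := by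
  -- the bump
  let b : ContDiffBump (0 : ℝ) := ⟨1, 2, one_pos, one_lt_two⟩
  let ρ : ℝ → ℝ := fun x => b x
  have hρ : ContDiff ℝ ∞ ρ := b.contDiff
  have hρc : HasCompactSupport ρ := b.hasCompactSupport
  have hρ1 : ContDiff ℝ ∞ (deriv ρ) := (contDiff_infty_iff_deriv.1 hρ).2
  have hρ2 : ContDiff ℝ ∞ (deriv (deriv ρ)) := (contDiff_infty_iff_deriv.1 hρ1).2
  obtain ⟨C0, hC0⟩ := hρ.continuous.bounded_above_of_compact_support hρc
  obtain ⟨C1, hC1⟩ := hρ1.continuous.bounded_above_of_compact_support hρc.deriv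
  obtain ⟨C2, hC2⟩ := hρ2.continuous.bounded_above_of_compact_support hρc.deriv.deriv
  let C : ℝ := 1 + |C0| + |C1| + |C2|
  have hC : 1 ≤ C := by
    have := abs_nonneg C0; have := abs_nonneg C1; have := abs_nonneg C2
    show 1 ≤ 1 + |C0| + |C1| + |C2|
    linarith
  have bC0 : ∀ x, |ρ x| ≤ C := fun x => by
    have h1 := hC0 x
    rw [Real.norm_eq_abs] at h1
    have := le_abs_self C0; have := abs_nonneg C1; have := abs_nonneg C2
    show |ρ x| ≤ 1 + |C0| + |C1| + |C2|
    linarith
  have bC1 : ∀ x, |deriv ρ x| ≤ C := fun x => by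
    have h1 := hC1 x
    rw [Real.norm_eq_abs] at h1
    have := le_abs_self C1; have := abs_nonneg C0; have := abs_nonneg C2
    show |deriv ρ x| ≤ 1 + |C0| + |C1| + |C2|
    linarith
  have bC2 : ∀ x, |deriv (deriv ρ) x| ≤ C := fun x => by
    have h1 := hC2 x
    rw [Real.norm_eq_abs] at h1
    have := le_abs_self C2; have := abs_nonneg C1; have := abs_nonneg C0
    show |deriv (deriv ρ) x| ≤ 1 + |C0| + |C1| + |C2|
    linarith
  have hCpos : 0 < C := by linarith
  have hbIn : ∀ x, |x| ≤ 1 → ρ x = 1 := fun x hx => b.one_of_mem_closedBall (by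
    simpa [Metric.mem_closedBall, Real.dist_eq, b] using hx)
  have hbOut : ∀ x, 2 ≤ |x| → ρ x = 0 := fun x hx => b.zero_of_le_dist (by
    simpa [Real.dist_eq, b] using hx)
  refine ⟨ε1 / (20 * C), by positivity, ?_⟩
  intro x0 G hG g0 g1 g2 ρ0 hρ0
  set ε' := ε1 / (20 * C) with hε'
  have hε'pos : 0 < ε' := by positivity
  have hCε : C * ε' = ε1 / 20 := by
    rw [hε']; field_simp
  have hG1 : ContDiff ℝ ∞ (deriv G) := (contDiff_infty_iff_deriv.1 hG).2
  have hG2 : ContDiff ℝ ∞ (deriv (deriv G)) := (contDiff_infty_iff_deriv.1 hG1).2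
  have dG : Differentiable ℝ G := hG.differentiable (by simp)
  have dG1 : Differentiable ℝ (deriv G) := hG1.differentiable (by simp)
  have hev : ∀ᶠ x in 𝓝 x0, |deriv (deriv G) x| < 2 * ε' := by
    have hc : ContinuousAt (fun x => |deriv (deriv G) x|) x0 :=
      (hG2.continuous.abs).continuousAt
    exact hc.eventually_lt continuousAt_const (by linarith)
  obtain ⟨r0, hr0, hball⟩ := Metric.eventually_nhds_iff.1 hev
  obtain ⟨r, hr, hr1, hr2, hr3⟩ : ∃ r > 0, r < 1 / 4 ∧ 2 * r < r0 ∧ 2 * r < ρ0 :=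
    ⟨min (1 / 8) (min (r0 / 4) (ρ0 / 4)), by positivity,
      lt_of_le_of_lt (min_le_left _ _) (by norm_num), by
      have := (min_le_right (1 / 8) (min (r0 / 4) (ρ0 / 4))).trans (min_le_left _ _)
      linarith, by
      have := (min_le_right (1 / 8) (min (r0 / 4) (ρ0 / 4))).trans (min_le_right _ _)
      linarith⟩
  have bG2 : ∀ x, |x - x0| ≤ 2 * r → |deriv (deriv G) x| ≤ 2 * ε' := fun x hx =>
    (hball (by rw [Real.dist_eq]; linarith)).le
  have bG1 : ∀ x, |x - x0| ≤ 2 * r → |deriv G x| ≤ 2 * ε' * (2 * r) := fun x hx =>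
    LocMod_mv dG1 g1 bG2 (by positivity) hx
  have bG0 : ∀ x, |x - x0| ≤ 2 * r → |G x| ≤ 2 * ε' * (2 * r) * (2 * r) := fun x hx =>
    LocMod_mv dG g0 bG1 (by positivity) hx
  -- the cut off function
  let u : ℝ → ℝ := fun x => ρ ((x - x0) / r)
  have hu : ContDiff ℝ ∞ u := hρ.comp ((contDiff_id.sub contDiff_const).div_const r)
  let F0 : ℝ → ℝ := fun x => u x * G x
  have hF0 : ContDiff ℝ ∞ F0 := hu.mul hG
  have hsupp : ∀ x, 2 * r ≤ |x - x0| → F0 x = 0 := by
    intro x hx
    have : u x = 0 := hbOut _ (by rw [abs_div, abs_of_pos hr, le_div_iff₀ hr]; exact hx)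
    show u x * G x = 0
    rw [this, zero_mul]
  refine ⟨r, hr, hr3, F0, hF0, hsupp, ?_, ?_⟩
  · intro x hx
    have hx' : |x - x0| ≤ r := by
      rw [abs_le]; constructor <;> linarith [hx.1, hx.2]
    have : u x = 1 := hbIn _ (by rw [abs_div, abs_of_pos hr, div_le_iff₀ hr]; linarith)
    show u x * G x = G x
    rw [this, one_mul]
  · have hu0 : ∀ x, |u x| ≤ C := fun x => bC0 _
    obtain ⟨s1, s2⟩ := LocMod_scale hρ x0 r
    have hu1 : ∀ x, |deriv u x| ≤ C / r := fun x => by
      have : deriv u x = deriv ρ ((x - x0) / r) / r := s1 x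
      rw [this, abs_div, abs_of_pos hr]
      exact div_le_div_of_nonneg_right (bC1 _) hr.le
    have hu2 : ∀ x, |deriv (deriv u) x| ≤ C / r / r := fun x => by
      have : deriv (deriv u) x = deriv (deriv ρ) ((x - x0) / r) / r / r := s2 x
      rw [this, abs_div, abs_div, abs_of_pos hr]
      exact div_le_div_of_nonneg_right (div_le_div_of_nonneg_right (bC2 _) hr.le) hr.le
    obtain ⟨p1, p2⟩ := LocMod_deriv2 hu hG
    intro j hj x'
    by_cases hfar : |x' - x0| ≤ 2 * r
    · have k0 := hu0 x'; have k1 := hu1 x'; have k2 := hu2 x'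
      have l0 := bG0 x' hfar; have l1 := bG1 x' hfar; have l2 := bG2 x' hfar
      interval_cases j
      · rw [iteratedDeriv_zero]
        show |u x' * G x'| < ε1
        rw [abs_mul]
        have : |u x'| * |G x'| ≤ C * (2 * ε' * (2 * r) * (2 * r)) := by gcongr
        have e : C * (2 * ε' * (2 * r) * (2 * r)) = 8 * (r * r) * (C * ε') := by ring
        rw [e, hCε] at this
        have hrr : r * r ≤ 1 := by nlinarith
        nlinarith
      · rw [iteratedDeriv_one]
        have : deriv F0 x' = deriv u x' * G x' + u x' * deriv G x' := p1 x'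
        rw [this]
        have e1 : |deriv u x' * G x'| ≤ C / r * (2 * ε' * (2 * r) * (2 * r)) := by
          rw [abs_mul]; gcongr
        have e2 : |u x' * deriv G x'| ≤ C * (2 * ε' * (2 * r)) := by
          rw [abs_mul]; gcongr
        have e3 : C / r * (2 * ε' * (2 * r) * (2 * r)) = 8 * r * (C * ε') := by
          field_simp
          ring
        have e4 : C * (2 * ε' * (2 * r)) = 4 * r * (C * ε') := by ring
        rw [e3, hCε] at e1
        rw [e4, hCε] at e2
        have := abs_add_le (deriv u x' * G x') (u x' * deriv G x')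
        nlinarith
      · rw [iteratedDeriv_succ, iteratedDeriv_one]
        have : deriv (deriv F0) x' = deriv (deriv u) x' * G x' + 2 * (deriv u x' * deriv G x') +
          u x' * deriv (deriv G) x' := p2 x'
        rw [this]
        have e1 : |deriv (deriv u) x' * G x'| ≤ C / r / r * (2 * ε' * (2 * r) * (2 * r)) := by
          rw [abs_mul]; gcongr
        have e2 : |deriv u x' * deriv G x'| ≤ C / r * (2 * ε' * (2 * r)) := by
          rw [abs_mul]; gcongr
        have e5 : |u x' * deriv (deriv G) x'| ≤ C * (2 * ε') := by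
          rw [abs_mul]; gcongr
        have e3 : C / r / r * (2 * ε' * (2 * r) * (2 * r)) = 8 * (C * ε') := by
          field_simp
          ring
        have e4 : C / r * (2 * ε' * (2 * r)) = 4 * (C * ε') := by
          field_simp
          ring
        have e6 : C * (2 * ε') = 2 * (C * ε') := by ring
        rw [e3, hCε] at e1
        rw [e4, hCε] at e2
        rw [e6, hCε] at e5
        have t1 := abs_add_le (deriv (deriv u) x' * G x' + 2 * (deriv u x' * deriv G x'))
          (u x' * deriv (deriv G) x')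
        have t2 := abs_add_le (deriv (deriv u) x' * G x') (2 * (deriv u x' * deriv G x'))
        have t3 : |2 * (deriv u x' * deriv G x')| = 2 * |deriv u x' * deriv G x'| := by
          rw [abs_mul, abs_two]
        linarith
    · have hopen : IsOpen {y : ℝ | 2 * r < |y - x0|} := isOpen_lt continuous_const (by fun_prop)
      have hz : F0 =ᶠ[𝓝 x'] fun _ => (0 : ℝ) := by
        filter_upwards [hopen.mem_nhds (not_le.1 hfar)] with y hy
        exact hsupp y (le_of_lt hy)
      rw [hz.iteratedDeriv_eq j]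
      have : iteratedDeriv j (fun _ : ℝ => (0 : ℝ)) x' = 0 := by
        simp [iteratedDeriv_const]
      rw [this, abs_zero]
      exact hε1


end Pool.Agent.CGD
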