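import Pool.Agent.CGD.Flow
import Pool.Agent.CGD.Cross

set_option autoImplicit false

/-! Module OscCl: `Osc` gives a closed orbit through `V`.

For `ξ ∈ S := uIcc ξ₁ ξ₂` let `τ(ξ)` be the unique time with `Yw d w (ξ,0) (τ ξ) = qϖ/2` (`Yw` has derivative `≥ δ > 0`, so it is strictly increasing and
onto; `cross_global` with `F ξ t = Yw d w (ξ,0) t - qϖ/2`); `τ` is continuous on `S`, `τ(ξ₁) = t₁`, `τ(ξ₂) = t₂` by injectivity.  `ξ ↦ (fl d (ξ,0) (τ ξ)).2` is continuous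
on `S` and changes sign, so it vanishes at some `ξ* ∈ S`; `t* = τ(ξ*) > 0` since `Yw(t*) > 0 = Yw(0)`.  With `U(t*) = 0`: the orbit of `(ξ*, 0)` is `2t*`-periodic
(`fl_add`, `fl_rev`: see Swing) and `Yw (2t*) = 2 Yw(t*) = qϖ`.  The point `z = fl d (ξ*,0) s ∈ V` is on the same periodic orbit:
`fl d z (2t*) = z`, `Yw d w z (2t*) = qϖ` (`Yw_add` twice: `Yw (ξ*,0) (s + P) = Yw (ξ*,0) s + Yw z P = Yw (ξ*,0) P + Yw (fl (ξ*,0) P) s`). -/

namespace Pool.Agent.CGD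

open Set Filter Topology

private theorem OscCl_zero {d w : ℝ → ℝ} (z : ℝ × ℝ) : Yw d w z 0 = 0 := by
  simp [Yw]

private theorem OscCl_lower {d w : ℝ → ℝ} (hd : Nice d) (hw : Continuous w) {δ : ℝ}
    (hw0 : ∀ x, δ ≤ w x) (z : ℝ × ℝ) {t : ℝ} (ht : 0 ≤ t) : δ * t ≤ Yw d w z t := by
  have c2 : Continuous fun s => (fl d z s).1 :=
    continuous_iff_continuousAt.2 fun s => (hasDerivAt_X hd z s).continuousAt
  have h := intervalIntegral.integral_mono (μ := MeasureTheory.volume) ht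
    (f := fun _ => δ) (g := fun s => w ((fl d z s).1))
    (continuous_const.intervalIntegrable _ _) ((hw.comp c2).intervalIntegrable _ _) (fun s => hw0 _)
  rw [intervalIntegral.integral_const] at h
  simpa [Yw, mul_comm] using h

theorem osc_closed {d w : ℝ → ℝ} (hd : Nice d) (hw : Continuous w) (hw0 : ∃ δ > 0, ∀ x, δ ≤ w x)
    {ϖ : ℝ} (hϖ : 0 < ϖ) {V : Set (ℝ × ℝ)} (h : Osc d w ϖ V) :
    ∃ z ∈ V, ∃ P > 0, ∃ q : ℕ, 0 < q ∧ fl d z P = z ∧ Yw d w z P = q * ϖ := by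
  obtain ⟨q, s, ξ₁, ξ₂, t₁, t₂, hq, hV, hY1, hU1, hY2, hU2⟩ := h
  obtain ⟨δ, hδ, hw1⟩ := hw0
  have hqp : (0:ℝ) < q := by exact_mod_cast hq
  have hc : 0 < (q:ℝ) * ϖ / 2 := by positivity
  set F : ℝ → ℝ → ℝ := fun ξ t => Yw d w (ξ, 0) t - (q:ℝ) * ϖ / 2 with hF
  have hmono : ∀ ξ, StrictMono (F ξ) := by
    intro ξ
    apply strictMono_of_deriv_pos
    intro t
    have h1 : HasDerivAt (F ξ) (w (fl d (ξ, 0) t).1) t := (hasDerivAt_Yw hd hw (ξ, 0) t).sub_const _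
    rw [h1.deriv]
    exact hδ.trans_le (hw1 _)
  have hFc : Continuous fun p : ℝ × ℝ => F p.1 p.2 := by
    have h1 : Continuous fun p : ℝ × ℝ => (((p.1, (0:ℝ)), p.2) : (ℝ × ℝ) × ℝ) := by fun_prop
    exact ((Yw_continuous hd hw).comp h1).sub continuous_const
  have hF0 : ∀ ξ, F ξ 0 < 0 := by
    intro ξ
    simp only [hF, OscCl_zero]
    linarith
  obtain ⟨τ, hτc, hτ0⟩ := cross_global (S := uIcc ξ₁ ξ₂) (F := F) hFc.continuousOn
    (fun ξ _ => hmono ξ) (fun ξ _ => ⟨0, hF0 ξ⟩) (fun ξ _ => by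
      refine ⟨(q:ℝ) * ϖ / 2 / δ + 1, ?_⟩
      have hp : 0 ≤ (q:ℝ) * ϖ / 2 / δ + 1 := by positivity
      have h1 := OscCl_lower hd hw hw1 (ξ, 0) hp
      have h2 : δ * ((q:ℝ) * ϖ / 2 / δ + 1) = (q:ℝ) * ϖ / 2 + δ := by
        field_simp
      rw [h2] at h1
      simp only [hF]
      linarith)
  have e1 : τ ξ₁ = t₁ := by
    apply (hmono ξ₁).injective
    rw [hτ0 ξ₁ left_mem_uIcc]
    simp only [hF, hY1]
    ring
  have e2 : τ ξ₂ = t₂ := by
    apply (hmono ξ₂).injective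
    rw [hτ0 ξ₂ right_mem_uIcc]
    simp only [hF, hY2]
    ring
  have hg : ContinuousOn (fun ξ => (fl d (ξ, 0) (τ ξ)).2) (uIcc ξ₁ ξ₂) := by
    have h1 : ContinuousOn (fun ξ : ℝ => (((ξ, (0:ℝ)), τ ξ) : (ℝ × ℝ) × ℝ)) (uIcc ξ₁ ξ₂) :=
      (continuousOn_id.prodMk continuousOn_const).prodMk hτc
    exact continuous_snd.comp_continuousOn ((fl_continuous hd).comp_continuousOn h1)
  have hiv := intermediate_value_uIcc hg
  have h0mem : (0:ℝ) ∈ uIcc (fl d (ξ₁, 0) (τ ξ₁)).2 (fl d (ξ₂, 0) (τ ξ₂)).2 := by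
    rw [e1, e2]
    exact Set.mem_uIcc.2 (Or.inl ⟨hU1.le, hU2.le⟩)
  obtain ⟨ξ, hξ, hξ0⟩ := hiv h0mem
  have hU0 : (fl d (ξ, 0) (τ ξ)).2 = 0 := hξ0
  have hYt : Yw d w (ξ, 0) (τ ξ) = (q:ℝ) * ϖ / 2 := by
    have := hτ0 ξ hξ
    simp only [hF] at this
    linarith
  have htp : 0 < τ ξ := by
    have h1 : F ξ 0 < F ξ (τ ξ) := by rw [hτ0 ξ hξ]; exact hF0 ξ
    exact (hmono ξ).lt_iff_lt.1 h1
  set z0 : ℝ × ℝ := (ξ, 0) with hz0
  set t : ℝ := τ ξ with ht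
  have hrev : fl d z0 (-t) = fl d z0 t := by
    have h1 := fl_rev hd z0 t
    have h2 : ((z0.1, -z0.2) : ℝ × ℝ) = z0 := by rw [hz0]; simp
    rw [h2] at h1
    rw [h1] at hU0
    have h3 : (fl d z0 (-t)).2 = 0 := by
      have : -(fl d z0 (-t)).2 = 0 := hU0
      linarith
    rw [h1]
    ext
    · rfl
    · rw [h3]; simp
  have hper : fl d z0 (t + t) = z0 := by
    rw [fl_add hd, ← hrev, ← fl_add hd, neg_add_cancel, fl_zero hd]
  have hYper : Yw d w z0 (t + t) = (q:ℝ) * ϖ := by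
    have h1 := Yw_add hd hw z0 t t
    have h2 := Yw_add hd hw z0 (-t) t
    rw [neg_add_cancel, OscCl_zero, hz0, Yw_neg hd hw, ← hz0, hrev, hYt] at h2
    rw [h1, hYt]
    linarith
  refine ⟨fl d z0 s, hV ξ hξ, t + t, by linarith, q, hq, ?_, ?_⟩
  · rw [← fl_add hd, add_comm s, fl_add hd, hper]
  · have h1 := Yw_add hd hw z0 s (t + t)
    have h2 := Yw_add hd hw z0 (t + t) s
    rw [hper, add_comm (t + t) s] at h2
    linarith

/-- for `ϖ = 1`: the planar closing condition; the `β`-term integrates to zero over a closed loop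
(substitution: `β` continuous has a primitive) -/
theorem osc_pclosed {d w β : ℝ → ℝ} (hd : Nice d) (hw : Continuous w)
    (hw0 : ∃ δ > 0, ∀ x, δ ≤ w x) (hβ : Continuous β) {V : Set (ℝ × ℝ)} (h : Osc d w 1 V) :
    ∃ z ∈ V, PClosed d w β z := by
  obtain ⟨z, hz, P, hP, q, hq, h1, h2⟩ := osc_closed hd hw hw0 one_pos h
  refine ⟨z, hz, P, hP, 0, (q : ℤ), ?_, ?_⟩
  · rw [h1]; simp
  · have c1 : Continuous fun s => (fl d z s).1 :=
      continuous_iff_continuousAt.2 fun s => (hasDerivAt_X hd z s).continuousAt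
    have c2 : Continuous fun s => (fl d z s).2 :=
      continuous_iff_continuousAt.2 fun s => (hasDerivAt_U hd z s).continuousAt
    have i1 : IntervalIntegrable (fun s => w ((fl d z s).1)) MeasureTheory.volume 0 P :=
      (hw.comp c1).intervalIntegrable _ _
    have i2 : IntervalIntegrable (fun s => β ((fl d z s).1) * (fl d z s).2) MeasureTheory.volume 0 P :=
      ((hβ.comp c1).mul c2).intervalIntegrable _ _
    rw [intervalIntegral.integral_sub i1 i2]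
    have hB : ∀ x, HasDerivAt (fun x => ∫ r in (0:ℝ)..x, β r) (β x) x := fun x =>
      (hβ.integral_hasStrictDerivAt 0 x).hasDerivAt
    have hcomp : ∀ s, HasDerivAt (fun s => ∫ r in (0:ℝ)..(fl d z s).1, β r)
        (β ((fl d z s).1) * (fl d z s).2) s := fun s =>
      HasDerivAt.comp s (hB _) (hasDerivAt_X hd z s)
    have h3 : ∫ s in (0:ℝ)..P, β ((fl d z s).1) * (fl d z s).2 = 0 := by
      rw [intervalIntegral.integral_eq_sub_of_hasDerivAt (fun s _ => hcomp s) i2, h1, fl_zero hd, sub_self]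
    rw [h3, sub_zero]
    have h4 : ∫ s in (0:ℝ)..P, w ((fl d z s).1) = (q:ℝ) * 1 := h2
    rw [h4]
    simp

end Pool.Agent.CGD
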