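import Pool.Agent.CGD.Flow

set_option autoImplicit false

/-! Module Swing: on a band on which `ω(ξ) = Yw d w (ξ,0) (T ξ)` is not constant the robust condition `Osc` holds.

Symmetries: `fl (ξ,0) (-t) = (X(t), -U(t))` (`fl_rev`).  As `U(T) = 0`, `X(T+t) = X(T-t)`, `U(T+t) = -U(T-t)` (`fl_add` + `fl_rev` at
`(X(T), 0)`), so `fl (ξ,0)` is `2T`-periodic, `U < 0` on `(0,T)`, `U > 0` on `(T,2T)`, and `Yw (m T) = m ω` for `m : ℕ`; for `m` even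
`U < 0` on `(mT, (m+1)T)` and `U > 0` on `((m-1)T, mT)`.
`ω` is continuous on `[a,b]` (`Yw_continuous`, `Tcont`) and positive.  If it takes two different values then `ω([a,b]) ⊇ [v1, v2]`, `0 < v1 < v2`.
Choose natural numbers `q, m ≥ 1`, `m` even, `m ≥ 2`, with `v1 < v* := q ϖ / (2 m) < v2`.  Choose `ξ₁` with `max v1 (qϖ/(2(m+1))) < ω(ξ₁) < v*` and
`ξ₂` with `v* < ω(ξ₂) < min v2 (qϖ/(2(m-1)))` (intermediate value theorem).  Then `m ω(ξ₁) < qϖ/2 < (m+1) ω(ξ₁)`, so there is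
`t₁ ∈ (mT₁, (m+1)T₁)` with `Yw = qϖ/2`, `U(t₁) < 0`; and `(m-1) ω(ξ₂) < qϖ/2 < m ω(ξ₂)` gives `t₂ ∈ ((m-1)T₂, mT₂)`, `U(t₂) > 0`. -/

namespace Pool.Agent.CGD

open Set Filter Topology

theorem Swing_eq {d : ℝ → ℝ} {ξ τ : ℝ} (h0 : (fl d (ξ, 0) τ).2 = 0) :
    fl d (ξ, 0) τ = ((fl d (ξ, 0) τ).1, 0) := Prod.ext rfl h0

theorem Swing_sym {d : ℝ → ℝ} (hd : Nice d) {ξ τ : ℝ} (h0 : (fl d (ξ, 0) τ).2 = 0) (t : ℝ) :
    fl d (ξ, 0) (τ + t) = ((fl d (ξ, 0) (τ - t)).1, -(fl d (ξ, 0) (τ - t)).2) := by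
  have e := Swing_eq h0
  have r := fl_rev hd ((fl d (ξ, 0) τ).1, 0) t
  simp only [neg_zero] at r
  rw [fl_add hd, e, r, ← e, ← fl_add hd, ← sub_eq_add_neg]

theorem Swing_two {d : ℝ → ℝ} (hd : Nice d) {ξ τ : ℝ} (h0 : (fl d (ξ, 0) τ).2 = 0) :
    fl d (ξ, 0) (2 * τ) = (ξ, 0) := by
  rw [two_mul, Swing_sym hd h0, sub_self, fl_zero hd]
  simp

theorem Swing_per {d : ℝ → ℝ} (hd : Nice d) {ξ τ : ℝ} (h0 : (fl d (ξ, 0) τ).2 = 0) (k : ℕ) (t : ℝ) :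
    fl d (ξ, 0) (2 * k * τ + t) = fl d (ξ, 0) t := by
  induction k with
  | zero => simp
  | succ k ih =>
    have e : 2 * ((k + 1 : ℕ) : ℝ) * τ + t = 2 * τ + (2 * k * τ + t) := by push_cast; ring
    rw [e, fl_add hd, Swing_two hd h0, ih]

theorem Swing_Y0 {d w : ℝ → ℝ} (z : ℝ × ℝ) : Yw d w z 0 = 0 := by
  unfold Yw
  exact intervalIntegral.integral_same

theorem Swing_Y2 {d w : ℝ → ℝ} (hd : Nice d) (hw : Continuous w) {ξ τ : ℝ} (h0 : (fl d (ξ, 0) τ).2 = 0) :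
    Yw d w (ξ, 0) (2 * τ) = 2 * Yw d w (ξ, 0) τ := by
  have e := Swing_eq h0
  have h1 := Yw_add hd hw (ξ, 0) τ (-τ)
  rw [add_neg_cancel, Swing_Y0, e, Yw_neg hd hw] at h1
  have h2 := Yw_add hd hw (ξ, 0) τ τ
  rw [e] at h2
  rw [two_mul, h2]
  linarith

theorem Swing_Yper {d w : ℝ → ℝ} (hd : Nice d) (hw : Continuous w) {ξ τ : ℝ} (h0 : (fl d (ξ, 0) τ).2 = 0)
    (k : ℕ) (t : ℝ) : Yw d w (ξ, 0) (2 * k * τ + t) = 2 * k * Yw d w (ξ, 0) τ + Yw d w (ξ, 0) t := by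
  induction k with
  | zero => simp
  | succ k ih =>
    have e : 2 * ((k + 1 : ℕ) : ℝ) * τ + t = 2 * τ + (2 * k * τ + t) := by push_cast; ring
    rw [e, Yw_add hd hw, Swing_two hd h0, ih, Swing_Y2 hd hw h0]
    push_cast
    ring

theorem Swing_mono {d w : ℝ → ℝ} (hd : Nice d) (hw : Continuous w) (hw0 : ∀ x, 0 < w x) (z : ℝ × ℝ) :
    StrictMono (Yw d w z) := by
  apply strictMono_of_deriv_pos
  intro t
  rw [(hasDerivAt_Yw hd hw z t).deriv]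
  exact hw0 _

theorem Swing_cont {d w : ℝ → ℝ} (hd : Nice d) (hw : Continuous w) (z : ℝ × ℝ) : Continuous (Yw d w z) :=
  (Yw_continuous hd hw).comp (by fun_prop : Continuous fun t : ℝ => ((z, t) : (ℝ × ℝ) × ℝ))

/-- the time `t₁`, in an interval on which `U < 0` -/
theorem Swing_t1 {d w : ℝ → ℝ} (hd : Nice d) (hw : Continuous w) {ξ τ : ℝ} (hτ : 0 < τ)
    (h0 : (fl d (ξ, 0) τ).2 = 0) (hneg : ∀ t ∈ Ioo 0 τ, (fl d (ξ, 0) t).2 < 0) (k : ℕ) {v : ℝ}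
    (h1 : 2 * k * Yw d w (ξ, 0) τ < v) (h2 : v < (2 * k + 1) * Yw d w (ξ, 0) τ) :
    ∃ t, Yw d w (ξ, 0) t = v ∧ (fl d (ξ, 0) t).2 < 0 := by
  have e1 : Yw d w (ξ, 0) (2 * k * τ) = 2 * k * Yw d w (ξ, 0) τ := by
    have := Swing_Yper hd hw h0 k 0
    rw [add_zero, Swing_Y0, add_zero] at this
    exact this
  have e2 : Yw d w (ξ, 0) (2 * k * τ + τ) = (2 * k + 1) * Yw d w (ξ, 0) τ := by
    rw [Swing_Yper hd hw h0 k τ]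
    ring
  have hmem : v ∈ Ioo (Yw d w (ξ, 0) (2 * k * τ)) (Yw d w (ξ, 0) (2 * k * τ + τ)) := by
    rw [e1, e2]
    exact ⟨h1, h2⟩
  obtain ⟨t, ht, hv⟩ := intermediate_value_Ioo (by linarith : 2 * k * τ ≤ 2 * k * τ + τ)
    (Swing_cont hd hw (ξ, 0)).continuousOn hmem
  refine ⟨t, hv, ?_⟩
  have h3 := Swing_per hd h0 k (t - 2 * k * τ)
  rw [add_sub_cancel] at h3
  rw [h3]
  exact hneg _ ⟨by linarith [ht.1], by linarith [ht.2]⟩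

/-- the time `t₂`, in an interval on which `U > 0` -/
theorem Swing_t2 {d w : ℝ → ℝ} (hd : Nice d) (hw : Continuous w) {ξ τ : ℝ} (hτ : 0 < τ)
    (h0 : (fl d (ξ, 0) τ).2 = 0) (hneg : ∀ t ∈ Ioo 0 τ, (fl d (ξ, 0) t).2 < 0) (k : ℕ) {v : ℝ}
    (h1 : (2 * k + 1) * Yw d w (ξ, 0) τ < v) (h2 : v < (2 * k + 2) * Yw d w (ξ, 0) τ) :
    ∃ t, Yw d w (ξ, 0) t = v ∧ 0 < (fl d (ξ, 0) t).2 := by
  have e1 : Yw d w (ξ, 0) (2 * k * τ + τ) = (2 * k + 1) * Yw d w (ξ, 0) τ := by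
    rw [Swing_Yper hd hw h0 k τ]
    ring
  have e2 : Yw d w (ξ, 0) (2 * k * τ + 2 * τ) = (2 * k + 2) * Yw d w (ξ, 0) τ := by
    rw [Swing_Yper hd hw h0 k (2 * τ), Swing_Y2 hd hw h0]
    ring
  have hmem : v ∈ Ioo (Yw d w (ξ, 0) (2 * k * τ + τ)) (Yw d w (ξ, 0) (2 * k * τ + 2 * τ)) := by
    rw [e1, e2]
    exact ⟨h1, h2⟩
  obtain ⟨t, ht, hv⟩ := intermediate_value_Ioo (by linarith : 2 * k * τ + τ ≤ 2 * k * τ + 2 * τ)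
    (Swing_cont hd hw (ξ, 0)).continuousOn hmem
  refine ⟨t, hv, ?_⟩
  have h3 := Swing_per hd h0 k (t - 2 * k * τ)
  rw [add_sub_cancel] at h3
  have h4 := Swing_sym hd h0 (t - 2 * k * τ - τ)
  rw [add_sub_cancel] at h4
  have h5 : (fl d (ξ, 0) (τ - (t - 2 * k * τ - τ))).2 < 0 :=
    hneg _ ⟨by linarith [ht.2], by linarith [ht.1]⟩
  rw [h3, h4]
  simpa using h5

theorem Swing_main {d w : ℝ → ℝ} (hd : Nice d) (hw : Continuous w) (hw0 : ∀ x, 0 < w x) {ϖ : ℝ}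
    (hϖ : 0 < ϖ) {V : Set (ℝ × ℝ)} {s a b l0 l1 η : ℝ} {T : ℝ → ℝ}
    (hB : Band d V s a b l0 l1 η T) {ξ ξ' : ℝ} (hξ : ξ ∈ Icc a b) (hξ' : ξ' ∈ Icc a b)
    (hlt : Yw d w (ξ, 0) (T ξ) < Yw d w (ξ', 0) (T ξ')) : Osc d w ϖ V := by
  have hpos : ∀ x ∈ Icc a b, 0 < Yw d w (x, 0) (T x) := by
    intro x hx
    have h1 := (Swing_mono hd hw hw0 (x, 0)) (hB.Tpos x hx)
    rw [Swing_Y0] at h1
    exact h1
  have hcont : ContinuousOn (fun x => Yw d w (x, 0) (T x)) (Icc a b) := by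
    have h1 : ContinuousOn (fun x : ℝ => (((x, 0) : ℝ × ℝ), T x)) (Icc a b) :=
      (Continuous.continuousOn (by fun_prop : Continuous fun x : ℝ => ((x, 0) : ℝ × ℝ))).prodMk hB.Tcont
    exact (Yw_continuous hd hw).comp_continuousOn h1
  have hsub : uIcc ξ ξ' ⊆ Icc a b := by
    intro x hx
    rw [mem_uIcc] at hx
    rcases hx with hx | hx
    · exact ⟨hξ.1.trans hx.1, hx.2.trans hξ'.2⟩
    · exact ⟨hξ'.1.trans hx.1, hx.2.trans hξ.2⟩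
  obtain ⟨v1, hv1⟩ : ∃ v1, v1 = Yw d w (ξ, 0) (T ξ) := ⟨_, rfl⟩
  obtain ⟨v2, hv2⟩ : ∃ v2, v2 = Yw d w (ξ', 0) (T ξ') := ⟨_, rfl⟩
  have hivt : ∀ y, v1 < y → y < v2 → ∃ x ∈ Icc a b, Yw d w (x, 0) (T x) = y := by
    intro y hy1 hy2
    have h1 := intermediate_value_uIcc (hcont.mono hsub)
    have h2 : y ∈ uIcc (Yw d w (ξ, 0) (T ξ)) (Yw d w (ξ', 0) (T ξ')) := by
      rw [mem_uIcc]
      left
      exact ⟨by linarith, by linarith⟩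
    obtain ⟨x, hx, hxy⟩ := h1 h2
    exact ⟨x, hsub hx, hxy⟩
  have hv1p : 0 < v1 := by rw [hv1]; exact hpos ξ hξ
  have hv12 : v1 < v2 := by rw [hv1, hv2]; exact hlt
  obtain ⟨r, hr1, hr2⟩ := exists_rat_btwn (show 4 * v1 / ϖ < 4 * v2 / ϖ by
    apply div_lt_div_of_pos_right _ hϖ
    linarith)
  have hr0 : (0 : ℝ) < r := lt_trans (by positivity) hr1
  have hr0' : 0 < r := by exact_mod_cast hr0
  obtain ⟨k, hk⟩ : ∃ k : ℕ, k = r.den := ⟨_, rfl⟩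
  obtain ⟨q, hq⟩ : ∃ q : ℕ, q = r.num.toNat := ⟨_, rfl⟩
  have hk0 : 0 < k := by rw [hk]; exact r.den_pos
  have hnum : 0 < r.num := Rat.num_pos.2 hr0'
  have hq0 : 0 < q := by rw [hq]; omega
  have hkR : (0 : ℝ) < k := by exact_mod_cast hk0
  have hrq : (r : ℝ) = q / k := by
    have h1 : (r : ℝ) = (r.num : ℝ) / (r.den : ℝ) := by exact_mod_cast (Rat.num_div_den r).symm
    rw [h1, hk, hq]
    congr 1
    have h2 : ((r.num.toNat : ℤ) : ℝ) = (r.num : ℝ) := by rw [Int.toNat_of_nonneg hnum.le]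
    rw [← h2]
    norm_cast
  -- the value
  obtain ⟨v, hv⟩ : ∃ v : ℝ, v = q * ϖ / 2 := ⟨_, rfl⟩
  have hvk : v = 2 * k * (r * ϖ / 4) := by
    rw [hv, hrq]
    field_simp
    norm_num
  have hs1 : v1 < r * ϖ / 4 := by
    rw [div_lt_iff₀ hϖ] at hr1
    linarith
  have hs2 : r * ϖ / 4 < v2 := by
    rw [lt_div_iff₀ hϖ] at hr2
    linarith
  obtain ⟨σ, hσ⟩ : ∃ σ : ℝ, σ = r * ϖ / 4 := ⟨_, rfl⟩
  rw [← hσ] at hvk hs1 hs2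
  have hσ0 : 0 < σ := hv1p.trans hs1
  -- ξ₁
  have hm1 : v / (2 * k + 1) < σ := by
    rw [div_lt_iff₀ (by positivity), hvk]
    nlinarith
  obtain ⟨y1, hy1, hy1'⟩ := exists_between (max_lt hs1 hm1)
  obtain ⟨ξ1, hξ1, hω1⟩ := hivt y1 (lt_of_le_of_lt (le_max_left _ _) hy1) (hy1'.trans hs2)
  obtain ⟨t1, ht1, hU1⟩ := Swing_t1 hd hw (hB.Tpos ξ1 hξ1) (hB.zero ξ1 hξ1) (hB.neg ξ1 hξ1) k
    (v := v) (by rw [hω1, hvk]; exact mul_lt_mul_of_pos_left hy1' (by positivity)) (by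
      rw [hω1]
      have h1 := lt_of_le_of_lt (le_max_right _ _) hy1
      rw [div_lt_iff₀ (by positivity)] at h1
      linarith)
  -- ξ₂
  obtain ⟨k', rfl⟩ : ∃ k', k = k' + 1 := ⟨k - 1, by omega⟩
  have hm2 : σ < v / (2 * k' + 1) := by
    rw [lt_div_iff₀ (by positivity), hvk]
    push_cast
    nlinarith
  obtain ⟨y2, hy2, hy2'⟩ := exists_between (lt_min hs2 hm2)
  obtain ⟨ξ2, hξ2, hω2⟩ := hivt y2 (hs1.trans hy2) (lt_of_lt_of_le hy2' (min_le_left _ _))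
  obtain ⟨t2, ht2, hU2⟩ := Swing_t2 hd hw (hB.Tpos ξ2 hξ2) (hB.zero ξ2 hξ2) (hB.neg ξ2 hξ2) k'
    (v := v) (by
      rw [hω2]
      have h1 := lt_of_lt_of_le hy2' (min_le_right _ _)
      rw [lt_div_iff₀ (by positivity)] at h1
      linarith) (by
      rw [hω2, hvk]
      push_cast
      nlinarith)
  refine ⟨q, s, ξ1, ξ2, t1, t2, hq0, ?_, ?_, hU1, ?_, hU2⟩
  · intro x hx
    apply hB.mem
    rw [mem_uIcc] at hx
    rcases hx with hx | hx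
    · exact ⟨hξ1.1.trans hx.1, hx.2.trans hξ2.2⟩
    · exact ⟨hξ2.1.trans hx.1, hx.2.trans hξ1.2⟩
  · rw [ht1, hv]
  · rw [ht2, hv]

theorem swing {d w : ℝ → ℝ} (hd : Nice d) (hw : Continuous w) (hw0 : ∀ x, 0 < w x) {ϖ : ℝ}
    (hϖ : 0 < ϖ) {V : Set (ℝ × ℝ)} {s a b l0 l1 η : ℝ} {T : ℝ → ℝ}
    (hB : Band d V s a b l0 l1 η T) {ξ ξ' : ℝ} (hξ : ξ ∈ Icc a b) (hξ' : ξ' ∈ Icc a b)
    (hne : Yw d w (ξ, 0) (T ξ) ≠ Yw d w (ξ', 0) (T ξ')) : Osc d w ϖ V := by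
  rcases lt_or_gt_of_ne hne with h | h
  · exact Swing_main hd hw hw0 hϖ hB hξ hξ' h
  · exact Swing_main hd hw hw0 hϖ hB hξ' hξ h

end Pool.Agent.CGD
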