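import Pool.Agent.CGD.BandEx
import Pool.Agent.CGD.Act
import Pool.Agent.CGD.Swing

set_option autoImplicit false

/-! Module OscGen: for the family `w_t = (h + t) μ` the condition `Osc` fails for at most one `t`.

Take a band (`band_exists`).  `ω_t(ξ) = Yw d w_t (ξ,0) (T ξ) = Ω(ξ) + t M(ξ)` (linearity of the integral).  If `Osc` fails for `t` then `ω_t` is constant
on `[a,b]` (`swing`).  If it fails for `t1 ≠ t2` then `M` and `Ω` are both constant, contradiction with `act`.  Take `t0` to be a bad value if there is one,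
else `0`. -/

namespace Pool.Agent.CGD

open Set Filter Topology

private theorem OscGen_lin {d h μ : ℝ → ℝ} (hd : Nice d) (hh : Continuous h) (hμ : Continuous μ)
    (z : ℝ × ℝ) (t τ : ℝ) :
    Yw d (fun x => (h x + t) * μ x) z τ = Yw d (fun x => h x * μ x) z τ + t * Yw d μ z τ := by
  have hX : Continuous fun s => (fl d z s).1 :=
    continuous_iff_continuousAt.2 fun s => (hasDerivAt_X hd z s).continuousAt
  unfold Yw
  rw [← intervalIntegral.integral_const_mul, ← intervalIntegral.integral_add]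
  · apply intervalIntegral.integral_congr
    intro s _
    simp only
    ring
  · exact ((hh.comp hX).mul (hμ.comp hX)).intervalIntegrable _ _
  · exact (continuous_const.mul (hμ.comp hX)).intervalIntegrable _ _

theorem osc_generic {d h μ : ℝ → ℝ} (hd : Nice d) (hh : ∀ x, HasDerivAt h (d x) x)
    (hμ : Continuous μ) (hμ0 : ∀ x, 0 < μ x) {ϖ : ℝ} (hϖ : 0 < ϖ)
    {V : Set (ℝ × ℝ)} (hV : IsOpen V) {z : ℝ × ℝ} (hz : z ∈ V) {xL xR : ℝ} (hL : xL < z.1)
    (hR : z.1 < xR) (hLe : z.2 ^ 2 + h z.1 < h xL) (hRe : z.2 ^ 2 + h z.1 < h xR) :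
    ∃ t0 : ℝ, ∀ t, t ≠ t0 → (∀ x, 0 < h x + t) → Osc d (fun x => (h x + t) * μ x) ϖ V := by
  obtain ⟨s, a, b, l0, l1, η, T, hB⟩ := band_exists hd hh hV hz hL hR hLe hRe
  have hhc : Continuous h := continuous_iff_continuousAt.2 fun x => (hh x).continuousAt
  have hab : a ≤ b := hB.hab.le
  have ha : a ∈ Icc a b := ⟨le_rfl, hab⟩
  have key : ∀ t, (∀ x, 0 < h x + t) → ¬ Osc d (fun x => (h x + t) * μ x) ϖ V → ∀ ξ ∈ Icc a b,
      Yw d (fun x => h x * μ x) (ξ, 0) (T ξ) + t * Yw d μ (ξ, 0) (T ξ) =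
      Yw d (fun x => h x * μ x) (a, 0) (T a) + t * Yw d μ (a, 0) (T a) := by
    intro t ht hO ξ hξ
    rw [← OscGen_lin hd hhc hμ, ← OscGen_lin hd hhc hμ]
    by_contra hne
    exact hO (swing hd ((hhc.add continuous_const).mul hμ) (fun x => mul_pos (ht x) (hμ0 x)) hϖ hB
      hξ ha hne)
  by_cases hbad : ∃ t0, (∀ x, 0 < h x + t0) ∧ ¬ Osc d (fun x => (h x + t0) * μ x) ϖ V
  · obtain ⟨t0, ht0, hO0⟩ := hbad
    refine ⟨t0, fun t hne ht => ?_⟩
    by_contra hO
    have hM : ∀ ξ ∈ Icc a b, Yw d μ (ξ, 0) (T ξ) = Yw d μ (a, 0) (T a) := by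
      intro ξ hξ
      have h1 := key t0 ht0 hO0 ξ hξ
      have h2 := key t ht hO ξ hξ
      have h3 : (t - t0) * (Yw d μ (ξ, 0) (T ξ) - Yw d μ (a, 0) (T a)) = 0 := by
        linear_combination h2 - h1
      rcases mul_eq_zero.mp h3 with h4 | h4
      · exact absurd (sub_eq_zero.mp h4) hne
      · exact sub_eq_zero.mp h4
    exact act hd hh hμ hμ0 hB (M0 := Yw d μ (a, 0) (T a))
      (Ω0 := Yw d (fun x => h x * μ x) (a, 0) (T a)) hM (fun ξ hξ => by
        have h1 := key t0 ht0 hO0 ξ hξ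
        rw [hM ξ hξ] at h1
        linarith)
  · push Not at hbad
    exact ⟨0, fun t _ ht => hbad t ht⟩

end Pool.Agent.CGD
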