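import Pool.Agent.CGD.Dep

set_option autoImplicit false

/-! Module OscOp: `Osc` is an open condition in `(d, w)` for the uniform distance.

The set `{fl d (ξ,0) s | ξ ∈ uIcc ξ₁ ξ₂}` is compact in the open set `V`, so an `ε₁`-neighbourhood of it is in `V`
(`IsCompact.exists_thickening_subset_open` or `exists_cthickening_subset_open`); `fl_dep` gives the membership for `d'` close to `d`, same `s, ξ₁, ξ₂, q`.
For `ξ₁`: `(fl d (ξ₁,0) t₁).2 < 0`; by continuity it is `< 0` on `[t₁ - ρ, t₁ + ρ]`, so `≤ -κ < 0` there; `Yw d w (ξ₁,0)` is strictly increasing (`w > 0`), so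
`Yw (t₁ - ρ) < qϖ/2 < Yw (t₁ + ρ)`; by `Yw_dep` the same for `d', w'` and the intermediate value theorem gives `t₁' ∈ [t₁ - ρ, t₁ + ρ]` with
`Yw d' w' (ξ₁,0) t₁' = qϖ/2`, and `(fl d' (ξ₁,0) t₁').2 < 0` by `fl_dep`.  Same for `ξ₂`. -/

namespace Pool.Agent.CGD

open Set Filter Topology

private theorem OscOp_time {d w : ℝ → ℝ} (hd : Nice d) (hw : UniformContinuous w)
    (hw0 : ∀ x, 0 < w x) {ξ t₁ c : ℝ} (hY : Yw d w (ξ, 0) t₁ = c) {W : Set ℝ} (hW : IsOpen W)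
    (hU : (fl d (ξ, 0) t₁).2 ∈ W) :
    ∃ ε > 0, ∀ d' w' : ℝ → ℝ, Nice d' → Continuous w' → (∀ x, |d' x - d x| ≤ ε) →
      (∀ x, |w' x - w x| ≤ ε) → ∃ t', Yw d' w' (ξ, 0) t' = c ∧ (fl d' (ξ, 0) t').2 ∈ W := by
  have hUc : Continuous fun s => (fl d (ξ, 0) s).2 :=
    continuous_iff_continuousAt.2 fun s => (hasDerivAt_U hd (ξ, 0) s).continuousAt
  have hopen : IsOpen ((fun s => (fl d (ξ, 0) s).2) ⁻¹' W) := hW.preimage hUc
  obtain ⟨ρ', hρ', hball⟩ := Metric.isOpen_iff.mp hopen t₁ hU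
  set ρ := ρ' / 2 with hρdef
  have hρ : 0 < ρ := by positivity
  have hsub : ∀ t ∈ Icc (t₁ - ρ) (t₁ + ρ), (fl d (ξ, 0) t).2 ∈ W := by
    intro t ht
    apply hball
    rw [Metric.mem_ball, Real.dist_eq, abs_lt]
    constructor
    · linarith [ht.1]
    · linarith [ht.2]
  have hKc : IsCompact ((fun s => (fl d (ξ, 0) s).2) '' Icc (t₁ - ρ) (t₁ + ρ)) :=
    isCompact_Icc.image hUc
  obtain ⟨δ, hδ, hthick⟩ := hKc.exists_thickening_subset_open hW (by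
    rintro _ ⟨t, ht, rfl⟩
    exact hsub t ht)
  have hmono : StrictMono (Yw d w (ξ, 0)) := by
    apply strictMono_of_deriv_pos
    intro t
    rw [(hasDerivAt_Yw hd hw.continuous (ξ, 0) t).deriv]
    exact hw0 _
  have h1 : Yw d w (ξ, 0) (t₁ - ρ) < c := by
    rw [← hY]
    exact hmono (by linarith)
  have h2 : c < Yw d w (ξ, 0) (t₁ + ρ) := by
    rw [← hY]
    exact hmono (by linarith)
  set κ := min (c - Yw d w (ξ, 0) (t₁ - ρ)) (Yw d w (ξ, 0) (t₁ + ρ) - c) with hκdef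
  have hκ : 0 < κ := lt_min (by linarith) (by linarith)
  have hκ1 : κ ≤ c - Yw d w (ξ, 0) (t₁ - ρ) := min_le_left _ _
  have hκ2 : κ ≤ Yw d w (ξ, 0) (t₁ + ρ) - c := min_le_right _ _
  have hT : ∀ t ∈ Icc (t₁ - ρ) (t₁ + ρ), |t| ≤ |t₁| + ρ := by
    intro t ht
    rw [abs_le]
    constructor
    · have := neg_abs_le t₁
      linarith [ht.1]
    · have := le_abs_self t₁
      linarith [ht.2]
  obtain ⟨ε₁, hε₁, H₁⟩ := fl_dep hd (|t₁| + ρ) (δ / 2) (by positivity)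
  obtain ⟨ε₂, hε₂, H₂⟩ := Yw_dep hd hw (|t₁| + ρ) (κ / 2) (by positivity)
  refine ⟨min ε₁ ε₂, lt_min hε₁ hε₂, fun d' w' hd' hw' hdd hww => ?_⟩
  have hY' : ∀ t ∈ Icc (t₁ - ρ) (t₁ + ρ), |Yw d' w' (ξ, 0) t - Yw d w (ξ, 0) t| ≤ κ / 2 :=
    fun t ht => H₂ d' w' hd' hw' (fun x => (hdd x).trans (min_le_right _ _))
      (fun x => (hww x).trans (min_le_right _ _)) (ξ, 0) t (hT t ht)
  have hle : t₁ - ρ ≤ t₁ + ρ := by linarith
  have h3 := abs_le.mp (hY' (t₁ - ρ) ⟨le_rfl, hle⟩)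
  have h4 := abs_le.mp (hY' (t₁ + ρ) ⟨hle, le_rfl⟩)
  have hcont : ContinuousOn (Yw d' w' (ξ, 0)) (Icc (t₁ - ρ) (t₁ + ρ)) := fun t _ =>
    (hasDerivAt_Yw hd' hw' (ξ, 0) t).continuousAt.continuousWithinAt
  obtain ⟨t', ht', hYt'⟩ := intermediate_value_Icc hle hcont
    (show c ∈ Icc (Yw d' w' (ξ, 0) (t₁ - ρ)) (Yw d' w' (ξ, 0) (t₁ + ρ)) from
      ⟨by linarith [h3.2], by linarith [h4.1]⟩)
  refine ⟨t', hYt', hthick ?_⟩
  rw [Metric.mem_thickening_iff]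
  refine ⟨(fl d (ξ, 0) t').2, ⟨t', ht', rfl⟩, ?_⟩
  have h5 := H₁ d' hd' (fun x => (hdd x).trans (min_le_left _ _)) (ξ, 0) t' (hT t' ht')
  rw [Prod.dist_eq] at h5
  have h6 := (le_max_right _ _).trans h5
  linarith

theorem osc_open {d w : ℝ → ℝ} (hd : Nice d) (hw : UniformContinuous w) (hw0 : ∀ x, 0 < w x)
    {ϖ : ℝ} {V : Set (ℝ × ℝ)} (hV : IsOpen V) (h : Osc d w ϖ V) :
    ∃ ε > 0, ∀ d' w' : ℝ → ℝ, Nice d' → Continuous w' → (∀ x, |d' x - d x| ≤ ε) →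
      (∀ x, |w' x - w x| ≤ ε) → Osc d' w' ϖ V := by
  obtain ⟨q, s, ξ₁, ξ₂, t₁, t₂, hq, hmem, hY1, hU1, hY2, hU2⟩ := h
  obtain ⟨ε₁, hε₁, H₁⟩ := OscOp_time hd hw hw0 hY1 (W := Iio 0) isOpen_Iio hU1
  obtain ⟨ε₂, hε₂, H₂⟩ := OscOp_time hd hw hw0 hY2 (W := Ioi 0) isOpen_Ioi hU2
  have hc : Continuous fun ξ : ℝ => fl d (ξ, 0) s := by
    have h1 := fl_continuous hd
    exact h1.comp (f := fun ξ : ℝ => (((ξ, 0) : ℝ × ℝ), s)) (by fun_prop)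
  have hK : IsCompact ((fun ξ : ℝ => fl d (ξ, 0) s) '' uIcc ξ₁ ξ₂) := isCompact_uIcc.image hc
  obtain ⟨δ, hδ, hthick⟩ := hK.exists_thickening_subset_open hV (by
    rintro _ ⟨ξ, hξ, rfl⟩
    exact hmem ξ hξ)
  obtain ⟨ε₃, hε₃, H₃⟩ := fl_dep hd |s| (δ / 2) (by positivity)
  refine ⟨min ε₁ (min ε₂ ε₃), lt_min hε₁ (lt_min hε₂ hε₃), fun d' w' hd' hw' hdd hww => ?_⟩
  obtain ⟨t₁', hY1', hU1'⟩ := H₁ d' w' hd' hw' (fun x => (hdd x).trans (min_le_left _ _))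
    (fun x => (hww x).trans (min_le_left _ _))
  obtain ⟨t₂', hY2', hU2'⟩ := H₂ d' w' hd' hw'
    (fun x => (hdd x).trans ((min_le_right _ _).trans (min_le_left _ _)))
    (fun x => (hww x).trans ((min_le_right _ _).trans (min_le_left _ _)))
  refine ⟨q, s, ξ₁, ξ₂, t₁', t₂', hq, fun ξ hξ => hthick ?_, hY1', hU1', hY2', hU2'⟩
  rw [Metric.mem_thickening_iff]
  refine ⟨fl d (ξ, 0) s, ⟨ξ, hξ, rfl⟩, ?_⟩
  have h5 := H₃ d' hd' (fun x => (hdd x).trans ((min_le_right _ _).trans (min_le_right _ _)))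
    (ξ, 0) s le_rfl
  linarith

end Pool.Agent.CGD
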