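import Pool.Agent.CGD.Flow

set_option autoImplicit false

/-! Module Rot: rotating orbits (energy above `max h`): every open set meeting this region contains a closed orbit.

Let `z0 = (x0, u0) ∈ V`, `h x < u0² + h x0` for all `x`; then `u0 ≠ 0`.
CASE `u0 > 0`.  For `e > max h` put `A(e) = ∫_{x0}^{x0+1} w(x)/√(e - h(x)) dx` and `P(e) = ∫_{x0}^{x0+1} dx/√(e - h(x))`.
`A` is continuous and strictly decreasing on `(max h, ∞)` (the integrand is; `h` periodic continuous is bounded by `max h`, and `e - h ≥ e - max h > 0`).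
For `u` near `u0`, `(x0, u) ∈ V`; as `u` varies, `e = u² + h(x0)` varies over an interval, so (strict monotonicity + continuity of `A` + density of `ℚ`)
there is such `u` with `A(e) - ∫_{x0}^{x0+1} β = n / q`, `q ≥ 1` (`n : ℤ`).
The orbit `fl d (x0,u)`: `u(t)² = e - h(x(t)) > 0`, so `u(t) > 0` for all `t` (never zero), `u = √(e - h(x))`; with `G(x) = ∫_{x0}^x dx'/√(e - h)`,
`(G ∘ X)' = 1`, so `G(X(t)) = t`; `G` is strictly increasing and `G(x0+1) = P(e)`, so `X(P) = x0 + 1`, `U(P) = u` (energy, periodicity of `h`).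
By `fl_translate` and `fl_add`, `fl (x0,u) (q P) = (x0 + q, u)` (induction on `q`).
`∫₀^P w(X) dt = A(e)` and `∫₀^P β(X) U dt = ∫_{x0}^{x0+1} β` (substitution), and by periodicity of `w, β` the integral over `[0, qP]` is `q` times the integral over
`[0,P]`: total `q (A - ∫β) = n`.  So `PClosed` with period `qP`, `m = q`.
CASE `u0 < 0`: mirror: either repeat with `X` decreasing (closing condition `A(e) + ∫β ∈ ℚ`, `m = -q`), or apply the first case to the reversed orbit: by `fl_rev`,
`fl (x0,-u) t = (X(-t), -U(-t))`; one gets `PClosed d w (-β) (x0,-u) → PClosed d w β (x0,u)`. -/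

namespace Pool.Agent.CGD

open Set Filter Topology

private theorem Rot_per {f : ℝ → ℝ} (hf : ∀ x, f (x + 1) = f x) (x : ℝ) (m : ℤ) :
    f (x + m) = f x := by
  have h1 : Function.Periodic f 1 := hf
  have h2 := h1.int_mul m x
  rwa [mul_one] at h2

private theorem Rot_cont {d : ℝ → ℝ} (hd : Nice d) (z : ℝ × ℝ) : Continuous (fl d z) :=
  continuous_iff_continuousAt.2 fun t => (fl_sol hd z t).continuousAt

private theorem Rot_max {h : ℝ → ℝ} (hc : Continuous h) (hper : ∀ x, h (x + 1) = h x) :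
    ∃ y, ∀ x, h x ≤ h y := by
  obtain ⟨y, -, hy⟩ := (isCompact_Icc (a := (0:ℝ)) (b := 1)).exists_isMaxOn
    ⟨0, by simp⟩ hc.continuousOn
  refine ⟨y, fun x => ?_⟩
  have h1 : h x = h (Int.fract x) := by
    have := Rot_per hper (Int.fract x) ⌊x⌋
    rw [Int.fract_add_floor] at this
    exact this
  rw [h1]
  exact hy ⟨Int.fract_nonneg x, (Int.fract_lt_one x).le⟩

private theorem Rot_orbit {d h w β : ℝ → ℝ} (hd : Nice d) (hh : ∀ x, HasDerivAt h (d x) x)
    (hper : ∀ x, h (x + 1) = h x) (hw : Continuous w) (hβ : Continuous β)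
    {x0 u : ℝ} (hu : 0 < u) {c : ℝ} (hc : 0 < c) (hcx : ∀ x, c ≤ u ^ 2 + h x0 - h x) :
    ∃ P > 0, fl d (x0, u) P = (x0 + 1, u) ∧
      ∫ s in (0:ℝ)..P, (w ((fl d (x0, u) s).1) - β ((fl d (x0, u) s).1) * (fl d (x0, u) s).2) =
       (∫ x in x0..(x0 + 1), w x / √(u ^ 2 + h x0 - h x)) - ∫ x in x0..(x0 + 1), β x := by
  have hhc : Continuous h := continuous_iff_continuousAt.2 fun x => (hh x).continuousAt
  have hfc := Rot_cont hd (x0, u)
  have hX : ∀ t, HasDerivAt (fun s => (fl d (x0, u) s).1) ((fl d (x0, u) t).2) t :=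
    hasDerivAt_X hd _
  have hXc : Continuous fun t => (fl d (x0, u) t).1 := continuous_fst.comp hfc
  have hUc : Continuous fun t => (fl d (x0, u) t).2 := continuous_snd.comp hfc
  have hE : ∀ t, (fl d (x0, u) t).2 ^ 2 = u ^ 2 + h x0 - h (fl d (x0, u) t).1 := by
    intro t
    have := energy hd hh (x0, u) t
    simp only at this
    linarith
  have h0 : fl d (x0, u) 0 = (x0, u) := fl_zero hd _
  have hUpos : ∀ t, 0 < (fl d (x0, u) t).2 := by
    intro t
    by_contra hcon
    push Not at hcon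
    obtain ⟨s, hs⟩ := mem_range_of_exists_le_of_exists_ge hUc (c := 0) ⟨t, hcon⟩
      ⟨0, by rw [h0]; exact hu.le⟩
    have h1 := hE s
    simp only at hs
    rw [hs] at h1
    have h2 := hcx (fl d (x0, u) s).1
    have h3 : (0:ℝ) ^ 2 = 0 := by norm_num
    rw [h3] at h1
    linarith
  have hUs : ∀ t, (fl d (x0, u) t).2 = √(u ^ 2 + h x0 - h (fl d (x0, u) t).1) := by
    intro t
    rw [← hE t, Real.sqrt_sq (hUpos t).le]
  have hUlb : ∀ t, √c ≤ (fl d (x0, u) t).2 := by
    intro t
    rw [hUs t]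
    exact Real.sqrt_le_sqrt (hcx _)
  have hsc : 0 < √c := Real.sqrt_pos.2 hc
  have hmono : Monotone fun t => (fl d (x0, u) t).1 - √c * t := by
    have hder : ∀ t, HasDerivAt (fun t => (fl d (x0, u) t).1 - √c * t)
        ((fl d (x0, u) t).2 - √c) t := by
      intro t
      have h1 : HasDerivAt (fun t => √c * t) √c t := by
        simpa using (hasDerivAt_id t).const_mul √c
      exact (hX t).sub h1
    refine monotone_of_deriv_nonneg (fun t => (hder t).differentiableAt) fun t => ?_
    rw [(hder t).deriv]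
    linarith [hUlb t]
  have hT : x0 + 1 ≤ (fl d (x0, u) (1 / √c)).1 := by
    have h1 := hmono (show (0:ℝ) ≤ 1 / √c by positivity)
    simp only [h0, mul_zero, sub_zero] at h1
    have h2 : √c * (1 / √c) = 1 := by field_simp
    rw [h2] at h1
    linarith
  obtain ⟨P, hP, hXP⟩ := intermediate_value_Icc (show (0:ℝ) ≤ 1 / √c by positivity)
    hXc.continuousOn (show x0 + 1 ∈ Icc ((fl d (x0, u) 0).1) ((fl d (x0, u) (1 / √c)).1) from
      ⟨by rw [h0]; linarith, hT⟩)
  simp only at hXP
  have hP0 : 0 < P := by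
    rcases hP.1.lt_or_eq with h1 | h1
    · exact h1
    · exfalso
      rw [← h1, h0] at hXP
      simp only at hXP
      linarith
  refine ⟨P, hP0, ?_, ?_⟩
  · refine Prod.ext hXP ?_
    have h1 := hE P
    rw [hXP, hper x0] at h1
    have h2 : (fl d (x0, u) P).2 ^ 2 = u ^ 2 := by rw [h1]; ring
    exact (pow_left_inj₀ (hUpos P).le hu.le two_ne_zero).1 h2
  · have hgc : Continuous fun x => w x / √(u ^ 2 + h x0 - h x) := by
      refine hw.div ?_ fun x => ?_
      · exact Real.continuous_sqrt.comp (continuous_const.sub hhc)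
      · exact (Real.sqrt_pos.2 (hc.trans_le (hcx x))).ne'
    have e1 := intervalIntegral.integral_comp_mul_deriv (a := 0) (b := P)
      (f := fun s => (fl d (x0, u) s).1) (f' := fun s => (fl d (x0, u) s).2)
      (fun x _ => hX x) hUc.continuousOn hgc
    have e2 := intervalIntegral.integral_comp_mul_deriv (a := 0) (b := P)
      (f := fun s => (fl d (x0, u) s).1) (f' := fun s => (fl d (x0, u) s).2)
      (fun x _ => hX x) hUc.continuousOn hβ
    simp only [h0, hXP] at e1 e2
    rw [← e1, ← e2, ← intervalIntegral.integral_sub]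
    · refine intervalIntegral.integral_congr fun s _ => ?_
      simp only [Function.comp]
      rw [← hUs s]
      have := (hUpos s).ne'
      field_simp
    · exact ((hgc.comp hXc).mul hUc).intervalIntegrable _ _
    · exact ((hβ.comp hXc).mul hUc).intervalIntegrable _ _

private theorem Rot_iter {d w β : ℝ → ℝ} (hd : Nice d) (dper : ∀ x, d (x + 1) = d x)
    (hw : Continuous w) (wper : ∀ x, w (x + 1) = w x)
    (hβ : Continuous β) (βper : ∀ x, β (x + 1) = β x)
    {z : ℝ × ℝ} {P : ℝ} (hP : fl d z P = (z.1 + 1, z.2)) (k : ℕ) :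
    fl d z (k * P) = (z.1 + k, z.2) ∧
      ∫ s in (0:ℝ)..(k * P), (w ((fl d z s).1) - β ((fl d z s).1) * (fl d z s).2) =
        k * ∫ s in (0:ℝ)..P, (w ((fl d z s).1) - β ((fl d z s).1) * (fl d z s).2) := by
  have hfc := Rot_cont hd z
  have hc : Continuous fun s => w ((fl d z s).1) - β ((fl d z s).1) * (fl d z s).2 :=
    (hw.comp (continuous_fst.comp hfc)).sub
      ((hβ.comp (continuous_fst.comp hfc)).mul (continuous_snd.comp hfc))
  induction k with
  | zero => simp [fl_zero hd]
  | succ k ih =>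
    obtain ⟨ih1, ih2⟩ := ih
    have hk : ∀ s, fl d z (k * P + s) = ((fl d z s).1 + ((k : ℤ) : ℝ), (fl d z s).2) := by
      intro s
      rw [fl_add hd, ih1]
      have := fl_translate hd dper z k s
      simpa using this
    have e : ((k + 1 : ℕ) : ℝ) * P = k * P + P := by push_cast; ring
    refine ⟨?_, ?_⟩
    · rw [e, hk P, hP]
      push_cast
      refine Prod.ext ?_ rfl
      simp only
      ring
    · rw [e, ← intervalIntegral.integral_add_adjacent_intervals (b := k * P)
        (hc.intervalIntegrable _ _) (hc.intervalIntegrable _ _), ih2]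
      have e2 : ∫ s in (k * P : ℝ)..(k * P + P),
          (w ((fl d z s).1) - β ((fl d z s).1) * (fl d z s).2) =
          ∫ s in (0:ℝ)..P, (w ((fl d z s).1) - β ((fl d z s).1) * (fl d z s).2) := by
        have := intervalIntegral.integral_comp_add_left
          (a := (0:ℝ)) (b := P) (fun s => w ((fl d z s).1) - β ((fl d z s).1) * (fl d z s).2)
          (k * P : ℝ)
        rw [add_zero] at this
        rw [← this]
        refine intervalIntegral.integral_congr fun s _ => ?_
        simp only [hk s]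
        rw [Rot_per wper, Rot_per βper]
      rw [e2]
      push_cast
      ring

private theorem Rot_pos {d h w β : ℝ → ℝ} (hd : Nice d) (hh : ∀ x, HasDerivAt h (d x) x)
    (hper : ∀ x, h (x + 1) = h x) (dper : ∀ x, d (x + 1) = d x)
    (hw : Continuous w) (hw0 : ∀ x, 0 < w x) (wper : ∀ x, w (x + 1) = w x)
    (hβ : Continuous β) (βper : ∀ x, β (x + 1) = β x)
    {V : Set (ℝ × ℝ)} (hV : IsOpen V) {x0 u0 : ℝ} (hz : (x0, u0) ∈ V) (hu0 : 0 < u0)
    (hz' : ∀ x, h x < u0 ^ 2 + h x0) :
    ∃ z' ∈ V, PClosed d w β z' := by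
  have hhc : Continuous h := continuous_iff_continuousAt.2 fun x => (hh x).continuousAt
  obtain ⟨y, hy⟩ := Rot_max hhc hper
  have hopen : IsOpen {u : ℝ | (x0, u) ∈ V ∧ 0 < u ∧ h y < u ^ 2 + h x0} := by
    refine IsOpen.inter (hV.preimage (f := fun u : ℝ => (x0, u)) (by fun_prop))
      (IsOpen.inter isOpen_Ioi ?_)
    exact isOpen_lt (f := fun _ : ℝ => h y) (g := fun u : ℝ => u ^ 2 + h x0) continuous_const
      (by fun_prop)
  obtain ⟨ε, hε, hball⟩ := Metric.isOpen_iff.1 hopen u0 ⟨hz, hu0, hz' y⟩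
  set u1 := u0 - ε / 2 with hu1
  have hin : ∀ u ∈ Icc u1 u0, (x0, u) ∈ V ∧ 0 < u ∧ h y < u ^ 2 + h x0 := by
    intro u hu
    apply hball
    rw [Metric.mem_ball, Real.dist_eq, abs_lt]
    constructor <;> linarith [hu.1, hu.2]
  have h1 := hin u1 ⟨le_rfl, by linarith⟩
  set c := u1 ^ 2 + h x0 - h y with hc
  have hcpos : 0 < c := by linarith [h1.2.2]
  have hcx : ∀ u ∈ Icc u1 u0, ∀ x, c ≤ u ^ 2 + h x0 - h x := by
    intro u hu x
    have h2 : u1 ^ 2 ≤ u ^ 2 := pow_le_pow_left₀ h1.2.1.le hu.1 2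
    linarith [hy x]
  -- the rotation function
  set B := ∫ x in x0..(x0 + 1), β x with hB
  let φ : ℝ → ℝ := fun u => ∫ x in x0..(x0 + 1), w x / √(max c (u ^ 2 + h x0 - h x))
  have hφ : ∀ u ∈ Icc u1 u0, φ u = ∫ x in x0..(x0 + 1), w x / √(u ^ 2 + h x0 - h x) := by
    intro u hu
    refine intervalIntegral.integral_congr fun x _ => ?_
    rw [max_eq_right (hcx u hu x)]
  have hcont : Continuous (Function.uncurry fun (u : ℝ) (x : ℝ) =>
      w x / √(max c (u ^ 2 + h x0 - h x))) := by
    refine (hw.comp continuous_snd).div (Real.continuous_sqrt.comp ?_) fun p => ?_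
    · exact continuous_const.max (((continuous_fst.pow 2).add continuous_const).sub
        (hhc.comp continuous_snd))
    · exact (Real.sqrt_pos.2 (hcpos.trans_le (le_max_left _ _))).ne'
  have hφc : Continuous φ :=
    intervalIntegral.continuous_parametric_intervalIntegral_of_continuous' hcont _ _
  have hu10 : u1 < u0 := by rw [hu1]; linarith
  have hlt : φ u0 < φ u1 := by
    refine intervalIntegral.integral_lt_integral_of_continuousOn_of_le_of_exists_lt
      (by linarith) ?_ ?_ ?_ ?_
    · exact (hcont.comp (continuous_const.prodMk continuous_id)).continuousOn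
    · exact (hcont.comp (continuous_const.prodMk continuous_id)).continuousOn
    · intro x _
      refine div_le_div_of_nonneg_left (hw0 x).le
        (Real.sqrt_pos.2 (hcpos.trans_le (le_max_left _ _))) (Real.sqrt_le_sqrt ?_)
      refine max_le_max le_rfl ?_
      have : u1 ^ 2 ≤ u0 ^ 2 := pow_le_pow_left₀ h1.2.1.le hu10.le 2
      linarith
    · refine ⟨x0, ⟨le_rfl, by linarith⟩, ?_⟩
      rw [max_eq_right (hcx u0 ⟨hu10.le, le_rfl⟩ x0), max_eq_right (hcx u1 ⟨le_rfl, hu10.le⟩ x0)]
      refine div_lt_div_of_pos_left (hw0 x0)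
        (Real.sqrt_pos.2 (hcpos.trans_le (hcx u1 ⟨le_rfl, hu10.le⟩ x0))) ?_
      refine Real.sqrt_lt_sqrt (hcpos.le.trans (hcx u1 ⟨le_rfl, hu10.le⟩ x0)) ?_
      have : u1 ^ 2 < u0 ^ 2 := pow_lt_pow_left₀ hu10 h1.2.1.le two_ne_zero
      linarith
  obtain ⟨r, hr1, hr2⟩ := exists_rat_btwn (show φ u0 - B < φ u1 - B by linarith)
  obtain ⟨u, hu, hur⟩ := intermediate_value_Icc' hu10.le
    (f := fun u => φ u - B) (hφc.sub continuous_const).continuousOn
    (show (r : ℝ) ∈ Icc (φ u0 - B) (φ u1 - B) from ⟨hr1.le, hr2.le⟩)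
  simp only at hur
  obtain ⟨P, hP, hPz, hPi⟩ := Rot_orbit (w := w) (β := β) hd hh hper hw hβ (hin u hu).2.1 hcpos
    (hcx u hu)
  rw [← hφ u hu, ← hB, hur] at hPi
  obtain ⟨i1, i2⟩ := Rot_iter hd dper hw wper hβ βper (z := (x0, u)) hPz r.den
  have hden : (0:ℝ) < r.den := by exact_mod_cast r.den_pos
  refine ⟨(x0, u), (hin u hu).1, r.den * P, mul_pos hden hP, r.den, r.num, ?_, ?_⟩
  · rw [i1]
    push_cast
    rfl
  · rw [i2, hPi]
    have : ((r : ℚ) : ℝ) = (r.num : ℝ) / (r.den : ℝ) := by
      exact_mod_cast (Rat.num_div_den r).symm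
    rw [this]
    field_simp

theorem rot_closed {d h w β : ℝ → ℝ} (hd : Nice d) (hh : ∀ x, HasDerivAt h (d x) x)
    (hper : ∀ x, h (x + 1) = h x) (dper : ∀ x, d (x + 1) = d x)
    (hw : Continuous w) (hw0 : ∀ x, 0 < w x) (wper : ∀ x, w (x + 1) = w x)
    (hβ : Continuous β) (βper : ∀ x, β (x + 1) = β x)
    {V : Set (ℝ × ℝ)} (hV : IsOpen V) {z : ℝ × ℝ} (hz : z ∈ V) (hz' : ∀ x, h x < z.2 ^ 2 + h z.1) :
    ∃ z' ∈ V, PClosed d w β z' := by
  obtain ⟨x0, u0⟩ := z
  simp only at hz'
  rcases lt_trichotomy u0 0 with hneg | h0 | hpos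
  · -- reversed orbit
    have hV' : IsOpen ((fun p : ℝ × ℝ => (p.1, -p.2)) ⁻¹' V) := hV.preimage (by fun_prop)
    obtain ⟨⟨x, v⟩, hzV, P, hP, m, n, hPz, hPi⟩ := Rot_pos (β := fun x => -β x) hd hh hper dper hw
      hw0 wper hβ.neg (fun x => by rw [βper]) hV' (x0 := x0) (u0 := -u0)
      (by simpa using hz) (by linarith) (by simpa using hz')
    refine ⟨(x, -v), hzV, P, hP, -m, n, ?_, ?_⟩
    · have h1 : fl d (x - m, v) P = (x, v) := by
        have := fl_translate hd dper (x, v) (-m) P
        simp only [hPz] at this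
        push_cast at this
        rw [← sub_eq_add_neg] at this
        rw [this]
        refine Prod.ext ?_ rfl
        simp
      have h2 : fl d (x, v) (-P) = (x - m, v) := by
        rw [← h1, ← fl_add hd, add_neg_cancel, fl_zero hd]
      have h3 := fl_rev hd (x, v) P
      simp only at h3
      rw [h3, h2]
      refine Prod.ext ?_ rfl
      simp only
      push_cast
      ring
    · have h1 : fl d (x - m, v) P = (x, v) := by
        have := fl_translate hd dper (x, v) (-m) P
        simp only [hPz] at this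
        push_cast at this
        rw [← sub_eq_add_neg] at this
        rw [this]
        refine Prod.ext ?_ rfl
        simp
      have h2 : fl d (x, v) (-P) = (x - m, v) := by
        rw [← h1, ← fl_add hd, add_neg_cancel, fl_zero hd]
      have h4 : ∀ s, fl d (x, v) (s - P) = ((fl d (x, v) s).1 + ((-m : ℤ) : ℝ), (fl d (x, v) s).2) := by
        intro s
        rw [show s - P = -P + s by ring, fl_add hd, h2]
        have := fl_translate hd dper (x, v) (-m) s
        rw [← this]
        push_cast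
        rw [← sub_eq_add_neg]
      rw [← hPi]
      have e1 : ∀ s, fl d (x, -v) s = ((fl d (x, v) (-s)).1, -(fl d (x, v) (-s)).2) :=
        fun s => fl_rev hd (x, v) s
      have e2 : ∫ s in (0:ℝ)..P, (w ((fl d (x, -v) s).1) - β ((fl d (x, -v) s).1) *
          (fl d (x, -v) s).2) = ∫ s in (0:ℝ)..P,
          (fun t => w ((fl d (x, v) t).1) + β ((fl d (x, v) t).1) * (fl d (x, v) t).2) (-s) := by
        refine intervalIntegral.integral_congr fun s _ => ?_
        simp only [e1]
        ring
      rw [e2, intervalIntegral.integral_comp_neg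
        (fun t => w ((fl d (x, v) t).1) + β ((fl d (x, v) t).1) * (fl d (x, v) t).2), neg_zero]
      have e3 := intervalIntegral.integral_comp_sub_right (a := (0:ℝ)) (b := P)
        (fun t => w ((fl d (x, v) t).1) + β ((fl d (x, v) t).1) * (fl d (x, v) t).2) P
      rw [zero_sub, sub_self] at e3
      rw [← e3]
      refine intervalIntegral.integral_congr fun s _ => ?_
      simp only [h4 s]
      rw [Rot_per wper, Rot_per βper]
      ring
  · exfalso
    have := hz' x0
    rw [h0] at this
    simp at this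
  · exact Rot_pos hd hh hper dper hw hw0 wper hβ βper hV hz hpos hz'

end Pool.Agent.CGD
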