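import Pool.Agent.CGD.Base
import Pool.Agent.CGD.Joint

set_option autoImplicit false

/-! Module Shift: the family `g_t` with `1/c_t = 1/c + t` and the same `μ`, `β`.

`c_t = c/(1+tc)`, `b_t = b/(1+tc)`, `a_t = a - t b²/(1+tc)`; `a_t c_t - b_t² = (ac - b²)/(1+tc) > 0`; `a_t - b_t²/c_t = a - b²/c`, `b_t/c_t = b/c`,
`1/c_t = 1/c + t`.
`shift_close`: `c_t - c = -t c²/(1+tc)`, `b_t - b = -t bc/(1+tc)`, `a_t - a = -t b²/(1+tc)`: all of the form `-t N(x)/(1+t c(x))` with `N` smooth
periodic.  `shift_bound`: choose `δ0` with `1 + t c > 1/2` for `|t| ≤ 2 δ0` and apply `joint_bound` (module Joint) to `F t x = N x / (1 + t c x)`, smooth for `|t| < 2 δ0`.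
Then `iteratedDeriv j (f - f') = iteratedDeriv j f - iteratedDeriv j f'` (`iteratedDeriv_sub`/`iteratedDeriv_fun_sub`) and `|t| C < ε` for small `t`. -/

namespace Pool.Agent.CGD

open Set Filter Topology
open scoped ContDiff

theorem shift_bound {N c : ℝ → ℝ} (hN : ContDiff ℝ ∞ N) (hc : ContDiff ℝ ∞ c)
    (Nper : ∀ x, N (x + 1) = N x) (cper : ∀ x, c (x + 1) = c x) (hc0 : ∀ x, 0 < c x) (k : ℕ) :
    ∃ δ > 0, ∃ C, ∀ j ≤ k, ∀ t, |t| ≤ δ → (∀ x, 0 < 1 + t * c x) ∧
      ∀ x, |iteratedDeriv j (fun y => N y / (1 + t * c y)) x| ≤ C := by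
  obtain ⟨B, hB⟩ := per_bounded hc.continuous cper
  have hB0 : 0 < B := (hc0 0).trans_le ((le_abs_self _).trans (hB 0))
  set δ0 := 1 / (2 * B) with hδ0
  have hδ0pos : 0 < δ0 := by positivity
  have hpos : ∀ t, |t| < δ0 → ∀ x, 0 < 1 + t * c x := by
    intro t ht x
    have h1 : |t * c x| ≤ 1 / 2 := by
      rw [abs_mul]
      calc |t| * |c x| ≤ δ0 * B := mul_le_mul ht.le (hB x) (abs_nonneg _) hδ0pos.le
        _ = 1 / 2 := by rw [hδ0]; field_simp
    have h2 := (abs_le.mp h1).1
    linarith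
  have hF : ContDiffOn ℝ ∞ (fun p : ℝ × ℝ => N p.2 / (1 + p.1 * c p.2)) (Ioo (-δ0) δ0 ×ˢ univ) := by
    apply ContDiffOn.fun_div
    · exact (hN.comp contDiff_snd).contDiffOn
    · exact (contDiff_const.add (contDiff_fst.mul (hc.comp contDiff_snd))).contDiffOn
    · rintro ⟨t, x⟩ ⟨ht, _⟩
      exact (hpos t (abs_lt.mpr ht) x).ne'
  obtain ⟨C, hC⟩ := joint_bound (F := fun t x => N x / (1 + t * c x)) (δ0 := δ0) (δ1 := δ0 / 2)
    (Λ := 1) (by linarith) hF one_pos (fun t x => by rw [Nper, cper]) k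
  refine ⟨δ0 / 2, by positivity, C, fun j hj t ht => ⟨hpos t (by linarith), fun x => ?_⟩⟩
  exact hC j hj t ht x

/-- the shifted metric -/
noncomputable def InvMetric.shift (g : InvMetric) (t : ℝ) (ht : ∀ x, 0 < 1 + t * g.c x) :
    InvMetric where
  a := fun x => g.a x - t * g.b x ^ 2 / (1 + t * g.c x)
  b := fun x => g.b x / (1 + t * g.c x)
  c := fun x => g.c x / (1 + t * g.c x)
  smooth_a := by
    apply g.smooth_a.sub
    apply ContDiff.fun_div (contDiff_const.mul (g.smooth_b.pow 2))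
      (contDiff_const.add (contDiff_const.mul g.smooth_c)) (fun x => (ht x).ne')
  smooth_b := by
    apply ContDiff.fun_div g.smooth_b
      (contDiff_const.add (contDiff_const.mul g.smooth_c)) (fun x => (ht x).ne')
  smooth_c := by
    apply ContDiff.fun_div g.smooth_c
      (contDiff_const.add (contDiff_const.mul g.smooth_c)) (fun x => (ht x).ne')
  per_a := by
    intro x
    simp only [g.per_a, g.per_b, g.per_c]
  per_b := by
    intro x
    simp only [g.per_b, g.per_c]
  per_c := by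
    intro x
    simp only [g.per_c]
  pos_c := by
    intro x
    exact div_pos (g.pos_c x) (ht x)
  pos_det := by
    intro x
    have h1 := ht x
    have h2 : (g.a x - t * g.b x ^ 2 / (1 + t * g.c x)) * (g.c x / (1 + t * g.c x)) -
        (g.b x / (1 + t * g.c x)) ^ 2 = (g.a x * g.c x - g.b x ^ 2) / (1 + t * g.c x) := by
      field_simp
      ring
    rw [h2]
    exact div_pos (g.pos_det x) h1

theorem shift_hh (g : InvMetric) (t : ℝ) (ht : ∀ x, 0 < 1 + t * g.c x) (x : ℝ) :
    (g.shift t ht).hh x = g.hh x + t := by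
  have h1 := ht x
  have h2 := g.pos_c x
  simp only [InvMetric.hh, InvMetric.shift]
  field_simp

theorem shift_dd (g : InvMetric) (t : ℝ) (ht : ∀ x, 0 < 1 + t * g.c x) :
    (g.shift t ht).dd = g.dd := by
  funext x
  have h1 := ht x
  have h2 := g.pos_c x
  have hd : HasDerivAt g.c (deriv g.c x) x :=
    (g.smooth_c.differentiable (by simp)).differentiableAt.hasDerivAt
  have hd2 : HasDerivAt (fun x => g.c x / (1 + t * g.c x))
      ((deriv g.c x * (1 + t * g.c x) - g.c x * (t * deriv g.c x)) / (1 + t * g.c x) ^ 2) x :=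
    hd.fun_div ((hd.const_mul t).const_add 1) h1.ne'
  simp only [InvMetric.dd, InvMetric.shift]
  rw [hd2.deriv]
  field_simp
  ring

theorem shift_mu (g : InvMetric) (t : ℝ) (ht : ∀ x, 0 < 1 + t * g.c x) :
    (g.shift t ht).mu = g.mu := by
  funext x
  have h1 := ht x
  have h2 := g.pos_c x
  simp only [InvMetric.mu, InvMetric.shift]
  congr 1
  field_simp
  ring

theorem shift_bb (g : InvMetric) (t : ℝ) (ht : ∀ x, 0 < 1 + t * g.c x) :
    (g.shift t ht).bb = g.bb := by
  funext x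
  have h1 := ht x
  have h2 := g.pos_c x
  simp only [InvMetric.bb, InvMetric.shift]
  field_simp

theorem shift_ww (g : InvMetric) (t : ℝ) (ht : ∀ x, 0 < 1 + t * g.c x) :
    (g.shift t ht).ww = fun x => (g.hh x + t) * g.mu x := by
  funext x
  have h1 : (g.shift t ht).ww x = (g.shift t ht).hh x * (g.shift t ht).mu x := rfl
  rw [h1, shift_hh, shift_mu]

private theorem Shift_aux {f N c : ℝ → ℝ} (hf : ContDiff ℝ ∞ f) (hN : ContDiff ℝ ∞ N)
    (hc : ContDiff ℝ ∞ c) {t : ℝ} (ht : ∀ x, 0 < 1 + t * c x) {f' : ℝ → ℝ}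
    (hf' : ∀ x, f' x = f x - t * (N x / (1 + t * c x))) (j : ℕ) (x : ℝ) :
    |iteratedDeriv j f' x - iteratedDeriv j f x| =
      |t| * |iteratedDeriv j (fun y => N y / (1 + t * c y)) x| := by
  have e : f' = fun x => f x - t * (N x / (1 + t * c x)) := funext hf'
  have hG : ContDiff ℝ ∞ fun y => N y / (1 + t * c y) :=
    ContDiff.fun_div hN (contDiff_const.add (contDiff_const.mul hc)) (fun x => (ht x).ne')
  have h1 : iteratedDeriv j f' x = iteratedDeriv j f x -
      t * iteratedDeriv j (fun y => N y / (1 + t * c y)) x := by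
    rw [e, iteratedDeriv_fun_sub (hf.contDiffAt.of_le (by exact_mod_cast le_top))
      ((contDiff_const.mul hG).contDiffAt.of_le (by exact_mod_cast le_top)),
      iteratedDeriv_const_mul_field]
  rw [h1, ← abs_mul, ← abs_neg]
  congr 1
  ring

theorem shift_close (g : InvMetric) (k : ℕ) (ε : ℝ) (hε : 0 < ε) :
    ∃ δ > 0, ∀ t, |t| ≤ δ → ∃ ht : ∀ x, 0 < 1 + t * g.c x, CkClose k ε g (g.shift t ht) := by
  obtain ⟨δ1, hδ1, C1, H1⟩ := shift_bound (N := fun x => g.b x ^ 2) (g.smooth_b.pow 2) g.smooth_c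
    (fun x => by simp only [g.per_b]) g.per_c g.pos_c k
  obtain ⟨δ2, hδ2, C2, H2⟩ := shift_bound (N := fun x => g.b x * g.c x)
    (g.smooth_b.mul g.smooth_c) g.smooth_c
    (fun x => by simp only [g.per_b, g.per_c]) g.per_c g.pos_c k
  obtain ⟨δ3, hδ3, C3, H3⟩ := shift_bound (N := fun x => g.c x ^ 2) (g.smooth_c.pow 2) g.smooth_c
    (fun x => by simp only [g.per_c]) g.per_c g.pos_c k
  set D := |C1| + |C2| + |C3| + 1 with hD
  have hDpos : 0 < D := by positivity
  refine ⟨min (min δ1 δ2) (min δ3 (ε / (2 * D))), by positivity, fun t ht => ?_⟩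
  have ht1 : |t| ≤ δ1 := ht.trans ((min_le_left _ _).trans (min_le_left _ _))
  have ht2 : |t| ≤ δ2 := ht.trans ((min_le_left _ _).trans (min_le_right _ _))
  have ht3 : |t| ≤ δ3 := ht.trans ((min_le_right _ _).trans (min_le_left _ _))
  have ht4 : |t| ≤ ε / (2 * D) := ht.trans ((min_le_right _ _).trans (min_le_right _ _))
  have hpos : ∀ x, 0 < 1 + t * g.c x := (H1 0 (Nat.zero_le _) t ht1).1
  have hfin : ∀ C A : ℝ, C ≤ D → |A| ≤ C → |t| * |A| < ε := by
    intro C A hC hA
    calc |t| * |A| ≤ ε / (2 * D) * D := by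
          apply mul_le_mul ht4 (hA.trans hC) (abs_nonneg _) (by positivity)
      _ = ε / 2 := by field_simp
      _ < ε := by linarith
  have hC1 : C1 ≤ D := by
    have := le_abs_self C1
    have := abs_nonneg C2
    have := abs_nonneg C3
    linarith
  have hC2 : C2 ≤ D := by
    have := le_abs_self C2
    have := abs_nonneg C1
    have := abs_nonneg C3
    linarith
  have hC3 : C3 ≤ D := by
    have := le_abs_self C3
    have := abs_nonneg C1
    have := abs_nonneg C2
    linarith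
  refine ⟨hpos, fun j hj x => ⟨?_, ?_, ?_⟩⟩
  · rw [Shift_aux (f := g.a) (N := fun x => g.b x ^ 2) g.smooth_a (g.smooth_b.pow 2) g.smooth_c hpos
      (fun x => by simp only [InvMetric.shift]; ring)]
    exact hfin C1 _ hC1 ((H1 j hj t ht1).2 x)
  · rw [Shift_aux (f := g.b) (N := fun x => g.b x * g.c x) g.smooth_b (g.smooth_b.mul g.smooth_c)
      g.smooth_c hpos (fun x => by
        have := hpos x
        simp only [InvMetric.shift]
        field_simp
        ring)]
    exact hfin C2 _ hC2 ((H2 j hj t ht2).2 x)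
  · rw [Shift_aux (f := g.c) (N := fun x => g.c x ^ 2) g.smooth_c (g.smooth_c.pow 2)
      g.smooth_c hpos (fun x => by
        have := hpos x
        simp only [InvMetric.shift]
        rw [div_eq_iff this.ne', sub_mul, mul_assoc, div_mul_cancel₀ _ this.ne']
        ring)]
    exact hfin C3 _ hC3 ((H3 j hj t ht3).2 x)

end Pool.Agent.CGD
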