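import Pool.Agent.CGD.DensF
import Pool.Agent.CGD.Shift
import Pool.Agent.CGD.Est
import Pool.Agent.CGD.OscGen
import Pool.Agent.CGD.OscOp
import Pool.Agent.CGD.OscCl
import Pool.Agent.CGD.Rot

set_option autoImplicit false

/-! Module Main: assembly of the positive part. -/

namespace Pool.Agent.CGD

open Set Filter Topology

/-- in the situation of `UV V g` there is a closed orbit of the reduced system in `V` -/
theorem uv_closed {V : Set (ℝ × ℝ)} (hV : IsOpen V) {g : InvMetric} (h : UV V g) :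
    ∃ z ∈ V, PClosed g.dd g.ww g.bb z := by
  rcases h with ⟨z, hz, hz'⟩ | h
  · exact rot_closed g.dd_nice g.hh_deriv g.hh_per g.dd_per g.ww_smooth.continuous g.ww_pos
      g.ww_per g.bb_smooth.continuous g.bb_per hV hz hz'
  · exact osc_pclosed g.dd_nice g.ww_smooth.continuous
      (per_pos g.ww_smooth.continuous g.ww_per g.ww_pos) g.bb_smooth.continuous h

/-- `UV V` is open in the `C¹` topology. -/
theorem uv_open {V : Set (ℝ × ℝ)} (hV : IsOpen V) {g : InvMetric} (h : UV V g) :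
    ∃ ε > 0, ∀ g' : InvMetric, CkClose 1 ε g g' → UV V g' := by
  rcases h with ⟨z, hz, hz'⟩ | h
  · obtain ⟨xm, hxm⟩ := per_max g.hh_smooth.continuous g.hh_per
    have h1 := hz' xm
    set e := (z.2 ^ 2 + g.hh z.1 - g.hh xm) / 3 with he
    have he0 : 0 < e := by rw [he]; linarith
    obtain ⟨δ, hδ, H⟩ := est g e he0
    refine ⟨δ, hδ, fun g' hg' => Or.inl ⟨z, hz, fun x => ?_⟩⟩
    have h2 := abs_le.1 (H g' hg' x).1
    have h3 := abs_le.1 (H g' hg' z.1).1
    have h4 := hxm x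
    have h5 : 3 * e = z.2 ^ 2 + g.hh z.1 - g.hh xm := by rw [he]; ring
    linarith [h2.2, h3.1]
  · obtain ⟨ε, hε, H⟩ := osc_open g.dd_nice (per_unif g.ww_smooth.continuous g.ww_per) g.ww_pos
      hV h
    obtain ⟨δ, hδ, H'⟩ := est g ε hε
    exact ⟨δ, hδ, fun g' hg' => Or.inr (H g'.dd g'.ww g'.dd_nice g'.ww_smooth.continuous
      (fun x => (H' g' hg' x).2.1) fun x => (H' g' hg' x).2.2)⟩

/-- for a nonempty open `V` the condition `UV V` holds for all members of the shift family but at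
most one. -/
theorem uv_generic (g : InvMetric) {V : Set (ℝ × ℝ)} (hV : IsOpen V) (hne : V.Nonempty) :
    ∃ t0 : ℝ, ∀ t, t ≠ t0 → ∀ ht : ∀ x, 0 < 1 + t * g.c x, UV V (g.shift t ht) := by
  by_cases hrot : ∃ z ∈ V, ∀ x, g.hh x < z.2 ^ 2 + g.hh z.1
  · obtain ⟨z, hz, hz'⟩ := hrot
    refine ⟨0, fun t _ ht => Or.inl ⟨z, hz, fun x => ?_⟩⟩
    rw [shift_hh, shift_hh]
    have := hz' x
    linarith
  · obtain ⟨z, hz⟩ := hne
    obtain ⟨xm, hxm⟩ := per_max g.hh_smooth.continuous g.hh_per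
    have hE : z.2 ^ 2 + g.hh z.1 < g.hh xm := by
      by_contra hcon
      push Not at hcon
      apply hrot
      obtain ⟨ρ, hρ, hball⟩ := Metric.isOpen_iff.1 hV z hz
      obtain ⟨u, hu1, hu2⟩ : ∃ u : ℝ, |u - z.2| < ρ ∧ z.2 ^ 2 < u ^ 2 := by
        rcases le_total 0 z.2 with h0 | h0
        · refine ⟨z.2 + ρ / 2, ?_, ?_⟩
          · rw [add_sub_cancel_left, abs_of_pos (by linarith)]
            linarith
          · nlinarith
        · refine ⟨z.2 - ρ / 2, ?_, ?_⟩
          · rw [sub_sub_cancel_left, abs_neg, abs_of_pos (by linarith)]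
            linarith
          · nlinarith
      refine ⟨(z.1, u), hball ?_, fun x => ?_⟩
      · rw [Metric.mem_ball, Prod.dist_eq, dist_self]
        exact max_lt hρ (by rw [Real.dist_eq]; exact hu1)
      · show g.hh x < u ^ 2 + g.hh z.1
        have := hxm x
        linarith
    obtain ⟨n, hn⟩ := exists_nat_gt |xm - z.1|
    have hn' := abs_lt.1 hn
    have hp : Function.Periodic g.hh 1 := g.hh_per
    have e1 : g.hh (xm - n) = g.hh xm := by
      have h := hp.sub_nat_mul_eq (x := xm) n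
      rwa [mul_one] at h
    have e2 : g.hh (xm + n) = g.hh xm := by
      have h := hp.nat_mul n xm
      rwa [mul_one] at h
    obtain ⟨t0, H⟩ := osc_generic (ϖ := 1) g.dd_nice g.hh_deriv g.mu_smooth.continuous g.mu_pos
      one_pos hV hz (xL := xm - n) (xR := xm + n) (by linarith [hn'.2]) (by linarith [hn'.1])
      (by rw [e1]; exact hE) (by rw [e2]; exact hE)
    refine ⟨t0, fun t htt ht => Or.inr ?_⟩
    rw [shift_dd, shift_ww]
    refine H t htt fun x => ?_
    rw [← shift_hh g t ht]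
    exact (g.shift t ht).hh_pos x

/-- if `UV V` holds for the members of a basis then the closed geodesics are dense -/
theorem Main_dense {b : Set (Set (ℝ × ℝ))} (hb0 : ∅ ∉ b)
    (hb : TopologicalSpace.IsTopologicalBasis b) {g : InvMetric} (h : ∀ V ∈ b, UV V g) :
    Dense (CG g) := by
  apply dense_of_planar
  intro V hV hne
  obtain ⟨z, hz⟩ := hne
  obtain ⟨B, hB, hzB, hBV⟩ := hb.exists_subset_of_mem_open hz hV
  obtain ⟨z', hz', hc⟩ := uv_closed (hb.isOpen hB) (h B hB)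
  exact ⟨z', hBV hz', hc⟩

/-- all members of the shift family but countably many have dense closed geodesics -/
theorem all_but_countable (g : InvMetric) : ∃ N : Set ℝ, N.Countable ∧ ∀ t ∉ N, ∀ g' : InvMetric,
    (∀ x, 0 < 1 + t * g.c x) →
    (∀ x, g'.a x = g.a x - t * g.b x ^ 2 / (1 + t * g.c x)) →
    (∀ x, g'.b x = g.b x / (1 + t * g.c x)) →
    (∀ x, g'.c x = g.c x / (1 + t * g.c x)) → Dense (CG g') := by
  obtain ⟨b, hbc, hb0, hb⟩ := TopologicalSpace.exists_countable_basis (ℝ × ℝ)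
  have h1 : ∀ V : Set (ℝ × ℝ), ∃ t0 : ℝ, V ∈ b →
      ∀ t, t ≠ t0 → ∀ ht : ∀ x, 0 < 1 + t * g.c x, UV V (g.shift t ht) := by
    intro V
    by_cases hV : V ∈ b
    · obtain ⟨t0, H⟩ := uv_generic g (hb.isOpen hV)
        (nonempty_iff_ne_empty.2 fun h => hb0 (h ▸ hV))
      exact ⟨t0, fun _ => H⟩
    · exact ⟨0, fun h => absurd h hV⟩
  choose t0 ht0 using h1
  refine ⟨t0 '' b, hbc.image t0, fun t htN g' hpos ha hb' hc => ?_⟩
  have e : g' = g.shift t hpos := by
    apply InvMetric.ext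
    · funext x
      exact ha x
    · funext x
      exact hb' x
    · funext x
      exact hc x
  rw [e]
  refine Main_dense hb0 hb fun V hV => ht0 V hV t (fun h => htN ?_) hpos
  rw [h]
  exact mem_image_of_mem t0 hV

/-- explicit form of genericity: countably many sets, open in the `C¹` topology and dense in the
`C^∞` topology -/
theorem generic_explicit : ∃ S : ℕ → Set InvMetric,
    (∀ n, ∀ g ∈ S n, ∃ ε > 0, ∀ g', CkClose 1 ε g g' → g' ∈ S n) ∧
    (∀ n, ∀ g : InvMetric, ∀ k : ℕ, ∀ ε > 0, ∃ g' ∈ S n, CkClose k ε g g') ∧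
    ∀ g, (∀ n, g ∈ S n) → Dense (CG g) := by
  obtain ⟨b, hbc, hb0, hb⟩ := TopologicalSpace.exists_countable_basis (ℝ × ℝ)
  have hbne : b.Nonempty := by
    obtain ⟨B, hB, _⟩ := hb.exists_subset_of_mem_open (mem_univ ((0:ℝ), (0:ℝ))) isOpen_univ
    exact ⟨B, hB⟩
  obtain ⟨f, hf⟩ := hbc.exists_eq_range hbne
  have hfb : ∀ n, f n ∈ b := fun n => by rw [hf]; exact mem_range_self n
  refine ⟨fun n => {g | UV (f n) g}, fun n g hg => uv_open (hb.isOpen (hfb n)) hg, ?_, ?_⟩
  · intro n g k ε hε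
    obtain ⟨δ, hδ, H⟩ := shift_close g k ε hε
    obtain ⟨t0, H0⟩ := uv_generic g (hb.isOpen (hfb n))
      (nonempty_iff_ne_empty.2 fun h => hb0 (h ▸ hfb n))
    obtain ⟨t, ht1, ht2⟩ : ∃ t : ℝ, |t| ≤ δ ∧ t ≠ t0 := by
      by_cases h : δ = t0
      · refine ⟨δ / 2, ?_, ?_⟩
        · rw [abs_of_pos (by linarith)]
          linarith
        · rw [← h]
          intro h2
          linarith
      · exact ⟨δ, by rw [abs_of_pos hδ], h⟩
    obtain ⟨ht, hclose⟩ := H t ht1
    exact ⟨g.shift t ht, H0 t ht2 ht, hclose⟩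
  · intro g hg
    refine Main_dense hb0 hb fun V hV => ?_
    rw [hf] at hV
    obtain ⟨n, rfl⟩ := hV
    exact hg n

/-- the residual form -/
theorem generic : {g : InvMetric | Dense (CG g)} ∈ residual InvMetric := by
  obtain ⟨S, h1, h2, h3⟩ := generic_explicit
  rw [mem_residual_iff]
  refine ⟨range S, ?_, ?_, countable_range S, ?_⟩
  · rintro _ ⟨n, rfl⟩
    intro g hg
    obtain ⟨ε, hε, H⟩ := h1 n g hg
    exact ⟨1, ε, hε, H⟩
  · rintro _ ⟨n, rfl⟩
    rw [dense_iff_inter_open]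
    rintro U hU ⟨g, hg⟩
    obtain ⟨k, ε, hε, H⟩ := hU g hg
    obtain ⟨g', hg', hc⟩ := h2 n g k ε hε
    exact ⟨g', H g' hc, hg'⟩
  · intro g hg
    exact h3 g fun n => hg _ (mem_range_self n)

/-- the metrics with dense closed geodesics are dense in the `C^∞` topology -/
theorem dense_close (g : InvMetric) (k : ℕ) (ε : ℝ) (hε : 0 < ε) :
    ∃ g' : InvMetric, CkClose k ε g g' ∧ Dense (CG g') := by
  obtain ⟨N, hN, H⟩ := all_but_countable g
  obtain ⟨δ, hδ, H'⟩ := shift_close g k ε hε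
  obtain ⟨t, ht, htN⟩ : ∃ t ∈ Ioo (0:ℝ) δ, t ∉ N := by
    by_contra hcon
    push Not at hcon
    exact (Cardinal.Real.Ioo_countable_iff.1 (hN.mono hcon)).not_gt hδ
  obtain ⟨hpos, hclose⟩ := H' t (by rw [abs_of_pos ht.1]; exact ht.2.le)
  exact ⟨g.shift t hpos, hclose, H t htN _ hpos (fun _ => rfl) (fun _ => rfl) fun _ => rfl⟩

end Pool.Agent.CGD
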