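import Pool.Agent.CGD.SDefs

set_option autoImplicit false

/-! Module SBase: the truncated potential. -/

namespace Pool.Agent.CGD

open Set Filter Topology
open scoped ContDiff

theorem exists_cut {L r1 r2 : ℝ} (h1 : 0 < r1) (h12 : r1 < r2) (h2 : r2 < L) :
    ∃ χ : ℝ → ℝ, Cut L r1 r2 χ := by
  refine ⟨fun x => Real.smoothTransition ((x - r1 / 2) / (r1 / 2)) *
    Real.smoothTransition (((r2 + L) / 2 - x) / ((L - r2) / 2)), ?_⟩
  have hLr : 0 < (L - r2) / 2 := by linarith
  have hr : 0 < r1 / 2 := by linarith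
  refine ⟨h1, h12, h2, ?_, ?_, ?_, ?_, ?_, ?_⟩
  · apply ContDiff.mul
    · exact Real.smoothTransition.contDiff.comp
        ((contDiff_id.sub contDiff_const).div_const _)
    · exact Real.smoothTransition.contDiff.comp
        ((contDiff_const.sub contDiff_id).div_const _)
  · intro x
    exact mul_nonneg (Real.smoothTransition.nonneg _) (Real.smoothTransition.nonneg _)
  · intro x
    exact mul_le_one₀ (Real.smoothTransition.le_one _) (Real.smoothTransition.nonneg _)
      (Real.smoothTransition.le_one _)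
  · intro x hx
    have e1 : Real.smoothTransition ((x - r1 / 2) / (r1 / 2)) = 1 := by
      apply Real.smoothTransition.one_of_one_le
      rw [le_div_iff₀ hr]
      linarith [hx.1]
    have e2 : Real.smoothTransition (((r2 + L) / 2 - x) / ((L - r2) / 2)) = 1 := by
      apply Real.smoothTransition.one_of_one_le
      rw [le_div_iff₀ hLr]
      linarith [hx.2]
    simp only [e1, e2, mul_one]
  · intro x hx
    have e1 : Real.smoothTransition ((x - r1 / 2) / (r1 / 2)) = 0 := by
      apply Real.smoothTransition.zero_of_nonpos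
      exact div_nonpos_of_nonpos_of_nonneg (by linarith) hr.le
    simp only [e1, zero_mul]
  · intro x hx
    have e2 : Real.smoothTransition (((r2 + L) / 2 - x) / ((L - r2) / 2)) = 0 := by
      apply Real.smoothTransition.zero_of_nonpos
      exact div_nonpos_of_nonpos_of_nonneg (by linarith) hLr.le
    simp only [e2, mul_zero]

variable {L : ℝ} (g : SphMetric L) {r1 r2 K : ℝ} {χ : ℝ → ℝ}

/-- `f` is `2L`-periodic -/
theorem SphMetric.per (x : ℝ) : g.f (x + 2 * L) = g.f x := by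
  have h : x + 2 * L = L + (x + L) := by ring
  rw [h, g.oddL]
  have h2 : L - (x + L) = -x := by ring
  rw [h2, g.odd0, neg_neg]

private theorem SBase_zero (hχ : Cut L r1 r2 χ) {x : ℝ} (hx : ¬ (0 < x ∧ x < L)) :
    (x < r1 / 2 ∨ (r2 + L) / 2 < x) := by
  have h1 := hχ.h1
  have h12 := hχ.h12
  have h2 := hχ.h2
  by_cases h : 0 < x
  · right
    have : L ≤ x := by
      by_contra h'
      exact hx ⟨h, not_le.1 h'⟩
    linarith
  · left
    linarith [not_lt.1 h]

private theorem SBase_const {x : ℝ} (hx : χ x = 0) : g.ht χ K x = K := by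
  simp [SphMetric.ht, hx]

private theorem SBase_ev (hχ : Cut L r1 r2 χ) {x : ℝ} (hx : x < r1 / 2 ∨ (r2 + L) / 2 < x) :
    g.ht χ K =ᶠ[𝓝 x] fun _ => K := by
  rcases hx with h | h
  · filter_upwards [Iio_mem_nhds h] with y hy
    exact SBase_const g (hχ.zero_left y (le_of_lt hy))
  · filter_upwards [Ioi_mem_nhds h] with y hy
    exact SBase_const g (hχ.zero_right y (le_of_lt hy))

theorem ht_smooth (hχ : Cut L r1 r2 χ) : ContDiff ℝ ∞ (g.ht χ K) := by
  rw [contDiff_iff_contDiffAt]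
  intro x
  by_cases hx : 0 < x ∧ x < L
  · have hf : g.f x ≠ 0 := (g.pos x hx.1 hx.2).ne'
    have h1 : ContDiffAt ℝ ∞ χ x := hχ.smooth.contDiffAt
    have h2 : ContDiffAt ℝ ∞ g.f x := g.smooth.contDiffAt
    have h3 : ContDiffAt ℝ ∞ (fun y => 1 / g.f y ^ 2) x :=
      contDiffAt_const.div (h2.pow 2) (pow_ne_zero 2 hf)
    exact (h1.mul h3).add ((contDiffAt_const.sub h1).mul contDiffAt_const)
  · exact contDiffAt_const.congr_of_eventuallyEq (SBase_ev g hχ (SBase_zero hχ hx))

theorem ht_deriv (hχ : Cut L r1 r2 χ) (x : ℝ) : HasDerivAt (g.ht χ K) (g.dt χ K x) x :=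
  (((ht_smooth g hχ).differentiable (by simp)) x).hasDerivAt

private theorem SBase_dt_eq_deriv : g.dt χ K = deriv (g.ht χ K) := rfl

private theorem SBase_compact (hχ : Cut L r1 r2 χ) : HasCompactSupport (g.dt χ K) := by
  apply HasCompactSupport.intro (isCompact_Icc (a := r1 / 2) (b := (r2 + L) / 2))
  intro x hx
  have hx' : x < r1 / 2 ∨ (r2 + L) / 2 < x := by
    by_contra h
    push Not at h
    exact hx ⟨h.1, h.2⟩
  show deriv (g.ht χ K) x = 0
  rw [(SBase_ev g hχ hx').deriv_eq]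
  simp

private theorem SBase_dt_smooth (hχ : Cut L r1 r2 χ) : ContDiff ℝ ∞ (g.dt χ K) := by
  have h := ht_smooth g (K := K) hχ
  rw [SBase_dt_eq_deriv]
  exact (contDiff_infty_iff_deriv.1 h).2

theorem dt_nice (hχ : Cut L r1 r2 χ) : Nice (g.dt χ K) := by
  have hc := SBase_compact g (K := K) hχ
  have hs := SBase_dt_smooth g (K := K) hχ
  refine ⟨?_, ?_⟩
  · exact hs.lipschitzWith_of_hasCompactSupport hc (by simp)
  · obtain ⟨B, hB⟩ := hc.exists_bound_of_continuous hs.continuous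
    exact ⟨B, fun x => by simpa using hB x⟩

theorem ht_unif (hχ : Cut L r1 r2 χ) : UniformContinuous (g.ht χ K) := by
  obtain ⟨B, hB⟩ := (dt_nice g (K := K) hχ).bdd
  have hB0 : 0 ≤ B := (abs_nonneg _).trans (hB 0)
  have hl : LipschitzWith ⟨B, hB0⟩ (g.ht χ K) := by
    apply lipschitzWith_of_nnnorm_deriv_le ((ht_smooth g hχ).differentiable (by simp))
    intro x
    have := hB x
    rw [← NNReal.coe_le_coe]
    exact this
  exact hl.uniformContinuous

theorem ht_pos (hχ : Cut L r1 r2 χ) (hK : 0 < K) : ∃ δ > 0, ∀ x, δ ≤ g.ht χ K x := by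
  obtain ⟨M, hM⟩ := (isCompact_Icc (a := (0:ℝ)) (b := L)).exists_bound_of_continuousOn
    g.smooth.continuous.continuousOn
  have h1 := hχ.h1
  have h12 := hχ.h12
  have h2 := hχ.h2
  have hM0 : 0 < M := by
    have hp := g.pos r1 h1 (h12.trans h2)
    have := hM r1 ⟨h1.le, (h12.trans h2).le⟩
    rw [Real.norm_eq_abs, abs_of_pos hp] at this
    linarith
  refine ⟨min (1 / M ^ 2) K, lt_min (by positivity) hK, fun x => ?_⟩
  by_cases hx : 0 < x ∧ x < L
  · have hp := g.pos x hx.1 hx.2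
    have hfM : g.f x ≤ M := by
      have := hM x ⟨hx.1.le, hx.2.le⟩
      rwa [Real.norm_eq_abs, abs_of_pos hp] at this
    have h3 : 1 / M ^ 2 ≤ 1 / g.f x ^ 2 :=
      one_div_le_one_div_of_le (by positivity) (pow_le_pow_left₀ hp.le hfM 2)
    have h4 : min (1 / M ^ 2) K ≤ 1 / g.f x ^ 2 := (min_le_left _ _).trans h3
    have h5 : min (1 / M ^ 2) K ≤ K := min_le_right _ _
    have e : g.ht χ K x = χ x * (1 / g.f x ^ 2) + (1 - χ x) * K := rfl
    rw [e]
    nlinarith [mul_le_mul_of_nonneg_left h4 (hχ.nonneg x),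
      mul_le_mul_of_nonneg_left h5 (sub_nonneg.2 (hχ.le_one x))]
  · have hz : χ x = 0 := by
      rcases SBase_zero hχ hx with h | h
      · exact hχ.zero_left x h.le
      · exact hχ.zero_right x h.le
    rw [SBase_const g hz]
    exact min_le_right _ _

/-- on `[r1, r2]` the truncated potential is `1/f²` -/
theorem ht_eq (hχ : Cut L r1 r2 χ) {x : ℝ} (hx : x ∈ Icc r1 r2) :
    g.ht χ K x = 1 / g.f x ^ 2 := by
  simp [SphMetric.ht, hχ.one x hx]

/-- on the open interval its derivative is `-2 f'/f³` -/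
theorem dt_eq (hχ : Cut L r1 r2 χ) {x : ℝ} (hx : x ∈ Ioo r1 r2) :
    g.dt χ K x = -2 * deriv g.f x / g.f x ^ 3 := by
  have h1 := hχ.h1
  have h12 := hχ.h12
  have h2 := hχ.h2
  have hev : g.ht χ K =ᶠ[𝓝 x] fun y => 1 / g.f y ^ 2 := by
    filter_upwards [Ioo_mem_nhds hx.1 hx.2] with y hy
    exact ht_eq g hχ ⟨hy.1.le, hy.2.le⟩
  show deriv (g.ht χ K) x = _
  rw [hev.deriv_eq]
  have hp := g.pos x (by linarith [hx.1]) (by linarith [hx.2])
  have hd : HasDerivAt g.f (deriv g.f x) x :=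
    ((g.smooth.differentiable (by simp)) x).hasDerivAt
  have h3 := (hasDerivAt_const x (1:ℝ)).div (hd.pow 2) (pow_ne_zero 2 hp.ne')
  have h4 := h3.deriv
  have e : (fun y => 1 / g.f y ^ 2) = (fun _ : ℝ => (1:ℝ)) / (g.f ^ 2) := by
    ext y
    simp
  rw [e, h4]
  simp only [Pi.pow_apply]
  field_simp
  ring

/-- outside `(r1, r2)` the truncated potential is large if `1/f²` is -/
theorem ht_large (hχ : Cut L r1 r2 χ) {E : ℝ} (hK : E ≤ K)
    (h : ∀ r, 0 < r → r < L → r ∉ Ioo r1 r2 → E ≤ 1 / g.f r ^ 2) {x : ℝ}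
    (hx : x ∉ Ioo r1 r2) : E ≤ g.ht χ K x := by
  by_cases hx' : 0 < x ∧ x < L
  · have h4 := h x hx'.1 hx'.2 hx
    have e : g.ht χ K x = χ x * (1 / g.f x ^ 2) + (1 - χ x) * K := rfl
    rw [e]
    nlinarith [mul_le_mul_of_nonneg_left h4 (hχ.nonneg x),
      mul_le_mul_of_nonneg_left hK (sub_nonneg.2 (hχ.le_one x))]
  · have hz : χ x = 0 := by
      rcases SBase_zero hχ hx' with h | h
      · exact hχ.zero_left x h.le
      · exact hχ.zero_right x h.le
    rw [SBase_const g hz]
    exact hK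

end Pool.Agent.CGD
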