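import Pool.Agent.CGD.Defs

set_option autoImplicit false

/-! # Spheres of revolution: definitions -/

namespace Pool.Agent.CGD

open Set Filter Topology
open scoped ContDiff

/-- The profile of a smooth sphere of revolution `dr² + f(r)² dθ²`, `0 ≤ r ≤ L`, `θ ∈ ℝ/2πℤ`: the
metric extends smoothly over the two poles `r = 0`, `r = L` iff `f` extends to a smooth function on
`ℝ` which is odd about `0` and about `L`, positive on `(0, L)`, with `f'(0) = 1`, `f'(L) = -1`. -/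
@[ext] structure SphMetric (L : ℝ) where
  f : ℝ → ℝ
  smooth : ContDiff ℝ ∞ f
  odd0 : ∀ r, f (-r) = -f r
  oddL : ∀ r, f (L + r) = -f (L - r)
  pos : ∀ r, 0 < r → r < L → 0 < f r
  slope0 : deriv f 0 = 1
  slopeL : deriv f L = -1

/-- Geodesics which do not pass through the poles, in the coordinates `(r, θ)`: the
Euler-Lagrange equations of the energy `(r'² + f(r)² θ'²)/2`. -/
def IsGeodesicS {L : ℝ} (g : SphMetric L) (r θ : ℝ → ℝ) : Prop :=
  ContDiff ℝ 2 r ∧ ContDiff ℝ 2 θ ∧ ∀ t, (0 < r t ∧ r t < L) ∧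
    HasDerivAt (deriv r) (g.f (r t) * deriv g.f (r t) * deriv θ t ^ 2) t ∧
    HasDerivAt (fun s => g.f (r s) ^ 2 * deriv θ s) 0 t

/-- The nonzero tangent vector `(u, v)` at the point with coordinates `(p, q)` is tangent to a
closed geodesic (which does not pass through the poles). -/
def ClosedVecS {L : ℝ} (g : SphMetric L) (p q u v : ℝ) : Prop :=
  (u, v) ≠ (0, 0) ∧ ∃ r θ : ℝ → ℝ, IsGeodesicS g r θ ∧ r 0 = p ∧ θ 0 = q ∧ deriv r 0 = u ∧
    deriv θ 0 = v ∧ ∃ T > 0, ∃ n : ℤ, r T = p ∧ θ T = q + 2 * Real.pi * n ∧ deriv r T = u ∧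
      deriv θ T = v

/-- The tangent vectors of closed geodesics, in coordinates over the sphere minus the poles. -/
def CS {L : ℝ} (g : SphMetric L) : Set ((ℝ × ℝ) × (ℝ × ℝ)) :=
  {w | ClosedVecS g w.1.1 w.1.2 w.2.1 w.2.2}

/-- The closed geodesics are dense in the tangent bundle (of the sphere minus the poles, hence of
the sphere). -/
def DenseS {L : ℝ} (g : SphMetric L) : Prop :=
  ∀ w : (ℝ × ℝ) × (ℝ × ℝ), 0 < w.1.1 → w.1.1 < L → w ∈ closure (CS g)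

/-- `C^k`-closeness of profiles -/
def CkCloseS {L : ℝ} (k : ℕ) (ε : ℝ) (g g' : SphMetric L) : Prop :=
  ∀ j ≤ k, ∀ x, |iteratedDeriv j g'.f x - iteratedDeriv j g.f x| < ε

/-- the `C^∞` topology on the space of profiles -/
instance (L : ℝ) : TopologicalSpace (SphMetric L) where
  IsOpen S := ∀ g ∈ S, ∃ k : ℕ, ∃ ε > 0, ∀ g', CkCloseS k ε g g' → g' ∈ S
  isOpen_univ := fun _ _ => ⟨0, 1, one_pos, fun _ _ => mem_univ _⟩
  isOpen_inter := by
    intro s t hs ht g hg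
    obtain ⟨k1, e1, h1, H1⟩ := hs g hg.1
    obtain ⟨k2, e2, h2, H2⟩ := ht g hg.2
    refine ⟨max k1 k2, min e1 e2, lt_min h1 h2, fun g' hg' => ⟨H1 g' ?_, H2 g' ?_⟩⟩
    · intro j hj x
      exact (hg' j (hj.trans (le_max_left _ _)) x).trans_le (min_le_left _ _)
    · intro j hj x
      exact (hg' j (hj.trans (le_max_right _ _)) x).trans_le (min_le_right _ _)
  isOpen_sUnion := by
    intro S hS g hg
    obtain ⟨s, hs, hgs⟩ := hg
    obtain ⟨k, e, he, H⟩ := hS s hs g hgs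
    exact ⟨k, e, he, fun g' hg' => ⟨s, hs, H g' hg'⟩⟩

/-- A cutoff function for the interval `[r1, r2] ⊆ (0, L)`. -/
structure Cut (L r1 r2 : ℝ) (χ : ℝ → ℝ) : Prop where
  h1 : 0 < r1
  h12 : r1 < r2
  h2 : r2 < L
  smooth : ContDiff ℝ ∞ χ
  nonneg : ∀ x, 0 ≤ χ x
  le_one : ∀ x, χ x ≤ 1
  one : ∀ x ∈ Icc r1 r2, χ x = 1
  zero_left : ∀ x ≤ r1 / 2, χ x = 0
  zero_right : ∀ x, (r2 + L) / 2 ≤ x → χ x = 0

/-- the truncated potential `ĥ = χ/f² + (1 - χ) K` on the whole line -/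
noncomputable def SphMetric.ht {L : ℝ} (g : SphMetric L) (χ : ℝ → ℝ) (K : ℝ) (x : ℝ) : ℝ :=
  χ x * (1 / g.f x ^ 2) + (1 - χ x) * K

/-- its derivative -/
noncomputable def SphMetric.dt {L : ℝ} (g : SphMetric L) (χ : ℝ → ℝ) (K : ℝ) (x : ℝ) : ℝ :=
  deriv (g.ht χ K) x

/-- the robust condition for a profile and an open set `V` of the reduced phase plane -/
def UVS {L : ℝ} (V : Set (ℝ × ℝ)) (g : SphMetric L) : Prop :=
  ∃ (r1 r2 K E η : ℝ) (χ : ℝ → ℝ), Cut L r1 r2 χ ∧ 0 < E ∧ 0 < η ∧ E + η ≤ K ∧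
    (∀ r, 0 < r → r < L → r ∉ Ioo r1 r2 → E + η ≤ 1 / g.f r ^ 2) ∧
    (∀ z ∈ V, z.1 ∈ Icc r1 r2 ∧ z.2 ^ 2 + 1 / g.f z.1 ^ 2 ≤ E - η) ∧
    Osc (g.dt χ K) (g.ht χ K) (2 * Real.pi) V

end Pool.Agent.CGD
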