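import Pool.Agent.CGD.SBase

set_option autoImplicit false

/-! Module SEst: `C¹`-continuity of the truncated data, and of the barrier near the poles.

`sest`: on the compact `J = [r1/2, (r2+L)/2] ⊆ (0,L)`, `f ≥ m > 0`; `ht' - ht = χ (1/f'² - 1/f²)` and `dt = χ' (1/f²) - χ 2f'/f³ - χ' K` on `(0,L)` (and `0` off `J`); uniform continuity of
`(f, f') ↦ (1/f², f'/f³)` on the compact image (as in module Est, `IsCompact.uniformContinuousAt_of_continuousAt`) and boundedness of `χ'`.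
`sbar`: if `E + η ≤ 1/f(r)²`, i.e. `f(r) ≤ (E+η)^{-1/2}`, and `|f'(r) - f(r)| < δ` then `f'(r) < (E+η)^{-1/2} + δ ≤ (E + η/2)^{-1/2}` for small `δ`, so `1/f'(r)² ≥ E + η/2` (`f'(r) > 0`).
`sup`: on `[r1, r2]` `1/f'²` is uniformly close to `1/f²`. -/

namespace Pool.Agent.CGD

open Set Filter Topology
open scoped ContDiff

/-- uniform continuity of the data on a compact subset of `(0, L)` -/
theorem SEst_unif {L : ℝ} (g : SphMetric L) {J : Set ℝ} (hJ : IsCompact J)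
    (hJL : ∀ x ∈ J, 0 < x ∧ x < L) (ε : ℝ) (hε : 0 < ε) :
    ∃ δ > 0, ∀ g' : SphMetric L, CkCloseS 1 δ g g' → ∀ x ∈ J,
      |1 / g'.f x ^ 2 - 1 / g.f x ^ 2| < ε ∧
      |deriv g'.f x / g'.f x ^ 3 - deriv g.f x / g.f x ^ 3| < ε := by
  have hd : ContDiff ℝ ∞ (deriv g.f) := (contDiff_infty_iff_deriv.1 g.smooth).2
  let Φ : ℝ × ℝ → ℝ × ℝ := fun P => (1 / P.1 ^ 2, P.2 / P.1 ^ 3)
  let S : Set (ℝ × ℝ) := (fun x => (g.f x, deriv g.f x)) '' J
  have hS : IsCompact S := hJ.image (g.smooth.continuous.prodMk hd.continuous)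
  have hc : ∀ a ∈ S, ContinuousAt Φ a := by
    rintro _ ⟨x, hx, rfl⟩
    have hpos : g.f x ≠ 0 := (g.pos x (hJL x hx).1 (hJL x hx).2).ne'
    refine ContinuousAt.prodMk ?_ ?_
    · exact ContinuousAt.div continuousAt_const (continuousAt_fst.pow 2) (pow_ne_zero 2 hpos)
    · exact ContinuousAt.div continuousAt_snd (continuousAt_fst.pow 3) (pow_ne_zero 3 hpos)
  have hu := hS.uniformContinuousAt_of_continuousAt Φ hc (Metric.dist_mem_uniformity hε)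
  obtain ⟨δ, hδ, hδ'⟩ := Metric.mem_uniformity_dist.1 hu
  refine ⟨δ, hδ, ?_⟩
  intro g' hg' x hx
  have h0 := hg' 0 (by norm_num) x
  have h1 := hg' 1 (by norm_num) x
  rw [iteratedDeriv_zero, iteratedDeriv_zero] at h0
  rw [iteratedDeriv_one, iteratedDeriv_one] at h1
  have hdist : dist ((g.f x, deriv g.f x) : ℝ × ℝ) (g'.f x, deriv g'.f x) < δ := by
    rw [Prod.dist_eq, max_lt_iff, Real.dist_eq, Real.dist_eq, abs_sub_comm,
      abs_sub_comm (deriv g.f x)]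
    exact ⟨h0, h1⟩
  have h2 := hδ' hdist ⟨x, hx, rfl⟩
  have h3 : dist (Φ (g.f x, deriv g.f x)) (Φ (g'.f x, deriv g'.f x)) < ε := h2
  rw [Prod.dist_eq, max_lt_iff, Real.dist_eq, Real.dist_eq, abs_sub_comm,
    abs_sub_comm (Φ (g.f x, deriv g.f x)).2] at h3
  exact h3

/-- the derivative of the truncated potential inside `(0, L)` -/
theorem SEst_dt {L : ℝ} (g : SphMetric L) {r1 r2 K : ℝ} {χ : ℝ → ℝ} (hχ : Cut L r1 r2 χ)
    {x : ℝ} (hx0 : 0 < x) (hxL : x < L) :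
    g.dt χ K x = deriv χ x * (1 / g.f x ^ 2) - 2 * χ x * (deriv g.f x / g.f x ^ 3)
      - deriv χ x * K := by
  have hpos : g.f x ≠ 0 := (g.pos x hx0 hxL).ne'
  have dχ : HasDerivAt χ (deriv χ x) x :=
    ((hχ.smooth.differentiable (by simp)) x).hasDerivAt
  have df : HasDerivAt g.f (deriv g.f x) x :=
    ((g.smooth.differentiable (by simp)) x).hasDerivAt
  have h1 : HasDerivAt (fun y => 1 / g.f y ^ 2)
      (-(((2 : ℕ) : ℝ) * g.f x ^ (2 - 1) * deriv g.f x) / (g.f x ^ 2) ^ 2) x := by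
    have h0 : HasDerivAt (fun y => g.f y ^ 2) (((2 : ℕ) : ℝ) * g.f x ^ (2 - 1) * deriv g.f x) x :=
      df.pow 2
    have h9 : HasDerivAt (fun y => (g.f y ^ 2)⁻¹)
        (-(((2 : ℕ) : ℝ) * g.f x ^ (2 - 1) * deriv g.f x) / (g.f x ^ 2) ^ 2) x :=
      h0.inv (pow_ne_zero 2 hpos)
    simpa only [one_div] using h9
  have h2 := (dχ.mul h1).add (((hasDerivAt_const x (1 : ℝ)).sub dχ).mul_const K)
  have h3 : g.dt χ K x = _ := h2.deriv
  rw [h3]
  field_simp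
  ring

theorem SEst_off {L : ℝ} (g : SphMetric L) {r1 r2 K : ℝ} {χ : ℝ → ℝ} (hχ : Cut L r1 r2 χ)
    {x : ℝ} (hx : x ∉ Icc (r1 / 2) ((r2 + L) / 2)) : g.ht χ K x = K ∧ g.dt χ K x = 0 := by
  have hev : ∀ᶠ y in 𝓝 x, g.ht χ K y = K := by
    have hopen : IsOpen (Icc (r1 / 2) ((r2 + L) / 2))ᶜ := isClosed_Icc.isOpen_compl
    filter_upwards [hopen.mem_nhds hx] with y hy
    have hz : χ y = 0 := by
      by_cases h : y ≤ r1 / 2
      · exact hχ.zero_left y h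
      · refine hχ.zero_right y ?_
        by_contra h'
        exact hy ⟨(not_le.1 h).le, (not_le.1 h').le⟩
    simp [SphMetric.ht, hz]
  refine ⟨hev.self_of_nhds, ?_⟩
  have : g.ht χ K =ᶠ[𝓝 x] fun _ => K := hev
  show deriv (g.ht χ K) x = 0
  rw [this.deriv_eq]
  simp

theorem sest {L : ℝ} (g : SphMetric L) {r1 r2 K : ℝ} {χ : ℝ → ℝ} (hχ : Cut L r1 r2 χ) (ε : ℝ)
    (hε : 0 < ε) : ∃ δ > 0, ∀ g' : SphMetric L, CkCloseS 1 δ g g' → ∀ x,
      |g'.ht χ K x - g.ht χ K x| ≤ ε ∧ |g'.dt χ K x - g.dt χ K x| ≤ ε := by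
  have hJ : IsCompact (Icc (r1 / 2) ((r2 + L) / 2)) := isCompact_Icc
  have hJL : ∀ x ∈ Icc (r1 / 2) ((r2 + L) / 2), 0 < x ∧ x < L := by
    intro x hx
    have a1 := hχ.h1; have a2 := hχ.h2
    constructor
    · linarith [hx.1]
    · linarith [hx.2]
  have hdχ : Continuous (deriv χ) := (contDiff_infty_iff_deriv.1 hχ.smooth).2.continuous
  obtain ⟨B, hB⟩ := hJ.exists_bound_of_continuousOn (f := deriv χ) hdχ.continuousOn
  have hB0 : 0 ≤ |B| := abs_nonneg B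
  obtain ⟨δ, hδ, h⟩ := SEst_unif g hJ hJL (ε / (|B| + 2)) (by positivity)
  refine ⟨δ, hδ, ?_⟩
  intro g' hg' x
  by_cases hx : x ∈ Icc (r1 / 2) ((r2 + L) / 2)
  · obtain ⟨e1, e2⟩ := h g' hg' x hx
    have hbx := hB x hx
    rw [Real.norm_eq_abs] at hbx
    have hbx' : |deriv χ x| ≤ |B| := hbx.trans (le_abs_self B)
    have c0 := hχ.nonneg x
    have c1 := hχ.le_one x
    set ε' := ε / (|B| + 2) with hε'
    have hε'pos : 0 < ε' := by positivity
    have hmul : (|B| + 2) * ε' = ε := by rw [hε']; field_simp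
    have e1' : |χ x * (1 / g'.f x ^ 2 - 1 / g.f x ^ 2)| ≤ ε' := by
      rw [abs_mul, abs_of_nonneg c0]
      calc χ x * |1 / g'.f x ^ 2 - 1 / g.f x ^ 2| ≤ 1 * ε' :=
            mul_le_mul c1 e1.le (abs_nonneg _) zero_le_one
        _ = ε' := one_mul _
    have e2' : |deriv χ x * (1 / g'.f x ^ 2 - 1 / g.f x ^ 2)| ≤ |B| * ε' := by
      rw [abs_mul]
      exact mul_le_mul hbx' e1.le (abs_nonneg _) hB0
    have e3' : |χ x * (deriv g'.f x / g'.f x ^ 3 - deriv g.f x / g.f x ^ 3)| ≤ ε' := by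
      rw [abs_mul, abs_of_nonneg c0]
      calc χ x * |deriv g'.f x / g'.f x ^ 3 - deriv g.f x / g.f x ^ 3| ≤ 1 * ε' :=
            mul_le_mul c1 e2.le (abs_nonneg _) zero_le_one
        _ = ε' := one_mul _
    constructor
    · have : g'.ht χ K x - g.ht χ K x = χ x * (1 / g'.f x ^ 2 - 1 / g.f x ^ 2) := by
        simp only [SphMetric.ht]; ring
      rw [this]
      nlinarith [mul_nonneg hB0 hε'pos.le]
    · have : g'.dt χ K x - g.dt χ K x = deriv χ x * (1 / g'.f x ^ 2 - 1 / g.f x ^ 2) +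
          -(2 * (χ x * (deriv g'.f x / g'.f x ^ 3 - deriv g.f x / g.f x ^ 3))) := by
        rw [SEst_dt g' hχ (hJL x hx).1 (hJL x hx).2, SEst_dt g hχ (hJL x hx).1 (hJL x hx).2]
        ring
      rw [this]
      refine (abs_add_le _ _).trans ?_
      rw [abs_neg]
      have h7 : |2 * (χ x * (deriv g'.f x / g'.f x ^ 3 - deriv g.f x / g.f x ^ 3))| =
          2 * |χ x * (deriv g'.f x / g'.f x ^ 3 - deriv g.f x / g.f x ^ 3)| := by
        rw [abs_mul, abs_two]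
      rw [h7]
      linarith
  · obtain ⟨p1, p2⟩ := SEst_off g (K := K) hχ hx
    obtain ⟨q1, q2⟩ := SEst_off g' (K := K) hχ hx
    rw [p1, p2, q1, q2]
    simp [hε.le]

theorem sbar {L : ℝ} (g : SphMetric L) {r1 r2 E η : ℝ} (hE : 0 < E) (hη : 0 < η)
    (h : ∀ r, 0 < r → r < L → r ∉ Ioo r1 r2 → E + η ≤ 1 / g.f r ^ 2) :
    ∃ δ > 0, ∀ g' : SphMetric L, CkCloseS 1 δ g g' →
      ∀ r, 0 < r → r < L → r ∉ Ioo r1 r2 → E + η / 2 ≤ 1 / g'.f r ^ 2 := by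
  have hA : √(1 / (E + η)) < √(1 / (E + η / 2)) := by
    apply Real.sqrt_lt_sqrt (by positivity)
    exact one_div_lt_one_div_of_lt (by positivity) (by linarith)
  refine ⟨√(1 / (E + η / 2)) - √(1 / (E + η)), by linarith, ?_⟩
  intro g' hg' r hr0 hrL hr
  have h0 := hg' 0 (by norm_num) r
  rw [iteratedDeriv_zero, iteratedDeriv_zero] at h0
  have hf : 0 < g.f r := g.pos r hr0 hrL
  have hf' : 0 < g'.f r := g'.pos r hr0 hrL
  have h1 := h r hr0 hrL hr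
  have h2 : g.f r ^ 2 ≤ 1 / (E + η) := by
    rw [le_div_iff₀ (by positivity)]
    rw [le_div_iff₀ (by positivity)] at h1
    linarith
  have h3 : g.f r ≤ √(1 / (E + η)) := Real.le_sqrt_of_sq_le h2
  have h4 : g'.f r < √(1 / (E + η / 2)) := by
    have := (abs_lt.1 h0).2
    linarith
  have h5 : g'.f r ^ 2 ≤ 1 / (E + η / 2) := by
    have h6 : (√(1 / (E + η / 2))) ^ 2 = 1 / (E + η / 2) := Real.sq_sqrt (by positivity)
    rw [← h6]
    gcongr
  rw [le_div_iff₀ (by positivity)]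
  rw [le_div_iff₀ (by positivity)] at h5
  linarith

theorem sup_est {L : ℝ} (g : SphMetric L) {r1 r2 : ℝ} (h1 : 0 < r1) (h2 : r2 < L) (ε : ℝ)
    (hε : 0 < ε) : ∃ δ > 0, ∀ g' : SphMetric L, CkCloseS 1 δ g g' →
      ∀ x ∈ Icc r1 r2, |1 / g'.f x ^ 2 - 1 / g.f x ^ 2| ≤ ε := by
  obtain ⟨δ, hδ, h⟩ := SEst_unif g (J := Icc r1 r2) isCompact_Icc
    (fun x hx => ⟨h1.trans_le hx.1, hx.2.trans_lt h2⟩) ε hε
  exact ⟨δ, hδ, fun g' hg' x hx => (h g' hg' x hx).1.le⟩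

end Pool.Agent.CGD
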