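import Pool.Agent.CGD.STrapDyn
import Pool.Agent.CGD.LocCut

set_option autoImplicit false

/-! Module STrapCon: profiles with non-dense closed geodesics are `C²`-dense.

Let `r0` be a maximum point of `f` on `[0, L]`; `f(0) = f(L) = 0`, `f > 0` inside, so `0 < r0 < L`, `f'(r0) = 0`, `f''(r0) ≤ 0` (as in TrapCon), `f0 = f(r0) > 0`.  `G(x) = f0 cos(ω(x - r0)) - f(x)`: `G(r0) = G'(r0) = 0`,
`G''(r0) = -ω² f0 - f''(r0)`.  Choose `ω > 0` with `|G''(r0)| ≤ ε'` and `ω f0` irrational; `loc_cut` gives `r, F0`, supported in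
`|x - r0| < 2r < ρ0`.  `F1` is the `2L`-periodic extension of `F0`, `F2(x) = F1(x) - F1(-x)`.
New profile: `f + F2`; apply `strap`. -/

namespace Pool.Agent.CGD

open Set Filter Topology
open scoped ContDiff

/-- periodic extension (period `P`) of a smooth function supported in `(x0 - P/2, x0 + P/2)` -/
private theorem STrapCon_extend {F0 : ℝ → ℝ} (hF : ContDiff ℝ ∞ F0) {x0 r P : ℝ} (hP : 0 < P)
    (hr : 0 < r) (hr' : r < P / 2) (hsupp : ∀ x, r ≤ |x - x0| → F0 x = 0) :
    ∃ F : ℝ → ℝ, ContDiff ℝ ∞ F ∧ (∀ x, F (x + P) = F x) ∧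
      (∀ x, |x - x0| < P - r → F x = F0 x) ∧
      ∀ j x, ∃ x', iteratedDeriv j F x = iteratedDeriv j F0 x' := by
  let F : ℝ → ℝ := fun x => F0 (x - P * (⌊(x - x0) / P + 1 / 2⌋ : ℤ))
  have fl1 : ∀ x : ℝ, P * ((⌊(x - x0) / P + 1 / 2⌋ : ℤ) : ℝ) ≤ x - x0 + P / 2 := by
    intro x
    have h := Int.floor_le ((x - x0) / P + 1 / 2)
    have h2 := mul_le_mul_of_nonneg_left h hP.le
    have e : P * ((x - x0) / P + 1 / 2) = x - x0 + P / 2 := by field_simp
    rw [e] at h2
    exact h2
  have fl2 : ∀ x : ℝ, x - x0 + P / 2 < P * ((⌊(x - x0) / P + 1 / 2⌋ : ℤ) : ℝ) + P := by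
    intro x
    have h := Int.lt_floor_add_one ((x - x0) / P + 1 / 2)
    have h2 := mul_lt_mul_of_pos_left h hP
    have e : P * ((x - x0) / P + 1 / 2) = x - x0 + P / 2 := by field_simp
    rw [e] at h2
    linarith
  have key : ∀ (k : ℤ) (y : ℝ), |y - x0 - P * k| < P - r → F y = F0 (y - P * k) := by
    intro k y hy
    show F0 (y - P * (⌊(y - x0) / P + 1 / 2⌋ : ℤ)) = F0 (y - P * k)
    by_cases hmk : (⌊(y - x0) / P + 1 / 2⌋ : ℤ) = k
    · rw [hmk]
    · have h1 := fl1 y
      have h2 := fl2 y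
      generalize (⌊(y - x0) / P + 1 / 2⌋ : ℤ) = m at hmk h1 h2
      have h3 : (1 : ℝ) ≤ |(m : ℝ) - k| := by
        have h4 : (1 : ℤ) ≤ |m - k| := Int.one_le_abs (sub_ne_zero.2 hmk)
        have h5 : ((1 : ℤ) : ℝ) ≤ ((|m - k| : ℤ) : ℝ) := by exact_mod_cast h4
        rw [Int.cast_abs] at h5
        simpa using h5
      have h6 : |y - x0 - P * m| ≤ P / 2 := by
        rw [abs_le]
        constructor <;> linarith
      have e1 : P ≤ |y - x0 - P * k| + |y - x0 - P * m| := by
        have e0 : P * ((m : ℝ) - k) = (y - x0 - P * k) - (y - x0 - P * m) := by ring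
        have e4 : |P * ((m : ℝ) - k)| ≤ |y - x0 - P * k| + |y - x0 - P * m| := by
          rw [e0]
          exact abs_sub _ _
        rw [abs_mul, abs_of_pos hP] at e4
        nlinarith
      have e2 : r ≤ |y - P * m - x0| := by
        have : y - P * m - x0 = y - x0 - P * m := by ring
        rw [this]
        linarith
      have e3 : r ≤ |y - P * k - x0| := by
        have : y - P * k - x0 = y - x0 - P * k := by ring
        rw [this]
        linarith
      rw [hsupp _ e2, hsupp _ e3]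
  have near : ∀ x : ℝ, F =ᶠ[𝓝 x] fun y => F0 (y - P * (⌊(x - x0) / P + 1 / 2⌋ : ℤ)) := by
    intro x
    have h1 := fl1 x
    have h2 := fl2 x
    generalize (⌊(x - x0) / P + 1 / 2⌋ : ℤ) = m at h1 h2
    have h6 : |x - x0 - P * m| < P - r := by
      rw [abs_lt]
      constructor <;> linarith
    have hopen : IsOpen {y : ℝ | |y - x0 - P * m| < P - r} :=
      isOpen_lt (by fun_prop) continuous_const
    filter_upwards [hopen.mem_nhds h6] with y hy
    exact key m y hy
  refine ⟨F, ?_, ?_, ?_, ?_⟩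
  · rw [contDiff_iff_contDiffAt]
    intro x
    refine ContDiffAt.congr_of_eventuallyEq ?_ (near x)
    exact (hF.comp (contDiff_id.sub contDiff_const)).contDiffAt
  · intro x
    show F0 (x + P - P * (⌊(x + P - x0) / P + 1 / 2⌋ : ℤ)) =
      F0 (x - P * (⌊(x - x0) / P + 1 / 2⌋ : ℤ))
    have : (x + P - x0) / P + 1 / 2 = ((x - x0) / P + 1 / 2) + 1 := by
      field_simp
      ring
    rw [this, Int.floor_add_one]
    congr 1
    push_cast
    ring
  · intro x hx
    have := key 0 x (by simpa using hx)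
    simpa using this
  · intro j x
    refine ⟨x - P * (⌊(x - x0) / P + 1 / 2⌋ : ℤ), ?_⟩
    rw [(near x).iteratedDeriv_eq j]
    rw [iteratedDeriv_comp_sub_const]

/-- odd extension of a smooth function supported inside `(0, L)` -/
private theorem STrapCon_odd {F0 : ℝ → ℝ} (hF : ContDiff ℝ ∞ F0) {L r0 s ε1 : ℝ}
    (hs : 0 < s) (hs1 : s < r0) (hs2 : r0 + s < L)
    (hsupp : ∀ x, s ≤ |x - r0| → F0 x = 0) (hsm : ∀ j ≤ 2, ∀ x, |iteratedDeriv j F0 x| < ε1) :
    ∃ F : ℝ → ℝ, ContDiff ℝ ∞ F ∧ (∀ x, F (-x) = -F x) ∧ (∀ x, F (L + x) = -F (L - x)) ∧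
      (∀ x ∈ Icc 0 L, F x = F0 x) ∧ F =ᶠ[𝓝 0] (fun _ => 0) ∧ F =ᶠ[𝓝 L] (fun _ => 0) ∧
      ∀ j ≤ 2, ∀ x, |iteratedDeriv j F x| < 2 * ε1 := by
  have hL : 0 < L := by linarith
  obtain ⟨F1, h1s, h1p, h1e, h1d⟩ := STrapCon_extend hF (x0 := r0) (r := s) (P := 2 * L)
    (by positivity) hs (by linarith) hsupp
  have hU : ∀ x, |x| < 2 * L - s - r0 → F1 x - F1 (-x) = F0 x - F0 (-x) := by
    intro x hx
    rw [h1e x, h1e (-x)]
    · rw [abs_lt] at hx ⊢
      constructor <;> linarith [hx.1, hx.2]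
    · rw [abs_lt] at hx ⊢
      constructor <;> linarith [hx.1, hx.2]
  have hneg : ContDiff ℝ ∞ (fun x => F1 (-x)) := h1s.comp contDiff_neg
  refine ⟨fun x => F1 x - F1 (-x), h1s.sub hneg, ?_, ?_, ?_, ?_, ?_, ?_⟩
  · intro x
    simp only [neg_neg]
    ring
  · intro x
    have e1 : F1 (-(L + x)) = F1 (L - x) := by
      rw [← h1p (-(L + x))]
      congr 1
      ring
    have e2 : F1 (-(L - x)) = F1 (L + x) := by
      rw [← h1p (-(L - x))]
      congr 1
      ring
    simp only [e1, e2]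
    ring
  · intro x hx
    have h1 : |x| < 2 * L - s - r0 := by
      rw [abs_of_nonneg hx.1]
      linarith [hx.2]
    have h2 : F0 (-x) = 0 := hsupp _ (by
      rw [abs_of_neg (by linarith [hx.1])]
      linarith [hx.1])
    show F1 x - F1 (-x) = F0 x
    rw [hU x h1, h2, sub_zero]
  · have hopen : IsOpen {y : ℝ | |y| < r0 - s} := isOpen_lt (by fun_prop) continuous_const
    have hm : (0 : ℝ) ∈ {y : ℝ | |y| < r0 - s} := by
      show |(0 : ℝ)| < r0 - s
      rw [abs_zero]
      linarith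
    filter_upwards [hopen.mem_nhds hm] with y hy
    have hy' : |y| < r0 - s := hy
    have h1 : |y| < 2 * L - s - r0 := by linarith
    rw [hU y h1]
    rw [abs_lt] at hy'
    rw [hsupp y (by rw [abs_of_neg (by linarith [hy'.2])]; linarith [hy'.2]),
      hsupp (-y) (by rw [abs_of_neg (by linarith [hy'.1])]; linarith [hy'.1]), sub_zero]
  · have hopen : IsOpen {y : ℝ | r0 + s < y ∧ y < 2 * L - s - r0} :=
      (isOpen_lt continuous_const continuous_id).inter (isOpen_lt continuous_id continuous_const)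
    have hm : L ∈ {y : ℝ | r0 + s < y ∧ y < 2 * L - s - r0} := ⟨hs2, by linarith⟩
    filter_upwards [hopen.mem_nhds hm] with y hy
    have h1 : |y| < 2 * L - s - r0 := by
      rw [abs_of_pos (by linarith [hy.1])]
      exact hy.2
    rw [hU y h1]
    rw [hsupp y (by rw [abs_of_pos (by linarith [hy.1])]; linarith [hy.1]),
      hsupp (-y) (by rw [abs_of_neg (by linarith [hy.1])]; linarith [hy.1]), sub_zero]
  · intro j hj x
    have hsm1 : ∀ {f : ℝ → ℝ}, ContDiff ℝ ∞ f → ContDiffAt ℝ j f x := fun hf =>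
      (hf.of_le (by exact_mod_cast le_top)).contDiffAt
    have e1 : iteratedDeriv j (fun x => F1 x - F1 (-x)) x =
        iteratedDeriv j F1 x - iteratedDeriv j (fun x => F1 (-x)) x :=
      iteratedDeriv_fun_sub (hsm1 h1s) (hsm1 hneg)
    rw [e1, iteratedDeriv_comp_neg]
    obtain ⟨y1, hy1⟩ := h1d j x
    obtain ⟨y2, hy2⟩ := h1d j (-x)
    rw [hy1, hy2]
    have b1 := hsm j hj y1
    have b2 := hsm j hj y2
    have b3 : |(-1 : ℝ) ^ j • iteratedDeriv j F0 y2| = |iteratedDeriv j F0 y2| := by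
      rw [smul_eq_mul, abs_mul, abs_pow, abs_neg, abs_one, one_pow, one_mul]
    have b4 := abs_sub (iteratedDeriv j F0 y1) ((-1 : ℝ) ^ j • iteratedDeriv j F0 y2)
    rw [b3] at b4
    linarith

/-- second derivative at a local maximum -/
private lemma STrapCon_second {c : ℝ → ℝ} (hc : ContDiff ℝ ∞ c) {x0 : ℝ} (hmax : IsLocalMax c x0) :
    deriv c x0 = 0 ∧ deriv (deriv c) x0 ≤ 0 := by
  have h1 : deriv c x0 = 0 := hmax.deriv_eq_zero
  refine ⟨h1, ?_⟩
  by_contra hcon
  push Not at hcon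
  have hmin : IsLocalMin c x0 :=
    isLocalMin_of_deriv_deriv_pos hcon h1 hc.continuous.continuousAt
  have heq : c =ᶠ[𝓝 x0] fun _ => c x0 := by
    filter_upwards [hmin, hmax] with x hx hx'
    exact le_antisymm hx' hx
  have h2 : deriv c =ᶠ[𝓝 x0] deriv fun _ => c x0 := heq.deriv
  have h3 : deriv (deriv c) x0 = deriv (deriv fun _ => c x0) x0 := h2.deriv_eq
  rw [h3] at hcon
  simp at hcon

/-- choice of the frequency -/
private lemma STrapCon_omega {A c0 ε' : ℝ} (hA : 0 ≤ A) (hc0 : 0 < c0)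
    (hε : 0 < ε') : ∃ om > 0, |A - c0 * om ^ 2| ≤ ε' ∧ ∀ m n : ℤ, n ≠ 0 → om * c0 * n ≠ m := by
  let φ : ℝ → ℝ := fun s => |A - c0 * (s / c0) ^ 2|
  have hφ : Continuous φ := by
    apply Continuous.abs
    fun_prop
  set s0 : ℝ := √(A / c0) * c0 with hs0
  have hs0' : 0 ≤ s0 := by positivity
  have h0 : φ s0 = 0 := by
    simp only [φ]
    have h1 : s0 / c0 = √(A / c0) := by
      rw [hs0]
      field_simp
    rw [h1, Real.sq_sqrt (by positivity)]
    have h2 : c0 * (A / c0) = A := by field_simp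
    rw [h2, sub_self, abs_zero]
  have hU : IsOpen {s | φ s < ε'} := isOpen_lt hφ continuous_const
  have hmem : s0 ∈ {s | φ s < ε'} := by
    show φ s0 < ε'
    rw [h0]
    exact hε
  obtain ⟨δ, hδ, hball⟩ := Metric.isOpen_iff.mp hU s0 hmem
  have hU2 : IsOpen ({s | φ s < ε'} ∩ Ioi (0:ℝ)) := hU.inter isOpen_Ioi
  have hne : ({s | φ s < ε'} ∩ Ioi (0:ℝ)).Nonempty := by
    refine ⟨s0 + δ / 2, hball ?_, ?_⟩
    · rw [Metric.mem_ball, Real.dist_eq]
      rw [add_sub_cancel_left, abs_of_pos (by positivity)]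
      linarith
    · show 0 < s0 + δ / 2
      positivity
  obtain ⟨s, ⟨hs1, hs2⟩, hs3⟩ := dense_irrational.inter_open_nonempty _ hU2 hne
  have hs2' : 0 < s := hs2
  refine ⟨s / c0, by positivity, le_of_lt hs1, ?_⟩
  intro m n hn heq
  have h1 : s / c0 * c0 = s := by field_simp
  rw [h1] at heq
  have hn' : (n : ℝ) ≠ 0 := by exact_mod_cast hn
  have h4 : s = (m : ℝ) / n := by
    rw [eq_div_iff hn']
    exact heq
  apply hs3
  refine ⟨(m : ℚ) / n, ?_⟩
  rw [h4]
  push_cast
  rfl

theorem s_c2_nondense {L : ℝ} (hL : 0 < L) (g : SphMetric L) (ε : ℝ) (hε : 0 < ε) :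
    ∃ g' : SphMetric L, CkCloseS 2 ε g g' ∧ ¬ DenseS g' := by
  have hcont : Continuous g.f := g.smooth.continuous
  have hf00 : g.f 0 = 0 := by
    have := g.odd0 0
    rw [neg_zero] at this
    linarith
  have hfL : g.f L = 0 := by
    have := g.oddL 0
    rw [add_zero, sub_zero] at this
    linarith
  obtain ⟨r0, hr0m, hr0max⟩ := isCompact_Icc.exists_isMaxOn (s := Icc (0:ℝ) L)
    ⟨0, left_mem_Icc.2 hL.le⟩ hcont.continuousOn
  set f0 := g.f r0 with hf0
  have hf0p : 0 < f0 := by
    have h1 : g.f (L / 2) ≤ g.f r0 := hr0max ⟨by positivity, by linarith⟩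
    have h2 := g.pos (L / 2) (by positivity) (by linarith)
    linarith
  have hr00 : 0 < r0 := by
    rcases hr0m.1.lt_or_eq with h | h
    · exact h
    · exfalso
      rw [← h] at hf0
      rw [hf0, hf00] at hf0p
      exact lt_irrefl _ hf0p
  have hr0L : r0 < L := by
    rcases hr0m.2.lt_or_eq with h | h
    · exact h
    · exfalso
      rw [h] at hf0
      rw [hf0, hfL] at hf0p
      exact lt_irrefl _ hf0p
  have hloc : IsLocalMax g.f r0 := hr0max.isLocalMax (Icc_mem_nhds hr00 hr0L)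
  obtain ⟨hd1, hd2⟩ := STrapCon_second g.smooth hloc
  -- minimum on the middle interval
  have hmid : (Icc (r0 / 2) ((r0 + L) / 2)).Nonempty := ⟨r0, by constructor <;> linarith⟩
  obtain ⟨xm, hxm, hxmin⟩ := isCompact_Icc.exists_isMinOn hmid hcont.continuousOn
  set m := g.f xm with hm
  have hmpos : 0 < m := g.pos xm (by linarith [hxm.1]) (by linarith [hxm.2])
  set ε1 := min (ε / 4) (m / 2) with hε1
  have hε1p : 0 < ε1 := lt_min (by positivity) (by positivity)
  have hε1a : ε1 ≤ ε / 4 := min_le_left _ _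
  have hε1b : ε1 ≤ m / 2 := min_le_right _ _
  obtain ⟨ε', hε', hcut⟩ := loc_cut ε1 hε1p
  obtain ⟨om, hom, homε, hirr⟩ := STrapCon_omega (A := -deriv (deriv g.f) r0) (c0 := f0)
    (by linarith) hf0p hε'
  let G : ℝ → ℝ := fun x => f0 * Real.cos (om * (x - r0)) - g.f x
  have hGs : ContDiff ℝ ∞ G := by
    refine ContDiff.sub ?_ g.smooth
    exact contDiff_const.mul (Real.contDiff_cos.comp (contDiff_const.mul
      (contDiff_id.sub contDiff_const)))
  have hG0 : G r0 = 0 := by
    simp only [G]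
    rw [sub_self, mul_zero, Real.cos_zero]
    simp [hf0]
  have hfd : ∀ x, HasDerivAt g.f (deriv g.f x) x := fun x =>
    (g.smooth.differentiable (by simp)).differentiableAt.hasDerivAt
  have hlin : ∀ x, HasDerivAt (fun y => om * (y - r0)) om x := by
    intro x
    simpa using ((hasDerivAt_id x).sub_const r0).const_mul om
  have hG1 : ∀ x, HasDerivAt G (-(f0 * om) * Real.sin (om * (x - r0)) - deriv g.f x) x := by
    intro x
    have h2 := ((hlin x).cos.const_mul f0).sub (hfd x)
    refine h2.congr_deriv ?_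
    ring
  have hG1d : deriv G = fun x => -(f0 * om) * Real.sin (om * (x - r0)) - deriv g.f x :=
    funext fun x => (hG1 x).deriv
  have hG1' : deriv G r0 = 0 := by
    rw [hG1d]
    simp only
    rw [sub_self, mul_zero, Real.sin_zero, hd1]
    ring
  have hfdd : HasDerivAt (deriv g.f) (deriv (deriv g.f) r0) r0 := by
    have h1 : ContDiff ℝ ∞ (deriv g.f) := (contDiff_infty_iff_deriv.mp g.smooth).2
    exact (h1.differentiable (by simp)).differentiableAt.hasDerivAt
  have hG2 : deriv (deriv G) r0 = -(f0 * om ^ 2) - deriv (deriv g.f) r0 := by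
    rw [hG1d]
    have h2 := (((hlin r0).sin.const_mul (-(f0 * om))).fun_sub hfdd).deriv
    rw [h2]
    simp only [sub_self, mul_zero, Real.cos_zero]
    ring
  have hG2' : |deriv (deriv G) r0| ≤ ε' := by
    rw [hG2]
    have : -(f0 * om ^ 2) - deriv (deriv g.f) r0 = -deriv (deriv g.f) r0 - f0 * om ^ 2 := by ring
    rw [this]
    exact homε
  obtain ⟨r, hr, hrρ, F0, hF0s, hF0z, hF0G, hF0sm⟩ := hcut r0 G hGs hG0 hG1' hG2'
    (min (r0 / 2) ((L - r0) / 2)) (lt_min (by linarith) (by linarith))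
  have hr1 : 2 * r < r0 / 2 := hrρ.trans_le (min_le_left _ _)
  have hr2 : 2 * r < (L - r0) / 2 := hrρ.trans_le (min_le_right _ _)
  obtain ⟨F, hFs, hFo, hFL, hFe, hF0', hFL', hFsm⟩ := STrapCon_odd hF0s (L := L) (r0 := r0)
    (s := 2 * r) (ε1 := ε1) (by linarith) (by linarith) (by linarith) hF0z hF0sm
  let g' : SphMetric L :=
    { f := fun x => g.f x + F x
      smooth := g.smooth.add hFs
      odd0 := fun x => by simp only [g.odd0 x, hFo x]; ring
      oddL := fun x => by simp only [g.oddL x, hFL x]; ring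
      pos := fun x hx0 hxL => by
        show 0 < g.f x + F x
        rw [hFe x ⟨hx0.le, hxL.le⟩]
        by_cases hfar : 2 * r ≤ |x - r0|
        · rw [hF0z x hfar, add_zero]
          exact g.pos x hx0 hxL
        · push Not at hfar
          have hx : x ∈ Icc (r0 / 2) ((r0 + L) / 2) := by
            rw [abs_lt] at hfar
            constructor <;> linarith [hfar.1, hfar.2]
          have h1 : m ≤ g.f x := hxmin hx
          have h2 := hF0sm 0 (by norm_num) x
          rw [iteratedDeriv_zero] at h2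
          have h3 := (abs_lt.mp h2).1
          linarith
      slope0 := by
        have h1 : deriv (fun x => g.f x + F x) 0 = deriv g.f 0 + deriv F 0 :=
          ((hfd 0).add ((hFs.differentiable (by simp)).differentiableAt (x := 0)).hasDerivAt).deriv
        rw [h1, g.slope0, hF0'.deriv_eq]
        simp
      slopeL := by
        have h1 : deriv (fun x => g.f x + F x) L = deriv g.f L + deriv F L :=
          ((hfd L).add ((hFs.differentiable (by simp)).differentiableAt (x := L)).hasDerivAt).deriv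
        rw [h1, g.slopeL, hFL'.deriv_eq]
        simp }
  refine ⟨g', ?_, ?_⟩
  · intro j hj x
    have hsm : ∀ {f : ℝ → ℝ}, ContDiff ℝ ∞ f → ContDiffAt ℝ j f x := fun hf =>
      (hf.of_le (by exact_mod_cast le_top)).contDiffAt
    have e1 : iteratedDeriv j g'.f x = iteratedDeriv j g.f x + iteratedDeriv j F x :=
      iteratedDeriv_fun_add (hsm g.smooth) (hsm hFs)
    rw [e1, add_sub_cancel_left]
    have := hFsm j hj x
    linarith
  · refine strap g' (r0 := r0) (ρ := r) (f0 := f0) hr (by linarith) (by linarith) hf0p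
      hom ?_ hirr
    intro x hx
    show g.f x + F x = _
    rw [hFe x ⟨by linarith [hx.1], by linarith [hx.2]⟩, hF0G x hx]
    simp only [G]
    ring

end Pool.Agent.CGD
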