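import Pool.Agent.CGD.SMain
import Pool.Agent.CGD.STrapCon

set_option autoImplicit false

namespace Pool.Agent.CGD

open Set Filter Topology

/-- the sphere theorem -/
theorem sphere_final (L : ℝ) (hL : 0 < L) :
    ({g : SphMetric L | DenseS g} ∈ residual (SphMetric L)) ∧
    (∃ S : ℕ → Set (SphMetric L),
      (∀ n, ∀ g ∈ S n, ∃ ε > 0, ∀ g', CkCloseS 1 ε g g' → g' ∈ S n) ∧
      (∀ n, ∀ g : SphMetric L, ∀ k : ℕ, ∀ ε > 0, ∃ g' ∈ S n, CkCloseS k ε g g') ∧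
      ∀ g, (∀ n, g ∈ S n) → DenseS g) ∧
    (∀ g : SphMetric L, ∃ N : Set ℝ, N.Countable ∧ ∀ t ∉ N, ∀ g' : SphMetric L,
      (∀ x, 0 < 1 + t * g.f x ^ 2) →
      (∀ x, g'.f x = g.f x / √(1 + t * g.f x ^ 2)) → DenseS g') ∧
    (∀ (g : SphMetric L) (k : ℕ) (ε : ℝ), 0 < ε →
      ∃ g' : SphMetric L, CkCloseS k ε g g' ∧ DenseS g') ∧
    (∀ (g : SphMetric L) (ε : ℝ), 0 < ε →
      ∃ g' : SphMetric L, CkCloseS 2 ε g g' ∧ ¬ DenseS g') :=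
  ⟨s_generic hL, s_generic_explicit hL, s_all_but_countable hL, s_dense_close hL, s_c2_nondense hL⟩

end Pool.Agent.CGD
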