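import Pool.Agent.CGD.SBase
import Pool.Agent.CGD.Flow

set_option autoImplicit false

/-! Module SLift: closed orbits of the truncated system give closed geodesics; density transfer.

`slift`: let `z = (p, u/κ)`, `κ = f(p)² v ≠ 0`, `X, U` the coordinates of `fl dt z`.  Energy: `U² + ht(X) = z.2² + 1/f(p)² ≤ E < E + η ≤ ht` outside `(r1,r2)` (`ht_large`, `ht_eq` at `p ∈ Icc r1 r2`), so `X` never takes the values
`r1, r2` and `p ∈ (r1, r2)`, so `X t ∈ (r1, r2)` for all `t` (intermediate value theorem).  Put `r t = X(κ t)`, `θ t = q + ∫₀^{κ t} ht(X) ds`.  Then `r' = κ U(κt)`, `r'' = κ² (-dt(X)/2) = κ² f'/f³`, `θ' = κ ht(X) = κ/f²`, so `f f' θ'² = κ² f'/f³`, and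
`f² θ' = κ` constant.  `C²`: `r'` has the continuous derivative `κ² f'(r)/f(r)³`, `θ' = κ/f(r)²` is `C¹`.  Initial vector: `r'(0) = κ u/κ = u`, `θ'(0) = κ/f(p)² = v`.  Closed at `T = P/|κ|`: `κ T = ± P`; `fl dt z (±P) = z` (periodicity; `fl_add`) and
`∫₀^{±P} = ± 2π q`.
`dense_of_planarS`: as in module DensF: `w = ((p,q),(u,v))` with `0 < p < L`; given an open neighbourhood of `w`, change `v` so that `κ ≠ 0`; the map `(p', ζ) ↦ ((p',q),(κζ, κ/f(p')²))` is continuous near `(p, u/κ)`, so the preimage of the neighbourhood contains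
a nonempty open `V ⊆ (0,L) × ℝ`; the hypothesis gives a closed point in it. -/

namespace Pool.Agent.CGD

open Set Filter Topology

theorem slift {L : ℝ} (g : SphMetric L) {r1 r2 K E η : ℝ} {χ : ℝ → ℝ} (hχ : Cut L r1 r2 χ)
    (hη : 0 < η) (hK : E + η ≤ K)
    (hbig : ∀ r, 0 < r → r < L → r ∉ Ioo r1 r2 → E + η ≤ 1 / g.f r ^ 2)
    {p q u v P : ℝ} (hp : p ∈ Icc r1 r2) (hκ : g.f p ^ 2 * v ≠ 0)
    (hE : (u / (g.f p ^ 2 * v)) ^ 2 + 1 / g.f p ^ 2 ≤ E) (hP : 0 < P)
    (hfl : fl (g.dt χ K) (p, u / (g.f p ^ 2 * v)) P = (p, u / (g.f p ^ 2 * v))) {n : ℤ}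
    (hY : Yw (g.dt χ K) (g.ht χ K) (p, u / (g.f p ^ 2 * v)) P = n * (2 * Real.pi)) :
    ClosedVecS g p q u v := by
  have hd : Nice (g.dt χ K) := dt_nice g hχ
  have hdc : Continuous (g.dt χ K) := by
    obtain ⟨C, hC⟩ := hd.lip
    exact hC.continuous
  have hwd : ∀ x, HasDerivAt (g.ht χ K) (g.dt χ K x) x := ht_deriv g hχ
  have hwc : Continuous (g.ht χ K) := by
    rw [continuous_iff_continuousAt]
    exact fun x => (hwd x).continuousAt
  set κ := g.f p ^ 2 * v with hκdef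
  set z : ℝ × ℝ := (p, u / κ) with hz
  have hp0 : 0 < p := lt_of_lt_of_le hχ.h1 hp.1
  have hpL : p < L := lt_of_le_of_lt hp.2 hχ.h2
  have hv : v ≠ 0 := by
    rintro rfl
    apply hκ
    rw [hκdef, mul_zero]
  have hfp : 0 < g.f p := g.pos p hp0 hpL
  -- the orbit stays in the strip
  have hX : ∀ t, (fl (g.dt χ K) z t).1 ∈ Ioo r1 r2 := by
    intro t
    by_contra hcon
    have h1 := energy hd hwd z t
    have h2 := ht_large g (K := K) hχ hK hbig hcon
    have h3 : g.ht χ K z.1 = 1 / g.f p ^ 2 := ht_eq g hχ hp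
    have h4 : z.2 ^ 2 + g.ht χ K z.1 ≤ E := by
      rw [h3]
      exact hE
    have h5 := sq_nonneg (fl (g.dt χ K) z t).2
    linarith
  have hX0 : ∀ t, 0 < (fl (g.dt χ K) z t).1 := fun t => hχ.h1.trans (hX t).1
  have hXL : ∀ t, (fl (g.dt χ K) z t).1 < L := fun t => (hX t).2.trans hχ.h2
  have hfX : ∀ t, 0 < g.f (fl (g.dt χ K) z t).1 := fun t => g.pos _ (hX0 t) (hXL t)
  have hlin : ∀ t : ℝ, HasDerivAt (fun s : ℝ => κ * s) κ t := by
    intro t
    simpa using (hasDerivAt_id t).const_mul κ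
  -- the curve
  let r : ℝ → ℝ := fun t => (fl (g.dt χ K) z (κ * t)).1
  let θ : ℝ → ℝ := fun t => q + Yw (g.dt χ K) (g.ht χ K) z (κ * t)
  have hr : ∀ t, HasDerivAt r ((fl (g.dt χ K) z (κ * t)).2 * κ) t := by
    intro t
    exact (hasDerivAt_X hd z (κ * t)).comp t (hlin t)
  have hθ : ∀ t, HasDerivAt θ (g.ht χ K (fl (g.dt χ K) z (κ * t)).1 * κ) t := by
    intro t
    exact ((hasDerivAt_Yw hd hwc z (κ * t)).comp t (hlin t)).const_add q
  have hdr : deriv r = fun t => (fl (g.dt χ K) z (κ * t)).2 * κ := funext fun t => (hr t).deriv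
  have hdθ : deriv θ = fun t => g.ht χ K (fl (g.dt χ K) z (κ * t)).1 * κ :=
    funext fun t => (hθ t).deriv
  have hr2 : ∀ t, HasDerivAt (deriv r)
      (-(g.dt χ K (fl (g.dt χ K) z (κ * t)).1) / 2 * κ * κ) t := by
    intro t
    rw [hdr]
    exact ((hasDerivAt_U hd z (κ * t)).comp t (hlin t)).mul_const κ
  have hθ2 : ∀ t, HasDerivAt (deriv θ)
      (g.dt χ K (fl (g.dt χ K) z (κ * t)).1 * ((fl (g.dt χ K) z (κ * t)).2 * κ) * κ) t := by
    intro t
    rw [hdθ]
    have h1 : HasDerivAt (fun s => g.ht χ K (r s))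
        (g.dt χ K (r t) * ((fl (g.dt χ K) z (κ * t)).2 * κ)) t := (hwd (r t)).comp t (hr t)
    exact h1.mul_const κ
  have hXc : Continuous fun t => (fl (g.dt χ K) z (κ * t)).1 := by
    rw [continuous_iff_continuousAt]
    exact fun t => (hr t).continuousAt
  have hUc0 : Continuous fun t => (fl (g.dt χ K) z t).2 := by
    rw [continuous_iff_continuousAt]
    exact fun t => (hasDerivAt_U hd z t).continuousAt
  have hUc : Continuous fun t => (fl (g.dt χ K) z (κ * t)).2 :=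
    hUc0.comp (continuous_const.mul continuous_id)
  have hC2 : ∀ F F1 F2 : ℝ → ℝ, (∀ t, HasDerivAt F (F1 t) t) → (∀ t, HasDerivAt (deriv F) (F2 t) t) →
      Continuous F2 → ContDiff ℝ 2 F := by
    intro F F1 F2 h1 h2 h3
    have e : (2 : WithTop ℕ∞) = 1 + 1 := by norm_num
    rw [e, contDiff_succ_iff_deriv]
    refine ⟨fun t => (h1 t).differentiableAt, by simp, ?_⟩
    rw [contDiff_one_iff_deriv]
    refine ⟨fun t => (h2 t).differentiableAt, ?_⟩
    have : deriv (deriv F) = F2 := funext fun t => (h2 t).deriv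
    rw [this]
    exact h3
  have hrC : ContDiff ℝ 2 r := by
    refine hC2 r _ _ hr hr2 ?_
    exact (((hdc.comp hXc).neg.div_const 2).mul continuous_const).mul continuous_const
  have hθC : ContDiff ℝ 2 θ := by
    refine hC2 θ _ _ hθ hθ2 ?_
    exact ((hdc.comp hXc).mul (hUc.mul continuous_const)).mul continuous_const
  have hht : ∀ t, g.ht χ K (fl (g.dt χ K) z (κ * t)).1 = 1 / g.f (fl (g.dt χ K) z (κ * t)).1 ^ 2 :=
    fun t => ht_eq g hχ (Ioo_subset_Icc_self (hX (κ * t)))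
  have hgeo : IsGeodesicS g r θ := by
    refine ⟨hrC, hθC, fun t => ⟨⟨hX0 _, hXL _⟩, ?_, ?_⟩⟩
    · have h1 := hr2 t
      have h2 : g.f (r t) * deriv g.f (r t) * deriv θ t ^ 2 =
          -(g.dt χ K (fl (g.dt χ K) z (κ * t)).1) / 2 * κ * κ := by
        rw [dt_eq g hχ (hX (κ * t)), hdθ]
        simp only [r]
        rw [hht t]
        have h3 := (hfX (κ * t)).ne'
        field_simp
      rw [h2]
      exact h1
    · have h1 : (fun s => g.f (r s) ^ 2 * deriv θ s) = fun _ => κ := by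
        funext s
        rw [hdθ]
        simp only [r]
        rw [hht s]
        have h3 := (hfX (κ * s)).ne'
        field_simp
      rw [h1]
      exact hasDerivAt_const t κ
  have hz0 : fl (g.dt χ K) z 0 = z := fl_zero hd z
  have hY0 : Yw (g.dt χ K) (g.ht χ K) z 0 = 0 := by
    unfold Yw
    simp
  have hflm : fl (g.dt χ K) z (-P) = z := by
    have h1 := fl_add hd z P (-P)
    rw [add_neg_cancel, hz0, hfl] at h1
    exact h1.symm
  have hYm : Yw (g.dt χ K) (g.ht χ K) z (-P) = -(n * (2 * Real.pi)) := by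
    have h1 := Yw_add hd hwc z P (-P)
    rw [add_neg_cancel, hY0, hfl, hY] at h1
    linarith
  refine ⟨?_, r, θ, hgeo, ?_, ?_, ?_, ?_, P / |κ|, div_pos hP (abs_pos.mpr hκ), ?_⟩
  · intro h
    exact hv (Prod.mk.inj h).2
  · simp only [r, mul_zero]
    rw [hz0]
  · simp only [θ, mul_zero]
    rw [hY0, add_zero]
  · rw [hdr]
    simp only [mul_zero]
    rw [hz0]
    simp only [hz]
    field_simp
  · rw [hdθ]
    simp only [mul_zero]
    rw [hz0]
    simp only [hz]
    rw [ht_eq g hχ hp, hκdef]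
    field_simp
  · rcases lt_or_gt_of_ne hκ with hneg | hpos
    · have hT : κ * (P / |κ|) = -P := by
        rw [abs_of_neg hneg]
        field_simp
      refine ⟨-n, ?_, ?_, ?_, ?_⟩
      · simp only [r]
        rw [hT, hflm]
      · simp only [θ]
        rw [hT, hYm]
        push_cast
        ring
      · rw [hdr]
        simp only
        rw [hT, hflm]
        simp only [hz]
        field_simp
      · rw [hdθ]
        simp only
        rw [hT, hflm]
        simp only [hz]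
        rw [ht_eq g hχ hp, hκdef]
        field_simp
    · have hT : κ * (P / |κ|) = P := by
        rw [abs_of_pos hpos]
        field_simp
      refine ⟨n, ?_, ?_, ?_, ?_⟩
      · simp only [r]
        rw [hT, hfl]
      · simp only [θ]
        rw [hT, hY]
        ring
      · rw [hdr]
        simp only
        rw [hT, hfl]
        simp only [hz]
        field_simp
      · rw [hdθ]
        simp only
        rw [hT, hfl]
        simp only [hz]
        rw [ht_eq g hχ hp, hκdef]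
        field_simp

theorem dense_of_planarS {L : ℝ} (g : SphMetric L)
    (h : ∀ V : Set (ℝ × ℝ), IsOpen V → V.Nonempty → (∀ z ∈ V, 0 < z.1 ∧ z.1 < L) →
      ∃ z ∈ V, ∀ q u v : ℝ, g.f z.1 ^ 2 * v ≠ 0 → z.2 = u / (g.f z.1 ^ 2 * v) →
        ClosedVecS g z.1 q u v) :
    DenseS g := by
  rintro ⟨⟨p, q⟩, ⟨u, v⟩⟩ hp0 hpL
  simp only at hp0 hpL
  rw [mem_closure_iff]
  intro o ho hwo
  have hfp : 0 < g.f p := g.pos p hp0 hpL
  -- change `v` so that it is nonzero
  obtain ⟨v', hv'o, hv'⟩ : ∃ v' : ℝ, (((p, q), (u, v')) : (ℝ × ℝ) × (ℝ × ℝ)) ∈ o ∧ v' ≠ 0 := by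
    have hc : Continuous fun v' : ℝ => (((p, q), (u, v')) : (ℝ × ℝ) × (ℝ × ℝ)) := by fun_prop
    have ho' : IsOpen ((fun v' : ℝ => (((p, q), (u, v')) : (ℝ × ℝ) × (ℝ × ℝ))) ⁻¹' o) :=
      ho.preimage hc
    have hd : Dense ({0}ᶜ : Set ℝ) := dense_compl_singleton 0
    obtain ⟨v', h1, h2⟩ := hd.inter_open_nonempty _ ho' ⟨v, hwo⟩
    exact ⟨v', h1, h2⟩
  set κ := g.f p ^ 2 * v' with hκdef
  have hκ : κ ≠ 0 := mul_ne_zero (pow_ne_zero 2 hfp.ne') hv'
  let ψ : ℝ × ℝ → (ℝ × ℝ) × (ℝ × ℝ) := fun z => ((z.1, q), (κ * z.2, κ / g.f z.1 ^ 2))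
  let S : Set (ℝ × ℝ) := {z | 0 < z.1 ∧ z.1 < L}
  have hS : IsOpen S :=
    (isOpen_lt continuous_const continuous_fst).inter (isOpen_lt continuous_fst continuous_const)
  have hψ : ContinuousOn ψ S := by
    have hfc : Continuous g.f := g.smooth.continuous
    have h1 : ContinuousOn (fun z : ℝ × ℝ => κ / g.f z.1 ^ 2) S := by
      refine ContinuousOn.div continuousOn_const ?_ ?_
      · exact ((hfc.comp continuous_fst).pow 2).continuousOn
      · intro z hz
        exact pow_ne_zero 2 (g.pos z.1 hz.1 hz.2).ne'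
    refine ContinuousOn.prodMk ?_ (ContinuousOn.prodMk ?_ h1)
    · exact (continuous_fst.prodMk continuous_const).continuousOn
    · exact (continuous_const.mul continuous_snd).continuousOn
  have hV : IsOpen (S ∩ ψ ⁻¹' o) := hψ.isOpen_inter_preimage hS ho
  have hne : (S ∩ ψ ⁻¹' o).Nonempty := by
    refine ⟨(p, u / κ), ⟨hp0, hpL⟩, ?_⟩
    have : ψ (p, u / κ) = ((p, q), (u, v')) := by
      simp only [ψ]
      have h1 : κ * (u / κ) = u := by field_simp
      have h2 : κ / g.f p ^ 2 = v' := by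
        rw [hκdef]
        field_simp
      rw [h1, h2]
    rw [mem_preimage, this]
    exact hv'o
  obtain ⟨z, ⟨hzS, hzo⟩, hz⟩ := h _ hV hne (fun z hz => hz.1)
  refine ⟨ψ z, hzo, ?_⟩
  have hfz : 0 < g.f z.1 := g.pos z.1 hzS.1 hzS.2
  have h1 : g.f z.1 ^ 2 * (κ / g.f z.1 ^ 2) = κ := by field_simp
  refine hz q (κ * z.2) (κ / g.f z.1 ^ 2) ?_ ?_
  · rw [h1]
    exact hκ
  · rw [h1]
    field_simp

end Pool.Agent.CGD
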