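import Pool.Agent.CGD.SBase
import Pool.Agent.CGD.Joint

set_option autoImplicit false

/-! Module SShift: the family `f_t = f/√(1 + t f²)`, i.e. `1/f_t² = 1/f² + t`.

`f_t` is smooth (the radicand is positive), odd about `0` and `L` (`f²` is even), positive on `(0, L)`; `f_t' = f'/(1 + t f²)^{3/2}` and `f(0) = f(L) = 0` (oddness) give the slopes.
`sshift_close`: `f_t - f = -t N`, `N(t,x) = f³/(√(1+tf²) (1 + √(1+tf²)))`, smooth for small `|t|` and `2L`-periodic in `x`: module Joint (`Λ = 2L > 0`).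
`sshift_ht`: with `K + t` in place of `K` the truncated potential changes by the constant `t` (on the support of `χ`, `f > 0`; elsewhere `χ = 0`), so `dt` is unchanged. -/

namespace Pool.Agent.CGD

open Set Filter Topology
open scoped ContDiff

private lemma sshift_sqrt_pos {L : ℝ} (g : SphMetric L) (t : ℝ) (ht : ∀ x, 0 < 1 + t * g.f x ^ 2)
    (x : ℝ) : 0 < √(1 + t * g.f x ^ 2) := Real.sqrt_pos.mpr (ht x)

private lemma sshift_f0 {L : ℝ} (g : SphMetric L) : g.f 0 = 0 := by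
  have := g.odd0 0
  rw [neg_zero] at this
  linarith

private lemma sshift_fL {L : ℝ} (g : SphMetric L) : g.f L = 0 := by
  have := g.oddL 0
  rw [add_zero, sub_zero] at this
  linarith

private lemma sshift_slope {L : ℝ} (g : SphMetric L) (t : ℝ) {x : ℝ} (hx : g.f x = 0) :
    deriv (fun y => g.f y / √(1 + t * g.f y ^ 2)) x = deriv g.f x := by
  have hf : HasDerivAt g.f (deriv g.f x) x :=
    (g.smooth.differentiable (by simp)).differentiableAt.hasDerivAt
  have h1 : HasDerivAt (fun y => 1 + t * g.f y ^ 2) (t * (2 * g.f x * deriv g.f x)) x := by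
    have := (((hf.fun_pow 2).const_mul t).const_add 1)
    simpa [mul_assoc] using this
  have h2 : 1 + t * g.f x ^ 2 ≠ 0 := by
    rw [hx]
    norm_num
  have h3 := h1.sqrt h2
  have h4 : √(1 + t * g.f x ^ 2) = 1 := by
    rw [hx]
    norm_num
  have h5 := hf.div h3 (by rw [h4]; exact one_ne_zero)
  have h6 := h5.deriv
  rw [hx] at h6
  have h7 : deriv (fun y => g.f y / √(1 + t * g.f y ^ 2)) x =
      deriv (g.f / fun y => √(1 + t * g.f y ^ 2)) x := rfl
  rw [h7, h6]
  norm_num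

/-- the shifted profile -/
noncomputable def SphMetric.shift {L : ℝ} (g : SphMetric L) (t : ℝ)
    (ht : ∀ x, 0 < 1 + t * g.f x ^ 2) : SphMetric L where
  f := fun x => g.f x / √(1 + t * g.f x ^ 2)
  smooth := by
    refine g.smooth.div ?_ (fun x => (sshift_sqrt_pos g t ht x).ne')
    exact (contDiff_const.add (contDiff_const.mul (g.smooth.pow 2))).sqrt (fun x => (ht x).ne')
  odd0 := by
    intro r
    simp only [g.odd0 r, neg_sq, neg_div]
  oddL := by
    intro r
    simp only [g.oddL r, neg_sq, neg_div]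
  pos := by
    intro r h0 h1
    exact div_pos (g.pos r h0 h1) (sshift_sqrt_pos g t ht r)
  slope0 := by
    rw [sshift_slope g t (sshift_f0 g), g.slope0]
  slopeL := by
    rw [sshift_slope g t (sshift_fL g), g.slopeL]

theorem sshift_inv {L : ℝ} (g : SphMetric L) (t : ℝ) (ht : ∀ x, 0 < 1 + t * g.f x ^ 2) {x : ℝ}
    (hx : 0 < x) (hx' : x < L) : 1 / (g.shift t ht).f x ^ 2 = 1 / g.f x ^ 2 + t := by
  have h1 : (g.shift t ht).f x = g.f x / √(1 + t * g.f x ^ 2) := rfl
  have h2 := (g.pos x hx hx').ne'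
  rw [h1, div_pow, Real.sq_sqrt (ht x).le]
  have h3 := (ht x).ne'
  field_simp

theorem sshift_ht {L : ℝ} (g : SphMetric L) (t : ℝ) (ht : ∀ x, 0 < 1 + t * g.f x ^ 2)
    {r1 r2 K : ℝ} {χ : ℝ → ℝ} (hχ : Cut L r1 r2 χ) :
    (g.shift t ht).ht χ (K + t) = fun x => g.ht χ K x + t := by
  funext x
  unfold SphMetric.ht
  by_cases h0 : χ x = 0
  · rw [h0]
    ring
  · have hx1 : 0 < x := by
      by_contra hcon
      push Not at hcon
      exact h0 (hχ.zero_left x (by have := hχ.h1; linarith))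
    have hx2 : x < L := by
      by_contra hcon
      push Not at hcon
      exact h0 (hχ.zero_right x (by have := hχ.h2; linarith))
    rw [sshift_inv g t ht hx1 hx2]
    ring

theorem sshift_dt {L : ℝ} (g : SphMetric L) (t : ℝ) (ht : ∀ x, 0 < 1 + t * g.f x ^ 2)
    {r1 r2 K : ℝ} {χ : ℝ → ℝ} (hχ : Cut L r1 r2 χ) :
    (g.shift t ht).dt χ (K + t) = g.dt χ K := by
  funext x
  unfold SphMetric.dt
  rw [sshift_ht g t ht hχ]
  exact deriv_add_const t

theorem sshift_close {L : ℝ} (hL : 0 < L) (g : SphMetric L) (k : ℕ) (ε : ℝ) (hε : 0 < ε) :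
    ∃ δ > 0, ∀ t, |t| ≤ δ → ∃ ht : ∀ x, 0 < 1 + t * g.f x ^ 2, CkCloseS k ε g (g.shift t ht) := by
  have hper : Function.Periodic g.f (2 * L) := fun x => g.per x
  obtain ⟨B, hB⟩ := isBounded_iff_forall_norm_le.mp
    (hper.isBounded_of_continuous (by positivity) g.smooth.continuous)
  have hB' : ∀ x, g.f x ^ 2 ≤ B ^ 2 := by
    intro x
    have h1 := hB (g.f x) (mem_range_self x)
    rw [Real.norm_eq_abs] at h1
    rw [← sq_abs (g.f x)]
    exact pow_le_pow_left₀ (abs_nonneg _) h1 2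
  set δ0 : ℝ := 1 / (B ^ 2 + 1) with hδ0
  have hB1 : 0 < B ^ 2 + 1 := by positivity
  have hδ0p : 0 < δ0 := by positivity
  have hpos : ∀ t : ℝ, |t| < δ0 → ∀ x, 0 < 1 + t * g.f x ^ 2 := by
    intro t ht x
    have h1 : -(|t| * g.f x ^ 2) ≤ t * g.f x ^ 2 := by
      have := neg_abs_le t
      nlinarith [sq_nonneg (g.f x)]
    have h2 : |t| * g.f x ^ 2 ≤ δ0 * B ^ 2 :=
      mul_le_mul ht.le (hB' x) (sq_nonneg _) hδ0p.le
    have h3 : δ0 * B ^ 2 < 1 := by
      rw [hδ0, div_mul_eq_mul_div, one_mul, div_lt_one hB1]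
      linarith
    linarith
  let F : ℝ → ℝ → ℝ := fun t x =>
    g.f x ^ 3 / (√(1 + t * g.f x ^ 2) * (1 + √(1 + t * g.f x ^ 2)))
  have hF : ContDiffOn ℝ ∞ (fun p : ℝ × ℝ => F p.1 p.2) (Ioo (-δ0) δ0 ×ˢ univ) := by
    have hf : ContDiffOn ℝ ∞ (fun p : ℝ × ℝ => g.f p.2) (Ioo (-δ0) δ0 ×ˢ univ) :=
      (g.smooth.comp contDiff_snd).contDiffOn
    have hs : ContDiffOn ℝ ∞ (fun p : ℝ × ℝ => √(1 + p.1 * g.f p.2 ^ 2))
        (Ioo (-δ0) δ0 ×ˢ univ) := by
      refine ContDiffOn.sqrt ?_ ?_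
      · exact contDiffOn_const.add (contDiff_fst.contDiffOn.mul (hf.pow 2))
      · rintro ⟨t, x⟩ ⟨ht, _⟩
        exact (hpos t (abs_lt.mpr ht) x).ne'
    refine (hf.pow 3).div (hs.mul (contDiffOn_const.add hs)) ?_
    rintro ⟨t, x⟩ ⟨ht, _⟩
    have h1 := Real.sqrt_pos.mpr (hpos t (abs_lt.mpr ht) x)
    simp only at h1 ⊢
    positivity
  obtain ⟨C, hC⟩ := joint_bound (F := F) (δ1 := δ0 / 2) (δ0 := δ0) (Λ := 2 * L) (by linarith) hF
    (by positivity) (fun t x => by simp only [F]; rw [g.per x]) k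
  refine ⟨min (δ0 / 2) (ε / (2 * (|C| + 1))), lt_min (by positivity) (by positivity), ?_⟩
  intro t ht
  have ht1 : |t| ≤ δ0 / 2 := ht.trans (min_le_left _ _)
  have ht2 : |t| ≤ ε / (2 * (|C| + 1)) := ht.trans (min_le_right _ _)
  have htp : ∀ x, 0 < 1 + t * g.f x ^ 2 := hpos t (by linarith)
  refine ⟨htp, ?_⟩
  intro j hj x
  have hsm : ContDiff ℝ ∞ (g.shift t htp).f := (g.shift t htp).smooth
  have hj1 : ContDiffAt ℝ j (g.shift t htp).f x :=
    (hsm.of_le (by exact_mod_cast le_top)).contDiffAt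
  have hj2 : ContDiffAt ℝ j g.f x := (g.smooth.of_le (by exact_mod_cast le_top)).contDiffAt
  rw [← iteratedDeriv_sub hj1 hj2]
  have h1 : (g.shift t htp).f - g.f = fun y => -t * F t y := by
    funext y
    have h2 : ((g.shift t htp).f - g.f) y = g.f y / √(1 + t * g.f y ^ 2) - g.f y := rfl
    rw [h2]
    simp only [F]
    have h3 := sshift_sqrt_pos g t htp y
    have h4 : √(1 + t * g.f y ^ 2) ^ 2 = 1 + t * g.f y ^ 2 := Real.sq_sqrt (htp y).le
    set s := √(1 + t * g.f y ^ 2) with hs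
    have h5 : (1 + s) ≠ 0 := by positivity
    have h6 : t * g.f y ^ 2 = s ^ 2 - 1 := by linarith
    have h7 : -t * (g.f y ^ 3 / (s * (1 + s))) = -(t * g.f y ^ 2) * g.f y / (s * (1 + s)) := by
      ring
    rw [h7, h6]
    field_simp
    ring
  rw [h1]
  have h2 : iteratedDeriv j (fun y => -t * F t y) x = -t * iteratedDeriv j (F t) x := by
    exact iteratedDeriv_const_mul_field (-t) (F t)
  rw [h2, abs_mul, abs_neg]
  have h3 : |iteratedDeriv j (F t) x| ≤ |C| := (hC j hj t ht1 x).trans (le_abs_self C)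
  have h4 : |t| * |iteratedDeriv j (F t) x| ≤ ε / (2 * (|C| + 1)) * |C| :=
    mul_le_mul ht2 h3 (abs_nonneg _) (by positivity)
  have h5 : ε / (2 * (|C| + 1)) * |C| < ε := by
    rw [div_mul_eq_mul_div, div_lt_iff₀ (by positivity)]
    nlinarith [abs_nonneg C]
  linarith

end Pool.Agent.CGD
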