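import Pool.Agent.CGD.SLift
import Pool.Agent.CGD.SShift
import Pool.Agent.CGD.SEst
import Pool.Agent.CGD.OscGen
import Pool.Agent.CGD.OscOp
import Pool.Agent.CGD.OscCl

set_option autoImplicit false

/-! Module SMain: assembly for spheres of revolution. -/

namespace Pool.Agent.CGD

open Set Filter Topology

theorem uvs_closed {L : ℝ} {V : Set (ℝ × ℝ)} {g : SphMetric L} (h : UVS V g) :
    ∃ z ∈ V, ∀ q u v : ℝ, g.f z.1 ^ 2 * v ≠ 0 → z.2 = u / (g.f z.1 ^ 2 * v) →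
      ClosedVecS g z.1 q u v := by
  obtain ⟨r1, r2, K, E, η, χ, hχ, hE, hη, hK, hbig, hV, hosc⟩ := h
  have hK0 : 0 < K := by linarith
  obtain ⟨z, hz, P, hP, n, _, hfl, hY⟩ := osc_closed (dt_nice g hχ) (ht_unif g hχ).continuous
    (ht_pos g hχ hK0) Real.two_pi_pos hosc
  refine ⟨z, hz, fun q u v hκ hz2 => ?_⟩
  have hzz : (z.1, u / (g.f z.1 ^ 2 * v)) = z := by
    rw [← hz2]
  refine slift g hχ hη hK hbig (hV z hz).1 hκ ?_ hP (n := n) ?_ ?_
  · rw [← hz2]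
    linarith [(hV z hz).2]
  · rw [hzz]
    exact hfl
  · rw [hzz, hY]
    push_cast
    ring

theorem uvs_open {L : ℝ} {V : Set (ℝ × ℝ)} (hV : IsOpen V) {g : SphMetric L} (h : UVS V g) :
    ∃ ε > 0, ∀ g' : SphMetric L, CkCloseS 1 ε g g' → UVS V g' := by
  obtain ⟨r1, r2, K, E, η, χ, hχ, hE, hη, hK, hbig, hVE, hosc⟩ := h
  have hK0 : 0 < K := by linarith
  obtain ⟨δ0, hδ0, hpos⟩ := ht_pos g hχ hK0
  obtain ⟨ε, hε, H⟩ := osc_open (dt_nice g hχ) (ht_unif g hχ) (fun x => hδ0.trans_le (hpos x))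
    hV hosc
  obtain ⟨δ1, hδ1, H1⟩ := sest g hχ (K := K) ε hε
  obtain ⟨δ2, hδ2, H2⟩ := sbar g hE hη hbig
  obtain ⟨δ3, hδ3, H3⟩ := sup_est g hχ.h1 hχ.h2 (η / 2) (by linarith)
  refine ⟨min δ1 (min δ2 δ3), by positivity, fun g' hg' => ?_⟩
  have hc1 : CkCloseS 1 δ1 g g' := fun j hj x => (hg' j hj x).trans_le (min_le_left _ _)
  have hc2 : CkCloseS 1 δ2 g g' := fun j hj x =>
    (hg' j hj x).trans_le ((min_le_right _ _).trans (min_le_left _ _))
  have hc3 : CkCloseS 1 δ3 g g' := fun j hj x =>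
    (hg' j hj x).trans_le ((min_le_right _ _).trans (min_le_right _ _))
  refine ⟨r1, r2, K, E, η / 2, χ, hχ, hE, by linarith, by linarith, H2 g' hc2, ?_, ?_⟩
  · intro z hz
    obtain ⟨h1, h2⟩ := hVE z hz
    have h3 := abs_le.1 (H3 g' hc3 z.1 h1)
    exact ⟨h1, by linarith [h3.2]⟩
  · exact H (g'.dt χ K) (g'.ht χ K) (dt_nice g' hχ) (ht_unif g' hχ).continuous
      (fun x => (H1 g' hc1 x).2) fun x => (H1 g' hc1 x).1

theorem SMain_zero0 {L : ℝ} (g : SphMetric L) : g.f 0 = 0 := by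
  have h := g.odd0 0
  rw [neg_zero] at h
  linarith

theorem SMain_zeroL {L : ℝ} (g : SphMetric L) : g.f L = 0 := by
  have h := g.oddL 0
  rw [add_zero, sub_zero] at h
  linarith

/-- near a zero of `f` the function `1/f²` is large (where `f > 0`) -/
theorem SMain_big {L : ℝ} (g : SphMetric L) {x0 : ℝ} (h0 : g.f x0 = 0) {E : ℝ} (hE : 0 < E) :
    ∃ ρ > 0, ∀ r, |r - x0| < ρ → 0 < r → r < L → E ≤ 1 / g.f r ^ 2 := by
  have hc : ContinuousAt (fun r => g.f r ^ 2 * E) x0 :=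
    ((g.smooth.continuous.pow 2).mul continuous_const).continuousAt
  have h1 : ∀ᶠ r in 𝓝 x0, g.f r ^ 2 * E < 1 := by
    have : g.f x0 ^ 2 * E < 1 := by rw [h0]; norm_num
    exact hc.eventually (gt_mem_nhds this)
  obtain ⟨ρ, hρ, H⟩ := Metric.eventually_nhds_iff.1 h1
  refine ⟨ρ, hρ, fun r hr hr0 hrL => ?_⟩
  have h2 := H (by rw [Real.dist_eq]; exact hr)
  have h3 := g.pos r hr0 hrL
  rw [le_div_iff₀ (by positivity)]
  linarith

theorem uvs_generic {L : ℝ} (hL : 0 < L) (g : SphMetric L) {V : Set (ℝ × ℝ)} (hV : IsOpen V)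
    (hne : V.Nonempty) {Q : Set (ℝ × ℝ)} (hQ : IsCompact Q) (hVQ : V ⊆ Q)
    (hQL : ∀ z ∈ Q, 0 < z.1 ∧ z.1 < L) :
    ∃ t0 : ℝ, ∀ t, t ≠ t0 → ∀ ht : ∀ x, 0 < 1 + t * g.f x ^ 2, UVS V (g.shift t ht) := by
  obtain ⟨z0, hz0⟩ := hne
  have hQne : Q.Nonempty := ⟨z0, hVQ hz0⟩
  -- bounds on `Q`
  obtain ⟨zm, hzm, hmin⟩ := hQ.exists_isMinOn hQne continuous_fst.continuousOn
  obtain ⟨zM, hzM, hmax⟩ := hQ.exists_isMaxOn hQne continuous_fst.continuousOn
  have hcE : ContinuousOn (fun z : ℝ × ℝ => z.2 ^ 2 + 1 / g.f z.1 ^ 2) Q := by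
    apply ContinuousOn.add (by fun_prop)
    apply ContinuousOn.div continuousOn_const
    · exact ((g.smooth.continuous.comp continuous_fst).pow 2).continuousOn
    · intro z hz
      have := g.pos z.1 (hQL z hz).1 (hQL z hz).2
      positivity
  obtain ⟨zE, hzE, hEmax⟩ := hQ.exists_isMaxOn hQne hcE
  set E0 : ℝ := zE.2 ^ 2 + 1 / g.f zE.1 ^ 2 with hE0
  have hE0pos : 0 < E0 := by
    have h1 := g.pos zE.1 (hQL zE hzE).1 (hQL zE hzE).2
    have h2 : 0 < 1 / g.f zE.1 ^ 2 := by positivity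
    have h3 := sq_nonneg zE.2
    rw [hE0]
    linarith
  obtain ⟨ρ1, hρ1, H1⟩ := SMain_big g (SMain_zero0 g) (E := E0 + 2) (by linarith)
  obtain ⟨ρ2, hρ2, H2⟩ := SMain_big g (SMain_zeroL g) (E := E0 + 2) (by linarith)
  have hm := hQL zm hzm
  have hM := hQL zM hzM
  have hmM : zm.1 ≤ zM.1 := hmin hzM
  set r1 : ℝ := min (zm.1 / 2) (ρ1 / 2) with hr1
  set r2 : ℝ := max ((zM.1 + L) / 2) (L - ρ2 / 2) with hr2
  have hr1pos : 0 < r1 := lt_min (by linarith) (by linarith)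
  have hr2L : r2 < L := max_lt (by linarith) (by linarith)
  have hr1m : r1 ≤ zm.1 / 2 := min_le_left _ _
  have hr2M : (zM.1 + L) / 2 ≤ r2 := le_max_left _ _
  have hr12 : r1 < r2 := by linarith
  have hbig : ∀ r, 0 < r → r < L → r ∉ Ioo r1 r2 → E0 + 2 ≤ 1 / g.f r ^ 2 := by
    intro r hr hrL hnot
    by_cases h : r ≤ r1
    · refine H1 r ?_ hr hrL
      have : r1 ≤ ρ1 / 2 := min_le_right _ _
      rw [sub_zero, abs_of_pos hr]
      linarith
    · push Not at h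
      have h2 : r2 ≤ r := by
        by_contra hcon
        push Not at hcon
        exact hnot ⟨h, hcon⟩
      refine H2 r ?_ hr hrL
      have : L - ρ2 / 2 ≤ r2 := le_max_right _ _
      rw [abs_lt]
      constructor <;> linarith
  obtain ⟨χ, hχ⟩ := exists_cut hr1pos hr12 hr2L
  set K : ℝ := E0 + 2 with hK
  have hht0 : g.ht χ K 0 = K := by
    unfold SphMetric.ht
    rw [hχ.zero_left 0 (by linarith)]
    ring
  have hhtL : g.ht χ K L = K := by
    unfold SphMetric.ht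
    rw [hχ.zero_right L (by linarith)]
    ring
  have hIcc : ∀ z ∈ V, z.1 ∈ Icc r1 r2 := by
    intro z hz
    have h1 : zm.1 ≤ z.1 := hmin (hVQ hz)
    have h2 : z.1 ≤ zM.1 := hmax (hVQ hz)
    constructor <;> linarith
  have hEn : ∀ z ∈ V, z.2 ^ 2 + 1 / g.f z.1 ^ 2 ≤ E0 := fun z hz => hEmax (hVQ hz)
  have hz0' := hIcc z0 hz0
  have hz0E : z0.2 ^ 2 + g.ht χ K z0.1 < K := by
    rw [ht_eq g hχ hz0']
    have := hEn z0 hz0
    rw [hK]
    linarith
  obtain ⟨t0, H⟩ := osc_generic (d := g.dt χ K) (h := g.ht χ K) (μ := fun _ => 1)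
    (ϖ := 2 * Real.pi) (dt_nice g hχ) (ht_deriv g hχ) continuous_const (fun _ => one_pos)
    Real.two_pi_pos hV hz0 (xL := 0) (xR := L) (hQL z0 (hVQ hz0)).1 (hQL z0 (hVQ hz0)).2
    (by rw [hht0]; exact hz0E) (by rw [hhtL]; exact hz0E)
  refine ⟨t0, fun t htt ht => ?_⟩
  have hinv : ∀ r, 0 < r → r < L → 0 < 1 / g.f r ^ 2 + t := by
    intro r hr hrL
    rw [← sshift_inv g t ht hr hrL]
    have := (g.shift t ht).pos r hr hrL
    positivity
  have hEt : 0 < E0 + t := by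
    have h1 := hinv z0.1 (hQL z0 (hVQ hz0)).1 (hQL z0 (hVQ hz0)).2
    have h2 := hEn z0 hz0
    have h3 := sq_nonneg z0.2
    linarith
  have hhtpos : ∀ x, 0 < g.ht χ K x + t := by
    intro x
    rw [← congrFun (sshift_ht g t ht hχ (K := K)) x]
    obtain ⟨δ, hδ, Hδ⟩ := ht_pos (g.shift t ht) hχ (K := K + t) (by rw [hK]; linarith)
    exact hδ.trans_le (Hδ x)
  refine ⟨r1, r2, K + t, E0 + 1 + t, 1, χ, hχ, by linarith, one_pos, by rw [hK]; linarith,
    ?_, ?_, ?_⟩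
  · intro r hr hrL hnot
    rw [sshift_inv g t ht hr hrL]
    have := hbig r hr hrL hnot
    linarith
  · intro z hz
    have hzL := hQL z (hVQ hz)
    refine ⟨hIcc z hz, ?_⟩
    rw [sshift_inv g t ht hzL.1 hzL.2]
    have := hEn z hz
    linarith
  · rw [sshift_dt g t ht hχ, sshift_ht g t ht hχ]
    have h1 := H t htt hhtpos
    have e : (fun x => (g.ht χ K x + t) * (fun _ : ℝ => (1:ℝ)) x) = fun x => g.ht χ K x + t := by
      funext x
      simp
    rw [e] at h1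
    exact h1

/-- the members of the basis which are relatively compact in the strip -/
def SMain_good (L : ℝ) (V : Set (ℝ × ℝ)) : Prop :=
  ∃ Q : Set (ℝ × ℝ), IsCompact Q ∧ V ⊆ Q ∧ ∀ z ∈ Q, 0 < z.1 ∧ z.1 < L

theorem SMain_dense {L : ℝ} {b : Set (Set (ℝ × ℝ))}
    (hb : TopologicalSpace.IsTopologicalBasis b) {g : SphMetric L}
    (h : ∀ V ∈ b, SMain_good L V → UVS V g) : DenseS g := by
  apply dense_of_planarS
  intro V hV hne hVL
  obtain ⟨z, hz⟩ := hne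
  obtain ⟨ρ, hρ, hball⟩ := Metric.isOpen_iff.1 hV z hz
  obtain ⟨B, hB, hzB, hBV⟩ := hb.exists_subset_of_mem_open
    (Metric.mem_ball_self (x := z) (half_pos hρ)) Metric.isOpen_ball
  have hgood : SMain_good L B := by
    refine ⟨Metric.closedBall z (ρ / 2), isCompact_closedBall _ _,
      hBV.trans Metric.ball_subset_closedBall, fun z' hz' => hVL z' (hball ?_)⟩
    exact Metric.closedBall_subset_ball (by linarith) hz'
  obtain ⟨z', hz', hc⟩ := uvs_closed (h B hB hgood)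
  exact ⟨z', hball (Metric.ball_subset_ball (by linarith) (hBV hz')), hc⟩

theorem s_all_but_countable {L : ℝ} (hL : 0 < L) (g : SphMetric L) : ∃ N : Set ℝ, N.Countable ∧
    ∀ t ∉ N, ∀ g' : SphMetric L, (∀ x, 0 < 1 + t * g.f x ^ 2) →
      (∀ x, g'.f x = g.f x / √(1 + t * g.f x ^ 2)) → DenseS g' := by
  obtain ⟨b, hbc, hb0, hb⟩ := TopologicalSpace.exists_countable_basis (ℝ × ℝ)
  have h1 : ∀ V : Set (ℝ × ℝ), ∃ t0 : ℝ, V ∈ b → SMain_good L V →
      ∀ t, t ≠ t0 → ∀ ht : ∀ x, 0 < 1 + t * g.f x ^ 2, UVS V (g.shift t ht) := by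
    intro V
    by_cases hV : V ∈ b
    · by_cases hG : SMain_good L V
      · obtain ⟨Q, hQ, hVQ, hQL⟩ := hG
        obtain ⟨t0, H⟩ := uvs_generic hL g (hb.isOpen hV)
          (nonempty_iff_ne_empty.2 fun h => hb0 (h ▸ hV)) hQ hVQ hQL
        exact ⟨t0, fun _ _ => H⟩
      · exact ⟨0, fun _ h => absurd h hG⟩
    · exact ⟨0, fun h => absurd h hV⟩
  choose t0 ht0 using h1
  refine ⟨t0 '' b, hbc.image t0, fun t htN g' hpos hf => ?_⟩
  have e : g' = g.shift t hpos := by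
    apply SphMetric.ext
    funext x
    exact hf x
  rw [e]
  refine SMain_dense hb fun V hV hG => ht0 V hV hG t (fun h => htN ?_) hpos
  rw [h]
  exact mem_image_of_mem t0 hV

theorem s_generic_explicit {L : ℝ} (hL : 0 < L) : ∃ S : ℕ → Set (SphMetric L),
    (∀ n, ∀ g ∈ S n, ∃ ε > 0, ∀ g', CkCloseS 1 ε g g' → g' ∈ S n) ∧
    (∀ n, ∀ g : SphMetric L, ∀ k : ℕ, ∀ ε > 0, ∃ g' ∈ S n, CkCloseS k ε g g') ∧
    ∀ g, (∀ n, g ∈ S n) → DenseS g := by
  obtain ⟨b, hbc, hb0, hb⟩ := TopologicalSpace.exists_countable_basis (ℝ × ℝ)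
  have hbne : b.Nonempty := by
    obtain ⟨B, hB, _⟩ := hb.exists_subset_of_mem_open (mem_univ ((0:ℝ), (0:ℝ))) isOpen_univ
    exact ⟨B, hB⟩
  obtain ⟨f, hf⟩ := hbc.exists_eq_range hbne
  have hfb : ∀ n, f n ∈ b := fun n => by rw [hf]; exact mem_range_self n
  refine ⟨fun n => {g | SMain_good L (f n) → UVS (f n) g}, ?_, ?_, ?_⟩
  · intro n g hg
    by_cases hG : SMain_good L (f n)
    · obtain ⟨ε, hε, H⟩ := uvs_open (hb.isOpen (hfb n)) (hg hG)
      exact ⟨ε, hε, fun g' hg' _ => H g' hg'⟩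
    · exact ⟨1, one_pos, fun g' _ h => absurd h hG⟩
  · intro n g k ε hε
    obtain ⟨δ, hδ, H⟩ := sshift_close hL g k ε hε
    by_cases hG : SMain_good L (f n)
    · obtain ⟨Q, hQ, hVQ, hQL⟩ := hG
      obtain ⟨t0, H0⟩ := uvs_generic hL g (hb.isOpen (hfb n))
        (nonempty_iff_ne_empty.2 fun h => hb0 (h ▸ hfb n)) hQ hVQ hQL
      obtain ⟨t, ht1, ht2⟩ : ∃ t : ℝ, |t| ≤ δ ∧ t ≠ t0 := by
        by_cases h : δ = t0
        · refine ⟨δ / 2, ?_, ?_⟩
          · rw [abs_of_pos (by linarith)]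
            linarith
          · rw [← h]
            intro h2
            linarith
        · exact ⟨δ, by rw [abs_of_pos hδ], h⟩
      obtain ⟨ht, hclose⟩ := H t ht1
      exact ⟨g.shift t ht, fun _ => H0 t ht2 ht, hclose⟩
    · obtain ⟨ht, hclose⟩ := H 0 (by rw [abs_zero]; exact hδ.le)
      exact ⟨g.shift 0 ht, fun h => absurd h hG, hclose⟩
  · intro g hg
    refine SMain_dense hb fun V hV hG => ?_
    rw [hf] at hV
    obtain ⟨n, rfl⟩ := hV
    exact hg n hG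

theorem s_generic {L : ℝ} (hL : 0 < L) :
    {g : SphMetric L | DenseS g} ∈ residual (SphMetric L) := by
  obtain ⟨S, h1, h2, h3⟩ := s_generic_explicit hL
  rw [mem_residual_iff]
  refine ⟨range S, ?_, ?_, countable_range S, ?_⟩
  · rintro _ ⟨n, rfl⟩
    intro g hg
    obtain ⟨ε, hε, H⟩ := h1 n g hg
    exact ⟨1, ε, hε, H⟩
  · rintro _ ⟨n, rfl⟩
    rw [dense_iff_inter_open]
    rintro U hU ⟨g, hg⟩
    obtain ⟨k, ε, hε, H⟩ := hU g hg
    obtain ⟨g', hg', hc⟩ := h2 n g k ε hε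
    exact ⟨g', H g' hc, hg'⟩
  · intro g hg
    exact h3 g fun n => hg _ (mem_range_self n)

/-- the profiles with dense closed geodesics are dense in the `C^∞` topology -/
theorem s_dense_close {L : ℝ} (hL : 0 < L) (g : SphMetric L) (k : ℕ) (ε : ℝ) (hε : 0 < ε) :
    ∃ g' : SphMetric L, CkCloseS k ε g g' ∧ DenseS g' := by
  obtain ⟨N, hN, H⟩ := s_all_but_countable hL g
  obtain ⟨δ, hδ, H'⟩ := sshift_close hL g k ε hε
  obtain ⟨t, ht, htN⟩ : ∃ t ∈ Ioo (0:ℝ) δ, t ∉ N := by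
    by_contra hcon
    push Not at hcon
    exact (Cardinal.Real.Ioo_countable_iff.1 (hN.mono hcon)).not_gt hδ
  obtain ⟨hpos, hclose⟩ := H' t (by rw [abs_of_pos ht.1]; exact ht.2.le)
  exact ⟨g.shift t hpos, hclose, H t htN _ hpos fun _ => rfl⟩

end Pool.Agent.CGD
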