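import Pool.Agent.CGD.SDefs

set_option autoImplicit false

/-! Module STrapDyn: if `f = f0 cos(ω (x - r0))` near `r0` (a zone of a round sphere) and `ω f0` is irrational then the closed geodesics are not dense.

Same proof as module TrapDyn, simpler.  `cos(ω(x - r0)) ≠ 0` on `[r0-ρ, r0+ρ]` since `f > 0` there, so `|ω (x - r0)| < π/2` there (intermediate value theorem / `ρ` such that `ω ρ < π/2`).
`e1 = 1/f(r0 - ρ)² = 1/f(r0+ρ)² = 1/(f0² cos²(ωρ)) > 1/f0²`.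
The set `W = {((p,q),(u,v)) | p ≠ r0, |p - r0| < ρ, κ ≠ 0, u² + κ²/f(p)² < κ² e1}`, `κ = f(p)² v`, is open and contains `((p,0),(0,1))` for `p` near `r0`, `p ≠ r0`.  Claim: `W ∩ CS g = ∅`; then the point `((p,0),(0,1))` is not in the closure of `CS g`.
For a geodesic `(r, θ)` with initial vector in `W`: `κ = f(r)² θ'` is constant; `r'² + κ²/f(r)²` is constant (derivative `2 r' f f' θ'² - 2 κ² f' r'/f³ = 0`), so `< κ² e1`, so `r t ≠ r0 ± ρ`, `r t ∈ (r0-ρ, r0+ρ)`.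
`Z = tan(ω(r - r0))`, `D = f0 r'/κ`, `φ = ω f0 θ`: `φ' = ω κ/(f0 cos²)`, `Z' = ω r'/cos² = φ' D`, `D' = f0 r''/κ = -φ' Z` (`r'' = f f' θ'² = κ² f'/f³`, `f' = -f0 ω sin` on the open interval).
`W1 = Z cos φ - D sin φ`, `W2 = Z sin φ + D cos φ` constant.  Closed at `T > 0`: `θ T = θ 0 + 2πn`, `n ≠ 0` (`θ'` has the sign of `κ`), `φ T = φ 0 + 2π (ω f0 n)`, `cos(2π ω f0 n) ≠ 1` by `hirr`; so `Z 0 = D 0 = 0`, `p = r0`: contradiction. -/

namespace Pool.Agent.CGD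

open Set Filter Topology

private lemma strapDyn_abs_lt {L : ℝ} (g : SphMetric L) {r0 ρ f0 ω : ℝ} (hρ : 0 < ρ)
    (h0 : 0 < r0 - ρ) (hL : r0 + ρ < L) (hω : 0 < ω)
    (hf : ∀ x ∈ Icc (r0 - ρ) (r0 + ρ), g.f x = f0 * Real.cos (ω * (x - r0))) :
    ∀ x ∈ Icc (r0 - ρ) (r0 + ρ), |ω * (x - r0)| < Real.pi / 2 := by
  intro x hx
  by_contra hcon
  push Not at hcon
  have hcont : Continuous (fun z : ℝ => |ω * (z - r0)|) := by fun_prop
  have h00 : |ω * (r0 - r0)| = 0 := by simp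
  have hmem : Real.pi / 2 ∈ uIcc (|ω * (r0 - r0)|) (|ω * (x - r0)|) := by
    rw [h00, uIcc_of_le (le_trans (by positivity) hcon)]
    exact ⟨by positivity, hcon⟩
  obtain ⟨z, hz, hzz⟩ := intermediate_value_uIcc (a := r0) (b := x) hcont.continuousOn hmem
  have hz' : z ∈ Icc (r0 - ρ) (r0 + ρ) := by
    have h1 : r0 ∈ Icc (r0 - ρ) (r0 + ρ) := ⟨by linarith, by linarith⟩
    exact (uIcc_subset_Icc h1 hx) hz
  have h2 : Real.cos (ω * (z - r0)) = 0 := by
    rw [← Real.cos_abs]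
    simp only at hzz
    rw [hzz, Real.cos_pi_div_two]
  have h3 := hf z hz'
  rw [h2, mul_zero] at h3
  have := g.pos z (by linarith [hz'.1]) (by linarith [hz'.2])
  linarith

/-- the dynamics in the trap: no closed geodesic -/
private lemma strapDyn_noclosed {L : ℝ} (g : SphMetric L) {r0 ρ f0 ω : ℝ} (hρ : 0 < ρ)
    (h0 : 0 < r0 - ρ) (hL : r0 + ρ < L) (hf0 : 0 < f0) (hω : 0 < ω)
    (hf : ∀ x ∈ Icc (r0 - ρ) (r0 + ρ), g.f x = f0 * Real.cos (ω * (x - r0)))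
    (hirr : ∀ m n : ℤ, n ≠ 0 → ω * f0 * n ≠ m)
    {x y : ℝ → ℝ} (hg : IsGeodesicS g x y) {κ : ℝ}
    (hκ : ∀ t, g.f (x t) ^ 2 * deriv y t = κ) (hκ0 : κ ≠ 0)
    (hx0 : x 0 ≠ r0) (hin : ∀ t, x t ∈ Ioo (r0 - ρ) (r0 + ρ))
    {T : ℝ} (hT : 0 < T) {n : ℤ} (hxT : x T = x 0) (hyT : y T = y 0 + 2 * Real.pi * n)
    (hxT' : deriv x T = deriv x 0) : False := by
  have hxd : ∀ t, HasDerivAt x (deriv x t) t := fun t =>
    (hg.1.differentiable (by norm_num)).differentiableAt.hasDerivAt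
  have hyd : ∀ t, HasDerivAt y (deriv y t) t := fun t =>
    (hg.2.1.differentiable (by norm_num)).differentiableAt.hasDerivAt
  have hsub : Ioo (r0 - ρ) (r0 + ρ) ⊆ Icc (r0 - ρ) (r0 + ρ) := Ioo_subset_Icc_self
  have habs := strapDyn_abs_lt g hρ h0 hL hω hf
  have hcospos : ∀ z ∈ Icc (r0 - ρ) (r0 + ρ), 0 < Real.cos (ω * (z - r0)) := fun z hz =>
    Real.cos_pos_of_mem_Ioo (abs_lt.mp (habs z hz))
  have hdf : ∀ z ∈ Ioo (r0 - ρ) (r0 + ρ), deriv g.f z = -(f0 * ω * Real.sin (ω * (z - r0))) := by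
    intro z hz
    have h1 : HasDerivAt (fun w => f0 * Real.cos (ω * (w - r0)))
        (f0 * (-Real.sin (ω * (z - r0)) * (ω * 1))) z :=
      (((hasDerivAt_id z).sub_const r0).const_mul ω).cos.const_mul f0
    have h2 : g.f =ᶠ[𝓝 z] (fun w => f0 * Real.cos (ω * (w - r0))) := by
      filter_upwards [Ioo_mem_nhds hz.1 hz.2] with w hw
      exact hf w (hsub hw)
    rw [(h1.congr_of_eventuallyEq h2).deriv]
    ring
  have hy' : ∀ t, deriv y t = κ / (f0 * Real.cos (ω * (x t - r0))) ^ 2 := by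
    intro t
    have hcz := hcospos _ (hsub (hin t))
    rw [← hf _ (hsub (hin t)), ← hκ t]
    have : g.f (x t) ≠ 0 := by
      rw [hf _ (hsub (hin t))]; positivity
    field_simp
  set Z : ℝ → ℝ := fun t => Real.tan (ω * (x t - r0)) with hZ
  set D : ℝ → ℝ := fun t => f0 * deriv x t / κ with hD
  set φ : ℝ → ℝ := fun t => ω * f0 * y t with hφ
  set φ' : ℝ → ℝ := fun t => ω * κ / (f0 * Real.cos (ω * (x t - r0)) ^ 2) with hφ'
  have hφd : ∀ t, HasDerivAt φ (φ' t) t := by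
    intro t
    have hcz := hcospos _ (hsub (hin t))
    have h1 := (hyd t).const_mul (ω * f0)
    refine h1.congr_deriv ?_
    rw [hy' t]
    simp only [hφ']
    field_simp
  have hZd : ∀ t, HasDerivAt Z (φ' t * D t) t := by
    intro t
    have hcz := hcospos _ (hsub (hin t))
    have h1 := (Real.hasDerivAt_tan hcz.ne').comp t (((hxd t).sub_const r0).const_mul ω)
    refine h1.congr_deriv ?_
    simp only [hφ', hD]
    field_simp
  have hDd : ∀ t, HasDerivAt D (-(φ' t * Z t)) t := by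
    intro t
    have hcz := hcospos _ (hsub (hin t))
    have h1 := ((hg.2.2 t).2.1.const_mul f0).div_const κ
    refine h1.congr_deriv ?_
    rw [hdf _ (hin t), hf _ (hsub (hin t)), hy' t]
    simp only [hφ', hZ]
    rw [Real.tan_eq_sin_div_cos]
    field_simp
  have hW1 : ∀ t, HasDerivAt (fun t => Z t * Real.cos (φ t) - D t * Real.sin (φ t)) 0 t := by
    intro t
    have h1 := ((hZd t).mul (hφd t).cos).sub ((hDd t).mul (hφd t).sin)
    exact h1.congr_deriv (by ring)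
  have hW2 : ∀ t, HasDerivAt (fun t => Z t * Real.sin (φ t) + D t * Real.cos (φ t)) 0 t := by
    intro t
    have h1 := ((hZd t).mul (hφd t).sin).add ((hDd t).mul (hφd t).cos)
    exact h1.congr_deriv (by ring)
  have hc1 := is_const_of_deriv_eq_zero (fun t => (hW1 t).differentiableAt)
    (fun t => (hW1 t).deriv) T 0
  have hc2 := is_const_of_deriv_eq_zero (fun t => (hW2 t).differentiableAt)
    (fun t => (hW2 t).deriv) T 0
  have hZT : Z T = Z 0 := by simp only [hZ, hxT]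
  have hDT : D T = D 0 := by simp only [hD, hxT']
  set θ : ℝ := ω * f0 * (2 * Real.pi * n) with hθ
  have hφT : φ T = φ 0 + θ := by
    simp only [hφ, hyT, hθ]
    ring
  have hn0 : n ≠ 0 := by
    intro h0
    have h1 : φ T = φ 0 := by rw [hφT, hθ, h0]; simp
    obtain ⟨t, -, ht⟩ := exists_hasDerivAt_eq_zero (f := φ) (f' := φ') hT
      (fun t _ => (hφd t).continuousAt.continuousWithinAt) h1.symm (fun t _ => hφd t)
    have hcz := hcospos _ (hsub (hin t))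
    simp only [hφ'] at ht
    rw [div_eq_zero_iff] at ht
    rcases ht with h | h
    · exact (mul_ne_zero hω.ne' hκ0) h
    · exact absurd h (by positivity)
  have hcosθ : Real.cos θ ≠ 1 := by
    intro h
    obtain ⟨k, hk⟩ := (Real.cos_eq_one_iff θ).mp h
    refine hirr k n hn0 ?_
    have h1 : (k : ℝ) * (2 * Real.pi) = ω * f0 * n * (2 * Real.pi) := by rw [hk, hθ]; ring
    exact (mul_right_cancel₀ (by positivity) h1).symm
  rw [hZT, hDT, hφT, Real.cos_add, Real.sin_add] at hc1 hc2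
  set A := Z 0 * Real.cos (φ 0) - D 0 * Real.sin (φ 0) with hA
  set B := Z 0 * Real.sin (φ 0) + D 0 * Real.cos (φ 0) with hBdef
  have e1 : A * (Real.cos θ - 1) = B * Real.sin θ := by
    rw [hA, hBdef]
    rw [hA] at hc1
    linarith [hc1]
  have e2 : B * (Real.cos θ - 1) = -(A * Real.sin θ) := by
    rw [hA, hBdef]
    rw [hBdef] at hc2
    linarith [hc2]
  have e3 : (A ^ 2 + B ^ 2) * (Real.cos θ - 1) = 0 := by
    linear_combination A * e1 + B * e2
  have e4 : A ^ 2 + B ^ 2 = 0 := by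
    rcases mul_eq_zero.mp e3 with h | h
    · exact h
    · exact absurd (by linarith) hcosθ
  have e5 : Z 0 ^ 2 + D 0 ^ 2 = 0 := by
    have h1 := Real.sin_sq_add_cos_sq (φ 0)
    rw [hA, hBdef] at e4
    linear_combination e4 - (Z 0 ^ 2 + D 0 ^ 2) * h1
  have e6 : Z 0 = 0 := by
    have : Z 0 ^ 2 = 0 := le_antisymm (by nlinarith [sq_nonneg (D 0)]) (sq_nonneg _)
    exact pow_eq_zero_iff (two_ne_zero) |>.mp this
  have hcz := hcospos _ (hsub (hin 0))
  have habs0 := habs _ (hsub (hin 0))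
  have e7 : Real.sin (ω * (x 0 - r0)) = 0 := by
    simp only [hZ] at e6
    rw [Real.tan_eq_sin_div_cos, div_eq_zero_iff] at e6
    rcases e6 with h | h
    · exact h
    · exact absurd h hcz.ne'
  have e8 : ω * (x 0 - r0) = 0 := by
    have h1 := abs_lt.mp habs0
    exact (Real.sin_eq_zero_iff_of_lt_of_lt (by linarith [h1.1, Real.pi_pos])
      (by linarith [h1.2, Real.pi_pos])).mp e7
  have e9 : x 0 - r0 = 0 := (mul_eq_zero.mp e8).resolve_left hω.ne'
  exact hx0 (by linarith)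

theorem strap {L : ℝ} (g : SphMetric L) {r0 ρ f0 ω : ℝ} (hρ : 0 < ρ) (h0 : 0 < r0 - ρ)
    (hL : r0 + ρ < L) (hf0 : 0 < f0) (hω : 0 < ω)
    (hf : ∀ x ∈ Icc (r0 - ρ) (r0 + ρ), g.f x = f0 * Real.cos (ω * (x - r0)))
    (hirr : ∀ m n : ℤ, n ≠ 0 → ω * f0 * n ≠ m) : ¬ DenseS g := by
  intro hD
  have habs := strapDyn_abs_lt g hρ h0 hL hω hf
  have hfc : Continuous g.f := g.smooth.continuous
  have hfd : ∀ z, HasDerivAt g.f (deriv g.f z) z := fun z =>
    (g.smooth.differentiable (by simp) z).hasDerivAt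
  have hr1 : r0 + ρ ∈ Icc (r0 - ρ) (r0 + ρ) := ⟨by linarith, le_refl _⟩
  have hr2 : r0 - ρ ∈ Icc (r0 - ρ) (r0 + ρ) := ⟨le_refl _, by linarith⟩
  have hr3 : r0 ∈ Icc (r0 - ρ) (r0 + ρ) := ⟨by linarith, by linarith⟩
  have hωρ : 0 < ω * ρ := mul_pos hω hρ
  have hlt : ω * ρ < Real.pi / 2 := by
    have := habs _ hr1
    rw [show ω * (r0 + ρ - r0) = ω * ρ by ring, abs_of_pos hωρ] at this
    exact this
  have hc1 : 0 < Real.cos (ω * ρ) := Real.cos_pos_of_mem_Ioo ⟨by linarith [Real.pi_pos], hlt⟩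
  have hc2 : Real.cos (ω * ρ) < 1 := by
    have := Real.cos_lt_cos_of_nonneg_of_le_pi_div_two (x := 0) (y := ω * ρ) le_rfl hlt.le hωρ
    rwa [Real.cos_zero] at this
  have f1 : g.f (r0 + ρ) = f0 * Real.cos (ω * ρ) := by
    rw [hf _ hr1]; congr 2; ring
  have f2 : g.f (r0 - ρ) = f0 * Real.cos (ω * ρ) := by
    rw [hf _ hr2, show ω * (r0 - ρ - r0) = -(ω * ρ) by ring, Real.cos_neg]
  have f3 : g.f r0 = f0 := by
    rw [hf _ hr3]; simp
  set e1 : ℝ := 1 / (f0 * Real.cos (ω * ρ)) ^ 2 with he1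
  have he1f : e1 * (f0 * Real.cos (ω * ρ)) ^ 2 = 1 := by
    rw [he1]; field_simp
  have he0 : 1 < e1 * g.f r0 ^ 2 := by
    rw [f3, he1, one_div, inv_mul_eq_div, lt_div_iff₀ (by positivity), one_mul]
    have : f0 * Real.cos (ω * ρ) < f0 := by nlinarith
    have h4 : 0 < f0 * Real.cos (ω * ρ) := by positivity
    nlinarith
  let K : ((ℝ × ℝ) × (ℝ × ℝ)) → ℝ := fun w => g.f w.1.1 ^ 2 * w.2.2
  have hf1 : Continuous (fun w : (ℝ × ℝ) × (ℝ × ℝ) => w.1.1) := continuous_fst.fst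
  have hfw : Continuous (fun w : (ℝ × ℝ) × (ℝ × ℝ) => g.f w.1.1) := hfc.comp hf1
  have hK : Continuous K := (hfw.pow 2).mul continuous_snd.snd
  let W : Set ((ℝ × ℝ) × (ℝ × ℝ)) := {w | w.1.1 ≠ r0 ∧ |w.1.1 - r0| < ρ ∧ K w ≠ 0 ∧
    w.2.1 ^ 2 * g.f w.1.1 ^ 2 + K w ^ 2 < K w ^ 2 * (e1 * g.f w.1.1 ^ 2)}
  have hWo : IsOpen W := by
    have o1 : IsOpen {w : (ℝ × ℝ) × (ℝ × ℝ) | w.1.1 ≠ r0} := isOpen_ne_fun hf1 continuous_const
    have o2 : IsOpen {w : (ℝ × ℝ) × (ℝ × ℝ) | |w.1.1 - r0| < ρ} :=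
      isOpen_lt ((hf1.sub continuous_const).abs) continuous_const
    have o3 : IsOpen {w : (ℝ × ℝ) × (ℝ × ℝ) | K w ≠ 0} := isOpen_ne_fun hK continuous_const
    have o4 : IsOpen {w : (ℝ × ℝ) × (ℝ × ℝ) |
        w.2.1 ^ 2 * g.f w.1.1 ^ 2 + K w ^ 2 < K w ^ 2 * (e1 * g.f w.1.1 ^ 2)} :=
      isOpen_lt (((continuous_snd.fst.pow 2).mul (hfw.pow 2)).add (hK.pow 2))
        ((hK.pow 2).mul (continuous_const.mul (hfw.pow 2)))
    exact o1.inter (o2.inter (o3.inter o4))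
  obtain ⟨p, hpne, hpρ, hpe⟩ : ∃ p, p ≠ r0 ∧ |p - r0| < ρ ∧ 1 < e1 * g.f p ^ 2 := by
    have h1 : ∀ᶠ p in 𝓝[≠] r0, |p - r0| < ρ ∧ 1 < e1 * g.f p ^ 2 := by
      apply Filter.Eventually.filter_mono nhdsWithin_le_nhds
      refine Filter.Eventually.and ?_ ?_
      · have : Continuous (fun p : ℝ => |p - r0|) := (continuous_id.sub continuous_const).abs
        exact this.continuousAt.eventually_lt continuousAt_const (by simpa using hρ)
      · have : Continuous (fun p : ℝ => e1 * g.f p ^ 2) := continuous_const.mul (hfc.pow 2)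
        exact continuousAt_const.eventually_lt this.continuousAt he0
    obtain ⟨p, hp, hpne⟩ := (h1.and self_mem_nhdsWithin).exists
    exact ⟨p, hpne, hp.1, hp.2⟩
  have hp' := abs_lt.mp hpρ
  have hp0 : 0 < p := by linarith [hp'.1]
  have hpL : p < L := by linarith [hp'.2]
  have hfp := g.pos p hp0 hpL
  have hpW : (((p, 0), (0, 1)) : (ℝ × ℝ) × (ℝ × ℝ)) ∈ W := by
    refine ⟨hpne, hpρ, ?_, ?_⟩
    · simp only [K, mul_one]; positivity
    · simp only [K, mul_one]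
      have h4 : 0 < (g.f p ^ 2) ^ 2 := by positivity
      nlinarith
  obtain ⟨w, hwW, hwC⟩ := (mem_closure_iff.1 (hD ((p, 0), (0, 1)) hp0 hpL)) W hWo hpW
  obtain ⟨hw1, hw2, hw3, hw4⟩ := hwW
  obtain ⟨-, x, y, hgeo, hx, hy, hx', hy', T, hT, n, hxT, hyT, hxT', hyT'⟩ := hwC
  have hκc := is_const_of_deriv_eq_zero (f := fun s => g.f (x s) ^ 2 * deriv y s)
    (fun t => ((hgeo.2.2 t).2.2).differentiableAt) (fun t => ((hgeo.2.2 t).2.2).deriv)
  have hκ : ∀ t, g.f (x t) ^ 2 * deriv y t = K w := by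
    intro t
    have h1 := hκc t 0
    rw [h1, hx, hy']
  have hxd : ∀ t, HasDerivAt x (deriv x t) t := fun t =>
    (hgeo.1.differentiable (by norm_num)).differentiableAt.hasDerivAt
  have hfx : ∀ t, 0 < g.f (x t) := fun t => g.pos _ (hgeo.2.2 t).1.1 (hgeo.2.2 t).1.2
  have hEd : ∀ t, HasDerivAt (fun s => deriv x s ^ 2 + K w ^ 2 * (g.f (x s) ^ 2)⁻¹) 0 t := by
    intro t
    have hfxt := hfx t
    have h1 := ((hgeo.2.2 t).2.1).pow 2
    have h2 := ((((hfd (x t)).comp t (hxd t)).pow 2).inv (by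
      simp only [Pi.pow_apply, Function.comp_apply]; positivity)).const_mul (K w ^ 2)
    refine (h1.add h2).congr_deriv ?_
    simp only [Nat.cast_ofNat, Nat.reduceSub, pow_one, Pi.pow_apply, Function.comp_apply]
    rw [← hκ t]
    field_simp
    ring
  have hEc := is_const_of_deriv_eq_zero (fun t => (hEd t).differentiableAt)
    (fun t => (hEd t).deriv)
  have hne : ∀ t, 1 < e1 * g.f (x t) ^ 2 := by
    intro t
    have h1 := hEc t 0
    rw [hx, hx'] at h1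
    have hfw1 : 0 < g.f w.1.1 := by rw [← hx]; exact hfx 0
    have hfxt := hfx t
    have hK2 : 0 < K w ^ 2 := by positivity
    have h2 : w.2.1 ^ 2 + K w ^ 2 * (g.f w.1.1 ^ 2)⁻¹ < K w ^ 2 * e1 := by
      have h3 : (w.2.1 ^ 2 + K w ^ 2 * (g.f w.1.1 ^ 2)⁻¹) * g.f w.1.1 ^ 2 <
          (K w ^ 2 * e1) * g.f w.1.1 ^ 2 := by
        have : (w.2.1 ^ 2 + K w ^ 2 * (g.f w.1.1 ^ 2)⁻¹) * g.f w.1.1 ^ 2 =
            w.2.1 ^ 2 * g.f w.1.1 ^ 2 + K w ^ 2 := by field_simp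
        rw [this]
        linarith
      exact lt_of_mul_lt_mul_right h3 (by positivity)
    have h4 : K w ^ 2 * (g.f (x t) ^ 2)⁻¹ < K w ^ 2 * e1 := by
      nlinarith [sq_nonneg (deriv x t)]
    have h5 : (g.f (x t) ^ 2)⁻¹ < e1 := lt_of_mul_lt_mul_left h4 hK2.le
    have h6 : (g.f (x t) ^ 2)⁻¹ * g.f (x t) ^ 2 = 1 := by field_simp
    rw [← h6]
    exact mul_lt_mul_of_pos_right h5 (by positivity)
  have hxc : Continuous x := hgeo.1.continuous
  have hin : ∀ t, x t ∈ Ioo (r0 - ρ) (r0 + ρ) := by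
    intro t
    have h00 : x 0 ∈ Ioo (r0 - ρ) (r0 + ρ) := by
      rw [hx]
      have := abs_lt.mp hw2
      exact ⟨by linarith [this.1], by linarith [this.2]⟩
    by_contra hcon
    have hcase : x t ≤ r0 - ρ ∨ r0 + ρ ≤ x t := by
      by_contra hc2
      push Not at hc2
      exact hcon ⟨hc2.1, hc2.2⟩
    rcases hcase with h | h
    · have hmem : r0 - ρ ∈ uIcc (x 0) (x t) := by
        rw [uIcc_of_ge (h.trans h00.1.le)]
        exact ⟨h, h00.1.le⟩
      obtain ⟨s, -, hs⟩ := intermediate_value_uIcc (a := 0) (b := t) hxc.continuousOn hmem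
      have h2 := hne s
      rw [hs, f2, he1f] at h2
      exact lt_irrefl _ h2
    · have hmem : r0 + ρ ∈ uIcc (x 0) (x t) := by
        rw [uIcc_of_le (h00.2.le.trans h)]
        exact ⟨h00.2.le, h⟩
      obtain ⟨s, -, hs⟩ := intermediate_value_uIcc (a := 0) (b := t) hxc.continuousOn hmem
      have h2 := hne s
      rw [hs, f1, he1f] at h2
      exact lt_irrefl _ h2
  exact strapDyn_noclosed g hρ h0 hL hf0 hω hf hirr hgeo hκ hw3 (by rw [hx]; exact hw1) hin hT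
    (by rw [hxT, hx]) (by rw [hyT, hy]) (by rw [hxT', hx'])

end Pool.Agent.CGD
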