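import Pool.Agent.CGD.GeoRed

set_option autoImplicit false

/-! Module TrapDyn: if `c = c0 cos²(ω σ)` near `x0` (`σ' = μ`, `σ(x0) = 0`: a zone isometric to a zone of a round sphere) and `ω √c0 / 2π` is irrational then no
vector close to the equatorial vector `((x0,0),(0,1))` with base point `p ≠ x0` is tangent to a closed geodesic. -/

namespace Pool.Agent.CGD

open Set Filter Topology

private lemma trapDyn_abs_lt (g : InvMetric) {x0 r c0 ω : ℝ} (hr : 0 < r) (hω : 0 < ω)
    {σ : ℝ → ℝ} (hσ : ∀ x, HasDerivAt σ (g.mu x) x) (hσ0 : σ x0 = 0)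
    (hc : ∀ x ∈ Icc (x0 - r) (x0 + r), g.c x = c0 * Real.cos (ω * σ x) ^ 2) :
    ∀ x ∈ Icc (x0 - r) (x0 + r), |ω * σ x| < Real.pi / 2 := by
  intro x hx
  by_contra hcon
  push Not at hcon
  have hcont : Continuous (fun z => |ω * σ z|) := by
    have : Continuous σ := continuous_iff_continuousAt.mpr fun z => (hσ z).continuousAt
    exact (continuous_const.mul this).abs
  have h0 : |ω * σ x0| = 0 := by rw [hσ0]; simp
  have hmem : Real.pi / 2 ∈ uIcc (|ω * σ x0|) (|ω * σ x|) := by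
    rw [h0, uIcc_of_le (le_trans (by positivity) hcon)]
    exact ⟨by positivity, hcon⟩
  obtain ⟨z, hz, hzz⟩ := intermediate_value_uIcc (a := x0) (b := x) hcont.continuousOn hmem
  have hz' : z ∈ Icc (x0 - r) (x0 + r) := by
    have h1 : x0 ∈ Icc (x0 - r) (x0 + r) := ⟨by linarith, by linarith⟩
    exact (uIcc_subset_Icc h1 hx) hz
  have h2 : Real.cos (ω * σ z) = 0 := by
    rw [← Real.cos_abs]
    simp only at hzz
    rw [hzz, Real.cos_pi_div_two]
  have h3 := hc z hz'
  rw [h2] at h3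
  have := g.pos_c z
  rw [h3] at this
  simp at this

/-- the dynamics in the trap: no closed geodesic -/
private lemma trapDyn_noclosed (g : InvMetric) {x0 r c0 ω : ℝ} (hr : 0 < r) (hr' : r < 1 / 2)
    (hc0 : 0 < c0)
    (hω : 0 < ω) {σ : ℝ → ℝ} (hσ : ∀ x, HasDerivAt σ (g.mu x) x) (hσ0 : σ x0 = 0)
    (hc : ∀ x ∈ Icc (x0 - r) (x0 + r), g.c x = c0 * Real.cos (ω * σ x) ^ 2)
    (hirr : ∀ m n : ℤ, n ≠ 0 → ω * √c0 * n ≠ 2 * Real.pi * m)
    {x y : ℝ → ℝ} (hg : IsGeodesic g x y) {κ : ℝ}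
    (hκ : κ = g.b (x 0) * deriv x 0 + g.c (x 0) * deriv y 0) (hκ0 : κ ≠ 0)
    (hx0 : x 0 ≠ x0) (hin : ∀ t, x t ∈ Ioo (x0 - r) (x0 + r))
    {T : ℝ} (hT : 0 < T) {m n : ℤ} (hxT : x T = x 0 + m) (hyT : y T = y 0 + n)
    (hxT' : deriv x T = deriv x 0) : False := by
  have hxd : ∀ t, HasDerivAt x (deriv x t) t := fun t =>
    (hg.1.differentiable (by norm_num)).differentiableAt.hasDerivAt
  have hyd : ∀ t, HasDerivAt y (deriv y t) t := fun t =>
    (hg.2.1.differentiable (by norm_num)).differentiableAt.hasDerivAt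
  have hsub : Ioo (x0 - r) (x0 + r) ⊆ Icc (x0 - r) (x0 + r) := Ioo_subset_Icc_self
  have habs := trapDyn_abs_lt g hr hω hσ hσ0 hc
  have hcospos : ∀ z ∈ Icc (x0 - r) (x0 + r), 0 < Real.cos (ω * σ z) := fun z hz =>
    Real.cos_pos_of_mem_Ioo (abs_lt.mp (habs z hz))
  have hs : 0 < √c0 := Real.sqrt_pos.mpr hc0
  have hss : √c0 * √c0 = c0 := Real.mul_self_sqrt hc0.le
  -- the derivative of `hh`
  have hdd : ∀ z ∈ Ioo (x0 - r) (x0 + r),
      g.dd z = 2 * ω * g.mu z * Real.sin (ω * σ z) / (c0 * Real.cos (ω * σ z) ^ 3) := by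
    intro z hz
    have hcz := hcospos z (hsub hz)
    have h1 : HasDerivAt (fun w => 1 / (c0 * Real.cos (ω * σ w) ^ 2))
        (2 * ω * g.mu z * Real.sin (ω * σ z) / (c0 * Real.cos (ω * σ z) ^ 3)) z := by
      have h2 : HasDerivAt (fun w => Real.cos (ω * σ w))
          (-Real.sin (ω * σ z) * (ω * g.mu z)) z := ((hσ z).const_mul ω).cos
      have h3 := (h2.pow 2).const_mul c0
      have h4 : c0 * Real.cos (ω * σ z) ^ 2 ≠ 0 := by positivity
      have h5 := h3.inv h4
      have h6 : (fun w => 1 / (c0 * Real.cos (ω * σ w) ^ 2))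
          = (fun w => c0 * (fun w => Real.cos (ω * σ w)) w ^ 2)⁻¹ := by
        funext w
        simp
      rw [h6]
      refine h5.congr_deriv ?_
      simp only [Nat.cast_ofNat, Nat.reduceSub, pow_one, Pi.pow_apply]
      field_simp
    have h2 : g.hh =ᶠ[𝓝 z] (fun w => 1 / (c0 * Real.cos (ω * σ w) ^ 2)) := by
      filter_upwards [Ioo_mem_nhds hz.1 hz.2] with w hw
      rw [InvMetric.hh, hc w (hsub hw)]
    exact (g.hh_deriv z).unique (h1.congr_of_eventuallyEq h2)
  -- primitive of `bb`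
  have hB : ∀ z, HasDerivAt (fun u => ∫ s in (0:ℝ)..u, g.bb s) (g.bb z) z := fun z =>
    (g.bb_smooth.continuous.integral_hasStrictDerivAt 0 z).hasDerivAt
  set Bt : ℝ → ℝ := fun u => ∫ s in (0:ℝ)..u, g.bb s with hBt
  set Z : ℝ → ℝ := fun t => Real.tan (ω * σ (x t)) with hZ
  set D : ℝ → ℝ := fun t => √c0 * (g.mu (x t) * deriv x t) / κ with hD
  set φ : ℝ → ℝ := fun t => ω * √c0 * (y t + Bt (x t)) with hφ
  set φ' : ℝ → ℝ := fun t => ω * κ / (√c0 * Real.cos (ω * σ (x t)) ^ 2) with hφ'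
  have hφd : ∀ t, HasDerivAt φ (φ' t) t := by
    intro t
    have h1 := ((hyd t).add ((hB (x t)).comp t (hxd t))).const_mul (ω * √c0)
    have h2 := geo_kappa hg t
    rw [← hκ] at h2
    have hcz := hcospos _ (hsub (hin t))
    have h3 := hc _ (hsub (hin t))
    have h4 := g.pos_c (x t)
    have h5 : φ' t = ω * √c0 * (deriv y t + g.bb (x t) * deriv x t) := by
      simp only [hφ']
      have h6 : deriv y t + g.bb (x t) * deriv x t = κ / g.c (x t) := by
        rw [InvMetric.bb, ← h2]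
        field_simp
        ring
      rw [h6, h3]
      field_simp
      rw [sq, hss]
    rw [h5]
    exact h1
  have hZd : ∀ t, HasDerivAt Z (φ' t * D t) t := by
    intro t
    have hcz := hcospos _ (hsub (hin t))
    have h1 := (Real.hasDerivAt_tan hcz.ne').comp t (((hσ (x t)).comp t (hxd t)).const_mul ω)
    refine h1.congr_deriv ?_
    simp only [hφ', hD]
    field_simp
  have hDd : ∀ t, HasDerivAt D (-(φ' t * Z t)) t := by
    intro t
    have hcz := hcospos _ (hsub (hin t))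
    have hmu := g.mu_pos (x t)
    have h1 := ((geo_U hg hκ t).const_mul (√c0)).div_const κ
    refine h1.congr_deriv ?_
    rw [hdd _ (hin t)]
    simp only [hφ', hZ]
    rw [Real.tan_eq_sin_div_cos]
    field_simp
    rw [Real.sq_sqrt hc0.le]
    ring
  have hW1 : ∀ t, HasDerivAt (fun t => Z t * Real.cos (φ t) - D t * Real.sin (φ t)) 0 t := by
    intro t
    have h1 := ((hZd t).mul (hφd t).cos).sub ((hDd t).mul (hφd t).sin)
    exact h1.congr_deriv (by ring)
  have hW2 : ∀ t, HasDerivAt (fun t => Z t * Real.sin (φ t) + D t * Real.cos (φ t)) 0 t := by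
    intro t
    have h1 := ((hZd t).mul (hφd t).sin).add ((hDd t).mul (hφd t).cos)
    exact h1.congr_deriv (by ring)
  have hc1 := is_const_of_deriv_eq_zero (fun t => (hW1 t).differentiableAt)
    (fun t => (hW1 t).deriv) T 0
  have hc2 := is_const_of_deriv_eq_zero (fun t => (hW2 t).differentiableAt)
    (fun t => (hW2 t).deriv) T 0
  -- `m = 0`
  have hm0 : m = 0 := by
    have h1 := hin T
    have h2 := hin 0
    rw [hxT] at h1
    have h3 : (m : ℝ) < 1 := by linarith [h1.2, h2.1]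
    have h4 : (-1 : ℝ) < m := by linarith [h1.1, h2.2]
    have h5 : m < 1 := by exact_mod_cast h3
    have h6 : -1 < m := by exact_mod_cast h4
    omega
  rw [hm0, Int.cast_zero, add_zero] at hxT
  have hZT : Z T = Z 0 := by simp only [hZ, hxT]
  have hDT : D T = D 0 := by simp only [hD, hxT, hxT']
  set θ : ℝ := ω * √c0 * n with hθ
  have hφT : φ T = φ 0 + θ := by
    simp only [hφ, hxT, hyT, hθ]
    ring
  have hn0 : n ≠ 0 := by
    intro h0
    have h1 : φ T = φ 0 := by rw [hφT, hθ, h0]; simp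
    obtain ⟨t, -, ht⟩ := exists_hasDerivAt_eq_zero (f := φ) (f' := φ') hT
      (fun t _ => (hφd t).continuousAt.continuousWithinAt) h1.symm (fun t _ => hφd t)
    have hcz := hcospos _ (hsub (hin t))
    simp only [hφ'] at ht
    rw [div_eq_zero_iff] at ht
    rcases ht with h | h
    · exact (mul_ne_zero hω.ne' hκ0) h
    · exact absurd h (by positivity)
  have hcosθ : Real.cos θ ≠ 1 := by
    intro h
    obtain ⟨k, hk⟩ := (Real.cos_eq_one_iff θ).mp h
    refine hirr k n hn0 ?_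
    rw [← hθ, ← hk]
    ring
  rw [hZT, hDT, hφT, Real.cos_add, Real.sin_add] at hc1 hc2
  set A := Z 0 * Real.cos (φ 0) - D 0 * Real.sin (φ 0) with hA
  set B := Z 0 * Real.sin (φ 0) + D 0 * Real.cos (φ 0) with hBdef
  have e1 : A * (Real.cos θ - 1) = B * Real.sin θ := by
    rw [hA, hBdef]
    rw [hA] at hc1
    linarith [hc1]
  have e2 : B * (Real.cos θ - 1) = -(A * Real.sin θ) := by
    rw [hA, hBdef]
    rw [hBdef] at hc2
    linarith [hc2]
  have e3 : (A ^ 2 + B ^ 2) * (Real.cos θ - 1) = 0 := by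
    linear_combination A * e1 + B * e2
  have e4 : A ^ 2 + B ^ 2 = 0 := by
    rcases mul_eq_zero.mp e3 with h | h
    · exact h
    · exact absurd (by linarith) hcosθ
  have e5 : Z 0 ^ 2 + D 0 ^ 2 = 0 := by
    have h1 := Real.sin_sq_add_cos_sq (φ 0)
    rw [hA, hBdef] at e4
    linear_combination e4 - (Z 0 ^ 2 + D 0 ^ 2) * h1
  have e6 : Z 0 = 0 := by
    have : Z 0 ^ 2 = 0 := le_antisymm (by nlinarith [sq_nonneg (D 0)]) (sq_nonneg _)
    exact pow_eq_zero_iff (two_ne_zero) |>.mp this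
  have hcz := hcospos _ (hsub (hin 0))
  have habs0 := habs _ (hsub (hin 0))
  have e7 : Real.sin (ω * σ (x 0)) = 0 := by
    simp only [hZ] at e6
    rw [Real.tan_eq_sin_div_cos, div_eq_zero_iff] at e6
    rcases e6 with h | h
    · exact h
    · exact absurd h hcz.ne'
  have e8 : ω * σ (x 0) = 0 := by
    have h1 := abs_lt.mp habs0
    exact (Real.sin_eq_zero_iff_of_lt_of_lt (by linarith [h1.1, Real.pi_pos])
      (by linarith [h1.2, Real.pi_pos])).mp e7
  have e9 : σ (x 0) = 0 := (mul_eq_zero.mp e8).resolve_left hω.ne'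
  have hmono : StrictMono σ := strictMono_of_deriv_pos fun z => by
    rw [(hσ z).deriv]; exact g.mu_pos z
  exact hx0 (hmono.injective (by rw [e9, hσ0]))

theorem trap (g : InvMetric) {x0 r c0 ω : ℝ} (hr : 0 < r) (hr' : r < 1 / 2) (hc0 : 0 < c0)
    (hω : 0 < ω) {σ : ℝ → ℝ} (hσ : ∀ x, HasDerivAt σ (g.mu x) x) (hσ0 : σ x0 = 0)
    (hc : ∀ x ∈ Icc (x0 - r) (x0 + r), g.c x = c0 * Real.cos (ω * σ x) ^ 2)
    (hirr : ∀ m n : ℤ, n ≠ 0 → ω * √c0 * n ≠ 2 * Real.pi * m) : ¬ Dense (CG g) := by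
  intro hD
  have habs := trapDyn_abs_lt g hr hω hσ hσ0 hc
  have hmono : StrictMono σ := strictMono_of_deriv_pos fun z => by
    rw [(hσ z).deriv]; exact g.mu_pos z
  have hmuc : Continuous g.mu := g.mu_smooth.continuous
  have hhc : Continuous g.hh := g.hh_smooth.continuous
  have hbc : Continuous g.b := g.smooth_b.continuous
  have hcc : Continuous g.c := g.smooth_c.continuous
  have hh0 : g.hh x0 = 1 / c0 := by
    rw [InvMetric.hh, hc x0 ⟨by linarith, by linarith⟩, hσ0]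
    simp
  -- at the two ends
  have hend : ∀ z ∈ Icc (x0 - r) (x0 + r), z ≠ x0 → g.hh x0 < g.hh z := by
    intro z hz hne
    have hz0 : ω * σ z ≠ 0 := by
      apply mul_ne_zero hω.ne'
      intro h
      exact hne (hmono.injective (by rw [h, hσ0]))
    have h1 := habs z hz
    have h2 : 0 < Real.cos (ω * σ z) := Real.cos_pos_of_mem_Ioo (abs_lt.mp h1)
    have h3 : Real.cos (ω * σ z) < 1 := by
      rcases lt_or_eq_of_le (Real.cos_le_one (ω * σ z)) with h | h
      · exact h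
      · exfalso
        have h4 := abs_lt.mp h1
        exact hz0 ((Real.cos_eq_one_iff_of_lt_of_lt (by linarith [h4.1, Real.pi_pos])
          (by linarith [h4.2, Real.pi_pos])).mp h)
    rw [hh0, InvMetric.hh, hc z hz]
    apply one_div_lt_one_div_of_lt (by positivity)
    have : Real.cos (ω * σ z) ^ 2 < 1 := by nlinarith
    nlinarith
  set e1 : ℝ := min (g.hh (x0 - r)) (g.hh (x0 + r)) with he1
  have he : g.hh x0 < e1 := lt_min (hend _ ⟨le_refl _, by linarith⟩ (by linarith))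
    (hend _ ⟨by linarith, le_refl _⟩ (by linarith))
  let K : ((ℝ × ℝ) × (ℝ × ℝ)) → ℝ := fun w => g.b w.1.1 * w.2.1 + g.c w.1.1 * w.2.2
  have hK : Continuous K := by
    have h1 : Continuous (fun w : (ℝ × ℝ) × (ℝ × ℝ) => w.1.1) := continuous_fst.fst
    exact ((hbc.comp h1).mul continuous_snd.fst).add ((hcc.comp h1).mul continuous_snd.snd)
  have hf1 : Continuous (fun w : (ℝ × ℝ) × (ℝ × ℝ) => w.1.1) := continuous_fst.fst
  let W : Set ((ℝ × ℝ) × (ℝ × ℝ)) := {w | w.1.1 ≠ x0 ∧ |w.1.1 - x0| < r ∧ K w ≠ 0 ∧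
    (g.mu w.1.1 * w.2.1) ^ 2 + K w ^ 2 * g.hh w.1.1 < K w ^ 2 * e1}
  have hWo : IsOpen W := by
    have o1 : IsOpen {w : (ℝ × ℝ) × (ℝ × ℝ) | w.1.1 ≠ x0} := isOpen_ne_fun hf1 continuous_const
    have o2 : IsOpen {w : (ℝ × ℝ) × (ℝ × ℝ) | |w.1.1 - x0| < r} :=
      isOpen_lt ((hf1.sub continuous_const).abs) continuous_const
    have o3 : IsOpen {w : (ℝ × ℝ) × (ℝ × ℝ) | K w ≠ 0} := isOpen_ne_fun hK continuous_const
    have o4 : IsOpen {w : (ℝ × ℝ) × (ℝ × ℝ) |
        (g.mu w.1.1 * w.2.1) ^ 2 + K w ^ 2 * g.hh w.1.1 < K w ^ 2 * e1} :=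
      isOpen_lt ((((hmuc.comp hf1).mul continuous_snd.fst).pow 2).add
        ((hK.pow 2).mul (hhc.comp hf1))) ((hK.pow 2).mul continuous_const)
    exact o1.inter (o2.inter (o3.inter o4))
  have hWne : W.Nonempty := by
    have h1 : ∀ᶠ p in 𝓝[≠] x0, |p - x0| < r ∧ g.hh p < e1 := by
      apply Filter.Eventually.filter_mono nhdsWithin_le_nhds
      refine Filter.Eventually.and ?_ ?_
      · have : Continuous (fun p : ℝ => |p - x0|) := (continuous_id.sub continuous_const).abs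
        exact this.continuousAt.eventually_lt continuousAt_const (by simpa using hr)
      · exact hhc.continuousAt.eventually_lt continuousAt_const he
    obtain ⟨p, hp, hpne⟩ := (h1.and self_mem_nhdsWithin).exists
    refine ⟨((p, 0), (0, 1)), hpne, hp.1, ?_, ?_⟩
    · simp only [K, mul_zero, zero_add, mul_one]
      exact (g.pos_c p).ne'
    · simp only [K, mul_zero, zero_add, mul_one]
      have := g.pos_c p
      have h2 : g.c p ^ 2 * g.hh p < g.c p ^ 2 * e1 := by
        apply mul_lt_mul_of_pos_left hp.2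
        positivity
      simpa using h2
  obtain ⟨w, hwW, hwC⟩ := hD.inter_open_nonempty W hWo hWne
  obtain ⟨hw1, hw2, hw3, hw4⟩ := hwW
  obtain ⟨-, x, y, hgeo, hx, hy, hx', hy', T, hT, m, n, hxT, hyT, hxT', hyT'⟩ := hwC
  have hκ : K w = g.b (x 0) * deriv x 0 + g.c (x 0) * deriv y 0 := by
    rw [hx, hx', hy']
  have hxc : Continuous x := hgeo.1.continuous
  have hne : ∀ t, g.hh (x t) < e1 := by
    intro t
    have h1 := geo_energy hgeo hκ t
    rw [hx, hx'] at h1
    have h2 : K w ^ 2 * g.hh (x t) < K w ^ 2 * e1 := by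
      nlinarith [sq_nonneg (g.mu (x t) * deriv x t)]
    exact lt_of_mul_lt_mul_left h2 (sq_nonneg _)
  have hin : ∀ t, x t ∈ Ioo (x0 - r) (x0 + r) := by
    intro t
    have h0 : x 0 ∈ Ioo (x0 - r) (x0 + r) := by
      rw [hx]
      have := abs_lt.mp hw2
      exact ⟨by linarith [this.1], by linarith [this.2]⟩
    by_contra hcon
    have hcase : x t ≤ x0 - r ∨ x0 + r ≤ x t := by
      by_contra hc2
      push Not at hc2
      exact hcon ⟨hc2.1, hc2.2⟩
    rcases hcase with h | h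
    · have hmem : x0 - r ∈ uIcc (x 0) (x t) := by
        rw [uIcc_of_ge (h.trans h0.1.le)]
        exact ⟨h, h0.1.le⟩
      obtain ⟨s, -, hs⟩ := intermediate_value_uIcc (a := 0) (b := t) hxc.continuousOn hmem
      have h2 := hne s
      rw [hs] at h2
      exact absurd (min_le_left _ _) (not_le.mpr h2)
    · have hmem : x0 + r ∈ uIcc (x 0) (x t) := by
        rw [uIcc_of_le (h0.2.le.trans h)]
        exact ⟨h0.2.le, h⟩
      obtain ⟨s, -, hs⟩ := intermediate_value_uIcc (a := 0) (b := t) hxc.continuousOn hmem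
      have h2 := hne s
      rw [hs] at h2
      exact absurd (min_le_right _ _) (not_le.mpr h2)
  exact trapDyn_noclosed g hr hr' hc0 hω hσ hσ0 hc hirr hgeo hκ hw3 (by rw [hx]; exact hw1) hin hT
    (by rw [hxT, hx]) (by rw [hyT, hy]) (by rw [hxT', hx'])

end Pool.Agent.CGD
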